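import Mathlib
open Finset

namespace Pool.Agent.Helper29X1.ND

theorem sum_ineq {ι : Type*} [Fintype ι] [DecidableEq ι] (r : ι → ℝ) (a b : ι)
    (c : ℝ) (h0 : 0 < c) (h1 : c ≤ 1 / 2) :
    (∑ i, r i) ^ 2 - 2 * c * (r a * r b) ≤
      ((Fintype.card ι : ℝ) - c / (4 * Fintype.card ι)) * ∑ i, r i ^ 2 := by
  classical
  have hcard : 0 < Fintype.card ι := Fintype.card_pos_iff.2 ⟨a⟩
  set k : ℝ := (Fintype.card ι : ℝ) with hk
  have hk1 : 1 ≤ k := by rw [hk]; exact_mod_cast hcard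
  set s : ℝ := r a with hs
  set d : ι → ℝ := fun i => r i - s with hd
  have hr : ∀ i, r i = d i + s := fun i => by simp [hd]
  have hda : d a = 0 := by simp [hd, hs]
  have e1 : ∑ i, r i = ∑ i, d i + k * s := by
    simp only [hr]
    rw [sum_add_distrib, sum_const, card_univ, nsmul_eq_mul]
  have e2 : ∑ i, r i ^ 2 = ∑ i, d i ^ 2 + 2 * s * ∑ i, d i + k * s ^ 2 := by
    have : ∀ i, r i ^ 2 = d i ^ 2 + 2 * s * d i + s ^ 2 := fun i => by rw [hr]; ring
    simp only [this]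
    rw [sum_add_distrib, sum_add_distrib, sum_const, card_univ, nsmul_eq_mul, mul_sum]
  have e3 : (∑ i, d i) ^ 2 ≤ (k - 1) * ∑ i, d i ^ 2 := by
    have h2 : ∑ i, d i = ∑ i ∈ univ.erase a, d i := by
      rw [← add_sum_erase _ _ (mem_univ a), hda, zero_add]
    have h3 : ∑ i, d i ^ 2 = ∑ i ∈ univ.erase a, d i ^ 2 := by
      rw [← add_sum_erase _ _ (mem_univ a), hda]; simp
    rw [h2, h3]
    have h4 := sq_sum_le_card_mul_sum_sq (s := univ.erase a) (f := d)
    have h5 : ((univ.erase a).card : ℝ) = k - 1 := by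
      rw [card_erase_of_mem (mem_univ a), card_univ, Nat.cast_sub hcard, Nat.cast_one]
    rw [h5] at h4
    exact h4
  have hD0 : 0 ≤ ∑ i, d i ^ 2 := sum_nonneg fun i _ => sq_nonneg _
  have e4 : d b ^ 2 ≤ ∑ i, d i ^ 2 :=
    single_le_sum (f := fun i => d i ^ 2) (fun i _ => sq_nonneg _) (mem_univ b)
  have e5 : 2 * s * d b ≥ -(s ^ 2 + d b ^ 2) := by nlinarith [sq_nonneg (s + d b)]
  have e6 : (∑ i, d i) ^ 2 ≤ k * ∑ i, d i ^ 2 := by nlinarith
  have e7 : ∑ i, r i ^ 2 ≤ 2 * ∑ i, d i ^ 2 + 2 * k * s ^ 2 := by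
    have : ∀ i, r i ^ 2 ≤ 2 * d i ^ 2 + 2 * s ^ 2 := fun i => by
      rw [hr]; nlinarith [sq_nonneg (d i - s)]
    calc ∑ i, r i ^ 2 ≤ ∑ i, (2 * d i ^ 2 + 2 * s ^ 2) := sum_le_sum fun i _ => this i
      _ = _ := by
        rw [sum_add_distrib, ← mul_sum, sum_const, card_univ, nsmul_eq_mul]
        ring
  have hR0 : 0 ≤ ∑ i, r i ^ 2 := sum_nonneg fun i _ => sq_nonneg _
  have e8 : c / (4 * k) * ∑ i, r i ^ 2 ≤ 1 / 2 * ∑ i, d i ^ 2 + c * s ^ 2 := by
    have h6 : c / (4 * k) * ∑ i, r i ^ 2 ≤ c / (4 * k) * (2 * ∑ i, d i ^ 2 + 2 * k * s ^ 2) :=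
      mul_le_mul_of_nonneg_left e7 (by positivity)
    refine h6.trans ?_
    have h7 : c / (4 * k) * (2 * ∑ i, d i ^ 2 + 2 * k * s ^ 2)
        = c / (2 * k) * ∑ i, d i ^ 2 + c / 2 * s ^ 2 := by
      field_simp
      ring
    rw [h7]
    have h8 : c / (2 * k) ≤ 1 / 2 := by
      rw [div_le_iff₀ (by positivity)]
      nlinarith
    have h9 := mul_le_mul_of_nonneg_right h8 hD0
    nlinarith [sq_nonneg s]
  have hb : r a * r b = s ^ 2 + s * d b := by rw [hr b, hs]; ring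
  have key : (∑ i, r i) ^ 2 - k * ∑ i, r i ^ 2 ≤ -∑ i, d i ^ 2 := by
    rw [e1, e2]
    nlinarith
  have : 2 * c * (r a * r b) ≥ c * s ^ 2 - c * ∑ i, d i ^ 2 := by
    rw [hb]
    have h10 := mul_le_mul_of_nonneg_left e5 h0.le
    have h11 := mul_le_mul_of_nonneg_left e4 h0.le
    nlinarith
  have h12 : c * ∑ i, d i ^ 2 ≤ 1 / 2 * ∑ i, d i ^ 2 := mul_le_mul_of_nonneg_right h1 hD0
  rw [sub_mul]
  linarith

theorem corr_bound {ι : Type*} [Fintype ι] [DecidableEq ι] (Λ c₀ : ℝ) (hΛ : 0 < Λ)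
    (hc₀ : 0 < c₀) :
    ∃ c : ℝ, 0 < c ∧ ∀ (γ : ι → ℝ) (G : ι → ι → ℂ), (∀ i, 0 ≤ γ i) → (∀ i, γ i ≤ Λ) →
      (∀ i, G i i = (γ i : ℂ)) → (∀ i j, G j i = starRingEnd ℂ (G i j)) →
      (∀ i j, ‖G i j‖ ^ 2 ≤ γ i * γ j) →
      c₀ ≤ ∑ i, ∑ j, (γ i * γ j - ‖G i j‖ ^ 2) → ∀ x : ι → ℂ,
      (∑ i, ∑ j, starRingEnd ℂ (x i) * x j * G i j).re ≤
        ((Fintype.card ι : ℝ) - c) * ∑ i, γ i * ‖x i‖ ^ 2 := by
  classical
  by_cases hne : IsEmpty ι
  · exact ⟨1, one_pos, fun γ G _ _ _ _ _ h => absurd h (by simp [hc₀])⟩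
  rw [not_isEmpty_iff] at hne
  set k : ℝ := (Fintype.card ι : ℝ) with hk
  have hk0 : 0 < k := by rw [hk]; exact_mod_cast Fintype.card_pos
  set c1 : ℝ := min (1 / 2) (c₀ / (2 * k ^ 2 * Λ ^ 2)) with hc1
  have hc1p : 0 < c1 := lt_min (by norm_num) (by positivity)
  have hc1a : c1 ≤ 1 / 2 := min_le_left _ _
  have hc1b : c1 ≤ c₀ / (2 * k ^ 2 * Λ ^ 2) := min_le_right _ _
  refine ⟨c1 / (4 * k), by positivity, ?_⟩
  intro γ G hγ0 hγΛ hdiag hherm hcs hsum x
  obtain ⟨a, b, hab⟩ : ∃ a b, c₀ / k ^ 2 ≤ γ a * γ b - ‖G a b‖ ^ 2 := by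
    by_contra hcon
    push Not at hcon
    have h1 : ∑ i, ∑ j, (γ i * γ j - ‖G i j‖ ^ 2) < ∑ i : ι, ∑ j : ι, c₀ / k ^ 2 := by
      apply sum_lt_sum_of_nonempty univ_nonempty
      intro i _
      apply sum_lt_sum_of_nonempty univ_nonempty
      intro j _
      exact hcon i j
    rw [sum_const, sum_const, card_univ, nsmul_eq_mul, nsmul_eq_mul, ← hk] at h1
    have h2 : k * (k * (c₀ / k ^ 2)) = c₀ := by field_simp
    linarith
  have hane : a ≠ b := by
    rintro rfl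
    rw [hdiag, Complex.norm_real, Real.norm_eq_abs, sq_abs] at hab
    have : 0 < c₀ / k ^ 2 := by positivity
    nlinarith
  set r : ι → ℝ := fun i => Real.sqrt (γ i) * ‖x i‖ with hr
  have hr0 : ∀ i, 0 ≤ r i := fun i => mul_nonneg (Real.sqrt_nonneg _) (norm_nonneg _)
  have hGle : ∀ i j, ‖G i j‖ ≤ Real.sqrt (γ i) * Real.sqrt (γ j) := by
    intro i j
    rw [← Real.sqrt_mul (hγ0 i)]
    exact Real.le_sqrt_of_sq_le (hcs i j)
  have hGab : ‖G a b‖ ≤ (1 - c1) * (Real.sqrt (γ a) * Real.sqrt (γ b)) := by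
    have hm : 0 ≤ 1 - c1 := by linarith
    apply abs_le_of_sq_le_sq' _ (by positivity) |>.2
    rw [mul_pow, mul_pow, Real.sq_sqrt (hγ0 a), Real.sq_sqrt (hγ0 b)]
    have h3 : γ a * γ b ≤ Λ ^ 2 := by
      rw [sq]; exact mul_le_mul (hγΛ a) (hγΛ b) (hγ0 b) hΛ.le
    have h4 : 0 ≤ γ a * γ b := mul_nonneg (hγ0 a) (hγ0 b)
    have h5 : 2 * c1 * (γ a * γ b) ≤ c₀ / k ^ 2 := by
      calc 2 * c1 * (γ a * γ b) ≤ 2 * (c₀ / (2 * k ^ 2 * Λ ^ 2)) * Λ ^ 2 := by
            apply mul_le_mul _ h3 h4 (by positivity)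
            linarith
        _ = c₀ / k ^ 2 := by field_simp
    nlinarith [sq_nonneg c1, mul_nonneg (sq_nonneg c1) h4]
  have hGba : ‖G b a‖ ≤ (1 - c1) * (Real.sqrt (γ b) * Real.sqrt (γ a)) := by
    rw [hherm a b, RCLike.norm_conj, mul_comm (Real.sqrt (γ b))]
    exact hGab
  have hterm : ∀ i j, (starRingEnd ℂ (x i) * x j * G i j).re ≤
      r i * r j - (if i = a then (if j = b then c1 * (r a * r b) else 0) else 0)
        - (if i = b then (if j = a then c1 * (r a * r b) else 0) else 0) := by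
    intro i j
    have h6 : (starRingEnd ℂ (x i) * x j * G i j).re ≤ ‖x i‖ * ‖x j‖ * ‖G i j‖ := by
      refine (Complex.re_le_norm _).trans (le_of_eq ?_)
      rw [norm_mul, norm_mul, RCLike.norm_conj]
    have hxx : 0 ≤ ‖x i‖ * ‖x j‖ := by positivity
    by_cases hia : i = a
    · subst hia
      rw [if_pos rfl, if_neg hane, sub_zero]
      by_cases hjb : j = b
      · subst hjb
        rw [if_pos rfl]
        have := mul_le_mul_of_nonneg_left hGab hxx
        refine h6.trans (this.trans (le_of_eq ?_))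
        simp only [hr]
        ring
      · rw [if_neg hjb, sub_zero]
        have := mul_le_mul_of_nonneg_left (hGle i j) hxx
        refine h6.trans (this.trans (le_of_eq ?_))
        simp only [hr]
        ring
    · rw [if_neg hia, sub_zero]
      by_cases hib : i = b
      · subst hib
        rw [if_pos rfl]
        by_cases hja : j = a
        · subst hja
          rw [if_pos rfl]
          have := mul_le_mul_of_nonneg_left hGba hxx
          refine h6.trans (this.trans (le_of_eq ?_))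
          simp only [hr]
          ring
        · rw [if_neg hja, sub_zero]
          have := mul_le_mul_of_nonneg_left (hGle i j) hxx
          refine h6.trans (this.trans (le_of_eq ?_))
          simp only [hr]
          ring
      · rw [if_neg hib, sub_zero]
        have := mul_le_mul_of_nonneg_left (hGle i j) hxx
        refine h6.trans (this.trans (le_of_eq ?_))
        simp only [hr]
        ring
  have hfin : (∑ i, ∑ j, starRingEnd ℂ (x i) * x j * G i j).re ≤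
      (∑ i, r i) ^ 2 - 2 * c1 * (r a * r b) := by
    rw [Complex.re_sum]
    simp only [Complex.re_sum]
    refine (sum_le_sum fun i _ => sum_le_sum fun j _ => hterm i j).trans (le_of_eq ?_)
    simp only [sum_sub_distrib]
    have q1 : ∑ i, ∑ j, r i * r j = (∑ i, r i) ^ 2 := by
      rw [sq, sum_mul_sum]
    have q2 : ∀ p q : ι, (∑ i, ∑ j, if i = p then (if j = q then c1 * (r a * r b) else 0) else 0)
        = c1 * (r a * r b) := by
      intro p q
      rw [sum_eq_single p]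
      · simp
      · intro i _ hi
        simp [hi]
      · simp
    rw [q1, q2, q2]
    ring
  refine hfin.trans ((sum_ineq r a b c1 hc1p hc1a).trans (le_of_eq ?_))
  congr 1
  apply sum_congr rfl
  intro i _
  simp only [hr]
  rw [mul_pow, Real.sq_sqrt (hγ0 i)]

end Pool.Agent.Helper29X1.ND
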