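import Mathlib
import Pool.Agent.Helper774.Final2
import Pool.Agent.Helper29X1.ND.Corr
open Matrix Finset
open scoped ComplexOrder

namespace Pool.Agent.Helper29X1.ND

open Pool.Agent.Helper774

/-- the support function of the numerical range -/
noncomputable def supp {ι : Type*} [Fintype ι] (A : Matrix ι ι ℂ) (z : ℂ) : ℝ :=
  sSup ((fun p : ℂ => (z * p).re) '' MW A)

theorem MW_nonempty {ι : Type*} [Fintype ι] [Nonempty ι] (A : Matrix ι ι ℂ) :
    (MW A).Nonempty := by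
  classical
  obtain ⟨i⟩ := (inferInstance : Nonempty ι)
  have h : (Pi.single i (1 : ℂ) : ι → ℂ) ≠ 0 := by
    intro h
    have := congrFun h i
    simp at this
  exact ⟨_, mem_MW_of_ne_zero A _ h⟩

theorem supp_bdd {ι : Type*} [Fintype ι] (A : Matrix ι ι ℂ) (z : ℂ) :
    BddAbove ((fun p : ℂ => (z * p).re) '' MW A) := by
  apply ((MW_isCompact A).image _).bddAbove
  exact Complex.continuous_re.comp (continuous_const.mul continuous_id)

theorem le_supp {ι : Type*} [Fintype ι] (A : Matrix ι ι ℂ) (z p : ℂ) (hp : p ∈ MW A) :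
    (z * p).re ≤ supp A z :=
  le_csSup (supp_bdd A z) ⟨p, hp, rfl⟩

theorem supp_le {ι : Type*} [Fintype ι] [Nonempty ι] (A : Matrix ι ι ℂ) (z : ℂ) (c : ℝ)
    (h : ∀ p ∈ MW A, (z * p).re ≤ c) : supp A z ≤ c := by
  apply csSup_le ((MW_nonempty A).image _)
  rintro _ ⟨p, hp, rfl⟩
  exact h p hp

theorem supp_continuous {ι : Type*} [Fintype ι] (A : Matrix ι ι ℂ) : Continuous (supp A) := by
  have h := (MW_isCompact A).continuous_sSup (f := fun z p : ℂ => (z * p).re)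
    (by
      apply Complex.continuous_re.comp
      exact continuous_fst.mul continuous_snd)
  exact h

theorem quad_le_supp {ι : Type*} [Fintype ι] (A : Matrix ι ι ℂ) (z : ℂ) (x : ι → ℂ) :
    (z * (star x ⬝ᵥ (A *ᵥ x))).re ≤ supp A z * (star x ⬝ᵥ x).re := by
  have h := re_quad_le_of_MW (z • A) (supp A z) (by
    rintro p ⟨y, hy, rfl⟩
    rw [Matrix.smul_mulVec, dotProduct_smul, smul_eq_mul]
    exact le_supp A z _ ⟨y, hy, rfl⟩) x
  rw [Matrix.smul_mulVec, dotProduct_smul, smul_eq_mul] at h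
  exact h

theorem dot_eq_re {ι : Type*} [Fintype ι] (x : ι → ℂ) :
    star x ⬝ᵥ x = (((star x ⬝ᵥ x).re : ℝ) : ℂ) := by
  apply Complex.ext
  · simp
  · simp [dot_self_im]

/-- the positive semidefinite matrix `h(z) - Re (z A)` -/
noncomputable def NN {ι : Type*} [Fintype ι] [DecidableEq ι] (A : Matrix ι ι ℂ) (z : ℂ) :
    Matrix ι ι ℂ :=
  ((supp A z : ℝ) : ℂ) • (1 : Matrix ι ι ℂ) - Hu A z

theorem NN_quad {ι : Type*} [Fintype ι] [DecidableEq ι] (A : Matrix ι ι ℂ) (z : ℂ) (x : ι → ℂ) :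
    star x ⬝ᵥ (NN A z *ᵥ x) =
      ((supp A z * (star x ⬝ᵥ x).re - (z * (star x ⬝ᵥ (A *ᵥ x))).re : ℝ) : ℂ) := by
  rw [NN, Matrix.sub_mulVec, dotProduct_sub, quad_Hu, Matrix.smul_mulVec, Matrix.one_mulVec,
    dotProduct_smul, smul_eq_mul, dot_eq_re x, ← Complex.ofReal_mul, ← Complex.ofReal_sub,
    Complex.ofReal_re]

theorem NN_psd {ι : Type*} [Fintype ι] [DecidableEq ι] (A : Matrix ι ι ℂ) (z : ℂ) :
    (NN A z).PosSemidef := by
  apply Matrix.PosSemidef.of_dotProduct_mulVec_nonneg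
  · apply Matrix.IsHermitian.sub _ (Hu_isHermitian A z)
    unfold Matrix.IsHermitian
    rw [conjTranspose_smul, conjTranspose_one]
    simp
  · intro y
    rw [NN_quad]
    exact_mod_cast sub_nonneg.mpr (quad_le_supp A z y)

theorem NN_entry {ι : Type*} [Fintype ι] [DecidableEq ι] (A : Matrix ι ι ℂ) (z : ℂ)
    (x y : ι → ℂ) :
    star x ⬝ᵥ (NN A z *ᵥ y) = (supp A z : ℂ) * (star x ⬝ᵥ y) -
      1 / 2 * (z * (star x ⬝ᵥ (A *ᵥ y)) + starRingEnd ℂ (z * (star y ⬝ᵥ (A *ᵥ x)))) := by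
  rw [NN, Matrix.sub_mulVec, dotProduct_sub, Matrix.smul_mulVec, Matrix.one_mulVec,
    dotProduct_smul, smul_eq_mul, Hu, Matrix.smul_mulVec, Matrix.add_mulVec, dotProduct_smul,
    dotProduct_add, smul_eq_mul, Matrix.smul_mulVec, dotProduct_smul, smul_eq_mul]
  congr 3
  rw [quad_conjTranspose, Matrix.smul_mulVec, dotProduct_smul, smul_eq_mul]

/-- Cauchy-Schwarz -/
theorem cs {ι : Type*} [Fintype ι] (x y : ι → ℂ) :
    ‖star x ⬝ᵥ y‖ ^ 2 ≤ (star x ⬝ᵥ x).re * (star y ⬝ᵥ y).re := by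
  have e : ∀ p q : ι → ℂ, star p ⬝ᵥ q =
      inner ℂ (WithLp.toLp 2 p : EuclideanSpace ℂ ι) (WithLp.toLp 2 q) := by
    intro p q
    rw [EuclideanSpace.inner_eq_star_dotProduct, dotProduct_comm]
  have h1 : ∀ p : ι → ℂ, (star p ⬝ᵥ p).re = ‖(WithLp.toLp 2 p : EuclideanSpace ℂ ι)‖ ^ 2 := by
    intro p
    rw [e, inner_self_eq_norm_sq_to_K]
    norm_cast
  rw [h1, h1, e, ← mul_pow]
  exact pow_le_pow_left₀ (norm_nonneg _) (norm_inner_le_norm _ _) 2

theorem psd_cs {ι : Type*} [Fintype ι] [DecidableEq ι] {M : Matrix ι ι ℂ} (hM : M.PosSemidef)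
    (x y : ι → ℂ) :
    ‖star x ⬝ᵥ (M *ᵥ y)‖ ^ 2 ≤ (star x ⬝ᵥ (M *ᵥ x)).re * (star y ⬝ᵥ (M *ᵥ y)).re := by
  obtain ⟨B, rfl⟩ := exists_factor_psd M hM
  have e : ∀ p q : ι → ℂ, star p ⬝ᵥ ((Bᴴ * B) *ᵥ q) = star (B *ᵥ p) ⬝ᵥ (B *ᵥ q) := by
    intro p q
    rw [Matrix.star_mulVec, ← Matrix.dotProduct_mulVec, Matrix.mulVec_mulVec]
  rw [e, e, e]
  exact cs _ _

/-- a pair of forms is a compression of the pair of forms attached to `A` -/
theorem forms_dil {ι : Type*} [Fintype ι] [DecidableEq ι] [Nonempty ι] {k : ℕ}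
    (A : Matrix ι ι ℂ) (hA : FinPropD A)
    (P S : Matrix (Fin k) (Fin k) ℂ) (hP : P.PosDef)
    (hS : ∀ z : ℂ, ‖z‖ = 1 → ∀ x : Fin k → ℂ,
      (z * (star x ⬝ᵥ (S *ᵥ x))).re ≤ supp A z * (star x ⬝ᵥ (P *ᵥ x)).re) :
    ∃ (N : ℕ) (X : Fin N → Fin k → ι → ℂ),
      (∀ a b, ∑ p, star (X p a) ⬝ᵥ (X p b) = P a b) ∧
      (∀ a b, ∑ p, star (X p a) ⬝ᵥ (A *ᵥ (X p b)) = S a b) := by
  obtain ⟨B, hB⟩ := exists_factor_psd P hP.posSemidef
  have hdet : IsUnit B.det := by
    have h1 : IsUnit P.det := hP.isUnit.map Matrix.detMonoidHom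
    rw [hB, Matrix.det_mul] at h1
    exact isUnit_of_mul_isUnit_right h1
  have hBi : B * B⁻¹ = 1 := Matrix.mul_nonsing_inv B hdet
  have hiB : B⁻¹ * B = 1 := Matrix.nonsing_inv_mul B hdet
  set T : Matrix (Fin k) (Fin k) ℂ := (B⁻¹)ᴴ * S * B⁻¹ with hT
  have hST : S = Bᴴ * T * B := by
    rw [hT]
    calc S = (Bᴴ * (B⁻¹)ᴴ) * S * (B⁻¹ * B) := by
          rw [hiB, ← conjTranspose_mul, hiB]; simp
      _ = _ := by simp only [Matrix.mul_assoc]
  have hTA : MW T ⊆ MW A := by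
    rintro z ⟨y, hy, hz⟩
    obtain ⟨x, hyx⟩ : ∃ x : Fin k → ℂ, y = B *ᵥ x :=
      ⟨B⁻¹ *ᵥ y, by rw [Matrix.mulVec_mulVec, hBi, Matrix.one_mulVec]⟩
    have e1 : ∀ M : Matrix (Fin k) (Fin k) ℂ, star (B *ᵥ x) ⬝ᵥ (M *ᵥ (B *ᵥ x)) =
        star x ⬝ᵥ ((Bᴴ * M * B) *ᵥ x) := by
      intro M
      rw [Matrix.star_mulVec, ← Matrix.dotProduct_mulVec, Matrix.mulVec_mulVec,
        Matrix.mulVec_mulVec, Matrix.mul_assoc]
    have hPx : star x ⬝ᵥ (P *ᵥ x) = 1 := by
      have := e1 1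
      rw [Matrix.one_mulVec, Matrix.mul_one, ← hyx, hy, ← hB] at this
      exact this.symm
    have hSx : star x ⬝ᵥ (S *ᵥ x) = z := by
      have := e1 T
      rw [← hyx, hz, ← hST] at this
      exact this.symm
    by_contra hzA
    obtain ⟨v, hv⟩ := exists_sep A z hzA
    have hv0 : v ≠ 0 := by
      rintro rfl
      obtain ⟨q, hq⟩ := MW_nonempty A
      have := hv q hq
      simp at this
    have hvn : 0 < ‖v‖ := norm_pos_iff.mpr hv0
    set w : ℂ := ((‖v‖⁻¹ : ℝ) : ℂ) * v with hw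
    have hwn : ‖w‖ = 1 := by
      rw [hw, norm_mul, Complex.norm_real, norm_inv, norm_norm, inv_mul_cancel₀ hvn.ne']
    have hwz : ∀ q : ℂ, (w * q).re = ‖v‖⁻¹ * (v * q).re := by
      intro q
      rw [hw, mul_assoc, Complex.re_ofReal_mul]
    obtain ⟨q, hq, hqs⟩ : ∃ q ∈ MW A, (w * q).re = supp A w := by
      obtain ⟨q, hq, hmax⟩ := (MW_isCompact A).exists_isMaxOn (MW_nonempty A)
        (f := fun q : ℂ => (w * q).re)
        (Complex.continuous_re.comp (continuous_const.mul continuous_id)).continuousOn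
      exact ⟨q, hq, le_antisymm (le_supp A w q hq) (supp_le A w _ fun p hp => hmax hp)⟩
    have h2 := hS w hwn x
    rw [hSx, hPx, Complex.one_re, mul_one, ← hqs, hwz, hwz] at h2
    have h3 := hv q hq
    have h4 := mul_lt_mul_of_pos_left h3 (inv_pos.mpr hvn)
    linarith
  obtain ⟨N, R, h1, h2⟩ := hA k T hTA
  refine ⟨N, fun p b i => ∑ a, R p i a * B a b, ?_, ?_⟩
  · intro a b
    rw [hB, Matrix.mul_apply]
    have e : ∀ p, star (fun i => ∑ c, R p i c * B c a) ⬝ᵥ (fun i => ∑ c, R p i c * B c b)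
        = ∑ i, ∑ c, ∑ d, (starRingEnd ℂ (B c a) * B d b) *
          (starRingEnd ℂ (R p i c) * R p i d) := by
      intro p
      rw [dotProduct]
      apply Finset.sum_congr rfl
      intro i _
      rw [Pi.star_apply, Complex.star_def, map_sum, sum_mul]
      apply Finset.sum_congr rfl
      intro c _
      rw [mul_sum]
      apply Finset.sum_congr rfl
      intro d _
      rw [map_mul]
      ring
    simp only [e]
    have e2 : ∑ p, ∑ i, ∑ c, ∑ d, (starRingEnd ℂ (B c a) * B d b) *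
          (starRingEnd ℂ (R p i c) * R p i d)
        = ∑ c, ∑ d, (starRingEnd ℂ (B c a) * B d b) *
          ∑ p, ∑ i, (starRingEnd ℂ (R p i c) * R p i d) := by
      simp only [mul_sum]
      rw [Finset.sum_congr rfl (fun p _ => Finset.sum_comm)]
      rw [Finset.sum_comm]
      apply Finset.sum_congr rfl
      intro c _
      rw [Finset.sum_congr rfl (fun p _ => Finset.sum_comm)]
      rw [Finset.sum_comm]
    rw [e2]
    simp only [h1]
    apply Finset.sum_congr rfl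
    intro c _
    rw [Finset.sum_eq_single c]
    · simp
    · intro d _ hd
      rw [if_neg (Ne.symm hd), mul_zero]
    · simp
  · intro a b
    have e : ∀ p, star (fun i => ∑ c, R p i c * B c a) ⬝ᵥ
        (A *ᵥ (fun i => ∑ c, R p i c * B c b))
        = ∑ i, ∑ j, ∑ c, ∑ d, (starRingEnd ℂ (B c a) * B d b) *
          (A i j * (starRingEnd ℂ (R p i c) * R p j d)) := by
      intro p
      rw [dotProduct]
      apply Finset.sum_congr rfl
      intro i _
      rw [Matrix.mulVec, dotProduct, mul_sum]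
      apply Finset.sum_congr rfl
      intro j _
      rw [Pi.star_apply, Complex.star_def, map_sum, mul_sum, sum_mul]
      apply Finset.sum_congr rfl
      intro c _
      rw [mul_sum]
      apply Finset.sum_congr rfl
      intro d _
      rw [map_mul]
      ring
    simp only [e]
    have e2 : ∑ p, ∑ i, ∑ j, ∑ c, ∑ d, (starRingEnd ℂ (B c a) * B d b) *
          (A i j * (starRingEnd ℂ (R p i c) * R p j d))
        = ∑ c, ∑ d, (starRingEnd ℂ (B c a) * B d b) *
          ∑ p, ∑ i, ∑ j, A i j * (starRingEnd ℂ (R p i c) * R p j d) := by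
      simp only [mul_sum]
      have s1 : ∀ p : Fin N, ∑ i, ∑ j, ∑ c, ∑ d, (starRingEnd ℂ (B c a) * B d b) *
          (A i j * (starRingEnd ℂ (R p i c) * R p j d))
          = ∑ c, ∑ d, ∑ i, ∑ j, (starRingEnd ℂ (B c a) * B d b) *
          (A i j * (starRingEnd ℂ (R p i c) * R p j d)) := by
        intro p
        rw [Finset.sum_congr rfl (fun i _ => Finset.sum_comm)]
        rw [Finset.sum_comm]
        apply Finset.sum_congr rfl
        intro c _
        rw [Finset.sum_congr rfl (fun i _ => Finset.sum_comm)]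
        rw [Finset.sum_comm]
      rw [Finset.sum_congr rfl (fun p _ => s1 p)]
      rw [Finset.sum_comm]
      apply Finset.sum_congr rfl
      intro c _
      rw [Finset.sum_comm]
    rw [e2]
    simp only [h2]
    rw [hST, Matrix.mul_apply, Finset.sum_comm]
    apply Finset.sum_congr rfl
    intro d _
    rw [Matrix.mul_apply, sum_mul]
    apply Finset.sum_congr rfl
    intro c _
    rw [conjTranspose_apply, Complex.star_def]
    ring

end Pool.Agent.Helper29X1.ND
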