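import Mathlib
import Pool.Agent.Helper29X1.ND.Neg
open Matrix Finset
open scoped ComplexOrder

namespace Pool.Agent.Helper29X1.ND

open Pool.Agent.Helper774

theorem contact {ι : Type*} [Fintype ι] [DecidableEq ι] {N k : ℕ} {A : Matrix ι ι ℂ}
    {X : Fin N → Fin k → ι → ℂ} {P S : Matrix (Fin k) (Fin k) ℂ}
    (hX1 : ∀ a b, ∑ p, star (X p a) ⬝ᵥ (X p b) = P a b)
    (hX2 : ∀ a b, ∑ p, star (X p a) ⬝ᵥ (A *ᵥ (X p b)) = S a b) {w : ℂ} {u : ι → ℂ}
    (hu : STop A w u) (i : Fin k) (hP : P i i = star u ⬝ᵥ u)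
    (hS : S i i = star u ⬝ᵥ (A *ᵥ u)) (p : Fin N) : ∃ η : ℂ, X p i = η • u := by
  have h1 : ∀ p, 0 ≤ (star (X p i) ⬝ᵥ (NN A w *ᵥ X p i)).re := fun p =>
    (Complex.le_def.mp ((NN_psd A w).dotProduct_mulVec_nonneg _)).1
  have h2 : ∑ p, (star (X p i) ⬝ᵥ (NN A w *ᵥ X p i)).re = 0 := by
    simp only [NN_quad, Complex.ofReal_re]
    rw [sum_sub_distrib, ← mul_sum, ← Complex.re_sum, ← Complex.re_sum, ← mul_sum, hX1, hX2,
      hP, hS]
    have := (hu.2 u).mpr ⟨1, by simp⟩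
    linarith
  have h3 := (sum_eq_zero_iff_of_nonneg (fun p _ => h1 p)).mp h2 p (mem_univ p)
  have h4 : NN A w *ᵥ X p i = 0 := by
    rw [← (NN_psd A w).dotProduct_mulVec_zero_iff]
    apply Complex.ext
    · exact h3
    · rw [NN_quad]
      simp
  exact (hu.ker _).mp h4

theorem supp_lip {ι : Type*} [Fintype ι] [Nonempty ι] (A : Matrix ι ι ℂ) :
    ∃ R : ℝ, 0 ≤ R ∧ ∀ z z' : ℂ, |supp A z - supp A z'| ≤ R * ‖z - z'‖ := by
  obtain ⟨R, hR⟩ := (MW_isCompact A).isBounded.exists_norm_le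
  have hR0 : 0 ≤ R := by
    obtain ⟨p, hp⟩ := MW_nonempty A
    exact (norm_nonneg _).trans (hR p hp)
  have h1 : ∀ z z' : ℂ, supp A z ≤ supp A z' + R * ‖z - z'‖ := by
    intro z z'
    apply supp_le
    intro p hp
    have e : (z * p).re = (z' * p).re + ((z - z') * p).re := by
      rw [← Complex.add_re]
      congr 1
      ring
    rw [e]
    have h2 := le_supp A z' p hp
    have h3 : ((z - z') * p).re ≤ R * ‖z - z'‖ := by
      refine (Complex.re_le_norm _).trans ?_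
      rw [norm_mul, mul_comm]
      exact mul_le_mul_of_nonneg_right (hR p hp) (norm_nonneg _)
    linarith
  refine ⟨R, hR0, ?_⟩
  intro z z'
  rw [abs_le]
  have h2 := h1 z z'
  have h3 := h1 z' z
  rw [norm_sub_rev] at h3
  constructor <;> linarith

theorem exists_q (s1 s2 : ℝ) (w1 w2 : ℂ) (h1 : ‖w1‖ = 1) (h2 : ‖w2‖ = 1) :
    ∃ (π : ℝ) (q : ℂ), (π ≠ 0 ∨ q ≠ 0) ∧ (w1 * q).re = π * s1 ∧ (w2 * q).re = π * s2 := by
  have e1 : w1 * starRingEnd ℂ w1 = 1 := by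
    rw [Complex.mul_conj, Complex.normSq_eq_norm_sq, h1]; simp
  have e2 : w2 * starRingEnd ℂ w2 = 1 := by
    rw [Complex.mul_conj, Complex.normSq_eq_norm_sq, h2]; simp
  by_cases hD : (w1 * starRingEnd ℂ w2).im = 0
  · -- antipodal
    have h3 : w1 * starRingEnd ℂ w2 = (((w1 * starRingEnd ℂ w2).re : ℝ) : ℂ) := by
      apply Complex.ext
      · simp
      · simp only [Complex.ofReal_im]
        exact hD
    set r : ℝ := (w1 * starRingEnd ℂ w2).re with hr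
    have h4 : w1 = (r : ℂ) * w2 := by
      rw [← h3, mul_assoc, mul_comm (starRingEnd ℂ w2), e2, mul_one]
    refine ⟨0, Complex.I * starRingEnd ℂ w2, Or.inr ?_, ?_, ?_⟩
    · intro h
      have : ‖Complex.I * starRingEnd ℂ w2‖ = 1 := by
        rw [norm_mul, Complex.norm_I, RCLike.norm_conj, h2, one_mul]
      rw [h] at this
      simp at this
    · rw [h4]
      have : (r : ℂ) * w2 * (Complex.I * starRingEnd ℂ w2) = (r : ℂ) * Complex.I := by
        linear_combination (r : ℂ) * Complex.I * e2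
      rw [this]
      simp
    · have : w2 * (Complex.I * starRingEnd ℂ w2) = Complex.I := by
        linear_combination Complex.I * e2
      rw [this]
      simp
  · obtain ⟨D, hDe⟩ : ∃ D : ℝ, D = (w1 * starRingEnd ℂ w2).im := ⟨_, rfl⟩
    rw [← hDe] at hD
    have f1 : (w1 * (Complex.I * starRingEnd ℂ w2)).re = -D := by
      rw [hDe, show w1 * (Complex.I * starRingEnd ℂ w2) = Complex.I * (w1 * starRingEnd ℂ w2) by
        ring, Complex.I_mul_re]
    have f2 : (w2 * (Complex.I * starRingEnd ℂ w1)).re = D := by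
      rw [hDe, show w2 * (Complex.I * starRingEnd ℂ w1) =
        Complex.I * starRingEnd ℂ (w1 * starRingEnd ℂ w2) by
          rw [map_mul, Complex.conj_conj]; ring, Complex.I_mul_re, Complex.conj_im, neg_neg]
    have f3 : (w1 * (Complex.I * starRingEnd ℂ w1)).re = 0 := by
      rw [show w1 * (Complex.I * starRingEnd ℂ w1) = Complex.I by
        linear_combination Complex.I * e1]
      simp
    have f4 : (w2 * (Complex.I * starRingEnd ℂ w2)).re = 0 := by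
      rw [show w2 * (Complex.I * starRingEnd ℂ w2) = Complex.I by
        linear_combination Complex.I * e2]
      simp
    refine ⟨1, ((s2 / D : ℝ) : ℂ) * (Complex.I * starRingEnd ℂ w1) +
      ((-s1 / D : ℝ) : ℂ) * (Complex.I * starRingEnd ℂ w2), Or.inl one_ne_zero, ?_, ?_⟩
    · rw [mul_add, mul_left_comm, mul_left_comm w1 ((-s1 / D : ℝ) : ℂ), Complex.add_re,
        Complex.re_ofReal_mul, Complex.re_ofReal_mul, f3, f1]
      field_simp
      ring
    · rw [mul_add, mul_left_comm, mul_left_comm w2 ((-s1 / D : ℝ) : ℂ), Complex.add_re,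
        Complex.re_ofReal_mul, Complex.re_ofReal_mul, f2, f4]
      field_simp
      ring

/-- the boundary point of `u` lies on a disc inside the numerical range -/
def Reg {ι : Type*} [Fintype ι] [DecidableEq ι] (A : Matrix ι ι ℂ) (w : ℂ) (u : ι → ℂ) : Prop :=
  ∃ κ : ℝ, 0 < κ ∧ ∀ z : ℂ, ‖z‖ = 1 → κ * ‖z - w‖ ^ 2 ≤ (star u ⬝ᵥ (NN A z *ᵥ u)).re

theorem two_form {a b e x y t : ℝ} (ha : 0 ≤ a) (hb : 0 ≤ b)
    (he : e ^ 2 ≤ a * b) (ht : |t| ≤ x * y) : 0 ≤ a * x ^ 2 + b * y ^ 2 + 2 * e * t := by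
  have h1 : |e * t| ≤ Real.sqrt (a * b) * (x * y) := by
    rw [abs_mul]
    apply mul_le_mul _ ht (abs_nonneg _) (Real.sqrt_nonneg _)
    rw [← Real.sqrt_sq_eq_abs]
    exact Real.sqrt_le_sqrt he
  have h2 : Real.sqrt (a * b) * (x * y) * 2 ≤ a * x ^ 2 + b * y ^ 2 := by
    rw [Real.sqrt_mul ha]
    have h3 := Real.sq_sqrt ha
    have h4 := Real.sq_sqrt hb
    nlinarith [sq_nonneg (Real.sqrt a * x - Real.sqrt b * y)]
  have h5 := neg_abs_le (e * t)
  nlinarith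

theorem pair_coupled {ι : Type*} [Fintype ι] [DecidableEq ι] [Nonempty ι] (A : Matrix ι ι ℂ)
    (hA : FinPropD A) (w1 w2 : ℂ) (h1 : ‖w1‖ = 1) (h2 : ‖w2‖ = 1) (h12 : w1 ≠ w2)
    (u1 u2 : ι → ℂ) (hu1 : STop A w1 u1) (hu2 : STop A w2 u2) (hr1 : Reg A w1 u1)
    (hr2 : Reg A w2 u2) :
    star u1 ⬝ᵥ u2 ≠ 0 ∨ star u1 ⬝ᵥ (A *ᵥ u2) ≠ 0 ∨ star u2 ⬝ᵥ (A *ᵥ u1) ≠ 0 := by
  by_contra hcon
  push Not at hcon
  obtain ⟨hd1, hd2, hd3⟩ := hcon
  obtain ⟨π, q, hπq, hq1, hq2⟩ := exists_q (supp A w1) (supp A w2) w1 w2 h1 h2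
  obtain ⟨e, he⟩ : ∃ e : ℂ → ℝ, e = fun z => π * supp A z - (z * q).re := ⟨_, rfl⟩
  have he1 : e w1 = 0 := by rw [he]; simp only; rw [hq1]; ring
  have he2 : e w2 = 0 := by rw [he]; simp only; rw [hq2]; ring
  obtain ⟨R, hR0, hR⟩ := supp_lip A
  obtain ⟨L, hL⟩ : ∃ L : ℝ, L = |π| * R + ‖q‖ + 1 := ⟨_, rfl⟩
  have hL0 : 0 < L := by rw [hL]; positivity
  have hlip : ∀ z z' : ℂ, |e z - e z'| ≤ L * ‖z - z'‖ := by
    intro z z'
    have f1 : e z - e z' = π * (supp A z - supp A z') - ((z - z') * q).re := by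
      rw [he]
      simp only
      rw [sub_mul, Complex.sub_re]
      ring
    rw [f1]
    refine (abs_sub _ _).trans ?_
    rw [abs_mul]
    have f2 := mul_le_mul_of_nonneg_left (hR z z') (abs_nonneg π)
    have f3 : |((z - z') * q).re| ≤ ‖z - z'‖ * ‖q‖ := by
      refine (Complex.abs_re_le_norm _).trans ?_
      rw [norm_mul]
    rw [hL]
    nlinarith [norm_nonneg (z - z')]
  obtain ⟨κ1, hκ1, hk1⟩ := hr1
  obtain ⟨κ2, hκ2, hk2⟩ := hr2
  set δ : ℝ := ‖w1 - w2‖ with hδ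
  have hδ0 : 0 < δ := norm_pos_iff.mpr (sub_ne_zero.mpr h12)
  have hU1 : 0 < (star u1 ⬝ᵥ u1).re := by
    rcases (dot_self_re_nonneg u1).lt_or_eq with h | h
    · exact h
    · exact absurd (dot_self_re_eq_zero h.symm) hu1.1
  have hU2 : 0 < (star u2 ⬝ᵥ u2).re := by
    rcases (dot_self_re_nonneg u2).lt_or_eq with h | h
    · exact h
    · exact absurd (dot_self_re_eq_zero h.symm) hu2.1
  set U1 : ℝ := (star u1 ⬝ᵥ u1).re with hU1e
  set U2 : ℝ := (star u2 ⬝ᵥ u2).re with hU2e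
  obtain ⟨c, hc0, hca, hcb⟩ : ∃ c : ℝ, 0 < c ∧ c ^ 2 * (4 * L ^ 2 / δ ^ 2) ≤ κ1 * κ2 ∧
      (c * π) ^ 2 < U1 * U2 := by
    obtain ⟨c2, hc2, hc2a, hc2b⟩ : ∃ c2 : ℝ, 0 < c2 ∧ c2 * (4 * L ^ 2 / δ ^ 2) ≤ κ1 * κ2 ∧
        c2 * π ^ 2 < U1 * U2 := by
      refine ⟨min (κ1 * κ2 / (4 * L ^ 2 / δ ^ 2)) (U1 * U2 / (2 * (π ^ 2 + 1))), ?_, ?_, ?_⟩
      · apply lt_min <;> positivity
      · calc _ ≤ (κ1 * κ2 / (4 * L ^ 2 / δ ^ 2)) * (4 * L ^ 2 / δ ^ 2) :=
              mul_le_mul_of_nonneg_right (min_le_left _ _) (by positivity)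
          _ = κ1 * κ2 := by field_simp
      · calc _ ≤ U1 * U2 / (2 * (π ^ 2 + 1)) * π ^ 2 :=
              mul_le_mul_of_nonneg_right (min_le_right _ _) (by positivity)
          _ < U1 * U2 := by
              rw [div_mul_eq_mul_div, div_lt_iff₀ (by positivity)]
              have := mul_pos hU1 hU2
              nlinarith [sq_nonneg π]
    refine ⟨Real.sqrt c2, Real.sqrt_pos.mpr hc2, ?_, ?_⟩
    · rw [Real.sq_sqrt hc2.le]; exact hc2a
    · rw [mul_pow, Real.sq_sqrt hc2.le]; exact hc2b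
  have hmain : ∀ z : ℂ, ‖z‖ = 1 → (c * e z) ^ 2 ≤
      (star u1 ⬝ᵥ (NN A z *ᵥ u1)).re * (star u2 ⬝ᵥ (NN A z *ᵥ u2)).re := by
    intro z hz
    have g1 := hk1 z hz
    have g2 := hk2 z hz
    have g3 : |e z| ≤ L * ‖z - w1‖ := by
      have := hlip z w1
      rwa [he1, sub_zero] at this
    have g4 : |e z| ≤ L * ‖z - w2‖ := by
      have := hlip z w2
      rwa [he2, sub_zero] at this
    have g5 : δ ≤ ‖z - w1‖ + ‖z - w2‖ := by
      rw [hδ]
      have : w1 - w2 = -(z - w1) + (z - w2) := by ring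
      rw [this]
      refine (norm_add_le _ _).trans ?_
      rw [norm_neg]
    set a := ‖z - w1‖ with ha
    set b := ‖z - w2‖ with hb
    have ha0 : 0 ≤ a := norm_nonneg _
    have hb0 : 0 ≤ b := norm_nonneg _
    have g6 : |e z| * δ ≤ 2 * L * (a * b) := by
      rcases le_total a b with hab | hab
      · have : δ ≤ 2 * b := by linarith
        calc |e z| * δ ≤ (L * a) * (2 * b) := by
              apply mul_le_mul g3 this hδ0.le (by positivity)
          _ = _ := by ring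
      · have : δ ≤ 2 * a := by linarith
        calc |e z| * δ ≤ (L * b) * (2 * a) := by
              apply mul_le_mul g4 this hδ0.le (by positivity)
          _ = _ := by ring
    have g7 : e z ^ 2 ≤ 4 * L ^ 2 / δ ^ 2 * (a ^ 2 * b ^ 2) := by
      rw [div_mul_eq_mul_div, le_div_iff₀ (by positivity)]
      have := pow_le_pow_left₀ (by positivity) g6 2
      rw [mul_pow, sq_abs] at this
      nlinarith
    calc (c * e z) ^ 2 = c ^ 2 * e z ^ 2 := by ring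
      _ ≤ c ^ 2 * (4 * L ^ 2 / δ ^ 2 * (a ^ 2 * b ^ 2)) :=
          mul_le_mul_of_nonneg_left g7 (sq_nonneg _)
      _ = c ^ 2 * (4 * L ^ 2 / δ ^ 2) * (a ^ 2 * b ^ 2) := by ring
      _ ≤ κ1 * κ2 * (a ^ 2 * b ^ 2) := mul_le_mul_of_nonneg_right hca (by positivity)
      _ = (κ1 * a ^ 2) * (κ2 * b ^ 2) := by ring
      _ ≤ _ := mul_le_mul g1 g2 (by positivity) (le_trans (by positivity) g1)
  obtain ⟨P, hP⟩ : ∃ P : Matrix (Fin 2) (Fin 2) ℂ,
    P = !![(U1 : ℂ), ((c * π : ℝ) : ℂ); ((c * π : ℝ) : ℂ), (U2 : ℂ)] := ⟨_, rfl⟩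
  obtain ⟨S, hS⟩ : ∃ S : Matrix (Fin 2) (Fin 2) ℂ,
    S = !![star u1 ⬝ᵥ (A *ᵥ u1), (c : ℂ) * q; (c : ℂ) * q, star u2 ⬝ᵥ (A *ᵥ u2)] := ⟨_, rfl⟩
  have hexp : ∀ (M : Matrix (Fin 2) (Fin 2) ℂ) (x : Fin 2 → ℂ), M 0 1 = M 1 0 →
      star x ⬝ᵥ (M *ᵥ x) = M 0 0 * ((‖x 0‖ ^ 2 : ℝ) : ℂ) + M 1 1 * ((‖x 1‖ ^ 2 : ℝ) : ℂ) +
        M 0 1 * ((2 * (starRingEnd ℂ (x 0) * x 1).re : ℝ) : ℂ) := by
    intro M x hM
    have k1 : starRingEnd ℂ (x 0) * x 0 = ((‖x 0‖ ^ 2 : ℝ) : ℂ) := by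
      rw [mul_comm, Complex.mul_conj, Complex.normSq_eq_norm_sq]
    have k2 : starRingEnd ℂ (x 1) * x 1 = ((‖x 1‖ ^ 2 : ℝ) : ℂ) := by
      rw [mul_comm, Complex.mul_conj, Complex.normSq_eq_norm_sq]
    have k3 : starRingEnd ℂ (x 0) * x 1 + starRingEnd ℂ (x 1) * x 0 =
        ((2 * (starRingEnd ℂ (x 0) * x 1).re : ℝ) : ℂ) := by
      rw [← Complex.add_conj, map_mul, Complex.conj_conj, mul_comm (x 0)]
    rw [← k1, ← k2, ← k3]
    simp only [dotProduct, Matrix.mulVec, Fin.sum_univ_two, Pi.star_apply, Complex.star_def]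
    rw [← hM]
    ring
  have hre : ∀ x : Fin 2 → ℂ, |(starRingEnd ℂ (x 0) * x 1).re| ≤ ‖x 0‖ * ‖x 1‖ := by
    intro x
    refine (Complex.abs_re_le_norm _).trans ?_
    rw [norm_mul, RCLike.norm_conj]
  have hPx : ∀ x : Fin 2 → ℂ, star x ⬝ᵥ (P *ᵥ x) = ((U1 * ‖x 0‖ ^ 2 + U2 * ‖x 1‖ ^ 2 +
      2 * (c * π) * (starRingEnd ℂ (x 0) * x 1).re : ℝ) : ℂ) := by
    intro x
    rw [hexp P x (by rw [hP]; simp), hP]
    simp only [Matrix.of_apply, Matrix.cons_val', Matrix.cons_val_zero, Matrix.cons_val_one,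
      Matrix.cons_val_fin_one]
    push_cast
    ring
  have hPd : P.PosDef := by
    apply Matrix.PosDef.of_dotProduct_mulVec_pos
    · ext i j
      rw [hP]
      fin_cases i <;> fin_cases j <;> simp [Matrix.conjTranspose_apply]
    · intro x hx
      rw [hPx]
      have h3 : 0 < U1 * ‖x 0‖ ^ 2 + U2 * ‖x 1‖ ^ 2 +
          2 * (c * π) * (starRingEnd ℂ (x 0) * x 1).re := by
        -- strict version
        obtain ⟨ε, hε0, hε⟩ : ∃ ε : ℝ, 0 < ε ∧ (c * π) ^ 2 ≤ (U1 - ε) * (U2 - ε) ∧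
            0 ≤ U1 - ε ∧ 0 ≤ U2 - ε := by
          obtain ⟨ε, hε⟩ : ∃ ε : ℝ, ε = min (min U1 U2) ((U1 * U2 - (c * π) ^ 2) / (U1 + U2)) :=
            ⟨_, rfl⟩
          have m1 : ε ≤ U1 := by rw [hε]; exact (min_le_left _ _).trans (min_le_left _ _)
          have m2 : ε ≤ U2 := by rw [hε]; exact (min_le_left _ _).trans (min_le_right _ _)
          have m3 : ε ≤ (U1 * U2 - (c * π) ^ 2) / (U1 + U2) := by
            rw [hε]; exact min_le_right _ _
          have m4 : 0 < ε := by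
            rw [hε]
            apply lt_min (lt_min hU1 hU2)
            apply div_pos (by linarith) (by linarith)
          refine ⟨ε, m4, ?_, by linarith, by linarith⟩
          rw [le_div_iff₀ (by linarith)] at m3
          nlinarith [sq_nonneg ε]
        have h4 := two_form hε.2.1 hε.2.2 hε.1 (hre x)
        have h5 : 0 < ‖x 0‖ ^ 2 + ‖x 1‖ ^ 2 := by
          by_contra hcon
          push Not at hcon
          apply hx
          have n0 : ‖x 0‖ = 0 := by nlinarith [sq_nonneg ‖x 0‖, sq_nonneg ‖x 1‖, norm_nonneg (x 0)]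
          have n1 : ‖x 1‖ = 0 := by nlinarith [sq_nonneg ‖x 0‖, sq_nonneg ‖x 1‖, norm_nonneg (x 1)]
          ext i
          fin_cases i
          · exact norm_eq_zero.mp n0
          · exact norm_eq_zero.mp n1
        nlinarith [mul_pos hε0 h5]
      exact_mod_cast h3
  have hSle : ∀ z : ℂ, ‖z‖ = 1 → ∀ x : Fin 2 → ℂ,
      (z * (star x ⬝ᵥ (S *ᵥ x))).re ≤ supp A z * (star x ⬝ᵥ (P *ᵥ x)).re := by
    intro z hz x
    have g1 := hmain z hz
    rw [NN_quad, NN_quad, Complex.ofReal_re, Complex.ofReal_re] at g1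
    have p1 : 0 ≤ supp A z * (star u1 ⬝ᵥ u1).re - (z * (star u1 ⬝ᵥ (A *ᵥ u1))).re :=
      sub_nonneg.mpr (quad_le_supp A z u1)
    have p2 : 0 ≤ supp A z * (star u2 ⬝ᵥ u2).re - (z * (star u2 ⬝ᵥ (A *ᵥ u2))).re :=
      sub_nonneg.mpr (quad_le_supp A z u2)
    have g2 := two_form p1 p2 g1 (hre x)
    have g3 : (z * (star x ⬝ᵥ (S *ᵥ x))).re = (z * (star u1 ⬝ᵥ (A *ᵥ u1))).re * ‖x 0‖ ^ 2 +
        (z * (star u2 ⬝ᵥ (A *ᵥ u2))).re * ‖x 1‖ ^ 2 +
        2 * c * (z * q).re * (starRingEnd ℂ (x 0) * x 1).re := by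
      rw [hexp S x (by rw [hS]; simp), hS]
      simp only [Matrix.of_apply, Matrix.cons_val', Matrix.cons_val_zero, Matrix.cons_val_one,
        Matrix.cons_val_fin_one]
      have g4 : ∀ (a b : ℂ) (r0 r1 r2 : ℝ), z * (a * (r0 : ℂ) + b * (r1 : ℂ) +
          (c : ℂ) * q * (r2 : ℂ)) = (z * a) * (r0 : ℂ) + (z * b) * (r1 : ℂ) +
            (c : ℂ) * ((z * q) * (r2 : ℂ)) := by
        intro a b r0 r1 r2
        ring
      rw [g4, Complex.add_re, Complex.add_re, Complex.re_mul_ofReal, Complex.re_mul_ofReal,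
        Complex.re_ofReal_mul, Complex.re_mul_ofReal]
      ring
    rw [g3, hPx, Complex.ofReal_re]
    rw [he] at g2
    simp only at g2
    nlinarith
  obtain ⟨N, X, hX1, hX2⟩ := forms_dil A hA P S hPd hSle
  have c1 := contact hX1 hX2 hu1 0 (by rw [hP, dot_eq_re u1]; simp [hU1e]) (by rw [hS]; simp)
  have c2 := contact hX1 hX2 hu2 1 (by rw [hP, dot_eq_re u2]; simp [hU2e]) (by rw [hS]; simp)
  choose η1 hη1 using c1
  choose η2 hη2 using c2
  have z1 : P 0 1 = 0 := by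
    rw [← hX1]
    apply sum_eq_zero
    intro p _
    rw [hη1, hη2, star_smul, smul_dotProduct, dotProduct_smul, hd1]
    simp
  have z2 : S 0 1 = 0 := by
    rw [← hX2]
    apply sum_eq_zero
    intro p _
    rw [hη1, hη2, star_smul, smul_dotProduct, Matrix.mulVec_smul, dotProduct_smul, hd2]
    simp
  rw [hP] at z1
  rw [hS] at z2
  simp only [Matrix.of_apply, Matrix.cons_val', Matrix.cons_val_zero, Matrix.cons_val_one,
      Matrix.cons_val_fin_one] at z1 z2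
  rcases hπq with h | h
  · have : c * π = 0 := by exact_mod_cast z1
    rcases mul_eq_zero.mp this with h' | h'
    · exact hc0.ne' h'
    · exact h h'
  · rcases mul_eq_zero.mp z2 with h' | h'
    · exact hc0.ne' (by exact_mod_cast h')
    · exact h h'

end Pool.Agent.Helper29X1.ND
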