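import Mathlib
import Pool.Agent.Helper29X1.ND.Pair
open Matrix Finset
open scoped ComplexOrder

namespace Pool.Agent.Helper29X1.ND

open Pool.Agent.Helper774

theorem exists_iso {ι : Type*} [Fintype ι] (M : Submodule ℂ (ι → ℂ)) :
    ∃ (k : ℕ) (V : Matrix ι (Fin k) ℂ), Vᴴ * V = 1 ∧ (∀ y, V *ᵥ y ∈ M) ∧
      (∀ x ∈ M, V *ᵥ (Vᴴ *ᵥ x) = x) := by
  classical
  let e := (WithLp.linearEquiv 2 ℂ (ι → ℂ)).symm
  let F : Submodule ℂ (EuclideanSpace ℂ ι) := M.map e.toLinearMap
  let b := stdOrthonormalBasis ℂ F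
  refine ⟨Module.finrank ℂ F, Matrix.of fun i a => ((b a : F) : EuclideanSpace ℂ ι) i, ?_, ?_, ?_⟩
  · ext c d
    rw [Matrix.mul_apply]
    have h := (orthonormal_iff_ite.mp b.orthonormal) c d
    rw [Matrix.one_apply, ← h, Submodule.coe_inner, EuclideanSpace.inner_eq_star_dotProduct,
      dotProduct]
    apply sum_congr rfl
    intro i _
    rw [conjTranspose_apply, Matrix.of_apply, Matrix.of_apply, mul_comm]
    rfl
  · intro y
    have h1 : ∀ a, (((b a : F) : EuclideanSpace ℂ ι).ofLp) ∈ M := by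
      intro a
      obtain ⟨m, hm, hm2⟩ := (b a).2
      rw [← hm2]
      exact hm
    have h2 : (Matrix.of fun i a => ((b a : F) : EuclideanSpace ℂ ι) i) *ᵥ y =
        ∑ a, y a • (((b a : F) : EuclideanSpace ℂ ι).ofLp) := by
      ext i
      rw [Matrix.mulVec, dotProduct, Finset.sum_apply]
      apply sum_congr rfl
      intro a _
      rw [Matrix.of_apply, Pi.smul_apply, smul_eq_mul, mul_comm]
    rw [h2]
    exact M.sum_mem fun a _ => M.smul_mem _ (h1 a)
  · intro x hx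
    have hxF : e x ∈ F := ⟨x, hx, rfl⟩
    have h1 := b.sum_repr' ⟨e x, hxF⟩
    have h2 := congrArg (fun z : F => ((z : EuclideanSpace ℂ ι).ofLp)) h1
    simp only [Submodule.coe_sum, Submodule.coe_smul, Submodule.coe_inner] at h2
    ext i
    have h3 := congrFun h2 i
    rw [WithLp.ofLp_sum, Finset.sum_apply] at h3
    have h4 : (e x).ofLp i = x i := rfl
    rw [h4] at h3
    rw [← h3, Matrix.mulVec, dotProduct]
    apply sum_congr rfl
    intro a _
    rw [Matrix.of_apply, Matrix.mulVec, dotProduct, EuclideanSpace.inner_eq_star_dotProduct,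
      dotProduct]
    simp only [PiLp.smul_apply, smul_eq_mul]
    rw [mul_comm]
    congr 1
    apply sum_congr rfl
    intro j _
    rw [conjTranspose_apply, Matrix.of_apply, mul_comm]
    rfl

theorem eq_case {ι κ : Type*} [Fintype ι] [DecidableEq ι] {M : Matrix ι ι ℂ}
    (hM : M.PosSemidef) (u : κ → ι → ℂ)
    (h : ∀ i j, ‖star (u i) ⬝ᵥ (M *ᵥ u j)‖ ^ 2 =
      (star (u i) ⬝ᵥ (M *ᵥ u i)).re * (star (u j) ⬝ᵥ (M *ᵥ u j)).re) :
    ∃ g : ι → ℂ, ∀ x ∈ Submodule.span ℂ (Set.range u),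
      (star x ⬝ᵥ (M *ᵥ x)).re = ‖star g ⬝ᵥ x‖ ^ 2 := by
  have hreal : ∀ y, star y ⬝ᵥ (M *ᵥ y) = (((star y ⬝ᵥ (M *ᵥ y)).re : ℝ) : ℂ) := by
    intro y
    apply Complex.ext
    · simp
    · have := congrArg Complex.im (herm_swap hM.1 y y)
      rw [Complex.conj_im] at this
      rw [Complex.ofReal_im]
      linarith
  have hnn : ∀ y, 0 ≤ (star y ⬝ᵥ (M *ᵥ y)).re := fun y =>
    (Complex.le_def.mp (hM.dotProduct_mulVec_nonneg y)).1
  by_cases hz : ∀ i, (star (u i) ⬝ᵥ (M *ᵥ u i)).re = 0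
  · refine ⟨0, ?_⟩
    intro x hx
    have h1 : M *ᵥ x = 0 := by
      induction hx using Submodule.span_induction with
      | mem y hy =>
        obtain ⟨i, rfl⟩ := hy
        rw [← hM.dotProduct_mulVec_zero_iff, hreal, hz]
        simp
      | zero => simp
      | add a b _ _ ha hb => rw [Matrix.mulVec_add, ha, hb, add_zero]
      | smul c a _ ha => rw [Matrix.mulVec_smul, ha, smul_zero]
    rw [h1]
    simp
  · push Not at hz
    obtain ⟨a, ha⟩ := hz
    obtain ⟨γ, hγ⟩ : ∃ γ : ℝ, γ = (star (u a) ⬝ᵥ (M *ᵥ u a)).re := ⟨_, rfl⟩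
    have hγ0 : 0 < γ := by
      rw [hγ]
      exact lt_of_le_of_ne (hnn _) (Ne.symm ha)
    have hγc : (γ : ℂ) ≠ 0 := by exact_mod_cast hγ0.ne'
    have hua : star (u a) ⬝ᵥ (M *ᵥ u a) = (γ : ℂ) := by rw [hreal, hγ]
    have key : ∀ x ∈ Submodule.span ℂ (Set.range u), ∃ c : ℂ, M *ᵥ x = c • (M *ᵥ u a) := by
      intro x hx
      induction hx using Submodule.span_induction with
      | mem y hy =>
        obtain ⟨i, rfl⟩ := hy
        obtain ⟨s, hs⟩ : ∃ s : ℂ, s = star (u a) ⬝ᵥ (M *ᵥ u i) := ⟨_, rfl⟩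
        refine ⟨s / γ, ?_⟩
        have h1 : M *ᵥ (u i - (s / γ) • u a) = 0 := by
          rw [← hM.dotProduct_mulVec_zero_iff]
          have h2 : star (u i) ⬝ᵥ (M *ᵥ u a) = starRingEnd ℂ s := by
            rw [hs]
            exact herm_swap hM.1 _ _
          have h3 := h a i
          rw [← hs, ← hγ] at h3
          have h4 : s * starRingEnd ℂ s = (γ : ℂ) * (((star (u i) ⬝ᵥ (M *ᵥ u i)).re : ℝ) : ℂ) := by
            rw [Complex.mul_conj, Complex.normSq_eq_norm_sq, h3]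
            push_cast
            ring
          rw [Matrix.mulVec_sub, Matrix.mulVec_smul, star_sub, star_smul, sub_dotProduct,
            dotProduct_sub, dotProduct_sub, smul_dotProduct, smul_dotProduct, dotProduct_smul,
            dotProduct_smul, hua, h2, ← hs, hreal (u i)]
          simp only [smul_eq_mul, star_div₀, Complex.star_def, Complex.conj_ofReal]
          field_simp
          linear_combination -h4
        rw [Matrix.mulVec_sub, Matrix.mulVec_smul, sub_eq_zero] at h1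
        exact h1
      | zero => exact ⟨0, by simp⟩
      | add p q _ _ hp hq =>
        obtain ⟨c, hc⟩ := hp
        obtain ⟨d, hd⟩ := hq
        exact ⟨c + d, by rw [Matrix.mulVec_add, hc, hd, add_smul]⟩
      | smul r p _ hp =>
        obtain ⟨c, hc⟩ := hp
        exact ⟨r * c, by rw [Matrix.mulVec_smul, hc, smul_smul]⟩
    refine ⟨(((Real.sqrt γ)⁻¹ : ℝ) : ℂ) • (M *ᵥ u a), ?_⟩
    intro x hx
    obtain ⟨c, hc⟩ := key x hx
    have h1 : star (u a) ⬝ᵥ (M *ᵥ x) = c * γ := by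
      rw [hc, dotProduct_smul, hua, smul_eq_mul]
    have h2 : star x ⬝ᵥ (M *ᵥ u a) = starRingEnd ℂ (c * γ) := by
      rw [← h1]
      exact herm_swap hM.1 _ _
    have h3 : star (M *ᵥ u a) ⬝ᵥ x = c * γ := by
      rw [dot_swap, h2, Complex.conj_conj]
    rw [star_smul, smul_dotProduct, h3, smul_eq_mul, norm_mul, norm_mul, norm_star,
      Complex.norm_real, Complex.norm_real, hc, dotProduct_smul, h2, smul_eq_mul, map_mul,
      Complex.conj_ofReal, ← mul_assoc, Complex.mul_conj, ← Complex.ofReal_mul,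
      Complex.ofReal_re, Complex.normSq_eq_norm_sq, mul_pow, mul_pow, norm_inv, inv_pow,
      Real.norm_eq_abs, Real.norm_eq_abs, sq_abs, sq_abs, Real.sq_sqrt hγ0.le]
    field_simp

/-- The set of the simple top vectors with a touching disc. -/
def RegSet {ι : Type*} [Fintype ι] [DecidableEq ι] (A : Matrix ι ι ℂ) : Set (ι → ℂ) :=
  {x | ∃ w : ℂ, ‖w‖ = 1 ∧ STop A w x ∧ Reg A w x}

theorem coupled {ι : Type*} [Fintype ι] [DecidableEq ι] [Nonempty ι] (A : Matrix ι ι ℂ)
    (hA : FinPropD A) {x y : ι → ℂ} (hx : x ∈ RegSet A) (hy : y ∈ RegSet A) :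
    star x ⬝ᵥ y ≠ 0 ∨ star x ⬝ᵥ (A *ᵥ y) ≠ 0 ∨ star y ⬝ᵥ (A *ᵥ x) ≠ 0 := by
  obtain ⟨w, hw, hxs, hxr⟩ := hx
  obtain ⟨w', hw', hys, hyr⟩ := hy
  by_cases h : w = w'
  · subst h
    left
    have h1 := (hys.2 y).mpr ⟨1, by simp⟩
    obtain ⟨c, hc⟩ := (hxs.2 y).mp h1
    have hc0 : c ≠ 0 := by
      rintro rfl
      exact hys.1 (by rw [hc]; simp)
    rw [hc, dotProduct_smul, smul_eq_mul]
    apply mul_ne_zero hc0
    intro h2
    exact hxs.1 (dot_self_re_eq_zero (by rw [h2]; simp))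
  · exact pair_coupled A hA w w' hw hw' h x y hxs hys hxr hyr

theorem span_rank {ι : Type*} [Fintype ι] [DecidableEq ι] [Nonempty ι] (A : Matrix ι ι ℂ)
    (hA : FinPropD A) :
    ∃ w : ℂ, ‖w‖ = 1 ∧ ∃ g : ι → ℂ, ∀ x ∈ Submodule.span ℂ (RegSet A),
      (star x ⬝ᵥ (NN A w *ᵥ x)).re = ‖star g ⬝ᵥ x‖ ^ 2 := by
  classical
  obtain ⟨b, hb, hbs, hbi⟩ := exists_linearIndependent ℂ (RegSet A)
  have hfin : Finite b := hbi.finite
  have hft : Fintype b := Fintype.ofFinite b
  obtain ⟨k, hk⟩ : ∃ k, k = Fintype.card b := ⟨_, rfl⟩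
  let f : Fin k ≃ b := (Fintype.equivFinOfCardEq hk.symm).symm
  let u : Fin k → ι → ℂ := fun i => (f i : ι → ℂ)
  have hur : Set.range u = b := by
    have : u = Subtype.val ∘ f := rfl
    rw [this, Set.range_comp, f.surjective.range_eq, Set.image_univ, Subtype.range_coe]
  have hui : LinearIndependent ℂ u := hbi.comp f f.injective
  have huR : ∀ i, u i ∈ RegSet A := fun i => hb (f i).2
  rw [← hbs, ← hur]
  by_cases hk2 : 2 ≤ k
  · choose w hw using huR
    by_contra hcon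
    push Not at hcon
    refine main_neg hk2 A w u (fun i => (hw i).2.1) hui (fun i j => ?_) (fun z hz => ?_) hA
    · exact coupled A hA (hb (f i).2) (hb (f j).2)
    · by_contra hall
      push Not at hall
      obtain ⟨g, hg⟩ := eq_case (NN_psd A z) u hall
      obtain ⟨x, hx, hxn⟩ := hcon z hz g
      exact hxn (hg x hx)
  · by_cases hk1 : k = 0
    · subst hk1
      refine ⟨1, by simp, 0, ?_⟩
      intro x hx
      have : Set.range u = ∅ := Set.range_eq_empty u
      rw [this, Submodule.span_empty, Submodule.mem_bot] at hx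
      subst hx
      simp
    · have hk1 : k = 1 := by omega
      subst hk1
      obtain ⟨w, hw, hs, _⟩ := huR 0
      refine ⟨w, hw, 0, ?_⟩
      intro x hx
      have : Set.range u = {u 0} := by
        ext y
        constructor
        · rintro ⟨i, rfl⟩
          rw [Subsingleton.elim i 0]
          rfl
        · rintro rfl
          exact ⟨0, rfl⟩
      rw [this, Submodule.mem_span_singleton] at hx
      obtain ⟨c, rfl⟩ := hx
      have h1 := (hs.ker (c • u 0)).mpr ⟨c, rfl⟩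
      rw [h1]
      simp

end Pool.Agent.Helper29X1.ND
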