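import Mathlib
import Pool.Agent.Helper29X1.ND.Span
open Matrix Finset
open scoped ComplexOrder

namespace Pool.Agent.Helper29X1.ND

open Pool.Agent.Helper774

/-- every point of the numerical range has at most one support direction -/
def Smo {ι : Type*} [Fintype ι] (A : Matrix ι ι ℂ) : Prop :=
  ∀ p ∈ MW A, ∀ w w' : ℂ, ‖w‖ = 1 → ‖w'‖ = 1 → (w * p).re = supp A w →
    (w' * p).re = supp A w' → w = w'

theorem exists_supp_pt {ι : Type*} [Fintype ι] [Nonempty ι] (A : Matrix ι ι ℂ) (w : ℂ) :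
    ∃ p ∈ MW A, (w * p).re = supp A w := by
  obtain ⟨q, hq, hmax⟩ := (MW_isCompact A).exists_isMaxOn (MW_nonempty A)
    (f := fun q : ℂ => (w * q).re)
    (Complex.continuous_re.comp (continuous_const.mul continuous_id)).continuousOn
  exact ⟨q, hq, le_antisymm (le_supp A w q hq) (supp_le A w _ fun p hp => hmax hp)⟩

theorem mem_of_supp {ι : Type*} [Fintype ι] [Nonempty ι] (A : Matrix ι ι ℂ) (p : ℂ)
    (h : ∀ z : ℂ, ‖z‖ = 1 → (z * p).re ≤ supp A z) : p ∈ MW A := by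
  by_contra hp
  obtain ⟨v, hv⟩ := exists_sep A p hp
  have hv0 : v ≠ 0 := by
    rintro rfl
    obtain ⟨q, hq⟩ := MW_nonempty A
    have := hv q hq
    simp at this
  have hvn : 0 < ‖v‖ := norm_pos_iff.mpr hv0
  set w : ℂ := ((‖v‖⁻¹ : ℝ) : ℂ) * v with hw
  have hwn : ‖w‖ = 1 := by
    rw [hw, norm_mul, Complex.norm_real, norm_inv, norm_norm, inv_mul_cancel₀ hvn.ne']
  have hwz : ∀ q : ℂ, (w * q).re = ‖v‖⁻¹ * (v * q).re := by
    intro q
    rw [hw, mul_assoc, Complex.re_ofReal_mul]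
  obtain ⟨q, hq, hqs⟩ := exists_supp_pt A w
  have h2 := h w hwn
  rw [← hqs, hwz, hwz] at h2
  have h4 := mul_lt_mul_of_pos_left (hv q hq) (inv_pos.mpr hvn)
  linarith

theorem circle_compact : IsCompact {z : ℂ | ‖z‖ = 1} := by
  have : {z : ℂ | ‖z‖ = 1} = Metric.sphere 0 1 := by
    ext z
    simp
  rw [this]
  exact isCompact_sphere _ _

theorem exists_interior {ι : Type*} [Fintype ι] [Nonempty ι] (A : Matrix ι ι ℂ) (hS : Smo A) :
    ∃ c : ℂ, ∀ z : ℂ, ‖z‖ = 1 → (z * c).re < supp A z := by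
  obtain ⟨p1, hp1, h1⟩ := exists_supp_pt A 1
  obtain ⟨p2, hp2, h2⟩ := exists_supp_pt A (-1)
  refine ⟨(1 / 2 : ℝ) * p1 + (1 / 2 : ℝ) * p2, ?_⟩
  intro z hz
  have e : (z * ((1 / 2 : ℝ) * p1 + (1 / 2 : ℝ) * p2)).re =
      1 / 2 * (z * p1).re + 1 / 2 * (z * p2).re := by
    rw [mul_add, mul_left_comm, mul_left_comm z ((1 / 2 : ℝ) : ℂ), Complex.add_re,
      Complex.re_ofReal_mul, Complex.re_ofReal_mul]
  rw [e]
  have g1 := le_supp A z p1 hp1
  have g2 := le_supp A z p2 hp2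
  rcases g1.lt_or_eq with g | g
  · linarith
  · rcases g2.lt_or_eq with g' | g'
    · linarith
    · exfalso
      have k1 := hS p1 hp1 z 1 hz (by simp) g h1
      have k2 := hS p2 hp2 z (-1) hz (by simp) g' h2
      rw [k1] at k2
      norm_num at k2

/-- directions with an inner touching disc are dense -/
theorem dense_reg {ι : Type*} [Fintype ι] [Nonempty ι] (A : Matrix ι ι ℂ) (hS : Smo A)
    (w0 : ℂ) (hw0 : ‖w0‖ = 1) (ε : ℝ) (hε : 0 < ε) :
    ∃ w : ℂ, ‖w‖ = 1 ∧ ‖w - w0‖ < ε ∧ ∃ p ∈ MW A, (w * p).re = supp A w ∧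
      ∃ κ : ℝ, 0 < κ ∧ ∀ z : ℂ, ‖z‖ = 1 → κ * ‖z - w‖ ^ 2 ≤ supp A z - (z * p).re := by
  obtain ⟨p0, hp0, hp0s⟩ := exists_supp_pt A w0
  obtain ⟨c, hc⟩ := exists_interior A hS
  have hφc : Continuous (fun z : ℂ => supp A z - (z * p0).re) :=
    (supp_continuous A).sub (Complex.continuous_re.comp (continuous_id.mul continuous_const))
  obtain ⟨m, hm0, hm⟩ : ∃ m : ℝ, 0 < m ∧ ∀ z : ℂ, ‖z‖ = 1 → ε ≤ ‖z - w0‖ →
      m ≤ supp A z - (z * p0).re := by
    have hcomp : IsCompact ({z : ℂ | ‖z‖ = 1} ∩ {z : ℂ | ε ≤ ‖z - w0‖}) := by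
      apply circle_compact.inter_right
      exact isClosed_le continuous_const (continuous_id.sub continuous_const).norm
    by_cases hne : ({z : ℂ | ‖z‖ = 1} ∩ {z : ℂ | ε ≤ ‖z - w0‖}).Nonempty
    · obtain ⟨z1, hz1, hmin⟩ := hcomp.exists_isMinOn hne hφc.continuousOn
      refine ⟨supp A z1 - (z1 * p0).re, ?_, fun z hz hz' => hmin ⟨hz, hz'⟩⟩
      have g := le_supp A z1 p0 hp0
      rcases g.lt_or_eq with g | g
      · linarith
      · exfalso
        have := hS p0 hp0 z1 w0 hz1.1 hw0 g hp0s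
        rw [this] at hz1
        have h2 : ε ≤ ‖w0 - w0‖ := hz1.2
        rw [sub_self, norm_zero] at h2
        linarith
    · refine ⟨1, one_pos, fun z hz hz' => absurd ⟨z, hz, hz'⟩ hne⟩
  obtain ⟨D, hD⟩ : ∃ D : ℝ, D = supp A w0 - (w0 * c).re := ⟨_, rfl⟩
  have hD0 : 0 < D := by rw [hD]; linarith [hc w0 hw0]
  obtain ⟨t, ht0, ht1, htm⟩ : ∃ t : ℝ, 0 < t ∧ t < 1 ∧ t * D < (1 - t) * m := by
    refine ⟨m / (2 * (m + D)), by positivity, ?_, ?_⟩
    · rw [div_lt_one (by positivity)]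
      linarith
    · have h1 : m / (2 * (m + D)) * (m + D) = m / 2 := by field_simp
      nlinarith
  obtain ⟨q, hq⟩ : ∃ q : ℂ, q = ((1 - t : ℝ) : ℂ) * p0 + (t : ℂ) * c := ⟨_, rfl⟩
  have hzq : ∀ z : ℂ, (z * q).re = (1 - t) * (z * p0).re + t * (z * c).re := by
    intro z
    rw [hq, mul_add, mul_left_comm, mul_left_comm z (t : ℂ), Complex.add_re,
      Complex.re_ofReal_mul, Complex.re_ofReal_mul]
  have hfc : Continuous (fun z : ℂ => supp A z - (z * q).re) :=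
    (supp_continuous A).sub (Complex.continuous_re.comp (continuous_id.mul continuous_const))
  obtain ⟨w, hw, hmin⟩ := circle_compact.exists_isMinOn ⟨1, by simp⟩ hfc.continuousOn
  have hw1 : ‖w‖ = 1 := hw
  obtain ⟨r, hr⟩ : ∃ r : ℝ, r = supp A w - (w * q).re := ⟨_, rfl⟩
  have hrmin : ∀ z : ℂ, ‖z‖ = 1 → r ≤ supp A z - (z * q).re := fun z hz => by
    rw [hr]; exact hmin hz
  have hr0 : 0 < r := by
    rw [hr, hzq]
    have g1 := le_supp A w p0 hp0
    have g2 := hc w hw1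
    nlinarith
  have hww : w * starRingEnd ℂ w = 1 := by
    rw [Complex.mul_conj, Complex.normSq_eq_norm_sq, hw1]; simp
  obtain ⟨p, hp⟩ : ∃ p : ℂ, p = q + (r : ℂ) * starRingEnd ℂ w := ⟨_, rfl⟩
  have hzw : ∀ z : ℂ, ‖z‖ = 1 → (z * starRingEnd ℂ w).re = 1 - ‖z - w‖ ^ 2 / 2 := by
    intro z hz
    have h1 : ‖z - w‖ ^ 2 = ‖z‖ ^ 2 + ‖w‖ ^ 2 - 2 * (z * starRingEnd ℂ w).re := by
      rw [← Complex.normSq_eq_norm_sq, ← Complex.normSq_eq_norm_sq, ← Complex.normSq_eq_norm_sq,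
        Complex.normSq_sub]
    rw [h1, hz, hw1]
    ring
  have hzp : ∀ z : ℂ, ‖z‖ = 1 → (z * p).re = (z * q).re + r - r / 2 * ‖z - w‖ ^ 2 := by
    intro z hz
    rw [hp, mul_add, mul_left_comm, Complex.add_re, Complex.re_ofReal_mul, hzw z hz]
    ring
  refine ⟨w, hw1, ?_, p, ?_, ?_, r / 2, by positivity, ?_⟩
  · by_contra hcon
    push Not at hcon
    have h1 := hm w hw1 hcon
    have h2 : r ≤ t * D := by
      have := hrmin w0 hw0
      rw [hzq, hp0s] at this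
      rw [hD]
      linarith
    have h3 : r = (1 - t) * (supp A w - (w * p0).re) + t * (supp A w - (w * c).re) := by
      rw [hr, hzq]
      ring
    have h4 : 0 < supp A w - (w * c).re := by linarith [hc w hw1]
    have h5 := mul_pos ht0 h4
    have h6 := mul_le_mul_of_nonneg_left h1 (by linarith : (0 : ℝ) ≤ 1 - t)
    linarith
  · apply mem_of_supp
    intro z hz
    rw [hzp z hz]
    have := hrmin z hz
    nlinarith [sq_nonneg ‖z - w‖]
  · rw [hzp w hw1, hr]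
    simp
  · intro z hz
    rw [hzp z hz]
    have := hrmin z hz
    linarith

theorem STop.smul_mem {ι : Type*} [Fintype ι] {A : Matrix ι ι ℂ} {w : ℂ} {x y : ι → ℂ}
    (h : STop A w x) (hy : (w * (star y ⬝ᵥ (A *ᵥ y))).re = supp A w * (star y ⬝ᵥ y).re)
    (hy0 : y ≠ 0) : STop A w y := by
  obtain ⟨c, hc⟩ := (h.2 y).mp hy
  have hc0 : c ≠ 0 := by
    rintro rfl
    exact hy0 (by rw [hc]; simp)
  refine ⟨hy0, fun z => ?_⟩
  rw [h.2 z]
  constructor
  · rintro ⟨d, hd⟩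
    refine ⟨d * c⁻¹, ?_⟩
    rw [hd, hc, smul_smul, mul_assoc, inv_mul_cancel₀ hc0, mul_one]
  · rintro ⟨d, hd⟩
    exact ⟨d * c, by rw [hd, hc, smul_smul]⟩

/-- directions in which the largest eigenvalue is simple form an open set -/
theorem simple_open {ι : Type*} [Fintype ι] [DecidableEq ι] [Nonempty ι] (A : Matrix ι ι ℂ)
    (w0 : ℂ) (hw0 : ‖w0‖ = 1) (h0 : ∃ x, STop A w0 x) :
    ∃ ε : ℝ, 0 < ε ∧ ∀ w : ℂ, ‖w‖ = 1 → ‖w - w0‖ < ε → ∃ x, STop A w x := by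
  obtain ⟨C, hC⟩ : ∃ C : Set (ℂ × (ι → ℂ) × (ι → ℂ)), C = {p | ‖p.1‖ = 1 ∧
    star p.2.1 ⬝ᵥ p.2.1 = 1 ∧ star p.2.2 ⬝ᵥ p.2.2 = 1 ∧ star p.2.1 ⬝ᵥ p.2.2 = 0 ∧
    (p.1 * (star p.2.1 ⬝ᵥ (A *ᵥ p.2.1))).re = supp A p.1 * (star p.2.1 ⬝ᵥ p.2.1).re ∧
    (p.1 * (star p.2.2 ⬝ᵥ (A *ᵥ p.2.2))).re = supp A p.1 * (star p.2.2 ⬝ᵥ p.2.2).re} :=
    ⟨_, rfl⟩
  have hqc : Continuous (fun x : ι → ℂ => star x ⬝ᵥ (A *ᵥ x)) := continuous_quad A
  have hCc : IsCompact C := by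
    have hbig : IsCompact ({z : ℂ | ‖z‖ = 1} ×ˢ ({x : ι → ℂ | star x ⬝ᵥ x = 1} ×ˢ
        {x : ι → ℂ | star x ⬝ᵥ x = 1})) :=
      circle_compact.prod (isCompact_unit.prod isCompact_unit)
    apply hbig.of_isClosed_subset
    · rw [hC]
      have hd : ∀ f g : (ℂ × (ι → ℂ) × (ι → ℂ)) → (ι → ℂ), Continuous f → Continuous g →
          Continuous (fun p => star (f p) ⬝ᵥ g p) := by
        intro f g hf hg
        unfold dotProduct
        apply continuous_finsetSum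
        intro i _
        apply Continuous.mul
        · exact (continuous_apply i).comp (continuous_star.comp hf)
        · exact (continuous_apply i).comp hg
      have c1 : Continuous (fun p : ℂ × (ι → ℂ) × (ι → ℂ) => p.1) := continuous_fst
      have c2 : Continuous (fun p : ℂ × (ι → ℂ) × (ι → ℂ) => p.2.1) :=
        continuous_fst.comp continuous_snd
      have c3 : Continuous (fun p : ℂ × (ι → ℂ) × (ι → ℂ) => p.2.2) :=
        continuous_snd.comp continuous_snd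
      refine IsClosed.inter (isClosed_eq c1.norm continuous_const) ?_
      refine IsClosed.inter (isClosed_eq (hd _ _ c2 c2) continuous_const) ?_
      refine IsClosed.inter (isClosed_eq (hd _ _ c3 c3) continuous_const) ?_
      refine IsClosed.inter (isClosed_eq (hd _ _ c2 c3) continuous_const) ?_
      refine IsClosed.inter (isClosed_eq ?_ ?_) (isClosed_eq ?_ ?_)
      · exact Complex.continuous_re.comp (c1.mul (hqc.comp c2))
      · exact ((supp_continuous A).comp c1).mul (Complex.continuous_re.comp (hd _ _ c2 c2))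
      · exact Complex.continuous_re.comp (c1.mul (hqc.comp c3))
      · exact ((supp_continuous A).comp c1).mul (Complex.continuous_re.comp (hd _ _ c3 c3))
    · rw [hC]
      rintro ⟨a, b, c⟩ ⟨h1, h2, h3, _⟩
      exact ⟨h1, h2, h3⟩
  have hcl : IsClosed (Prod.fst '' C) := (hCc.image continuous_fst).isClosed
  have hnot : w0 ∉ Prod.fst '' C := by
    rintro ⟨⟨a, x, y⟩, hxy, rfl⟩
    rw [hC] at hxy
    obtain ⟨h1, h2, h3, h4, h5, h6⟩ := hxy
    simp only at h1 h2 h3 h4 h5 h6 h0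
    obtain ⟨u, hu⟩ := h0
    obtain ⟨c, hc⟩ := (hu.2 x).mp h5
    obtain ⟨d, hd⟩ := (hu.2 y).mp h6
    have hu1 : star u ⬝ᵥ u ≠ 0 := by
      intro h7
      exact hu.1 (dot_self_re_eq_zero (by rw [h7]; simp))
    rw [hc, star_smul, smul_dotProduct, dotProduct_smul, smul_eq_mul, smul_eq_mul] at h2
    rw [hd, star_smul, smul_dotProduct, dotProduct_smul, smul_eq_mul, smul_eq_mul] at h3
    rw [hc, hd, star_smul, smul_dotProduct, dotProduct_smul, smul_eq_mul, smul_eq_mul] at h4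
    rcases mul_eq_zero.mp h4 with h | h
    · rw [h, zero_mul] at h2
      exact zero_ne_one h2
    · rcases mul_eq_zero.mp h with h | h
      · rw [h, zero_mul, mul_zero] at h3
        exact zero_ne_one h3
      · exact hu1 h
  obtain ⟨ε, hε, hball⟩ := Metric.isOpen_iff.mp hcl.isOpen_compl w0 hnot
  refine ⟨ε, hε, ?_⟩
  intro w hw hwd
  have hwn : w ∉ Prod.fst '' C := hball (by rw [Metric.mem_ball, dist_eq_norm]; exact hwd)
  obtain ⟨x, hx⟩ := exists_Top A w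
  have hxs : (w * (star x ⬝ᵥ (A *ᵥ x))).re = supp A w * (star x ⬝ᵥ x).re := by
    rw [hx.1, Complex.one_re, mul_one]
    apply le_antisymm
    · exact le_supp A w _ ⟨x, hx.1, rfl⟩
    · apply supp_le
      rintro p ⟨y, hy, rfl⟩
      exact hx.2 y hy
  have hx0 : x ≠ 0 := by
    rintro rfl
    have := hx.1
    simp at this
  refine ⟨x, hx0, fun y => ⟨fun hy => ?_, ?_⟩⟩
  · by_contra hcon
    push Not at hcon
    apply hwn
    obtain ⟨y', hy'⟩ : ∃ y' : ι → ℂ, y' = y - (star x ⬝ᵥ y) • x := ⟨_, rfl⟩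
    have hy'0 : y' ≠ 0 := by
      intro h
      rw [hy', sub_eq_zero] at h
      exact hcon _ h
    have hperp : star x ⬝ᵥ y' = 0 := by
      rw [hy', dotProduct_sub, dotProduct_smul, hx.1, smul_eq_mul, mul_one, sub_self]
    have hker : NN A w *ᵥ y' = 0 := by
      rw [hy', Matrix.mulVec_sub, Matrix.mulVec_smul, (NN_ker A w y).mpr hy,
        (NN_ker A w x).mpr hxs, smul_zero, sub_zero]
    obtain ⟨c, hc0, hc⟩ := normalize_vec y' hy'0
    refine ⟨(w, x, c • y'), ?_, rfl⟩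
    rw [hC]
    refine ⟨hw, hx.1, hc, ?_, hxs, ?_⟩
    · simp only
      rw [dotProduct_smul, hperp, smul_zero]
    · simp only
      rw [← NN_ker, Matrix.mulVec_smul, hker, smul_zero]
  · rintro ⟨c, rfl⟩
    rw [← NN_ker, Matrix.mulVec_smul, (NN_ker A w x).mpr hxs, smul_zero]

/-- The simple top vectors with a touching disc exist in a dense set of directions. -/
theorem dense_regset {ι : Type*} [Fintype ι] [DecidableEq ι] [Nonempty ι] (A : Matrix ι ι ℂ)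
    (hS : Smo A) (hgen : ∀ w0 : ℂ, ‖w0‖ = 1 → ∀ ε : ℝ, 0 < ε →
      ∃ w : ℂ, ‖w‖ = 1 ∧ ‖w - w0‖ < ε ∧ ∃ x, STop A w x)
    (w0 : ℂ) (hw0 : ‖w0‖ = 1) (ε : ℝ) (hε : 0 < ε) :
    ∃ w : ℂ, ‖w‖ = 1 ∧ ‖w - w0‖ < ε ∧ ∃ x ∈ RegSet A, star x ⬝ᵥ x = 1 ∧
      (w * (star x ⬝ᵥ (A *ᵥ x))).re = supp A w := by
  obtain ⟨w1, hw1, hw1d, hx1⟩ := hgen w0 hw0 (ε / 2) (by positivity)
  obtain ⟨δ, hδ, hopen⟩ := simple_open A w1 hw1 hx1
  obtain ⟨w, hw, hwd, p, hp, hps, κ, hκ, hreg⟩ := dense_reg A hS w1 hw1 (min δ (ε / 2))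
    (lt_min hδ (by positivity))
  obtain ⟨x, hx⟩ := hopen w hw (lt_of_lt_of_le hwd (min_le_left _ _))
  obtain ⟨y, hy, hyp⟩ := hp
  have hy0 : y ≠ 0 := by
    rintro rfl
    simp at hy
  have hys : (w * (star y ⬝ᵥ (A *ᵥ y))).re = supp A w * (star y ⬝ᵥ y).re := by
    rw [hy, hyp, hps]
    simp
  refine ⟨w, hw, ?_, y, ⟨w, hw, hx.smul_mem hys hy0, κ, hκ, ?_⟩, hy, ?_⟩
  · have : w - w0 = (w - w1) + (w1 - w0) := by ring
    rw [this]
    refine (norm_add_le _ _).trans_lt ?_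
    have := lt_of_lt_of_le hwd (min_le_right _ _)
    linarith
  · intro z hz
    rw [NN_quad, hy, hyp, Complex.ofReal_re, Complex.one_re, mul_one]
    exact hreg z hz
  · rw [hyp]
    exact hps

end Pool.Agent.Helper29X1.ND
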