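import Mathlib
import Pool.Agent.Helper29X1.ND.Dense
open Matrix Finset
open scoped ComplexOrder InnerProductSpace TensorProduct

namespace Pool.Agent.Helper29X1.ND

open Pool.Agent.Helper774

theorem iso_dot {ι κ : Type*} [Fintype ι] [Fintype κ] (V : Matrix ι κ ℂ) (y : κ → ℂ)
    (z : ι → ℂ) : star (V *ᵥ y) ⬝ᵥ z = star y ⬝ᵥ (Vᴴ *ᵥ z) := by
  rw [Matrix.star_mulVec, ← Matrix.dotProduct_mulVec]

theorem iso_dot' {ι κ : Type*} [Fintype ι] [Fintype κ] (V : Matrix ι κ ℂ) (y : κ → ℂ)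
    (z : ι → ℂ) : star z ⬝ᵥ (V *ᵥ y) = star (Vᴴ *ᵥ z) ⬝ᵥ y := by
  rw [iso_dot, conjTranspose_conjTranspose]

theorem quad_iso {ι κ : Type*} [Fintype ι] [Fintype κ] (A : Matrix ι ι ℂ) (V : Matrix ι κ ℂ)
    (x y : κ → ℂ) : star x ⬝ᵥ ((Vᴴ * A * V) *ᵥ y) = star (V *ᵥ x) ⬝ᵥ (A *ᵥ (V *ᵥ y)) := by
  rw [iso_dot, Matrix.mulVec_mulVec, Matrix.mulVec_mulVec]

theorem dot_iso {ι κ : Type*} [Fintype ι] [Fintype κ] [DecidableEq κ] (V : Matrix ι κ ℂ)
    (hV : Vᴴ * V = 1) (x y : κ → ℂ) : star (V *ᵥ x) ⬝ᵥ (V *ᵥ y) = star x ⬝ᵥ y := by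
  rw [iso_dot, Matrix.mulVec_mulVec, hV, Matrix.one_mulVec]

theorem range_span {ι : Type*} [Fintype ι] [DecidableEq ι] [Nonempty ι] (A : Matrix ι ι ℂ)
    (hS : Smo A) (hgen : ∀ w0 : ℂ, ‖w0‖ = 1 → ∀ ε : ℝ, 0 < ε →
      ∃ w : ℂ, ‖w‖ = 1 ∧ ‖w - w0‖ < ε ∧ ∃ x, STop A w x) :
    ∀ p ∈ MW A, ∃ x ∈ Submodule.span ℂ (RegSet A), star x ⬝ᵥ x = 1 ∧
      star x ⬝ᵥ (A *ᵥ x) = p := by
  obtain ⟨k, V, hV, hVM, hVx⟩ := exists_iso (Submodule.span ℂ (RegSet A))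
  obtain ⟨B, hB⟩ : ∃ B, B = Vᴴ * A * V := ⟨_, rfl⟩
  have hreg : ∀ x ∈ RegSet A, star x ⬝ᵥ x = 1 → star x ⬝ᵥ (A *ᵥ x) ∈ MW B := by
    intro x hx hx1
    have h1 := hVx x (Submodule.subset_span hx)
    refine ⟨Vᴴ *ᵥ x, ?_, ?_⟩
    · rw [← dot_iso V hV, h1, hx1]
    · rw [hB, quad_iso, h1]
  have hne : Nonempty (Fin k) := by
    obtain ⟨w, hw, _, x, hx, hx1, _⟩ := dense_regset A hS hgen 1 (by simp) 1 one_pos
    by_contra hcon
    rw [not_nonempty_iff] at hcon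
    have h1 := hVx x (Submodule.subset_span hx)
    have h2 : Vᴴ *ᵥ x = 0 := Subsingleton.elim _ _
    rw [h2, Matrix.mulVec_zero] at h1
    rw [← h1] at hx1
    simp at hx1
  have hBA : MW B ⊆ MW A := by
    rw [hB]
    exact MW_compress_subset A V hV
  have hsupp : ∀ z : ℂ, ‖z‖ = 1 → supp A z ≤ supp B z := by
    intro z hz
    by_contra hcon
    push Not at hcon
    have hopen : IsOpen {y : ℂ | supp B y < supp A y} :=
      isOpen_lt (supp_continuous B) (supp_continuous A)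
    obtain ⟨ε, hε, hball⟩ := Metric.isOpen_iff.mp hopen z hcon
    obtain ⟨w, hw, hwd, x, hx, hx1, hxs⟩ := dense_regset A hS hgen z hz ε hε
    have h1 : supp B w < supp A w := hball (by rw [Metric.mem_ball, dist_eq_norm]; exact hwd)
    have h2 := le_supp B w _ (hreg x hx hx1)
    linarith
  intro p hp
  have hpB : p ∈ MW B := by
    apply mem_of_supp
    intro z hz
    exact (le_supp A z p hp).trans (hsupp z hz)
  obtain ⟨y, hy, hyp⟩ := hpB
  refine ⟨V *ᵥ y, hVM y, ?_, ?_⟩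
  · rw [dot_iso V hV, hy]
  · rw [← quad_iso, ← hB, hyp]

theorem reduces_aux {ι : Type*} [Fintype ι] [DecidableEq ι] {N k : ℕ} (C : Matrix ι ι ℂ)
    (V : Matrix ι (Fin k) ℂ) (Y : Fin N → Matrix ι ι ℂ) (M : Submodule ℂ (ι → ℂ))
    (hVM : ∀ y, V *ᵥ y ∈ M) (hVx : ∀ x ∈ M, V *ᵥ (Vᴴ *ᵥ x) = x)
    (hYM : ∀ p y, Y p *ᵥ y ∈ M)
    (h1 : ∀ x y, ∑ p, star (Y p *ᵥ x) ⬝ᵥ (Y p *ᵥ y) = star x ⬝ᵥ y)
    (h2 : ∀ x y, ∑ p, star (Y p *ᵥ x) ⬝ᵥ (C *ᵥ (Y p *ᵥ y)) = star x ⬝ᵥ (C *ᵥ y))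
    (c : Fin N → ℂ) (hc : ∀ p, ∀ x ∈ M, Y p *ᵥ x = c p • x) (x : ι → ℂ) (hx : x ∈ M) :
    C *ᵥ x ∈ M := by
  have hproj : ∀ m ∈ M, ∀ z, star m ⬝ᵥ z = star m ⬝ᵥ (V *ᵥ (Vᴴ *ᵥ z)) := by
    intro m hm z
    conv_lhs => rw [← hVx m hm]
    rw [iso_dot]
    conv_rhs => rw [iso_dot']
  obtain ⟨x', hx'⟩ : ∃ x' : ι → ℂ, x' = V *ᵥ (Vᴴ *ᵥ (C *ᵥ x)) := ⟨_, rfl⟩
  have hx'M : x' ∈ M := by rw [hx']; exact hVM _
  have key : ∀ y : ι → ℂ, star y ⬝ᵥ (C *ᵥ x) = star y ⬝ᵥ x' := by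
    intro y
    rw [← h2 y x, ← h1 y x']
    apply sum_congr rfl
    intro p _
    rw [hc p x hx, hc p x' hx'M, Matrix.mulVec_smul, dotProduct_smul, dotProduct_smul,
      hproj _ (hYM p y), hx']
  have h3 : C *ᵥ x = x' := by
    have h4 := key (C *ᵥ x - x')
    have h5 : star (C *ᵥ x - x') ⬝ᵥ (C *ᵥ x - x') = 0 := by
      rw [dotProduct_sub, h4, sub_self]
    have h6 : C *ᵥ x - x' = 0 := dot_self_re_eq_zero (by rw [h5]; simp)
    exact sub_eq_zero.mp h6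
  rw [h3]
  exact hx'M

theorem reduces {ι : Type*} [Fintype ι] [DecidableEq ι] [Nonempty ι] (A : Matrix ι ι ℂ)
    (hA : FinPropD A) (hne : (RegSet A).Nonempty) {k : ℕ} (V : Matrix ι (Fin k) ℂ)
    (hV : Vᴴ * V = 1)
    (hVM : ∀ y, V *ᵥ y ∈ Submodule.span ℂ (RegSet A))
    (hVx : ∀ x ∈ Submodule.span ℂ (RegSet A), V *ᵥ (Vᴴ *ᵥ x) = x)
    (hD : FinDil (Vᴴ * A * V) A) :
    ∀ x ∈ Submodule.span ℂ (RegSet A), A *ᵥ x ∈ Submodule.span ℂ (RegSet A) ∧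
      Aᴴ *ᵥ x ∈ Submodule.span ℂ (RegSet A) := by
  obtain ⟨N, R, hR1, hR2⟩ := hD
  obtain ⟨r, hr⟩ : ∃ r : Fin N → Matrix (Fin k) ι ℂ, r = fun p => Matrix.of (R p) := ⟨_, rfl⟩
  have e1 : ∑ p, (r p)ᴴ * r p = 1 := by
    ext a b
    rw [Matrix.sum_apply, Matrix.one_apply, ← hR1 a b]
    apply sum_congr rfl
    intro p _
    rw [Matrix.mul_apply]
    apply sum_congr rfl
    intro i _
    rw [conjTranspose_apply, hr]
    rfl
  have e2 : ∑ p, (r p)ᴴ * (Vᴴ * A * V) * r p = A := by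
    ext a b
    rw [Matrix.sum_apply, ← hR2 a b]
    apply sum_congr rfl
    intro p _
    rw [Matrix.mul_apply, sum_comm]
    apply sum_congr rfl
    intro j _
    rw [Matrix.mul_apply, sum_mul]
    apply sum_congr rfl
    intro i _
    rw [conjTranspose_apply, hr]
    simp only [Matrix.of_apply, Complex.star_def]
    ring
  obtain ⟨Y, hY⟩ : ∃ Y : Fin N → Matrix ι ι ℂ, Y = fun p => V * r p := ⟨_, rfl⟩
  have hYv : ∀ p x, Y p *ᵥ x = V *ᵥ (r p *ᵥ x) := by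
    intro p x
    rw [hY, Matrix.mulVec_mulVec]
  have F1 : ∀ x y, ∑ p, star (Y p *ᵥ x) ⬝ᵥ (Y p *ᵥ y) = star x ⬝ᵥ y := by
    intro x y
    have : ∀ p, star (Y p *ᵥ x) ⬝ᵥ (Y p *ᵥ y) = star x ⬝ᵥ (((r p)ᴴ * r p) *ᵥ y) := by
      intro p
      rw [hYv, hYv, dot_iso V hV, iso_dot, Matrix.mulVec_mulVec]
    simp only [this]
    rw [← dotProduct_sum, ← Matrix.sum_mulVec, e1, Matrix.one_mulVec]
  have F2 : ∀ x y, ∑ p, star (Y p *ᵥ x) ⬝ᵥ (A *ᵥ (Y p *ᵥ y)) = star x ⬝ᵥ (A *ᵥ y) := by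
    intro x y
    have : ∀ p, star (Y p *ᵥ x) ⬝ᵥ (A *ᵥ (Y p *ᵥ y)) =
        star x ⬝ᵥ (((r p)ᴴ * (Vᴴ * A * V) * r p) *ᵥ y) := by
      intro p
      rw [hYv, hYv, ← quad_iso, iso_dot, Matrix.mulVec_mulVec, Matrix.mulVec_mulVec,
        ← Matrix.mul_assoc]
    simp only [this]
    rw [← dotProduct_sum, ← Matrix.sum_mulVec, e2]
  have F2' : ∀ x y, ∑ p, star (Y p *ᵥ x) ⬝ᵥ (Aᴴ *ᵥ (Y p *ᵥ y)) = star x ⬝ᵥ (Aᴴ *ᵥ y) := by
    intro x y
    simp only [quad_conjTranspose]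
    rw [← map_sum, F2]
  have hYM : ∀ p y, Y p *ᵥ y ∈ Submodule.span ℂ (RegSet A) := by
    intro p y
    rw [hYv]
    exact hVM _
  have hcont : ∀ u ∈ RegSet A, ∀ p, ∃ c : ℂ, Y p *ᵥ u = c • u := by
    rintro u ⟨w, hw, hs, _⟩ p
    have g1 : ∀ p, 0 ≤ (star (Y p *ᵥ u) ⬝ᵥ (NN A w *ᵥ (Y p *ᵥ u))).re := fun p =>
      (Complex.le_def.mp ((NN_psd A w).dotProduct_mulVec_nonneg _)).1
    have g2 : ∑ p, (star (Y p *ᵥ u) ⬝ᵥ (NN A w *ᵥ (Y p *ᵥ u))).re = 0 := by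
      simp only [NN_quad, Complex.ofReal_re]
      rw [sum_sub_distrib, ← mul_sum, ← Complex.re_sum, ← Complex.re_sum, ← mul_sum, F1, F2]
      have := (hs.2 u).mpr ⟨1, by simp⟩
      linarith
    have g3 := (sum_eq_zero_iff_of_nonneg (fun p _ => g1 p)).mp g2 p (mem_univ p)
    have g4 : NN A w *ᵥ (Y p *ᵥ u) = 0 := by
      rw [← (NN_psd A w).dotProduct_mulVec_zero_iff]
      apply Complex.ext
      · exact g3
      · rw [NN_quad]
        simp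
    exact (hs.ker _).mp g4
  have hself : ∀ u ∈ RegSet A, star u ⬝ᵥ u ≠ 0 := by
    rintro u ⟨w, hw, hs, _⟩ h
    exact hs.1 (dot_self_re_eq_zero (by rw [h]; simp))
  have hone : ∀ u ∈ RegSet A, ∀ u' ∈ RegSet A, ∀ c c' : Fin N → ℂ,
      (∀ p, Y p *ᵥ u = c p • u) → (∀ p, Y p *ᵥ u' = c' p • u') →
      ∑ p, starRingEnd ℂ (c p) * c' p = 1 := by
    intro u hu u' hu' c c' hc hc'
    have k1 : (∑ p, starRingEnd ℂ (c p) * c' p) * (star u ⬝ᵥ u') = star u ⬝ᵥ u' := by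
      rw [← F1 u u', sum_mul]
      apply sum_congr rfl
      intro p _
      rw [hc, hc', star_smul, smul_dotProduct, dotProduct_smul, smul_eq_mul, smul_eq_mul,
        Complex.star_def, F1, mul_assoc]
    have k2 : (∑ p, starRingEnd ℂ (c p) * c' p) * (star u ⬝ᵥ (A *ᵥ u')) =
        star u ⬝ᵥ (A *ᵥ u') := by
      conv_rhs => rw [← F2 u u']
      rw [sum_mul]
      apply sum_congr rfl
      intro p _
      rw [hc, hc', star_smul, smul_dotProduct, Matrix.mulVec_smul, dotProduct_smul, smul_eq_mul,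
        smul_eq_mul, Complex.star_def, mul_assoc]
    have k3 : (∑ p, starRingEnd ℂ (c p) * c' p) * (star u ⬝ᵥ (Aᴴ *ᵥ u')) =
        star u ⬝ᵥ (Aᴴ *ᵥ u') := by
      conv_rhs => rw [← F2' u u']
      rw [sum_mul]
      apply sum_congr rfl
      intro p _
      rw [hc, hc', star_smul, smul_dotProduct, Matrix.mulVec_smul, dotProduct_smul, smul_eq_mul,
        smul_eq_mul, Complex.star_def, mul_assoc]
    rcases coupled A hA hu hu' with h | h | h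
    · exact mul_right_cancel₀ h (by rw [one_mul]; exact k1)
    · exact mul_right_cancel₀ h (by rw [one_mul]; exact k2)
    · have h' : star u ⬝ᵥ (Aᴴ *ᵥ u') ≠ 0 := by
        rw [quad_conjTranspose]
        intro h0
        exact h ((map_eq_zero _).mp h0)
      exact mul_right_cancel₀ h' (by rw [one_mul]; exact k3)
  obtain ⟨u0, hu0⟩ := hne
  choose c hc using hcont u0 hu0
  have hall : ∀ u ∈ RegSet A, ∀ p, Y p *ᵥ u = c p • u := by
    intro u hu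
    choose c' hc' using hcont u hu
    have m1 := hone u0 hu0 u hu c c' hc hc'
    have m2 := hone u0 hu0 u0 hu0 c c hc hc
    have m3 := hone u hu u hu c' c' hc' hc'
    have m4 := hone u hu u0 hu0 c' c hc' hc
    have m5 : ∑ p, ‖c p - c' p‖ ^ 2 = 0 := by
      have m6 : ((∑ p, ‖c p - c' p‖ ^ 2 : ℝ) : ℂ) = 0 := by
        have m7 : ∀ p, ((‖c p - c' p‖ ^ 2 : ℝ) : ℂ) = starRingEnd ℂ (c p) * c p
            - starRingEnd ℂ (c p) * c' p - starRingEnd ℂ (c' p) * c p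
            + starRingEnd ℂ (c' p) * c' p := by
          intro p
          rw [← Complex.normSq_eq_norm_sq, Complex.normSq_eq_conj_mul_self, map_sub]
          ring
        rw [Complex.ofReal_sum]
        simp only [m7]
        rw [sum_add_distrib, sum_sub_distrib, sum_sub_distrib, m1, m2, m3, m4]
        ring
      exact_mod_cast m6
    intro p
    have m8 := (sum_eq_zero_iff_of_nonneg (fun p _ => sq_nonneg _)).mp m5 p (mem_univ p)
    have m9 : c p = c' p := by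
      have : ‖c p - c' p‖ = 0 := by
        exact pow_eq_zero_iff (two_ne_zero) |>.mp m8
      exact sub_eq_zero.mp (norm_eq_zero.mp this)
    rw [hc' p, m9]
  have hspan : ∀ p, ∀ x ∈ Submodule.span ℂ (RegSet A), Y p *ᵥ x = c p • x := by
    intro p x hx
    induction hx using Submodule.span_induction with
    | mem y hy => exact hall y hy p
    | zero => simp
    | add a b _ _ ha hb => rw [Matrix.mulVec_add, ha, hb, smul_add]
    | smul s a _ ha => rw [Matrix.mulVec_smul, ha, smul_comm]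
  intro x hx
  exact ⟨reduces_aux A V Y _ hVM hVx hYM F1 F2 c hspan x hx,
    reduces_aux Aᴴ V Y _ hVM hVx hYM F1 F2' c hspan x hx⟩

theorem finPropD_of_rank {ι : Type*} [Fintype ι] [DecidableEq ι] [Nonempty ι]
    (A : Matrix ι ι ℂ) (hS : Smo A) {k : ℕ} (V : Matrix ι (Fin k) ℂ) (hV : Vᴴ * V = 1)
    (hsub : MW A ⊆ MW (Vᴴ * A * V))
    (w : ℂ) (hw : ‖w‖ = 1) (lam : ℝ) (g : ι → ℂ)
    (h : ∀ y : Fin k → ℂ, (w * (star (V *ᵥ y) ⬝ᵥ (A *ᵥ (V *ᵥ y)))).re =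
      lam * (star (V *ᵥ y) ⬝ᵥ (V *ᵥ y)).re - ‖star g ⬝ᵥ (V *ᵥ y)‖ ^ 2) :
    FinPropD (Vᴴ * A * V) := by
  obtain ⟨B, hB⟩ : ∃ B, B = Vᴴ * A * V := ⟨_, rfl⟩
  rw [← hB] at hsub ⊢
  obtain ⟨g', hg'⟩ : ∃ g' : Fin k → ℂ, g' = Vᴴ *ᵥ g := ⟨_, rfl⟩
  have hq : ∀ y : Fin k → ℂ, (w * (star y ⬝ᵥ (B *ᵥ y))).re =
      lam * (star y ⬝ᵥ y).re - ‖star g' ⬝ᵥ y‖ ^ 2 := by
    intro y
    rw [hB, quad_iso, h y, dot_iso V hV, iso_dot' V y g, hg']
  have hw0 : w ≠ 0 := by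
    rintro rfl
    simp at hw
  have hmat : (w • B) + (w • B)ᴴ = (2 : ℂ) • ((lam : ℂ) • 1 - vecMulVec g' (star g')) := by
    have h0 : (w • B) + (w • B)ᴴ - (2 : ℂ) • ((lam : ℂ) • 1 - vecMulVec g' (star g')) = 0 := by
      apply eq_zero_of_quad
      intro y
      have h1 := quad_herm_part (w • B) y
      rw [Matrix.smul_mulVec, dotProduct_smul, smul_eq_mul] at h1
      have h2 : star y ⬝ᵥ (((w • B) + (w • B)ᴴ) *ᵥ y) =
          2 * (((w * (star y ⬝ᵥ (B *ᵥ y))).re : ℝ) : ℂ) := by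
        have h3 : star y ⬝ᵥ ((w • B) *ᵥ y) = w * (star y ⬝ᵥ (B *ᵥ y)) := by
          rw [Matrix.smul_mulVec, dotProduct_smul, smul_eq_mul]
        rw [h3] at h1
        rw [← h1]
        ring
      have h4 : star y ⬝ᵥ (vecMulVec g' (star g') *ᵥ y) = ((‖star g' ⬝ᵥ y‖ ^ 2 : ℝ) : ℂ) := by
        have h5 : vecMulVec g' (star g') *ᵥ y = (star g' ⬝ᵥ y) • g' := by
          ext i
          rw [Matrix.mulVec, dotProduct, Pi.smul_apply, smul_eq_mul, dotProduct, sum_mul]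
          apply sum_congr rfl
          intro j _
          rw [vecMulVec_apply]
          ring
        rw [h5, dotProduct_smul, smul_eq_mul, dot_swap y g', Complex.mul_conj,
          Complex.normSq_eq_norm_sq]
      rw [Matrix.sub_mulVec, dotProduct_sub, h2, hq, Matrix.smul_mulVec, dotProduct_smul,
        Matrix.sub_mulVec, dotProduct_sub, h4, Matrix.smul_mulVec, Matrix.one_mulVec,
        dotProduct_smul, smul_eq_mul, smul_eq_mul, dot_eq_re y]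
      push_cast
      simp
    exact sub_eq_zero.mp h0
  have hk2 : 2 ≤ k := by
    by_contra hcon
    have hk : Subsingleton (Fin k) := by
      rw [← Fintype.card_le_one_iff_subsingleton, Fintype.card_fin]
      omega
    -- all points of MW B coincide
    obtain ⟨p, hp⟩ := MW_nonempty A
    have hall : ∀ p' ∈ MW A, p' = p := by
      intro p' hp'
      obtain ⟨y, hy, hyp⟩ := hsub hp
      obtain ⟨y', hy', hyp'⟩ := hsub hp'
      have hpos : 0 < k := by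
        by_contra h0
        have : k = 0 := by omega
        subst this
        rw [dotProduct] at hy
        simp at hy
      have hfor : ∀ z : Fin k → ℂ, star z ⬝ᵥ z = 1 →
          star z ⬝ᵥ (B *ᵥ z) = B ⟨0, hpos⟩ ⟨0, hpos⟩ := by
        intro z hz
        rw [dotProduct, Fintype.sum_subsingleton _ ⟨0, hpos⟩] at hz ⊢
        rw [Matrix.mulVec, dotProduct, Fintype.sum_subsingleton _ ⟨0, hpos⟩]
        linear_combination (B ⟨0, hpos⟩ ⟨0, hpos⟩) * hz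
      rw [← hyp, ← hyp', hfor y hy, hfor y' hy']
    have hs : ∀ z : ℂ, (z * p).re = supp A z := by
      intro z
      obtain ⟨p', hp', hps⟩ := exists_supp_pt A z
      rw [← hps, hall p' hp']
    have := hS p hp 1 (-1) (by simp) (by simp) (hs 1) (hs (-1))
    norm_num at this
  have hg0 : g' ≠ 0 := by
    intro hg0
    have hline : ∀ p ∈ MW A, (w * p).re = lam := by
      intro p hp
      obtain ⟨y, hy, hyp⟩ := hsub hp
      rw [← hyp, hq, hy, hg0]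
      simp
    obtain ⟨p, hp⟩ := MW_nonempty A
    have h1 : (w * p).re = supp A w := by
      obtain ⟨p', hp', hps⟩ := exists_supp_pt A w
      rw [← hps, hline p hp, hline p' hp']
    have h2 : (-w * p).re = supp A (-w) := by
      obtain ⟨p', hp', hps⟩ := exists_supp_pt A (-w)
      rw [← hps, neg_mul, neg_mul, Complex.neg_re, Complex.neg_re, hline p hp, hline p' hp']
    have h3 := hS p hp w (-w) hw (by rw [norm_neg]; exact hw) h1 h2
    apply hw0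
    have : (2 : ℂ) * w = 0 := by linear_combination h3
    simpa using this
  intro m T hT
  exact rankOne_FinDil B w hw0 lam g' hg0 (by rw [Fintype.card_fin]; exact hk2) hmat T hT

end Pool.Agent.Helper29X1.ND
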