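import Mathlib
import Pool.Agent.Helper29X1.ND.Glue
open Matrix Finset
open scoped ComplexOrder InnerProductSpace TensorProduct

namespace Pool.Agent.Helper29X1.ND

open Pool.Agent.Helper774

theorem psd_rank_one {ι : Type*} [Fintype ι] [DecidableEq ι] {P : Matrix ι ι ℂ}
    (hP : P.PosSemidef) (hr : P.rank ≤ 1) :
    ∃ g : ι → ℂ, ∀ y : ι → ℂ, star y ⬝ᵥ (P *ᵥ y) = ((‖star g ⬝ᵥ y‖ ^ 2 : ℝ) : ℂ) := by
  by_cases h0 : ∀ x : ι → ℂ, P *ᵥ x = 0
  · exact ⟨0, fun y => by rw [h0 y]; simp⟩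
  push Not at h0
  obtain ⟨x, hx⟩ := h0
  have hreal : star x ⬝ᵥ (P *ᵥ x) = (((star x ⬝ᵥ (P *ᵥ x)).re : ℝ) : ℂ) := by
    apply Complex.ext
    · simp
    · have := congrArg Complex.im (herm_swap hP.1 x x)
      rw [Complex.conj_im] at this
      rw [Complex.ofReal_im]
      linarith
  have hpos : 0 < (star x ⬝ᵥ (P *ᵥ x)).re := by
    have h1 : 0 ≤ (star x ⬝ᵥ (P *ᵥ x)).re :=
      (Complex.le_def.mp (hP.dotProduct_mulVec_nonneg x)).1
    rcases h1.lt_or_eq with h | h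
    · exact h
    · exfalso
      apply hx
      rw [← hP.dotProduct_mulVec_zero_iff, hreal, ← h]
      simp
  obtain ⟨a, ha⟩ : ∃ a : ℝ, a = (star x ⬝ᵥ (P *ᵥ x)).re := ⟨_, rfl⟩
  rw [← ha] at hreal hpos
  have hfin : Module.finrank ℂ (LinearMap.range P.mulVecLin) ≤ 1 := hr
  obtain ⟨v, hv⟩ := finrank_le_one_iff.mp hfin
  have hc : ∀ y : ι → ℂ, ∃ c : ℂ, P *ᵥ y = c • (P *ᵥ x) := by
    intro y
    obtain ⟨c1, hc1⟩ := hv ⟨P *ᵥ x, ⟨x, rfl⟩⟩
    obtain ⟨c2, hc2⟩ := hv ⟨P *ᵥ y, ⟨y, rfl⟩⟩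
    have e1 : c1 • (v : ι → ℂ) = P *ᵥ x := congrArg Subtype.val hc1
    have e2 : c2 • (v : ι → ℂ) = P *ᵥ y := congrArg Subtype.val hc2
    have hc10 : c1 ≠ 0 := by
      rintro rfl
      rw [zero_smul] at e1
      exact hx e1.symm
    refine ⟨c2 / c1, ?_⟩
    rw [← e1, ← e2, smul_smul, div_mul_cancel₀ _ hc10]
  refine ⟨((1 / Real.sqrt a : ℝ) : ℂ) • (P *ᵥ x), ?_⟩
  intro y
  obtain ⟨c, hcy⟩ := hc y
  have h1 : star x ⬝ᵥ (P *ᵥ y) = c * a := by
    rw [hcy, dotProduct_smul, smul_eq_mul, hreal]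
  have h2 : star y ⬝ᵥ (P *ᵥ x) = starRingEnd ℂ c * a := by
    rw [herm_swap hP.1 y x, h1, map_mul, Complex.conj_ofReal]
  have h3 : star (P *ᵥ x) ⬝ᵥ y = c * a := by
    rw [dot_swap, h2, map_mul, Complex.conj_conj, Complex.conj_ofReal]
  rw [star_smul, smul_dotProduct, h3, hcy, dotProduct_smul, h2, smul_eq_mul, smul_eq_mul,
    norm_mul, norm_mul, norm_star, Complex.norm_real, Complex.norm_real, mul_pow, mul_pow,
    Real.norm_eq_abs, Real.norm_eq_abs, sq_abs, sq_abs, div_pow, Real.sq_sqrt hpos.le, one_pow]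
  have h4 : c * (starRingEnd ℂ c * (a : ℂ)) = ((‖c‖ ^ 2 * a : ℝ) : ℂ) := by
    rw [← mul_assoc, Complex.mul_conj, Complex.normSq_eq_norm_sq]
    push_cast
    ring
  rw [h4]
  congr 1
  field_simp

theorem gap_quad {ι : Type*} [Fintype ι] [DecidableEq ι] (A : Matrix ι ι ℂ) (w : ℂ) (lam : ℝ)
    (x : ι → ℂ) : star x ⬝ᵥ (((lam : ℂ) • (1 : Matrix ι ι ℂ) - Hu A w) *ᵥ x) =
      ((lam * (star x ⬝ᵥ x).re - (w * (star x ⬝ᵥ (A *ᵥ x))).re : ℝ) : ℂ) := by
  rw [Matrix.sub_mulVec, dotProduct_sub, quad_Hu, Matrix.smul_mulVec, Matrix.one_mulVec,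
    dotProduct_smul, smul_eq_mul, dot_eq_re x, ← Complex.ofReal_mul, ← Complex.ofReal_sub,
    Complex.ofReal_re]

theorem stop_of_gap {n : ℕ} (A : Matrix (Fin n) (Fin n) ℂ) (w : ℂ) (lam : ℝ)
    (hP : ((lam : ℂ) • (1 : Matrix (Fin n) (Fin n) ℂ) - Hu A w).PosSemidef)
    (hr : ((lam : ℂ) • (1 : Matrix (Fin n) (Fin n) ℂ) - Hu A w).rank + 1 = n) :
    ∃ x, STop A w x := by
  obtain ⟨G, hG⟩ : ∃ G, G = (lam : ℂ) • (1 : Matrix (Fin n) (Fin n) ℂ) - Hu A w := ⟨_, rfl⟩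
  have hGq : ∀ x : Fin n → ℂ, star x ⬝ᵥ (G *ᵥ x) =
      ((lam * (star x ⬝ᵥ x).re - (w * (star x ⬝ᵥ (A *ᵥ x))).re : ℝ) : ℂ) := by
    intro x
    rw [hG, gap_quad]
  rw [← hG] at hP hr
  have h1 := LinearMap.finrank_range_add_finrank_ker G.mulVecLin
  have h2 : Module.finrank ℂ (LinearMap.range G.mulVecLin) = G.rank := rfl
  rw [h2, Module.finrank_fin_fun] at h1
  have h3 : Module.finrank ℂ (LinearMap.ker G.mulVecLin) = 1 := by omega
  obtain ⟨v, hv0, hv⟩ := finrank_eq_one_iff'.mp h3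
  obtain ⟨x, hx⟩ : ∃ x : Fin n → ℂ, x = v := ⟨_, rfl⟩
  have hx0 : x ≠ 0 := by
    intro h
    apply hv0
    apply Subtype.ext
    rw [← hx, h]
    rfl
  have hGx : G *ᵥ x = 0 := by
    rw [hx]
    exact v.2
  have hne : Nonempty (Fin n) := by
    by_contra hcon
    rw [not_nonempty_iff] at hcon
    exact hx0 (Subsingleton.elim _ _)
  have hlow : lam ≤ supp A w := by
    have e1 := hGq x
    rw [hGx, dotProduct_zero] at e1
    have e2 : lam * (star x ⬝ᵥ x).re - (w * (star x ⬝ᵥ (A *ᵥ x))).re = 0 := by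
      exact_mod_cast e1.symm
    have e3 := quad_le_supp A w x
    have e4 : 0 < (star x ⬝ᵥ x).re := by
      rcases (dot_self_re_nonneg x).lt_or_eq with h | h
      · exact h
      · exact absurd (dot_self_re_eq_zero h.symm) hx0
    by_contra hcon
    push Not at hcon
    have := mul_lt_mul_of_pos_right hcon e4
    linarith
  have hup : supp A w ≤ lam := by
    apply supp_le
    rintro p ⟨y, hy, rfl⟩
    have e1 := (Complex.le_def.mp (hP.dotProduct_mulVec_nonneg y)).1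
    rw [hGq, hy] at e1
    simp only [Complex.zero_re, Complex.one_re, Complex.ofReal_re, mul_one] at e1
    linarith
  have heq : supp A w = lam := le_antisymm hup hlow
  refine ⟨x, hx0, fun y => ?_⟩
  rw [heq]
  constructor
  · intro h
    have e1 : G *ᵥ y = 0 := by
      rw [← hP.dotProduct_mulVec_zero_iff, hGq, h]
      simp
    obtain ⟨c, hc⟩ := hv ⟨y, e1⟩
    refine ⟨c, ?_⟩
    have := congrArg Subtype.val hc
    rw [hx]
    exact this.symm
  · rintro ⟨c, rfl⟩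
    have e1 : G *ᵥ (c • x) = 0 := by rw [Matrix.mulVec_smul, hGx, smul_zero]
    have e2 := hGq (c • x)
    rw [e1, dotProduct_zero] at e2
    have e3 : lam * (star (c • x) ⬝ᵥ (c • x)).re -
        (w * (star (c • x) ⬝ᵥ (A *ᵥ (c • x)))).re = 0 := by
      exact_mod_cast e2.symm
    linarith

theorem gap_of_quad {ι : Type*} [Fintype ι] [DecidableEq ι] (B : Matrix ι ι ℂ) (w : ℂ)
    (lam : ℝ) (g : ι → ℂ)
    (hq : ∀ y : ι → ℂ, (w * (star y ⬝ᵥ (B *ᵥ y))).re =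
      lam * (star y ⬝ᵥ y).re - ‖star g ⬝ᵥ y‖ ^ 2) :
    ((lam : ℂ) • (1 : Matrix ι ι ℂ) - Hu B w).PosSemidef ∧
      ((lam : ℂ) • (1 : Matrix ι ι ℂ) - Hu B w).rank ≤ 1 := by
  have h : (lam : ℂ) • (1 : Matrix ι ι ℂ) - Hu B w = vecMulVec g (star g) := by
    have h0 : (lam : ℂ) • (1 : Matrix ι ι ℂ) - Hu B w - vecMulVec g (star g) = 0 := by
      apply eq_zero_of_quad
      intro y
      have h4 : star y ⬝ᵥ (vecMulVec g (star g) *ᵥ y) = ((‖star g ⬝ᵥ y‖ ^ 2 : ℝ) : ℂ) := by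
        have h5 : vecMulVec g (star g) *ᵥ y = (star g ⬝ᵥ y) • g := by
          ext i
          rw [Matrix.mulVec, dotProduct, Pi.smul_apply, smul_eq_mul, dotProduct, sum_mul]
          apply sum_congr rfl
          intro j _
          rw [vecMulVec_apply]
          ring
        rw [h5, dotProduct_smul, smul_eq_mul, dot_swap y g, Complex.mul_conj,
          Complex.normSq_eq_norm_sq]
      rw [Matrix.sub_mulVec, dotProduct_sub, h4, gap_quad, hq y, ← Complex.ofReal_sub]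
      norm_num
    exact sub_eq_zero.mp h0
  rw [h]
  exact ⟨Matrix.posSemidef_vecMulVec_self_star g, Matrix.rank_vecMulVec_le _ _⟩

theorem forward {n : ℕ} (A : Matrix (Fin n) (Fin n) ℂ) [Nonempty (Fin n)] (hA : FinPropD A)
    (hS : Smo A) (hgen : ∀ w0 : ℂ, ‖w0‖ = 1 → ∀ ε : ℝ, 0 < ε →
      ∃ w : ℂ, ‖w‖ = 1 ∧ ‖w - w0‖ < ε ∧ ∃ x, STop A w x) :
    ∃ (k : ℕ) (V : Matrix (Fin n) (Fin k) ℂ), Vᴴ * V = 1 ∧ A * V = V * (Vᴴ * A * V) ∧
      Aᴴ * V = V * (Vᴴ * A * V)ᴴ ∧ MW (Vᴴ * A * V) = MW A ∧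
      ∃ w : ℂ, ‖w‖ = 1 ∧ ∃ lam : ℝ,
        ((lam : ℂ) • (1 : Matrix (Fin k) (Fin k) ℂ) - Hu (Vᴴ * A * V) w).PosSemidef ∧
        ((lam : ℂ) • (1 : Matrix (Fin k) (Fin k) ℂ) - Hu (Vᴴ * A * V) w).rank ≤ 1 := by
  obtain ⟨k, V, hV, hVM, hVx⟩ := exists_iso (Submodule.span ℂ (RegSet A))
  have hrange := range_span A hS hgen
  obtain ⟨w, hw, g, hg⟩ := span_rank A hA
  have hsub : MW A ⊆ MW (Vᴴ * A * V) := by
    intro p hp
    obtain ⟨x, hx, hx1, hxp⟩ := hrange p hp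
    refine ⟨Vᴴ *ᵥ x, ?_, ?_⟩
    · rw [← dot_iso V hV, hVx x hx, hx1]
    · rw [quad_iso, hVx x hx, hxp]
  have hq0 : ∀ y : Fin k → ℂ, (w * (star (V *ᵥ y) ⬝ᵥ (A *ᵥ (V *ᵥ y)))).re =
      supp A w * (star (V *ᵥ y) ⬝ᵥ (V *ᵥ y)).re - ‖star g ⬝ᵥ (V *ᵥ y)‖ ^ 2 := by
    intro y
    have h1 := hg (V *ᵥ y) (hVM y)
    rw [NN_quad, Complex.ofReal_re] at h1
    linarith
  have hB : FinPropD (Vᴴ * A * V) := finPropD_of_rank A hS V hV hsub w hw _ g hq0
  have hD : FinDil (Vᴴ * A * V) A := hB n A hsub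
  have hne : (RegSet A).Nonempty := by
    obtain ⟨w, hw, _, x, hx, _⟩ := dense_regset A hS hgen 1 (by simp) 1 one_pos
    exact ⟨x, hx⟩
  have hred := reduces A hA hne V hV hVM hVx hD
  have hcol : ∀ (C : Matrix (Fin n) (Fin n) ℂ),
      (∀ x ∈ Submodule.span ℂ (RegSet A), C *ᵥ x ∈ Submodule.span ℂ (RegSet A)) →
      C * V = V * (Vᴴ * C * V) := by
    intro C hC
    apply Matrix.ext_of_mulVec_single
    intro i
    have h1 := hVx _ (hC _ (hVM (Pi.single i 1)))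
    rw [← Matrix.mulVec_mulVec, ← Matrix.mulVec_mulVec, ← Matrix.mulVec_mulVec,
      ← Matrix.mulVec_mulVec, h1]
  refine ⟨k, V, hV, hcol A fun x hx => (hred x hx).1, ?_, ?_, w, hw, supp A w, ?_⟩
  · have h1 := hcol Aᴴ fun x hx => (hred x hx).2
    have h2 : (Vᴴ * A * V)ᴴ = Vᴴ * Aᴴ * V := by
      rw [conjTranspose_mul, conjTranspose_mul, conjTranspose_conjTranspose, Matrix.mul_assoc]
    rw [h2, ← h1]
  · exact Set.Subset.antisymm (MW_compress_subset A V hV) hsub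
  · apply gap_of_quad (Vᴴ * A * V) w (supp A w) (Vᴴ *ᵥ g)
    intro y
    rw [quad_iso, hq0 y, dot_iso V hV, iso_dot' V y g]

theorem backward {n : ℕ} (A : Matrix (Fin n) (Fin n) ℂ) [Nonempty (Fin n)]
    (hS : Smo A) {k : ℕ} (V : Matrix (Fin n) (Fin k) ℂ) (hV : Vᴴ * V = 1)
    (hsub : MW A ⊆ MW (Vᴴ * A * V)) (w : ℂ) (hw : ‖w‖ = 1) (lam : ℝ)
    (hP : ((lam : ℂ) • (1 : Matrix (Fin k) (Fin k) ℂ) - Hu (Vᴴ * A * V) w).PosSemidef)
    (hr : ((lam : ℂ) • (1 : Matrix (Fin k) (Fin k) ℂ) - Hu (Vᴴ * A * V) w).rank ≤ 1) :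
    FinPropD A := by
  obtain ⟨g, hg⟩ := psd_rank_one hP hr
  apply FinPropD.transfer V hV hsub
  apply finPropD_of_rank A hS V hV hsub w hw lam (V *ᵥ g)
  intro y
  have h1 := hg y
  rw [gap_quad] at h1
  have h2 : lam * (star y ⬝ᵥ y).re - (w * (star y ⬝ᵥ ((Vᴴ * A * V) *ᵥ y))).re =
      ‖star g ⬝ᵥ y‖ ^ 2 := by exact_mod_cast h1
  rw [← quad_iso, dot_iso V hV, dot_iso V hV]
  linarith

/-- Two support directions at one point give a common eigenvector. -/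
theorem smo_of_no_common {n : ℕ} (A : Matrix (Fin n) (Fin n) ℂ)
    (hno : ∀ x : Fin n → ℂ, x ≠ 0 → ∀ a a' : ℂ, A *ᵥ x = a • x → Aᴴ *ᵥ x = a' • x → False) :
    Smo A := by
  rintro p ⟨x, hx, hxp⟩ w w' hw hw' hs hs'
  have hx0 : x ≠ 0 := by
    rintro rfl
    simp at hx
  have hstd : ∀ z : ℂ, (z * p).re = supp A z → NN A z *ᵥ x = 0 := by
    intro z hz
    rw [NN_ker, hxp, hx, hz]
    simp
  have h1 := hstd w hs
  have h2 := hstd w' hs'
  have hexp : ∀ z : ℂ, NN A z *ᵥ x = 0 →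
      z • (A *ᵥ x) + (starRingEnd ℂ z) • (Aᴴ *ᵥ x) = ((2 * supp A z : ℝ) : ℂ) • x := by
    intro z hz
    rw [NN, Matrix.sub_mulVec, Hu, Matrix.smul_mulVec, Matrix.smul_mulVec, Matrix.one_mulVec,
      Matrix.add_mulVec, Matrix.smul_mulVec, conjTranspose_smul, Matrix.smul_mulVec,
      sub_eq_zero] at hz
    have h3 := congrArg (fun v => (2 : ℂ) • v) hz
    simp only [smul_smul] at h3
    rw [show (2 : ℂ) * (1 / 2) = 1 by norm_num, one_smul] at h3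
    rw [← Complex.star_def, ← h3]
    congr 1
    push_cast
    ring
  have e1 := hexp w h1
  have e2 := hexp w' h2
  by_contra hne
  have hn1 : w * starRingEnd ℂ w = 1 := by
    rw [Complex.mul_conj, Complex.normSq_eq_norm_sq, hw]
    simp
  have hn2 : w' * starRingEnd ℂ w' = 1 := by
    rw [Complex.mul_conj, Complex.normSq_eq_norm_sq, hw']
    simp
  obtain ⟨d, hd⟩ : ∃ d : ℂ, d = w * starRingEnd ℂ w' - w' * starRingEnd ℂ w := ⟨_, rfl⟩
  by_cases hd0 : d = 0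
  · -- antiparallel directions: `Re (w A)` is scalar
    have hsq : w ^ 2 = w' ^ 2 := by
      rw [hd] at hd0
      linear_combination (w * w') * hd0 - w ^ 2 * hn2 + w' ^ 2 * hn1
    have hneg : w' = -w := by
      rcases sq_eq_sq_iff_eq_or_eq_neg.mp hsq with h | h
      · exact absurd h hne
      · rw [h, neg_neg]
    have hall : ∀ y : Fin n → ℂ,
        (w * (star y ⬝ᵥ (A *ᵥ y))).re = (w * p).re * (star y ⬝ᵥ y).re := by
      intro y
      have f1 := quad_le_supp A w y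
      have f2 := quad_le_supp A w' y
      rw [← hs] at f1
      rw [← hs', hneg] at f2
      have f3 : (-w * (star y ⬝ᵥ (A *ᵥ y))).re = -(w * (star y ⬝ᵥ (A *ᵥ y))).re := by
        rw [neg_mul, Complex.neg_re]
      have f4 : (-w * p).re = -(w * p).re := by
        rw [neg_mul, Complex.neg_re]
      rw [f3, f4] at f2
      linarith
    have hHu : Hu A w = (((w * p).re : ℝ) : ℂ) • (1 : Matrix (Fin n) (Fin n) ℂ) := by
      have : Hu A w - (((w * p).re : ℝ) : ℂ) • (1 : Matrix (Fin n) (Fin n) ℂ) = 0 := by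
        apply eq_zero_of_quad
        intro y
        rw [Matrix.sub_mulVec, dotProduct_sub, quad_Hu, hall y, Matrix.smul_mulVec,
          Matrix.one_mulVec, dotProduct_smul, smul_eq_mul, dot_eq_re y]
        push_cast
        simp
      exact sub_eq_zero.mp this
    -- an eigenvector of `A` is an eigenvector of `Aᴴ`
    have hnz : Nonempty (Fin n) := by
      by_contra hcon
      rw [not_nonempty_iff] at hcon
      exact hx0 (Subsingleton.elim _ _)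
    have hnt : Nontrivial (Fin n → ℂ) := ⟨⟨x, 0, hx0⟩⟩
    obtain ⟨μ, hμ⟩ := Module.End.exists_eigenvalue (Matrix.toLin' A)
    obtain ⟨y, hy, hy0⟩ := hμ.exists_hasEigenvector
    rw [Module.End.mem_eigenspace_iff, Matrix.toLin'_apply] at hy
    have hw0 : starRingEnd ℂ w ≠ 0 := by
      intro h
      rw [h, mul_zero] at hn1
      exact zero_ne_one hn1
    have g1 : (1 / 2 : ℂ) • (w • (A *ᵥ y) + (starRingEnd ℂ w) • (Aᴴ *ᵥ y)) =
        (((w * p).re : ℝ) : ℂ) • y := by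
      have := congrArg (fun M => M *ᵥ y) hHu
      simp only [Hu, Matrix.smul_mulVec, Matrix.add_mulVec, conjTranspose_smul,
        Matrix.one_mulVec] at this
      exact this
    refine hno y hy0 μ ((starRingEnd ℂ w)⁻¹ * (2 * (((w * p).re : ℝ) : ℂ) - w * μ)) hy ?_
    have g2 := congrArg (fun v => (starRingEnd ℂ w)⁻¹ • ((2 : ℂ) • v - w • (A *ᵥ y))) g1
    simp only [smul_smul] at g2
    rw [show (2 : ℂ) * (1 / 2) = 1 by norm_num, one_smul, add_sub_cancel_left, smul_smul,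
      inv_mul_cancel₀ hw0, one_smul, hy, smul_smul, ← sub_smul, smul_smul] at g2
    exact g2
  · -- independent directions
    have g1 : d • (A *ᵥ x) = (((2 * supp A w : ℝ) : ℂ) * starRingEnd ℂ w' -
        ((2 * supp A w' : ℝ) : ℂ) * starRingEnd ℂ w) • x := by
      have k1 : (starRingEnd ℂ w') • (w • (A *ᵥ x) + (starRingEnd ℂ w) • (Aᴴ *ᵥ x)) -
          (starRingEnd ℂ w) • (w' • (A *ᵥ x) + (starRingEnd ℂ w') • (Aᴴ *ᵥ x)) =
          d • (A *ᵥ x) := by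
        rw [hd]
        module
      rw [← k1, e1, e2]
      module
    have g2 : d • (Aᴴ *ᵥ x) = (w * ((2 * supp A w' : ℝ) : ℂ) -
        w' * ((2 * supp A w : ℝ) : ℂ)) • x := by
      have k1 : w • (w' • (A *ᵥ x) + (starRingEnd ℂ w') • (Aᴴ *ᵥ x)) -
          w' • (w • (A *ᵥ x) + (starRingEnd ℂ w) • (Aᴴ *ᵥ x)) =
          d • (Aᴴ *ᵥ x) := by
        rw [hd]
        module
      rw [← k1, e1, e2]
      module
    refine hno x hx0 (d⁻¹ * (((2 * supp A w : ℝ) : ℂ) * starRingEnd ℂ w' -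
        ((2 * supp A w' : ℝ) : ℂ) * starRingEnd ℂ w)) (d⁻¹ * (w * ((2 * supp A w' : ℝ) : ℂ) -
        w' * ((2 * supp A w : ℝ) : ℂ))) ?_ ?_
    · rw [mul_smul, ← g1, smul_smul, inv_mul_cancel₀ hd0, one_smul]
    · rw [mul_smul, ← g2, smul_smul, inv_mul_cancel₀ hd0, one_smul]

end Pool.Agent.Helper29X1.ND
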