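import Mathlib
import Pool.Agent.Helper29X1.ND.Assemble
open Matrix Finset
open scoped ComplexOrder InnerProductSpace TensorProduct

namespace Pool.Agent.Helper29X1.ND

open Pool.Agent.Helper774

/-- A matrix with a nearly scalar real part has the dilation property. -/
theorem finPropD_of_gap {k : ℕ} (B : Matrix (Fin k) (Fin k) ℂ) (w : ℂ) (hw : ‖w‖ = 1)
    (lam : ℝ) (hP : ((lam : ℂ) • (1 : Matrix (Fin k) (Fin k) ℂ) - Hu B w).PosSemidef)
    (hr : ((lam : ℂ) • (1 : Matrix (Fin k) (Fin k) ℂ) - Hu B w).rank ≤ 1) : FinPropD B := by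
  have hw0 : w ≠ 0 := by
    rintro rfl
    simp at hw
  rcases Nat.lt_or_ge k 2 with hk | hk
  · rcases Nat.eq_zero_or_pos k with h0 | hpos
    · -- size zero
      subst h0
      intro m T hT
      rcases Nat.eq_zero_or_pos m with hm | hm
      · subst hm
        exact ⟨0, fun p => p.elim0, fun a => a.elim0, fun a => a.elim0⟩
      · exfalso
        have : Nonempty (Fin m) := ⟨⟨0, hm⟩⟩
        obtain ⟨p, hp⟩ := MW_nonempty T
        obtain ⟨x, hx, _⟩ := hT hp
        rw [dotProduct] at hx
        simp at hx
    · have hk1 : k = 1 := by omega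
      subst hk1
      have hB : B = (B 0 0) • (1 : Matrix (Fin 1) (Fin 1) ℂ) := by
        ext i j
        rw [Subsingleton.elim i 0, Subsingleton.elim j 0]
        simp
      rw [hB]
      exact finPropD_scalar _
  · have hne : Nonempty (Fin k) := ⟨⟨0, by omega⟩⟩
    obtain ⟨g, hg⟩ := psd_rank_one hP hr
    have hgap : ∀ y : Fin k → ℂ, lam * (star y ⬝ᵥ y).re - (w * (star y ⬝ᵥ (B *ᵥ y))).re =
        ‖star g ⬝ᵥ y‖ ^ 2 := by
      intro y
      have h1 := hg y
      rw [gap_quad] at h1
      exact_mod_cast h1
    by_cases hg0 : g = 0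
    · -- the range lies on a line
      subst hg0
      have hline : ∀ p ∈ MW B, (w * p).re = lam := by
        rintro p ⟨y, hy, rfl⟩
        have := hgap y
        rw [hy] at this
        simp only [Complex.one_re, mul_one, star_zero, zero_dotProduct, norm_zero] at this
        linarith
      obtain ⟨x1, hx1⟩ := exists_Top B (Complex.I * w)
      obtain ⟨x2, hx2⟩ := exists_Top B (-(Complex.I * w))
      obtain ⟨p1, hp1⟩ : ∃ p1, p1 = star x1 ⬝ᵥ (B *ᵥ x1) := ⟨_, rfl⟩
      obtain ⟨p2, hp2⟩ : ∃ p2, p2 = star x2 ⬝ᵥ (B *ᵥ x2) := ⟨_, rfl⟩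
      have hm1 : p1 ∈ MW B := ⟨x1, hx1.1, hp1.symm⟩
      have hm2 : p2 ∈ MW B := ⟨x2, hx2.1, hp2.symm⟩
      have hup : ∀ p ∈ MW B, (Complex.I * w * p).re ≤ (Complex.I * w * p1).re := by
        rintro p ⟨y, hy, rfl⟩
        rw [hp1]
        exact hx1.2 y hy
      have hlow : ∀ p ∈ MW B, (Complex.I * w * p2).re ≤ (Complex.I * w * p).re := by
        rintro p ⟨y, hy, rfl⟩
        have := hx2.2 y hy
        rw [← hp2, neg_mul, neg_mul, Complex.neg_re, Complex.neg_re] at this
        linarith
      have hinj : ∀ p ∈ MW B, ∀ q ∈ MW B, (Complex.I * w * p).re = (Complex.I * w * q).re →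
          p = q := by
        intro p hp q hq h
        have e1 : (w * p).re = (w * q).re := by rw [hline p hp, hline q hq]
        have e2 : (w * p).im = (w * q).im := by
          rw [mul_assoc, mul_assoc, Complex.I_mul_re, Complex.I_mul_re] at h
          linarith
        exact mul_left_cancel₀ hw0 (Complex.ext e1 e2)
      by_cases h12 : p1 = p2
      · have hall : ∀ p ∈ MW B, p = p1 := by
          intro p hp
          apply hinj p hp p1 hm1
          have a := hup p hp
          have b := hlow p hp
          rw [← h12] at b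
          exact le_antisymm a b
        rw [eq_smul_one_of_MW B p1 hall]
        exact finPropD_scalar _
      · -- two eigenvectors span a compression with the same range
        obtain ⟨κ1, hκ1⟩ : ∃ κ1 : ℝ, κ1 = (Complex.I * w * p1).re := ⟨_, rfl⟩
        obtain ⟨κ2, hκ2⟩ : ∃ κ2 : ℝ, κ2 = (Complex.I * w * p2).re := ⟨_, rfl⟩
        have hκ : κ2 < κ1 := by
          rcases (hlow p1 hm1).lt_or_eq with h | h
          · rw [hκ1, hκ2]; exact h
          · exact absurd (hinj p1 hm1 p2 hm2 h.symm) h12
        have hs1 : supp B (Complex.I * w) = κ1 := by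
          rw [hκ1]
          exact le_antisymm (supp_le B _ _ hup) (le_supp B _ _ hm1)
        have hs2 : supp B (-(Complex.I * w)) = -κ2 := by
          rw [hκ2]
          apply le_antisymm
          · apply supp_le
            intro p hp
            rw [neg_mul, Complex.neg_re]
            linarith [hlow p hp]
          · have := le_supp B (-(Complex.I * w)) _ hm2
            rw [neg_mul, Complex.neg_re] at this
            exact this
        have hK1 : NN B (Complex.I * w) *ᵥ x1 = 0 := by
          rw [NN_ker, hx1.1, ← hp1, hs1, hκ1]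
          simp
        have hK2 : NN B (-(Complex.I * w)) *ᵥ x2 = 0 := by
          rw [NN_ker, hx2.1, ← hp2, hs2, hκ2, neg_mul, Complex.neg_re]
          simp
        have hsum : NN B (Complex.I * w) + NN B (-(Complex.I * w)) =
            ((κ1 - κ2 : ℝ) : ℂ) • (1 : Matrix (Fin k) (Fin k) ℂ) := by
          rw [NN, NN, hs1, hs2, Hu_neg]
          push_cast
          module
        have hperp : star x1 ⬝ᵥ x2 = 0 := by
          have e1 : star x1 ⬝ᵥ ((NN B (Complex.I * w) + NN B (-(Complex.I * w))) *ᵥ x2) = 0 := by
            rw [Matrix.add_mulVec, hK2, add_zero, herm_swap (NN_psd B _).1, hK1,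
              dotProduct_zero, map_zero]
          rw [hsum, Matrix.smul_mulVec, Matrix.one_mulVec, dotProduct_smul, smul_eq_mul] at e1
          rcases mul_eq_zero.mp e1 with h | h
          · exfalso
            have : κ1 - κ2 = 0 := by exact_mod_cast h
            linarith
          · exact h
        have hperp' : star x2 ⬝ᵥ x1 = 0 := by rw [dot_swap, hperp, map_zero]
        obtain ⟨V, hV⟩ : ∃ V : Matrix (Fin k) (Fin 2) ℂ,
          V = Matrix.of fun i j => if j = 0 then x1 i else x2 i := ⟨_, rfl⟩
        have hVy : ∀ y : Fin 2 → ℂ, V *ᵥ y = y 0 • x1 + y 1 • x2 := by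
          intro y
          ext i
          rw [hV, Matrix.mulVec, dotProduct, Fin.sum_univ_two]
          simp
          ring
        have hVV : Vᴴ * V = 1 := by
          ext i j
          have e : (Vᴴ * V) i j = star (fun a => V a i) ⬝ᵥ (fun a => V a j) := by
            rw [Matrix.mul_apply, dotProduct]
            rfl
          have c0 : (fun a => V a 0) = x1 := by rw [hV]; ext a; simp
          have c1 : (fun a => V a 1) = x2 := by rw [hV]; ext a; simp
          rw [e]
          fin_cases i <;> fin_cases j
          · simp only [Fin.zero_eta, Fin.isValue]; rw [c0, hx1.1]; simp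
          · simp only [Fin.zero_eta, Fin.isValue, Fin.mk_one]; rw [c0, c1, hperp]; simp
          · simp only [Fin.zero_eta, Fin.isValue, Fin.mk_one]; rw [c0, c1, hperp']; simp
          · simp only [Fin.isValue, Fin.mk_one]; rw [c1, hx2.1]; simp
        apply FinPropD.transfer V hVV _ (finPropD_two _)
        intro p hp
        obtain ⟨t, ht⟩ : ∃ t : ℝ, t = ((Complex.I * w * p).re - κ2) / (κ1 - κ2) := ⟨_, rfl⟩
        have hd : 0 < κ1 - κ2 := by linarith
        have ht0 : 0 ≤ t := by
          rw [ht]
          apply div_nonneg _ hd.le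
          rw [hκ2]
          linarith [hlow p hp]
        have ht1 : t ≤ 1 := by
          rw [ht, div_le_one hd, hκ1]
          linarith [hup p hp]
        obtain ⟨y, hy⟩ : ∃ y : Fin 2 → ℂ,
          y = ![((Real.sqrt t : ℝ) : ℂ), ((Real.sqrt (1 - t) : ℝ) : ℂ)] := ⟨_, rfl⟩
        have hy0 : y 0 = ((Real.sqrt t : ℝ) : ℂ) := by rw [hy]; rfl
        have hy1 : y 1 = ((Real.sqrt (1 - t) : ℝ) : ℂ) := by rw [hy]; rfl
        have hyy : star y ⬝ᵥ y = 1 := by
          rw [dotProduct, Fin.sum_univ_two, Pi.star_apply, Pi.star_apply, hy0, hy1,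
            Complex.star_def, Complex.conj_ofReal, Complex.conj_ofReal,
            ← Complex.ofReal_mul, ← Complex.ofReal_mul, Real.mul_self_sqrt ht0,
            Real.mul_self_sqrt (by linarith)]
          push_cast
          ring
        refine ⟨y, hyy, ?_⟩
        obtain ⟨q, hq⟩ : ∃ q, q = star y ⬝ᵥ ((Vᴴ * B * V) *ᵥ y) := ⟨_, rfl⟩
        have hqm : q ∈ MW B := MW_compress_subset B V hVV ⟨y, hyy, hq.symm⟩
        rw [← hq]
        apply hinj q hqm p hp
        have hx : star (V *ᵥ y) ⬝ᵥ (NN B (Complex.I * w) *ᵥ (V *ᵥ y)) =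
            ((κ1 - κ2 : ℝ) : ℂ) * ((1 - t : ℝ) : ℂ) := by
          have e2 : NN B (Complex.I * w) *ᵥ x2 = ((κ1 - κ2 : ℝ) : ℂ) • x2 := by
            have := congrArg (fun M => M *ᵥ x2) hsum
            simp only [Matrix.add_mulVec, hK2, add_zero, Matrix.smul_mulVec,
              Matrix.one_mulVec] at this
            exact this
          rw [hVy, Matrix.mulVec_add, Matrix.mulVec_smul, Matrix.mulVec_smul, hK1, e2, smul_zero,
            zero_add, star_add, add_dotProduct, star_smul, star_smul, smul_dotProduct,
            smul_dotProduct, dotProduct_smul, dotProduct_smul, dotProduct_smul, dotProduct_smul,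
            hperp, hx2.1, hy0, hy1, Complex.star_def, Complex.conj_ofReal, Complex.conj_ofReal]
          simp only [smul_eq_mul, mul_zero, zero_add, mul_one]
          have e3 : ((Real.sqrt (1 - t) : ℝ) : ℂ) * ((Real.sqrt (1 - t) : ℝ) : ℂ) =
              ((1 - t : ℝ) : ℂ) := by
            rw [← Complex.ofReal_mul, Real.mul_self_sqrt (by linarith)]
          linear_combination ((κ1 - κ2 : ℝ) : ℂ) * e3
        rw [NN_quad, dot_iso V hVV, hyy, ← quad_iso, ← hq, hs1, ← Complex.ofReal_mul] at hx
        have hx' : κ1 * (1 : ℂ).re - (Complex.I * w * q).re = (κ1 - κ2) * (1 - t) := by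
          exact_mod_cast hx
        rw [Complex.one_re, mul_one] at hx'
        have e4 : t * (κ1 - κ2) = (Complex.I * w * p).re - κ2 := by
          rw [ht]
          field_simp
        nlinarith
    · intro m T hT
      have hmat : (w • B) + (w • B)ᴴ = (2 : ℂ) • ((lam : ℂ) • 1 - vecMulVec g (star g)) := by
        have h0 : (w • B) + (w • B)ᴴ - (2 : ℂ) • ((lam : ℂ) • 1 - vecMulVec g (star g)) = 0 := by
          apply eq_zero_of_quad
          intro y
          have h1 := quad_herm_part (w • B) y
          rw [Matrix.smul_mulVec, dotProduct_smul, smul_eq_mul] at h1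
          have h2 : star y ⬝ᵥ (((w • B) + (w • B)ᴴ) *ᵥ y) =
              2 * (((w * (star y ⬝ᵥ (B *ᵥ y))).re : ℝ) : ℂ) := by
            have h3 : star y ⬝ᵥ ((w • B) *ᵥ y) = w * (star y ⬝ᵥ (B *ᵥ y)) := by
              rw [Matrix.smul_mulVec, dotProduct_smul, smul_eq_mul]
            rw [h3] at h1
            rw [← h1]
            ring
          have h4 : star y ⬝ᵥ (vecMulVec g (star g) *ᵥ y) =
              ((‖star g ⬝ᵥ y‖ ^ 2 : ℝ) : ℂ) := by
            have h5 : vecMulVec g (star g) *ᵥ y = (star g ⬝ᵥ y) • g := by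
              ext i
              rw [Matrix.mulVec, dotProduct, Pi.smul_apply, smul_eq_mul, dotProduct, sum_mul]
              apply sum_congr rfl
              intro j _
              rw [vecMulVec_apply]
              ring
            rw [h5, dotProduct_smul, smul_eq_mul, dot_swap y g, Complex.mul_conj,
              Complex.normSq_eq_norm_sq]
          have h6 : (w * (star y ⬝ᵥ (B *ᵥ y))).re = lam * (star y ⬝ᵥ y).re -
              ‖star g ⬝ᵥ y‖ ^ 2 := by linarith [hgap y]
          rw [Matrix.sub_mulVec, dotProduct_sub, h2, h6, Matrix.smul_mulVec, dotProduct_smul,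
            Matrix.sub_mulVec, dotProduct_sub, h4, Matrix.smul_mulVec, Matrix.one_mulVec,
            dotProduct_smul, smul_eq_mul, smul_eq_mul, dot_eq_re y]
          push_cast
          simp
        exact sub_eq_zero.mp h0
      exact rankOne_FinDil B w hw0 lam g hg0 (by rw [Fintype.card_fin]; exact hk) hmat T hT

end Pool.Agent.Helper29X1.ND
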