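import Mathlib
import Pool.Agent.Helper29X1.ND.Neg2
import Pool.Agent.Helper29X1.ND.Pair2
open Matrix Finset
open scoped ComplexOrder

namespace Pool.Agent.Helper29X1.ND

open Pool.Agent.Helper774

theorem interior2 {ι : Type*} [Fintype ι] [Nonempty ι] (A : Matrix ι ι ℂ) (w1 : ℂ)
    (hw1 : ‖w1‖ = 1) (p1 : ℂ) (hp1 : p1 ∈ MW A) (hs : (w1 * p1).re = supp A w1)
    (huniq : ∀ z : ℂ, ‖z‖ = 1 → (z * p1).re = supp A z → z = w1) :
    ∃ c : ℂ, ∀ z : ℂ, ‖z‖ = 1 → (z * c).re < supp A z := by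
  obtain ⟨p2, hp2, h2⟩ := exists_supp_pt A (-w1)
  refine ⟨(1 / 2 : ℝ) * p1 + (1 / 2 : ℝ) * p2, ?_⟩
  intro z hz
  have e : (z * ((1 / 2 : ℝ) * p1 + (1 / 2 : ℝ) * p2)).re =
      1 / 2 * (z * p1).re + 1 / 2 * (z * p2).re := by
    rw [mul_add, mul_left_comm, mul_left_comm z _ p2, Complex.add_re, Complex.re_ofReal_mul,
      Complex.re_ofReal_mul]
  rw [e]
  have g1 := le_supp A z p1 hp1
  have g2 := le_supp A z p2 hp2
  by_contra hcon
  push Not at hcon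
  have k1 : (z * p1).re = supp A z := by linarith
  have k2 : (z * p2).re = supp A z := by linarith
  have hz1 := huniq z hz k1
  subst hz1
  have k3 : (-z * p1).re = supp A (-z) := by
    rw [← h2, neg_mul, neg_mul, Complex.neg_re, Complex.neg_re, k1, k2]
  have k4 := huniq (-z) (by rw [norm_neg]; exact hz) k3
  have k5 : (2 : ℂ) * z = 0 := by linear_combination -k4
  have k6 : z = 0 := by simpa using k5
  rw [k6] at hz
  simp at hz

theorem dense_reg2 {ι : Type*} [Fintype ι] [Nonempty ι] (A : Matrix ι ι ℂ)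
    (c : ℂ) (hc : ∀ z : ℂ, ‖z‖ = 1 → (z * c).re < supp A z)
    (w0 : ℂ) (hw0 : ‖w0‖ = 1) (p0 : ℂ) (hp0 : p0 ∈ MW A) (hp0s : (w0 * p0).re = supp A w0)
    (huniq : ∀ z : ℂ, ‖z‖ = 1 → (z * p0).re = supp A z → z = w0) (ε : ℝ) (hε : 0 < ε) :
    ∃ w : ℂ, ‖w‖ = 1 ∧ ‖w - w0‖ < ε ∧ ∃ p ∈ MW A, (w * p).re = supp A w ∧
      ∃ κ : ℝ, 0 < κ ∧ ∀ z : ℂ, ‖z‖ = 1 → κ * ‖z - w‖ ^ 2 ≤ supp A z - (z * p).re := by
  have hφc : Continuous (fun z : ℂ => supp A z - (z * p0).re) :=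
    (supp_continuous A).sub (Complex.continuous_re.comp (continuous_id.mul continuous_const))
  obtain ⟨m, hm0, hm⟩ : ∃ m : ℝ, 0 < m ∧ ∀ z : ℂ, ‖z‖ = 1 → ε ≤ ‖z - w0‖ →
      m ≤ supp A z - (z * p0).re := by
    have hcomp : IsCompact ({z : ℂ | ‖z‖ = 1} ∩ {z : ℂ | ε ≤ ‖z - w0‖}) := by
      apply circle_compact.inter_right
      exact isClosed_le continuous_const (continuous_id.sub continuous_const).norm
    by_cases hne : ({z : ℂ | ‖z‖ = 1} ∩ {z : ℂ | ε ≤ ‖z - w0‖}).Nonempty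
    · obtain ⟨z1, hz1, hmin⟩ := hcomp.exists_isMinOn hne hφc.continuousOn
      refine ⟨supp A z1 - (z1 * p0).re, ?_, fun z hz hz' => hmin ⟨hz, hz'⟩⟩
      have g := le_supp A z1 p0 hp0
      rcases g.lt_or_eq with g | g
      · linarith
      · exfalso
        have := huniq z1 hz1.1 g
        rw [this] at hz1
        have h2 : ε ≤ ‖w0 - w0‖ := hz1.2
        rw [sub_self, norm_zero] at h2
        linarith
    · refine ⟨1, one_pos, fun z hz hz' => absurd ⟨z, hz, hz'⟩ hne⟩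
  obtain ⟨D, hD⟩ : ∃ D : ℝ, D = supp A w0 - (w0 * c).re := ⟨_, rfl⟩
  have hD0 : 0 < D := by rw [hD]; linarith [hc w0 hw0]
  obtain ⟨t, ht0, ht1, htm⟩ : ∃ t : ℝ, 0 < t ∧ t < 1 ∧ t * D < (1 - t) * m := by
    refine ⟨m / (2 * (m + D)), by positivity, ?_, ?_⟩
    · rw [div_lt_one (by positivity)]
      linarith
    · have h1 : m / (2 * (m + D)) * (m + D) = m / 2 := by field_simp
      nlinarith
  obtain ⟨q, hq⟩ : ∃ q : ℂ, q = ((1 - t : ℝ) : ℂ) * p0 + (t : ℂ) * c := ⟨_, rfl⟩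
  have hzq : ∀ z : ℂ, (z * q).re = (1 - t) * (z * p0).re + t * (z * c).re := by
    intro z
    rw [hq, mul_add, mul_left_comm, mul_left_comm z (t : ℂ), Complex.add_re,
      Complex.re_ofReal_mul, Complex.re_ofReal_mul]
  have hfc : Continuous (fun z : ℂ => supp A z - (z * q).re) :=
    (supp_continuous A).sub (Complex.continuous_re.comp (continuous_id.mul continuous_const))
  obtain ⟨w, hw, hmin⟩ := circle_compact.exists_isMinOn ⟨1, by simp⟩ hfc.continuousOn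
  have hw1 : ‖w‖ = 1 := hw
  obtain ⟨r, hr⟩ : ∃ r : ℝ, r = supp A w - (w * q).re := ⟨_, rfl⟩
  have hrmin : ∀ z : ℂ, ‖z‖ = 1 → r ≤ supp A z - (z * q).re := fun z hz => by
    rw [hr]; exact hmin hz
  have hr0 : 0 < r := by
    rw [hr, hzq]
    have g1 := le_supp A w p0 hp0
    have g2 := hc w hw1
    nlinarith
  have hww : w * starRingEnd ℂ w = 1 := by
    rw [Complex.mul_conj, Complex.normSq_eq_norm_sq, hw1]; simp
  obtain ⟨p, hp⟩ : ∃ p : ℂ, p = q + (r : ℂ) * starRingEnd ℂ w := ⟨_, rfl⟩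
  have hzw : ∀ z : ℂ, ‖z‖ = 1 → (z * starRingEnd ℂ w).re = 1 - ‖z - w‖ ^ 2 / 2 := by
    intro z hz
    have h1 : ‖z - w‖ ^ 2 = ‖z‖ ^ 2 + ‖w‖ ^ 2 - 2 * (z * starRingEnd ℂ w).re := by
      rw [← Complex.normSq_eq_norm_sq, ← Complex.normSq_eq_norm_sq, ← Complex.normSq_eq_norm_sq,
        Complex.normSq_sub]
    rw [h1, hz, hw1]
    ring
  have hzp : ∀ z : ℂ, ‖z‖ = 1 → (z * p).re = (z * q).re + r - r / 2 * ‖z - w‖ ^ 2 := by
    intro z hz
    rw [hp, mul_add, mul_left_comm, Complex.add_re, Complex.re_ofReal_mul, hzw z hz]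
    ring
  refine ⟨w, hw1, ?_, p, ?_, ?_, r / 2, by positivity, ?_⟩
  · by_contra hcon
    push Not at hcon
    have h1 := hm w hw1 hcon
    have h2 : r ≤ t * D := by
      have := hrmin w0 hw0
      rw [hzq, hp0s] at this
      rw [hD]
      linarith
    have h3 : r = (1 - t) * (supp A w - (w * p0).re) + t * (supp A w - (w * c).re) := by
      rw [hr, hzq]
      ring
    have h4 : 0 < supp A w - (w * c).re := by linarith [hc w hw1]
    have h5 := mul_pos ht0 h4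
    have h6 := mul_le_mul_of_nonneg_left h1 (by linarith : (0 : ℝ) ≤ 1 - t)
    linarith
  · apply mem_of_supp
    intro z hz
    rw [hzp z hz]
    have := hrmin z hz
    nlinarith [sq_nonneg ‖z - w‖]
  · rw [hzp w hw1, hr]
    simp
  · intro z hz
    rw [hzp z hz]
    have := hrmin z hz
    linarith


theorem NN_exp {ι : Type*} [Fintype ι] [DecidableEq ι] (A : Matrix ι ι ℂ) (x : ι → ℂ) (z : ℂ)
    (hz : NN A z *ᵥ x = 0) :
    z • (A *ᵥ x) + (starRingEnd ℂ z) • (Aᴴ *ᵥ x) = ((2 * supp A z : ℝ) : ℂ) • x := by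
  rw [NN, Matrix.sub_mulVec, Hu, Matrix.smul_mulVec, Matrix.smul_mulVec, Matrix.one_mulVec,
    Matrix.add_mulVec, Matrix.smul_mulVec, conjTranspose_smul, Matrix.smul_mulVec,
    sub_eq_zero] at hz
  have h3 := congrArg (fun v => (2 : ℂ) • v) hz
  simp only [smul_smul] at h3
  rw [show (2 : ℂ) * (1 / 2) = 1 by norm_num, one_smul] at h3
  rw [← Complex.star_def, ← h3]
  congr 1
  push_cast
  ring

theorem unit_conj {w : ℂ} (hw : ‖w‖ = 1) : w * starRingEnd ℂ w = 1 := by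
  rw [Complex.mul_conj, Complex.normSq_eq_norm_sq, hw]
  simp

/-- two non-opposite support directions at one vector give a joint eigenvector -/
theorem joint_of_two {ι : Type*} [Fintype ι] [DecidableEq ι] (A : Matrix ι ι ℂ) (x : ι → ℂ)
    (w w' : ℂ) (hw : ‖w‖ = 1) (hw' : ‖w'‖ = 1) (hne : w ≠ w') (hneg : w' ≠ -w)
    (h1 : NN A w *ᵥ x = 0) (h2 : NN A w' *ᵥ x = 0) :
    ∃ a a' : ℂ, A *ᵥ x = a • x ∧ Aᴴ *ᵥ x = a' • x := by
  have e1 := NN_exp A x w h1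
  have e2 := NN_exp A x w' h2
  have hn1 := unit_conj hw
  have hn2 := unit_conj hw'
  obtain ⟨d, hd⟩ : ∃ d : ℂ, d = w * starRingEnd ℂ w' - w' * starRingEnd ℂ w := ⟨_, rfl⟩
  have hd0 : d ≠ 0 := by
    intro hd0
    have hsq : w ^ 2 = w' ^ 2 := by
      rw [hd] at hd0
      linear_combination (w * w') * hd0 - w ^ 2 * hn2 + w' ^ 2 * hn1
    rcases sq_eq_sq_iff_eq_or_eq_neg.mp hsq with h | h
    · exact hne h
    · exact hneg (by rw [h, neg_neg])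
  have g1 : d • (A *ᵥ x) = (((2 * supp A w : ℝ) : ℂ) * starRingEnd ℂ w' -
      ((2 * supp A w' : ℝ) : ℂ) * starRingEnd ℂ w) • x := by
    have k1 : (starRingEnd ℂ w') • (w • (A *ᵥ x) + (starRingEnd ℂ w) • (Aᴴ *ᵥ x)) -
        (starRingEnd ℂ w) • (w' • (A *ᵥ x) + (starRingEnd ℂ w') • (Aᴴ *ᵥ x)) =
        d • (A *ᵥ x) := by
      rw [hd]
      module
    rw [← k1, e1, e2]
    module
  have g2 : d • (Aᴴ *ᵥ x) = (w * ((2 * supp A w' : ℝ) : ℂ) -
      w' * ((2 * supp A w : ℝ) : ℂ)) • x := by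
    have k1 : w • (w' • (A *ᵥ x) + (starRingEnd ℂ w') • (Aᴴ *ᵥ x)) -
        w' • (w • (A *ᵥ x) + (starRingEnd ℂ w) • (Aᴴ *ᵥ x)) =
        d • (Aᴴ *ᵥ x) := by
      rw [hd]
      module
    rw [← k1, e1, e2]
    module
  refine ⟨d⁻¹ * (((2 * supp A w : ℝ) : ℂ) * starRingEnd ℂ w' -
      ((2 * supp A w' : ℝ) : ℂ) * starRingEnd ℂ w), d⁻¹ * (w * ((2 * supp A w' : ℝ) : ℂ) -
      w' * ((2 * supp A w : ℝ) : ℂ)), ?_, ?_⟩
  · rw [mul_smul, ← g1, smul_smul, inv_mul_cancel₀ hd0, one_smul]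
  · rw [mul_smul, ← g2, smul_smul, inv_mul_cancel₀ hd0, one_smul]

/-- The joint eigenvectors of `A` and `Aᴴ` that are simple top vectors. -/
def CSet {ι : Type*} [Fintype ι] [DecidableEq ι] (A : Matrix ι ι ℂ) : Set (ι → ℂ) :=
  {x | ∃ w : ℂ, ‖w‖ = 1 ∧ STop A w x ∧ ∃ a a' : ℂ, A *ᵥ x = a • x ∧ Aᴴ *ᵥ x = a' • x}

theorem joint_of_stop {ι : Type*} [Fintype ι] [DecidableEq ι] (A : Matrix ι ι ℂ) (x : ι → ℂ)
    (w w' : ℂ) (hw : ‖w‖ = 1) (hw' : ‖w'‖ = 1) (hne : w ≠ w') (hs : STop A w x)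
    (h2 : NN A w' *ᵥ x = 0) : ∃ a a' : ℂ, A *ᵥ x = a • x ∧ Aᴴ *ᵥ x = a' • x := by
  have h1 : NN A w *ᵥ x = 0 := (hs.ker x).mpr ⟨1, by simp⟩
  by_cases hneg : w' = -w
  · have hsum : NN A w + NN A w' = ((supp A w + supp A w' : ℝ) : ℂ) • (1 : Matrix ι ι ℂ) := by
      rw [NN, NN, hneg, Hu_neg]
      push_cast
      module
    have h3 : ((supp A w + supp A w' : ℝ) : ℂ) • x = 0 := by
      have := congrArg (fun M => M *ᵥ x) hsum
      simp only [Matrix.add_mulVec, h1, h2, Matrix.smul_mulVec, Matrix.one_mulVec, add_zero]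
        at this
      exact this.symm
    have h4 : ((supp A w + supp A w' : ℝ) : ℂ) = 0 := by
      rcases smul_eq_zero.mp h3 with h | h
      · exact h
      · exact absurd h hs.1
    rw [h4, zero_smul] at hsum
    have hall : ∀ y : ι → ℂ, NN A w *ᵥ y = 0 := by
      intro y
      rw [← (NN_psd A w).dotProduct_mulVec_zero_iff]
      have g1 := (NN_psd A w).dotProduct_mulVec_nonneg y
      have g2 := (NN_psd A w').dotProduct_mulVec_nonneg y
      have g3 : star y ⬝ᵥ (NN A w *ᵥ y) + star y ⬝ᵥ (NN A w' *ᵥ y) = 0 := by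
        rw [← dotProduct_add, ← Matrix.add_mulVec, hsum, Matrix.zero_mulVec, dotProduct_zero]
      exact le_antisymm (by rw [← g3]; exact le_add_of_nonneg_right g2) g1
    obtain ⟨a, ha⟩ := (hs.ker _).mp (hall (A *ᵥ x))
    obtain ⟨a', ha'⟩ := (hs.ker _).mp (hall (Aᴴ *ᵥ x))
    exact ⟨a, a', ha, ha'⟩
  · exact joint_of_two A x w w' hw hw' hne hneg h1 h2

theorem dense_tset {ι : Type*} [Fintype ι] [DecidableEq ι] [Nonempty ι] (A : Matrix ι ι ℂ)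
    (hgen : ∀ w0 : ℂ, ‖w0‖ = 1 → ∀ ε : ℝ, 0 < ε →
      ∃ w : ℂ, ‖w‖ = 1 ∧ ‖w - w0‖ < ε ∧ ∃ x, STop A w x)
    (w0 : ℂ) (hw0 : ‖w0‖ = 1) (ε : ℝ) (hε : 0 < ε) :
    ∃ w : ℂ, ‖w‖ = 1 ∧ ‖w - w0‖ < ε ∧ ∃ x ∈ RegSet A ∪ CSet A, star x ⬝ᵥ x = 1 ∧
      STop A w x := by
  obtain ⟨w1, hw1, hw1d, hx1⟩ := hgen w0 hw0 (ε / 2) (by positivity)
  obtain ⟨p1, ⟨y1, hy1, hyp1⟩, hs1⟩ := exists_supp_pt A w1
  have hy10 : y1 ≠ 0 := by
    rintro rfl
    simp at hy1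
  have hys1 : (w1 * (star y1 ⬝ᵥ (A *ᵥ y1))).re = supp A w1 * (star y1 ⬝ᵥ y1).re := by
    rw [hy1, hyp1, hs1]
    simp
  obtain ⟨x1, hx1'⟩ := hx1
  have hst : STop A w1 y1 := hx1'.smul_mem hys1 hy10
  by_cases huniq : ∀ z : ℂ, ‖z‖ = 1 → (z * p1).re = supp A z → z = w1
  · obtain ⟨c, hc⟩ := interior2 A w1 hw1 p1 ⟨y1, hy1, hyp1⟩ hs1 huniq
    obtain ⟨δ, hδ, hopen⟩ := simple_open A w1 hw1 ⟨x1, hx1'⟩
    obtain ⟨w, hw, hwd, p, hp, hps, κ, hκ, hreg⟩ := dense_reg2 A c hc w1 hw1 p1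
      ⟨y1, hy1, hyp1⟩ hs1 huniq (min δ (ε / 2)) (lt_min hδ (by positivity))
    obtain ⟨x, hx⟩ := hopen w hw (lt_of_lt_of_le hwd (min_le_left _ _))
    obtain ⟨y, hy, hyp⟩ := hp
    have hy0 : y ≠ 0 := by
      rintro rfl
      simp at hy
    have hys : (w * (star y ⬝ᵥ (A *ᵥ y))).re = supp A w * (star y ⬝ᵥ y).re := by
      rw [hy, hyp, hps]
      simp
    refine ⟨w, hw, ?_, y, Or.inl ⟨w, hw, hx.smul_mem hys hy0, κ, hκ, ?_⟩, hy,
      hx.smul_mem hys hy0⟩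
    · have : w - w0 = (w - w1) + (w1 - w0) := by ring
      rw [this]
      refine (norm_add_le _ _).trans_lt ?_
      have := lt_of_lt_of_le hwd (min_le_right _ _)
      linarith
    · intro z hz
      rw [NN_quad, hy, hyp, Complex.ofReal_re, Complex.one_re, mul_one]
      exact hreg z hz
  · push Not at huniq
    obtain ⟨z, hz, hzs, hzw⟩ := huniq
    have h2 : NN A z *ᵥ y1 = 0 := by
      rw [NN_ker, hy1, hyp1, hzs]
      simp
    refine ⟨w1, hw1, by linarith, y1, Or.inr ⟨w1, hw1, hst, ?_⟩, hy1, hst⟩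
    exact joint_of_stop A y1 w1 z hw1 hz (Ne.symm hzw) hst h2

/-- The directions with a top vector in a closed set form a closed set. -/
theorem dir_closed {ι : Type*} [Fintype ι] [DecidableEq ι] [Nonempty ι] (A : Matrix ι ι ℂ)
    (Q : Set (ι → ℂ)) (hQ : IsClosed Q) :
    IsClosed {z : ℂ | ‖z‖ = 1 ∧ ∃ x ∈ Q, star x ⬝ᵥ x = 1 ∧ NN A z *ᵥ x = 0} := by
  obtain ⟨C, hC⟩ : ∃ C : Set (ℂ × (ι → ℂ)), C = {p | ‖p.1‖ = 1 ∧
    star p.2 ⬝ᵥ p.2 = 1 ∧ p.2 ∈ Q ∧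
    (p.1 * (star p.2 ⬝ᵥ (A *ᵥ p.2))).re = supp A p.1 * (star p.2 ⬝ᵥ p.2).re} := ⟨_, rfl⟩
  have hqc : Continuous (fun x : ι → ℂ => star x ⬝ᵥ (A *ᵥ x)) := continuous_quad A
  have hCc : IsCompact C := by
    have hbig : IsCompact ({z : ℂ | ‖z‖ = 1} ×ˢ {x : ι → ℂ | star x ⬝ᵥ x = 1}) :=
      circle_compact.prod isCompact_unit
    apply hbig.of_isClosed_subset
    · rw [hC]
      have hd : Continuous (fun p : ℂ × (ι → ℂ) => star p.2 ⬝ᵥ p.2) := by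
        unfold dotProduct
        apply continuous_finsetSum
        intro i _
        apply Continuous.mul
        · exact (continuous_apply i).comp (continuous_star.comp continuous_snd)
        · exact (continuous_apply i).comp continuous_snd
      refine IsClosed.inter (isClosed_eq continuous_fst.norm continuous_const) ?_
      refine IsClosed.inter (isClosed_eq hd continuous_const) ?_
      refine IsClosed.inter (hQ.preimage continuous_snd) (isClosed_eq ?_ ?_)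
      · exact Complex.continuous_re.comp (continuous_fst.mul (hqc.comp continuous_snd))
      · exact ((supp_continuous A).comp continuous_fst).mul (Complex.continuous_re.comp hd)
    · rw [hC]
      rintro ⟨a, b⟩ ⟨h1, h2, _⟩
      exact ⟨h1, h2⟩
  have himg : {z : ℂ | ‖z‖ = 1 ∧ ∃ x ∈ Q, star x ⬝ᵥ x = 1 ∧ NN A z *ᵥ x = 0} =
      Prod.fst '' C := by
    ext z
    constructor
    · rintro ⟨h1, x, h2, h3, h4⟩
      refine ⟨(z, x), ?_, rfl⟩
      rw [hC]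
      exact ⟨h1, h3, h2, (NN_ker A z x).mp h4⟩
    · rintro ⟨⟨a, x⟩, hx, rfl⟩
      rw [hC] at hx
      exact ⟨hx.1, x, hx.2.2.1, hx.2.1, (NN_ker A a x).mpr hx.2.2.2⟩
  rw [himg]
  exact (hCc.image continuous_fst).isClosed

end Pool.Agent.Helper29X1.ND
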