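import Mathlib
import Pool.Agent.Helper29X1.ND.Dense2
open Matrix Finset
open scoped ComplexOrder

namespace Pool.Agent.Helper29X1.ND

open Pool.Agent.Helper774

theorem self_ne {ι : Type*} [Fintype ι] {e : ι → ℂ} (he : e ≠ 0) : star e ⬝ᵥ e ≠ 0 := by
  intro h
  exact he (dot_self_re_eq_zero (by rw [h]; simp))

theorem self_pos {ι : Type*} [Fintype ι] {e : ι → ℂ} (he : e ≠ 0) : 0 < (star e ⬝ᵥ e).re := by
  rcases (dot_self_re_nonneg e).lt_or_eq with h | h
  · exact h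
  · exact absurd (dot_self_re_eq_zero h.symm) he

theorem joint_conj {ι : Type*} [Fintype ι] [DecidableEq ι] {A : Matrix ι ι ℂ} {e : ι → ℂ}
    (he : e ≠ 0) {a a' : ℂ} (h : A *ᵥ e = a • e) (h' : Aᴴ *ᵥ e = a' • e) :
    a' = starRingEnd ℂ a := by
  have h1 := quad_conjTranspose A e e
  rw [h', h, dotProduct_smul, dotProduct_smul, smul_eq_mul, smul_eq_mul, map_mul, ← dot_swap]
    at h1
  exact mul_right_cancel₀ (self_ne he) h1

theorem joint_left {ι : Type*} [Fintype ι] [DecidableEq ι] {A : Matrix ι ι ℂ} {e : ι → ℂ}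
    (he : e ≠ 0) {a a' : ℂ} (h : A *ᵥ e = a • e) (h' : Aᴴ *ᵥ e = a' • e) (y : ι → ℂ) :
    star e ⬝ᵥ (A *ᵥ y) = a * (star e ⬝ᵥ y) := by
  have h1 := quad_conjTranspose A y e
  rw [h', dotProduct_smul, smul_eq_mul, joint_conj he h h'] at h1
  have h2 := congrArg (starRingEnd ℂ) h1
  rw [map_mul, Complex.conj_conj, Complex.conj_conj, ← dot_swap] at h2
  exact h2.symm

theorem joint_NN {ι : Type*} [Fintype ι] [DecidableEq ι] {A : Matrix ι ι ℂ} {e : ι → ℂ}
    (he : e ≠ 0) {a a' : ℂ} (h : A *ᵥ e = a • e) (h' : Aᴴ *ᵥ e = a' • e) (z : ℂ) :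
    NN A z *ᵥ e = ((supp A z - (z * a).re : ℝ) : ℂ) • e := by
  have h2 : (1 / 2 : ℂ) • (z • (a • e) + star z • (starRingEnd ℂ a • e)) =
      (((z * a).re : ℝ) : ℂ) • e := by
    have h3 : (((z * a).re : ℝ) : ℂ) = 1 / 2 * (z * a + starRingEnd ℂ z * starRingEnd ℂ a) := by
      rw [← map_mul, Complex.add_conj]
      push_cast
      ring
    rw [h3, Complex.star_def]
    module
  rw [NN, Matrix.sub_mulVec, Hu, Matrix.smul_mulVec, Matrix.smul_mulVec, Matrix.one_mulVec,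
    Matrix.add_mulVec, Matrix.smul_mulVec, conjTranspose_smul, Matrix.smul_mulVec, h, h',
    joint_conj he h h', h2]
  push_cast
  module

theorem joint_perp {ι : Type*} [Fintype ι] [DecidableEq ι] {A : Matrix ι ι ℂ} {e : ι → ℂ}
    (he : e ≠ 0) {a a' : ℂ} (h : A *ᵥ e = a • e) (h' : Aᴴ *ᵥ e = a' • e) (z : ℂ)
    (hz : (z * a).re ≠ supp A z) (y : ι → ℂ) (hy : NN A z *ᵥ y = 0) : star e ⬝ᵥ y = 0 := by
  have h1 := herm_swap (NN_psd A z).1 e y
  rw [hy, dotProduct_zero, joint_NN he h h', dotProduct_smul, smul_eq_mul, map_mul,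
    Complex.conj_ofReal, ← dot_swap] at h1
  rcases mul_eq_zero.mp h1.symm with h2 | h2
  · exfalso
    apply hz
    have : supp A z - (z * a).re = 0 := by exact_mod_cast h2
    linarith
  · exact h2

theorem closed_perp {ι : Type*} [Fintype ι] (e : ι → ℂ) : IsClosed {x : ι → ℂ | star e ⬝ᵥ x = 0} := by
  apply isClosed_eq _ continuous_const
  unfold dotProduct
  apply continuous_finsetSum
  intro i _
  exact continuous_const.mul (continuous_apply i)

theorem cset_near {ι : Type*} [Fintype ι] [DecidableEq ι] [Nonempty ι] {A : Matrix ι ι ℂ}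
    {e : ι → ℂ} {we : ℂ} (hs : STop A we e) {a a' : ℂ}
    (h : A *ᵥ e = a • e) (h' : Aᴴ *ᵥ e = a' • e) :
    ∃ ε : ℝ, 0 < ε ∧ ∀ z : ℂ, ‖z‖ = 1 → ‖z - we‖ < ε → (z * a).re = supp A z := by
  have hcl := dir_closed A {x | star e ⬝ᵥ x = 0} (closed_perp e)
  have hnot : we ∉ {z : ℂ | ‖z‖ = 1 ∧ ∃ x ∈ {x : ι → ℂ | star e ⬝ᵥ x = 0},
      star x ⬝ᵥ x = 1 ∧ NN A z *ᵥ x = 0} := by
    rintro ⟨_, x, hx, hx1, hx0⟩
    obtain ⟨c, rfl⟩ := (hs.ker x).mp hx0
    have hx' : star e ⬝ᵥ (c • e) = 0 := hx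
    rw [dotProduct_smul, smul_eq_mul] at hx'
    rcases mul_eq_zero.mp hx' with hc | hc
    · rw [hc, zero_smul] at hx1
      simp at hx1
    · exact self_ne hs.1 hc
  obtain ⟨ε, hε, hball⟩ := Metric.isOpen_iff.mp hcl.isOpen_compl we hnot
  refine ⟨ε, hε, ?_⟩
  intro z hz hzd
  by_contra hcon
  obtain ⟨x, hx⟩ := exists_Top A z
  have hxs : NN A z *ᵥ x = 0 := by
    rw [NN_ker, hx.1, Complex.one_re, mul_one]
    apply le_antisymm
    · exact le_supp A z _ ⟨x, hx.1, rfl⟩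
    · apply supp_le
      rintro p ⟨y, hy, rfl⟩
      exact hx.2 y hy
  have hzn := hball (show z ∈ Metric.ball we ε by rw [Metric.mem_ball, dist_eq_norm]; exact hzd)
  exact hzn ⟨hz, x, joint_perp hs.1 h h' z hcon x hxs, hx.1, hxs⟩

theorem near_unit (w : ℂ) (hw : ‖w‖ = 1) (ε : ℝ) (hε : 0 < ε) :
    ∃ s c : ℝ, 0 < s ∧ c ^ 2 + s ^ 2 = 1 ∧ (∀ t : ℝ, t = s ∨ t = -s →
      ‖w * (⟨c, t⟩ : ℂ)‖ = 1 ∧ ‖w * (⟨c, t⟩ : ℂ) - w‖ < ε) := by
  obtain ⟨φ, hφ0, hφ1, hφε⟩ : ∃ φ : ℝ, 0 < φ ∧ φ < 1 ∧ φ < ε := by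
    refine ⟨min (1 / 2) (ε / 2), by positivity, ?_, ?_⟩
    · exact (min_le_left _ _).trans_lt (by norm_num)
    · exact (min_le_right _ _).trans_lt (by linarith)
  refine ⟨Real.sin φ, Real.cos φ, Real.sin_pos_of_pos_of_lt_pi hφ0
    (by linarith [Real.pi_gt_three]), Real.cos_sq_add_sin_sq φ, ?_⟩
  intro t ht
  have ht2 : t ^ 2 = Real.sin φ ^ 2 := by
    rcases ht with rfl | rfl
    · rfl
    · ring
  have hn : ‖(⟨Real.cos φ, t⟩ : ℂ)‖ = 1 := by
    have : ‖(⟨Real.cos φ, t⟩ : ℂ)‖ ^ 2 = 1 := by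
      rw [← Complex.normSq_eq_norm_sq, Complex.normSq_mk]
      nlinarith [Real.cos_sq_add_sin_sq φ]
    have h0 := norm_nonneg (⟨Real.cos φ, t⟩ : ℂ)
    nlinarith
  constructor
  · rw [norm_mul, hw, hn, one_mul]
  · have h1 : w * (⟨Real.cos φ, t⟩ : ℂ) - w = w * ((⟨Real.cos φ, t⟩ : ℂ) - 1) := by ring
    rw [h1, norm_mul, hw, one_mul]
    have h2 : ‖(⟨Real.cos φ, t⟩ : ℂ) - 1‖ ^ 2 ≤ φ ^ 2 := by
      rw [← Complex.normSq_eq_norm_sq, Complex.normSq_apply]
      simp only [Complex.sub_re, Complex.sub_im, Complex.one_re, Complex.one_im, sub_zero]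
      have h3 := Real.one_sub_sq_div_two_le_cos (x := φ)
      nlinarith [Real.cos_sq_add_sin_sq φ]
    have h3 : ‖(⟨Real.cos φ, t⟩ : ℂ) - 1‖ ≤ φ := by
      have := abs_le_of_sq_le_sq' h2 hφ0.le
      exact this.2
    linarith

theorem re_mul_mk (x : ℂ) (c t : ℝ) : ((⟨c, t⟩ : ℂ) * x).re = c * x.re - t * x.im := by
  rw [Complex.mul_re]

theorem mixed_ne {ι : Type*} [Fintype ι] [DecidableEq ι] [Nonempty ι] {A : Matrix ι ι ℂ}
    {e : ι → ℂ} (he : e ∈ CSet A) {a a' : ℂ} (h : A *ᵥ e = a • e) (h' : Aᴴ *ᵥ e = a' • e)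
    (f : ι → ℂ) (hf1 : star f ⬝ᵥ f = 1) (hef : star e ⬝ᵥ f = 0) :
    star f ⬝ᵥ (A *ᵥ f) ≠ a := by
  intro hq
  obtain ⟨we, hwe, hs, -⟩ := he
  have h1 : NN A we *ᵥ e = 0 := (hs.ker e).mpr ⟨1, by simp⟩
  rw [joint_NN hs.1 h h'] at h1
  have h2 : (we * a).re = supp A we := by
    rcases smul_eq_zero.mp h1 with h3 | h3
    · have : supp A we - (we * a).re = 0 := by exact_mod_cast h3
      linarith
    · exact absurd h3 hs.1
  have h3 : NN A we *ᵥ f = 0 := by
    rw [NN_ker, hf1, hq, h2]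
    simp
  obtain ⟨c, hc⟩ := (hs.ker f).mp h3
  rw [hc, dotProduct_smul, smul_eq_mul] at hef
  rcases mul_eq_zero.mp hef with h4 | h4
  · rw [hc, h4, zero_smul] at hf1
    simp at hf1
  · exact self_ne hs.1 h4

theorem mixed_escape {ι : Type*} [Fintype ι] [DecidableEq ι] [Nonempty ι] {A : Matrix ι ι ℂ}
    {a q w : ℂ} (hw : ‖w‖ = 1) (hwa : (w * a).re = supp A w) (hq : q ∈ MW A)
    (hwq : (w * q).re = supp A w) (hne : q ≠ a) (ε : ℝ) (hε : 0 < ε) :
    ∃ z : ℂ, ‖z‖ = 1 ∧ ‖z - w‖ < ε ∧ (z * a).re ≠ supp A z := by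
  by_contra hcon
  push Not at hcon
  obtain ⟨s, c, hs, hcs, hz⟩ := near_unit w hw ε hε
  have key : ∀ t : ℝ, t = s ∨ t = -s → 0 ≤ -(t * (w * (a - q)).im) := by
    intro t ht
    obtain ⟨g1, g2⟩ := hz t ht
    have h1 := hcon _ g1 g2
    have h2 := le_supp A (w * (⟨c, t⟩ : ℂ)) q hq
    have h3 : ((w * (⟨c, t⟩ : ℂ)) * (a - q)).re = ((w * (⟨c, t⟩ : ℂ)) * a).re -
        ((w * (⟨c, t⟩ : ℂ)) * q).re := by
      rw [mul_sub, Complex.sub_re]
    have h4 : ((w * (⟨c, t⟩ : ℂ)) * (a - q)).re = c * (w * (a - q)).re -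
        t * (w * (a - q)).im := by
      rw [show (w * (⟨c, t⟩ : ℂ)) * (a - q) = (⟨c, t⟩ : ℂ) * (w * (a - q)) by ring, re_mul_mk]
    have h5 : (w * (a - q)).re = 0 := by
      rw [mul_sub, Complex.sub_re, hwa, hwq, sub_self]
    rw [h5, mul_zero, zero_sub] at h4
    linarith
  have k1 := key s (Or.inl rfl)
  have k2 := key (-s) (Or.inr rfl)
  have k3 : (w * (a - q)).im = 0 := by
    have : s * (w * (a - q)).im = 0 := by linarith
    rcases mul_eq_zero.mp this with h | h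
    · exact absurd h hs.ne'
    · exact h
  have k4 : (w * (a - q)).re = 0 := by
    rw [mul_sub, Complex.sub_re, hwa, hwq, sub_self]
  have k5 : w * (a - q) = 0 := Complex.ext k4 k3
  rcases mul_eq_zero.mp k5 with h | h
  · rw [h] at hw
    simp at hw
  · exact hne (sub_eq_zero.mp h).symm

theorem mixed_mem {ι : Type*} [Fintype ι] [DecidableEq ι] [Nonempty ι] {A : Matrix ι ι ℂ}
    (hgen : ∀ w0 : ℂ, ‖w0‖ = 1 → ∀ ε : ℝ, 0 < ε →
      ∃ w : ℂ, ‖w‖ = 1 ∧ ‖w - w0‖ < ε ∧ ∃ x, STop A w x)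
    (M : Submodule ℂ (ι → ℂ)) (hM : RegSet A ∪ CSet A ⊆ M)
    {e : ι → ℂ} (he : e ∈ CSet A) {a a' : ℂ} (h : A *ᵥ e = a • e) (h' : Aᴴ *ᵥ e = a' • e)
    {w : ℂ} (hw : ‖w‖ = 1) (hwa : (w * a).re = supp A w)
    (f : ι → ℂ) (hf0 : NN A w *ᵥ f = 0) (hf1 : star f ⬝ᵥ f = 1) (hef : star e ⬝ᵥ f = 0)
    (hker : ∀ y, NN A w *ᵥ y = 0 → ∃ c d : ℂ, y = c • e + d • f) : f ∈ M := by
  have he0 : e ≠ 0 := by
    obtain ⟨_, _, hs, _⟩ := he
    exact hs.1
  obtain ⟨q, hq⟩ : ∃ q, q = star f ⬝ᵥ (A *ᵥ f) := ⟨_, rfl⟩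
  have hqm : q ∈ MW A := ⟨f, hf1, hq.symm⟩
  have hwq : (w * q).re = supp A w := by
    have := (NN_ker A w f).mp hf0
    rw [hf1, ← hq] at this
    simpa using this
  have hne : q ≠ a := by
    rw [hq]
    exact mixed_ne he h h' f hf1 hef
  have hcl := dir_closed A ((M : Set (ι → ℂ)) ∩ {x | star e ⬝ᵥ x = 0})
    ((Submodule.closed_of_finiteDimensional M).inter (closed_perp e))
  have hmem : w ∈ {z : ℂ | ‖z‖ = 1 ∧ ∃ x ∈ (M : Set (ι → ℂ)) ∩ {x | star e ⬝ᵥ x = 0},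
      star x ⬝ᵥ x = 1 ∧ NN A z *ᵥ x = 0} := by
    rw [← hcl.closure_eq, Metric.mem_closure_iff]
    intro ε hε
    obtain ⟨z, hz, hzd, hza⟩ := mixed_escape (A := A) hw hwa hqm hwq hne (ε / 2) (by positivity)
    have hopen : IsOpen {y : ℂ | (y * a).re ≠ supp A y} := by
      have hcl2 : IsClosed {y : ℂ | (y * a).re = supp A y} :=
        isClosed_eq (Complex.continuous_re.comp (continuous_id.mul continuous_const))
          (supp_continuous A)
      exact hcl2.isOpen_compl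
    obtain ⟨δ, hδ, hball⟩ := Metric.isOpen_iff.mp hopen z hza
    obtain ⟨w1, hw1, hw1d, x, hx, hx1, hxs⟩ := dense_tset A hgen z hz (min δ (ε / 2))
      (lt_min hδ (by positivity))
    have hne1 : (w1 * a).re ≠ supp A w1 := hball (by
      rw [Metric.mem_ball, dist_eq_norm]
      exact lt_of_lt_of_le hw1d (min_le_left _ _))
    have hx0 : NN A w1 *ᵥ x = 0 := (hxs.ker x).mpr ⟨1, by simp⟩
    refine ⟨w1, ⟨hw1, x, ⟨hM hx, joint_perp he0 h h' w1 hne1 x hx0⟩, hx1, hx0⟩, ?_⟩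
    rw [dist_comm, dist_eq_norm]
    have e1 : w1 - w = (w1 - z) + (z - w) := by ring
    rw [e1]
    refine (norm_add_le _ _).trans_lt ?_
    have := lt_of_lt_of_le hw1d (min_le_right _ _)
    linarith
  obtain ⟨_, x, ⟨hxM, hxe⟩, hx1, hx0⟩ := hmem
  obtain ⟨c, d, hcd⟩ := hker x hx0
  have hxe' : star e ⬝ᵥ x = 0 := hxe
  rw [hcd, dotProduct_add, dotProduct_smul, dotProduct_smul, hef, smul_zero, add_zero,
    smul_eq_mul] at hxe'
  have hc0 : c = 0 := by
    rcases mul_eq_zero.mp hxe' with h | h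
    · exact h
    · exact absurd h (self_ne he0)
  rw [hc0, zero_smul, zero_add] at hcd
  have hd0 : d ≠ 0 := by
    rintro rfl
    rw [hcd, zero_smul] at hx1
    simp at hx1
  have hf : f = d⁻¹ • x := by
    rw [hcd, smul_smul, inv_mul_cancel₀ hd0, one_smul]
  rw [hf]
  exact M.smul_mem _ hxM

theorem mixed_reg {ι : Type*} [Fintype ι] [DecidableEq ι] [Nonempty ι] {A : Matrix ι ι ℂ}
    (c0 : ℂ) (hc0 : ∀ z : ℂ, ‖z‖ = 1 → (z * c0).re < supp A z)
    {e : ι → ℂ} (he : e ∈ CSet A) {a a' : ℂ} (h : A *ᵥ e = a • e) (h' : Aᴴ *ᵥ e = a' • e)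
    {w : ℂ} (hw : ‖w‖ = 1) (hwa : (w * a).re = supp A w)
    (f : ι → ℂ) (hf0 : NN A w *ᵥ f = 0) (hf1 : star f ⬝ᵥ f = 1) (hef : star e ⬝ᵥ f = 0) :
    Reg A w (e + f) := by
  have he0 : e ≠ 0 := by
    obtain ⟨_, _, hs, _⟩ := he
    exact hs.1
  obtain ⟨q, hq⟩ : ∃ q, q = star f ⬝ᵥ (A *ᵥ f) := ⟨_, rfl⟩
  have hqm : q ∈ MW A := ⟨f, hf1, hq.symm⟩
  have ham : a ∈ MW A := by
    have h1 := mem_MW_of_ne_zero A e he0
    rw [h, dotProduct_smul, smul_eq_mul, mul_div_assoc, div_self (self_ne he0), mul_one] at h1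
    exact h1
  have hwq : (w * q).re = supp A w := by
    have := (NN_ker A w f).mp hf0
    rw [hf1, ← hq] at this
    simpa using this
  have hne : q ≠ a := by
    rw [hq]
    exact mixed_ne he h h' f hf1 hef
  obtain ⟨E, hE⟩ : ∃ E : ℝ, E = (star e ⬝ᵥ e).re := ⟨_, rfl⟩
  have hE0 : 0 < E := by rw [hE]; exact self_pos he0
  have hfe : star f ⬝ᵥ e = 0 := by rw [dot_swap, hef, map_zero]
  have hF : ∀ z : ℂ, (star (e + f) ⬝ᵥ (NN A z *ᵥ (e + f))).re =
      (supp A z - (z * a).re) * E + (supp A z - (z * q).re) := by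
    intro z
    rw [Matrix.mulVec_add, star_add, add_dotProduct, dotProduct_add, dotProduct_add,
      joint_NN he0 h h', dotProduct_smul, dotProduct_smul, hfe, smul_zero, zero_add,
      herm_swap (NN_psd A z).1 e f, joint_NN he0 h h', dotProduct_smul, hfe, smul_zero, map_zero,
      add_zero, NN_quad, hf1, ← hq, Complex.add_re, smul_eq_mul, Complex.re_ofReal_mul, ← hE,
      Complex.ofReal_re, Complex.one_re, mul_one]
  obtain ⟨G, hG⟩ : ∃ G : ℂ → ℝ, G = fun z => (supp A z - (z * a).re) + (supp A z - (z * q).re) :=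
    ⟨_, rfl⟩
  have hGc : Continuous G := by
    rw [hG]
    exact ((supp_continuous A).sub (Complex.continuous_re.comp
      (continuous_id.mul continuous_const))).add ((supp_continuous A).sub
      (Complex.continuous_re.comp (continuous_id.mul continuous_const)))
  have hGabs : ∀ z : ℂ, |(z * (a - q)).re| ≤ G z := by
    intro z
    have g1 := le_supp A z a ham
    have g2 := le_supp A z q hqm
    rw [hG, mul_sub, Complex.sub_re, abs_le]
    constructor <;> simp only <;> linarith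
  obtain ⟨s, hs⟩ : ∃ s : ℝ, s = (w * (a - q)).im := ⟨_, rfl⟩
  have hre0 : (w * (a - q)).re = 0 := by
    rw [mul_sub, Complex.sub_re, hwa, hwq, sub_self]
  have hs0 : s ≠ 0 := by
    intro h0
    have k5 : w * (a - q) = 0 := Complex.ext hre0 (by rw [← hs, h0]; rfl)
    rcases mul_eq_zero.mp k5 with h | h
    · rw [h] at hw
      simp at hw
    · exact hne (sub_eq_zero.mp h).symm
  have hww := unit_conj hw
  have hzeta : ∀ z : ℂ, (z * (a - q)).re = -(z * starRingEnd ℂ w).im * s := by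
    intro z
    have e1 : z * (a - q) = (z * starRingEnd ℂ w) * (w * (a - q)) := by
      linear_combination -(z * (a - q)) * hww
    rw [e1, Complex.mul_re, hre0, ← hs]
    ring
  have hzn : ∀ z : ℂ, ‖z‖ = 1 →
      (z * starRingEnd ℂ w).re ^ 2 + (z * starRingEnd ℂ w).im ^ 2 = 1 := by
    intro z hz
    have : Complex.normSq (z * starRingEnd ℂ w) = 1 := by
      rw [Complex.normSq_eq_norm_sq, norm_mul, RCLike.norm_conj, hz, hw]
      norm_num
    rw [Complex.normSq_apply] at this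
    nlinarith
  have hdist : ∀ z : ℂ, ‖z‖ = 1 → ‖z - w‖ ^ 2 = 2 - 2 * (z * starRingEnd ℂ w).re := by
    intro z hz
    rw [← Complex.normSq_eq_norm_sq, Complex.normSq_sub, Complex.normSq_eq_norm_sq,
      Complex.normSq_eq_norm_sq, hz, hw]
    ring
  obtain ⟨κ, hκ0, hκ⟩ : ∃ κ : ℝ, 0 < κ ∧ ∀ z : ℂ, ‖z‖ = 1 → κ * ‖z - w‖ ^ 2 ≤ G z := by
    have hK : IsCompact ({z : ℂ | ‖z‖ = 1} ∩ {z : ℂ | (z * starRingEnd ℂ w).re ≤ 0}) := by
      apply circle_compact.inter_right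
      exact isClosed_le (Complex.continuous_re.comp (continuous_id.mul continuous_const))
        continuous_const
    have hKne : ({z : ℂ | ‖z‖ = 1} ∩ {z : ℂ | (z * starRingEnd ℂ w).re ≤ 0}).Nonempty := by
      refine ⟨-w, ?_, ?_⟩
      · show ‖-w‖ = 1
        rw [norm_neg, hw]
      · show (-w * starRingEnd ℂ w).re ≤ 0
        rw [neg_mul, hww]
        simp
    obtain ⟨z1, hz1, hmin⟩ := hK.exists_isMinOn hKne hGc.continuousOn
    have hpos : 0 < G z1 := by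
      have g1 := le_supp A z1 a ham
      have g2 := le_supp A z1 q hqm
      have g0 : 0 ≤ G z1 := (abs_nonneg _).trans (hGabs z1)
      rcases g0.lt_or_eq with g | g
      · exact g
      · exfalso
        have g3 := hGabs z1
        rw [← g, hzeta] at g3
        have g4 : (z1 * starRingEnd ℂ w).im = 0 := by
          have := abs_nonpos_iff.mp g3
          rcases mul_eq_zero.mp this with h | h
          · linarith
          · exact absurd h hs0
        have g5 := hzn z1 hz1.1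
        have g6 : (z1 * starRingEnd ℂ w).re ≤ 0 := hz1.2
        rw [g4] at g5
        have g7 : (z1 * starRingEnd ℂ w).re = -1 := by nlinarith
        have g8 : z1 * starRingEnd ℂ w = -1 := Complex.ext (by rw [g7]; simp) (by rw [g4]; simp)
        have g9 : z1 = -w := by linear_combination w * g8 - z1 * hww
        rw [hG] at g
        simp only at g
        rw [g9, neg_mul, neg_mul, Complex.neg_re, Complex.neg_re, hwa, hwq] at g
        have i1 := hc0 w hw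
        have i2 := hc0 (-w) (by rw [norm_neg]; exact hw)
        rw [neg_mul, Complex.neg_re] at i2
        linarith
    refine ⟨min (|s| / 2) (G z1 / 4), lt_min (by positivity) (by positivity), ?_⟩
    intro z hz
    have hd0 : 0 ≤ ‖z - w‖ ^ 2 := sq_nonneg _
    rcases le_total (z * starRingEnd ℂ w).re 0 with hcase | hcase
    · have m1 : G z1 ≤ G z := hmin ⟨hz, hcase⟩
      have m2 : ‖z - w‖ ^ 2 ≤ 4 := by
        rw [hdist z hz]
        nlinarith [hzn z hz, sq_nonneg ((z * starRingEnd ℂ w).re + 1),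
          sq_nonneg (z * starRingEnd ℂ w).im]
      calc min (|s| / 2) (G z1 / 4) * ‖z - w‖ ^ 2 ≤ G z1 / 4 * ‖z - w‖ ^ 2 :=
            mul_le_mul_of_nonneg_right (min_le_right _ _) hd0
        _ ≤ G z1 / 4 * 4 := mul_le_mul_of_nonneg_left m2 (by positivity)
        _ ≤ G z := by linarith
    · have m3 : ‖z - w‖ ^ 2 ≤ 2 * |(z * starRingEnd ℂ w).im| := by
        rw [hdist z hz]
        have n1 := hzn z hz
        obtain ⟨r, hr⟩ : ∃ r, r = (z * starRingEnd ℂ w).re := ⟨_, rfl⟩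
        obtain ⟨m, hm⟩ : ∃ m, m = |(z * starRingEnd ℂ w).im| := ⟨_, rfl⟩
        have n2 : (z * starRingEnd ℂ w).im ^ 2 = m ^ 2 := by rw [hm, sq_abs]
        rw [n2, ← hr] at n1
        rw [← hr] at hcase ⊢
        rw [← hm]
        have m0 : 0 ≤ m := by rw [hm]; exact abs_nonneg _
        have n3 : r ≤ 1 := by nlinarith
        have n4 : m ≤ 1 := by nlinarith
        nlinarith
      have m4 : |s| * |(z * starRingEnd ℂ w).im| ≤ G z := by
        refine le_trans (le_of_eq ?_) (hGabs z)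
        rw [hzeta, abs_mul, abs_neg, mul_comm]
      calc min (|s| / 2) (G z1 / 4) * ‖z - w‖ ^ 2 ≤ |s| / 2 * ‖z - w‖ ^ 2 :=
            mul_le_mul_of_nonneg_right (min_le_left _ _) hd0
        _ ≤ |s| / 2 * (2 * |(z * starRingEnd ℂ w).im|) :=
            mul_le_mul_of_nonneg_left m3 (by positivity)
        _ = |s| * |(z * starRingEnd ℂ w).im| := by ring
        _ ≤ G z := m4
  refine ⟨min E 1 * κ, mul_pos (lt_min hE0 one_pos) hκ0, ?_⟩
  intro z hz
  rw [hF]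
  have g1 : 0 ≤ supp A z - (z * a).re := sub_nonneg.mpr (le_supp A z a ham)
  have g2 : 0 ≤ supp A z - (z * q).re := sub_nonneg.mpr (le_supp A z q hqm)
  have g3 := hκ z hz
  have hmn : 0 ≤ min E 1 := (lt_min hE0 one_pos).le
  calc min E 1 * κ * ‖z - w‖ ^ 2 = min E 1 * (κ * ‖z - w‖ ^ 2) := by ring
    _ ≤ min E 1 * G z := mul_le_mul_of_nonneg_left g3 hmn
    _ = min E 1 * (supp A z - (z * a).re) + min E 1 * (supp A z - (z * q).re) := by
        rw [hG]; ring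
    _ ≤ E * (supp A z - (z * a).re) + 1 * (supp A z - (z * q).re) :=
        add_le_add (mul_le_mul_of_nonneg_right (min_le_left _ _) g1)
          (mul_le_mul_of_nonneg_right (min_le_right _ _) g2)
    _ = _ := by ring

end Pool.Agent.Helper29X1.ND
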