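import Mathlib
import Pool.Agent.Helper29X1.ND.Mix
open Matrix Finset
open scoped ComplexOrder

namespace Pool.Agent.Helper29X1.ND

open Pool.Agent.Helper774

/-- top vectors `e + u` in a two-dimensional eigenspace, `e` a joint eigenvector -/
def Mixed {ι : Type*} [Fintype ι] [DecidableEq ι] (A : Matrix ι ι ℂ) (w : ℂ) (e u : ι → ℂ) :
    Prop :=
  ‖w‖ = 1 ∧ u ≠ 0 ∧ NN A w *ᵥ e = 0 ∧ NN A w *ᵥ u = 0 ∧
    (∀ y, NN A w *ᵥ y = 0 → ∃ c d : ℂ, y = c • e + d • u) ∧ Reg A w (e + u) ∧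
    star e ⬝ᵥ u = 0 ∧ (∃ a a' : ℂ, A *ᵥ e = a • e ∧ Aᴴ *ᵥ e = a' • e ∧
      (e = 0 ∨ star u ⬝ᵥ (A *ᵥ u) ≠ a * (star u ⬝ᵥ u)))

theorem joint_left0 {ι : Type*} [Fintype ι] [DecidableEq ι] {A : Matrix ι ι ℂ} {e : ι → ℂ}
    {a a' : ℂ} (h : A *ᵥ e = a • e) (h' : Aᴴ *ᵥ e = a' • e) (y : ι → ℂ) :
    star e ⬝ᵥ (A *ᵥ y) = a * (star e ⬝ᵥ y) := by
  by_cases he : e = 0
  · subst he
    simp
  · exact joint_left he h h' y

theorem comb_dot {ι : Type*} [Fintype ι] (e u e' u' : ι → ℂ) (α β α' β' : ℂ) :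
    star (α • e + β • u) ⬝ᵥ (α' • e' + β' • u') =
      starRingEnd ℂ α * α' * (star e ⬝ᵥ e') + starRingEnd ℂ α * β' * (star e ⬝ᵥ u') +
      starRingEnd ℂ β * α' * (star u ⬝ᵥ e') + starRingEnd ℂ β * β' * (star u ⬝ᵥ u') := by
  simp only [star_add, star_smul, add_dotProduct, dotProduct_add, smul_dotProduct,
    dotProduct_smul, smul_eq_mul, Complex.star_def]
  ring

theorem comb_quad {ι : Type*} [Fintype ι] (A : Matrix ι ι ℂ) (e u e' u' : ι → ℂ)
    (α β α' β' : ℂ) :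
    star (α • e + β • u) ⬝ᵥ (A *ᵥ (α' • e' + β' • u')) =
      starRingEnd ℂ α * α' * (star e ⬝ᵥ (A *ᵥ e')) +
      starRingEnd ℂ α * β' * (star e ⬝ᵥ (A *ᵥ u')) +
      starRingEnd ℂ β * α' * (star u ⬝ᵥ (A *ᵥ e')) +
      starRingEnd ℂ β * β' * (star u ⬝ᵥ (A *ᵥ u')) := by
  rw [Matrix.mulVec_add, Matrix.mulVec_smul, Matrix.mulVec_smul, comb_dot]

theorem fam_rank {ι : Type*} [Fintype ι] [DecidableEq ι] [Nonempty ι] {k : ℕ} (hk : 2 ≤ k)
    (A : Matrix ι ι ℂ) (hA : FinPropD A) (w : Fin k → ℂ) (e u : Fin k → ι → ℂ)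
    (hmix : ∀ i, Mixed A (w i) (e i) (u i)) (heu : ∀ i j, star (e i) ⬝ᵥ u j = 0)
    (hee : ∀ i j, i ≠ j → star (e i) ⬝ᵥ e j = 0)
    (hind : LinearIndependent ℂ (fun i => e i + u i))
    (hcpl : ∀ i j, i ≠ j → star (u i) ⬝ᵥ u j ≠ 0 ∨ star (u i) ⬝ᵥ (A *ᵥ u j) ≠ 0 ∨
      star (u j) ⬝ᵥ (A *ᵥ u i) ≠ 0) :
    ∃ z : ℂ, ‖z‖ = 1 ∧ ∀ i j, ‖star (e i + u i) ⬝ᵥ (NN A z *ᵥ (e j + u j))‖ ^ 2 =
      (star (e i + u i) ⬝ᵥ (NN A z *ᵥ (e i + u i))).re *
        (star (e j + u j) ⬝ᵥ (NN A z *ᵥ (e j + u j))).re := by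
  by_contra hcon
  push Not at hcon
  refine main_neg2 hk A (fun i => e i + u i) hind ?_ hcon hA
  intro N X Γ hΓ1 hΓh hX1 hX2
  have hue : ∀ i j, star (u i) ⬝ᵥ e j = 0 := fun i j => by rw [dot_swap, heu, map_zero]
  have hAeu : ∀ i j, star (e i) ⬝ᵥ (A *ᵥ u j) = 0 := by
    intro i j
    obtain ⟨-, -, -, -, -, -, -, a, a', h, h', -⟩ := hmix i
    rw [joint_left0 h h', heu, mul_zero]
  have hAue : ∀ i j, star (u i) ⬝ᵥ (A *ᵥ e j) = 0 := by
    intro i j
    obtain ⟨-, -, -, -, -, -, -, a, a', h, h', -⟩ := hmix j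
    rw [h, dotProduct_smul, hue, smul_zero]
  have hAee : ∀ i j, i ≠ j → star (e i) ⬝ᵥ (A *ᵥ e j) = 0 := by
    intro i j hij
    obtain ⟨-, -, -, -, -, -, -, a, a', h, h', -⟩ := hmix j
    rw [h, dotProduct_smul, hee i j hij, smul_zero]
  have hcont : ∀ p i, ∃ c d : ℂ, X p i = c • e i + d • u i := by
    intro p i
    obtain ⟨-, -, g1, g2, g3, -⟩ := hmix i
    apply g3
    refine contact2 (u := e i + u i) i ?_ ?_ ?_ p
    · rw [hX1, hΓ1, one_mul]
    · rw [hX2, hΓ1, one_mul]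
    · rw [Matrix.mulVec_add, g1, g2, add_zero]
  choose α β hαβ using hcont
  have hyy : ∀ i j, i ≠ j → star (e i + u i) ⬝ᵥ (e j + u j) = star (u i) ⬝ᵥ u j := by
    intro i j hij
    rw [star_add, add_dotProduct, dotProduct_add, dotProduct_add, hee i j hij, heu, hue]
    ring
  have hyAy : ∀ i j, i ≠ j →
      star (e i + u i) ⬝ᵥ (A *ᵥ (e j + u j)) = star (u i) ⬝ᵥ (A *ᵥ u j) := by
    intro i j hij
    rw [star_add, add_dotProduct, Matrix.mulVec_add, dotProduct_add, dotProduct_add,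
      hAee i j hij, hAeu, hAue]
    ring
  refine ⟨β, ?_⟩
  intro i j
  by_cases hij : i = j
  · subst hij
    rw [hΓ1]
    obtain ⟨-, hu0, -, -, -, -, -, a, a', h, h', hq⟩ := hmix i
    have f1 := hX1 i i
    have f2 := hX2 i i
    rw [hΓ1, one_mul] at f1 f2
    have f3 : (∑ p, starRingEnd ℂ (α p i) * α p i) * (star (e i) ⬝ᵥ e i) +
        (∑ p, starRingEnd ℂ (β p i) * β p i) * (star (u i) ⬝ᵥ u i) =
        star (e i) ⬝ᵥ e i + star (u i) ⬝ᵥ u i := by
      have : star (e i + u i) ⬝ᵥ (e i + u i) = star (e i) ⬝ᵥ e i + star (u i) ⬝ᵥ u i := by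
        rw [star_add, add_dotProduct, dotProduct_add, dotProduct_add, heu, hue]
        ring
      rw [← this, ← f1, sum_mul, sum_mul, ← sum_add_distrib]
      apply sum_congr rfl
      intro p _
      rw [hαβ, comb_dot, heu, hue]
      ring
    have f4 : (∑ p, starRingEnd ℂ (α p i) * α p i) * (a * (star (e i) ⬝ᵥ e i)) +
        (∑ p, starRingEnd ℂ (β p i) * β p i) * (star (u i) ⬝ᵥ (A *ᵥ u i)) =
        a * (star (e i) ⬝ᵥ e i) + star (u i) ⬝ᵥ (A *ᵥ u i) := by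
      have h5 : star (e i) ⬝ᵥ (A *ᵥ e i) = a * (star (e i) ⬝ᵥ e i) := by
        rw [h, dotProduct_smul, smul_eq_mul]
      have : star (e i + u i) ⬝ᵥ (A *ᵥ (e i + u i)) =
          a * (star (e i) ⬝ᵥ e i) + star (u i) ⬝ᵥ (A *ᵥ u i) := by
        rw [star_add, add_dotProduct, Matrix.mulVec_add, dotProduct_add, dotProduct_add, hAeu,
          hAue, h5]
        ring
      rw [← this, ← f2, sum_mul, sum_mul, ← sum_add_distrib]
      apply sum_congr rfl
      intro p _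
      rw [hαβ, comb_quad, hAeu, hAue, h5]
      ring
    obtain ⟨Sb, hSb⟩ : ∃ Sb, Sb = ∑ p, starRingEnd ℂ (β p i) * β p i := ⟨_, rfl⟩
    rw [← hSb] at f3 f4 ⊢
    rcases hq with he | hq
    · rw [he] at f3
      simp only [star_zero, zero_dotProduct, mul_zero, zero_add] at f3
      have f5 : (Sb - 1) * (star (u i) ⬝ᵥ u i) = 0 := by linear_combination f3
      rcases mul_eq_zero.mp f5 with h6 | h6
      · exact (sub_eq_zero.mp h6).symm
      · exact absurd h6 (self_ne hu0)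
    · have f5 : (Sb - 1) * (star (u i) ⬝ᵥ (A *ᵥ u i) - a * (star (u i) ⬝ᵥ u i)) = 0 := by
        linear_combination f4 - a * f3
      rcases mul_eq_zero.mp f5 with h6 | h6
      · exact (sub_eq_zero.mp h6).symm
      · exact absurd (sub_eq_zero.mp h6) hq
  · have hSr : ∀ i j, i ≠ j → star (u i) ⬝ᵥ (A *ᵥ u j) ≠ 0 →
        Γ i j = ∑ p, starRingEnd ℂ (β p i) * β p j := by
      intro i j hij h0
      have h1 := hX2 i j
      rw [hyAy i j hij] at h1
      have h2 : ∑ p, star (X p i) ⬝ᵥ (A *ᵥ X p j) =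
          (∑ p, starRingEnd ℂ (β p i) * β p j) * (star (u i) ⬝ᵥ (A *ᵥ u j)) := by
        rw [sum_mul]
        apply sum_congr rfl
        intro p _
        rw [hαβ p i, hαβ p j, comb_quad, hAee i j hij, hAeu, hAue]
        ring
      rw [h2] at h1
      exact (mul_right_cancel₀ h0 h1).symm
    rcases hcpl i j hij with h0 | h0 | h0
    · have h1 := hX1 i j
      rw [hyy i j hij] at h1
      have h2 : ∑ p, star (X p i) ⬝ᵥ X p j =
          (∑ p, starRingEnd ℂ (β p i) * β p j) * (star (u i) ⬝ᵥ u j) := by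
        rw [sum_mul]
        apply sum_congr rfl
        intro p _
        rw [hαβ p i, hαβ p j, comb_dot, hee i j hij, heu, hue]
        ring
      rw [h2] at h1
      exact (mul_right_cancel₀ h0 h1).symm
    · exact hSr i j hij h0
    · rw [← hΓh, hSr j i (Ne.symm hij) h0, map_sum]
      apply sum_congr rfl
      intro p _
      rw [map_mul, Complex.conj_conj, mul_comm]

/-- coupling of two mixed vectors -/
theorem mixed_coupled {ι : Type*} [Fintype ι] [DecidableEq ι] [Nonempty ι]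
    (A : Matrix ι ι ℂ) (hA : FinPropD A) (w w' : ℂ) (e u e' u' : ι → ℂ)
    (h : Mixed A w e u) (h' : Mixed A w' e' u') (heu : star e ⬝ᵥ u' = 0)
    (heu' : star e' ⬝ᵥ u = 0) (hee : star e ⬝ᵥ e' = 0) :
    star u ⬝ᵥ u' ≠ 0 ∨ star u ⬝ᵥ (A *ᵥ u') ≠ 0 := by
  obtain ⟨hw, hu0, h1, h2, h3, h4, h5, a, b, h6, h7, -⟩ := h
  obtain ⟨hw', hu0', h1', h2', h3', h4', h5', a', b', h6', h7', -⟩ := h'
  have hee' : star e' ⬝ᵥ e = 0 := by rw [dot_swap, hee, map_zero]
  by_cases hww : w = w'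
  · subst hww
    left
    have e0 : e = 0 := by
      obtain ⟨c, d, hcd⟩ := h3' e h1
      by_contra hne
      apply self_ne hne
      conv_lhs => rw [hcd]
      rw [star_add, star_smul, star_smul, add_dotProduct, smul_dotProduct, smul_dotProduct,
        ← hcd, hee', dot_swap u' e, heu]
      simp
    obtain ⟨c, d, hcd⟩ := h3 u' h2'
    rw [e0, smul_zero, zero_add] at hcd
    rw [hcd, dotProduct_smul, smul_eq_mul]
    apply mul_ne_zero _ (self_ne hu0)
    rintro rfl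
    exact hu0' (by rw [hcd, zero_smul])
  · have hy0 : e + u ≠ 0 := by
      intro h0
      apply self_ne hu0
      have : star u ⬝ᵥ (e + u) = 0 := by rw [h0, dotProduct_zero]
      rw [dotProduct_add, dot_swap u e, h5, map_zero, zero_add] at this
      exact this
    have hy0' : e' + u' ≠ 0 := by
      intro h0
      apply self_ne hu0'
      have : star u' ⬝ᵥ (e' + u') = 0 := by rw [h0, dotProduct_zero]
      rw [dotProduct_add, dot_swap u' e', h5', map_zero, zero_add] at this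
      exact this
    obtain ⟨x, x', hx, hx', hxx⟩ := pair_coupled2 A hA w w' hw hw' hww (e + u) (e' + u') hy0
      hy0' (by rw [Matrix.mulVec_add, h1, h2, add_zero])
      (by rw [Matrix.mulVec_add, h1', h2', add_zero]) h4 h4'
    obtain ⟨c, d, hcd⟩ := h3 x hx
    obtain ⟨c', d', hcd'⟩ := h3' x' hx'
    have hue' : star u ⬝ᵥ e' = 0 := by rw [dot_swap, heu', map_zero]
    rcases hxx with hxx | hxx
    · left
      intro h0
      apply hxx
      rw [hcd, hcd', comb_dot, hee, heu, hue', h0]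
      ring
    · right
      intro h0
      apply hxx
      rw [hcd, hcd', comb_quad, h0, joint_left0 h6 h7 u', joint_left0 h6 h7 e', heu, hee, h6',
        dotProduct_smul, hue']
      simp

end Pool.Agent.Helper29X1.ND
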