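import Mathlib
import Pool.Agent.Helper29X1.ND.Fam
open Matrix Finset
open scoped ComplexOrder

namespace Pool.Agent.Helper29X1.ND

open Pool.Agent.Helper774

theorem reg_unique {ι : Type*} [Fintype ι] [DecidableEq ι] {A : Matrix ι ι ℂ} {w : ℂ}
    {x : ι → ℂ} (hr : Reg A w x) (z : ℂ) (hz : ‖z‖ = 1) (h0 : NN A z *ᵥ x = 0) : z = w := by
  obtain ⟨κ, hκ, h⟩ := hr
  have h1 := h z hz
  rw [h0, dotProduct_zero, Complex.zero_re] at h1
  have h2 : ‖z - w‖ ^ 2 ≤ 0 := by
    by_contra hcon
    push Not at hcon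
    have := mul_pos hκ hcon
    linarith
  have h3 : ‖z - w‖ = 0 := by
    have := sq_nonneg ‖z - w‖
    have h4 : ‖z - w‖ ^ 2 = 0 := le_antisymm h2 this
    exact pow_eq_zero_iff (two_ne_zero) |>.mp h4
  exact sub_eq_zero.mp (norm_eq_zero.mp h3)

theorem interior_of_reg {ι : Type*} [Fintype ι] [DecidableEq ι] [Nonempty ι]
    {A : Matrix ι ι ℂ} {x : ι → ℂ} (hx : x ∈ RegSet A) :
    ∃ c : ℂ, ∀ z : ℂ, ‖z‖ = 1 → (z * c).re < supp A z := by
  obtain ⟨w, hw, hs, hr⟩ := hx
  obtain ⟨c, hc0, hc⟩ : ∃ c : ℂ, c ≠ 0 ∧ star (c • x) ⬝ᵥ (c • x) = 1 := by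
    obtain ⟨c, h1, h2⟩ := normalize_vec x hs.1
    exact ⟨(c : ℂ), by exact_mod_cast h1.ne', h2⟩
  have hx0 : NN A w *ᵥ x = 0 := (hs.ker x).mpr ⟨1, by simp⟩
  have hy : ∀ z : ℂ, (z * (star (c • x) ⬝ᵥ (A *ᵥ (c • x)))).re = supp A z →
      NN A z *ᵥ x = 0 := by
    intro z hz
    have h1 : NN A z *ᵥ (c • x) = 0 := by
      rw [NN_ker, hc, hz]
      simp
    rw [Matrix.mulVec_smul] at h1
    rcases smul_eq_zero.mp h1 with h | h
    · exact absurd h hc0
    · exact h
  refine interior2 A w hw (star (c • x) ⬝ᵥ (A *ᵥ (c • x))) ⟨c • x, hc, rfl⟩ ?_ ?_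
  · have h1 : NN A w *ᵥ (c • x) = 0 := by rw [Matrix.mulVec_smul, hx0, smul_zero]
    rw [NN_ker, hc] at h1
    simpa using h1
  · intro z hz h
    exact reg_unique hr z hz (hy z h)

theorem span_perp {ι : Type*} [Fintype ι] (e : ι → ℂ) (S : Set (ι → ℂ))
    (h : ∀ r ∈ S, star e ⬝ᵥ r = 0) (x : ι → ℂ) (hx : x ∈ Submodule.span ℂ S) :
    star e ⬝ᵥ x = 0 := by
  induction hx using Submodule.span_induction with
  | mem r hr => exact h r hr
  | zero => simp
  | add p q _ _ hp hq => rw [dotProduct_add, hp, hq, add_zero]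
  | smul s p _ hp => rw [dotProduct_smul, hp, smul_zero]

theorem stop_ker_self {ι : Type*} [Fintype ι] [DecidableEq ι] {A : Matrix ι ι ℂ} {w : ℂ}
    {x : ι → ℂ} (hs : STop A w x) : NN A w *ᵥ x = 0 := (hs.ker x).mpr ⟨1, by simp⟩

theorem csep {ι : Type*} [Fintype ι] [DecidableEq ι] [Nonempty ι] {A : Matrix ι ι ℂ}
    {e u : ι → ℂ} (he : e ∈ CSet A) (hu : u ∈ RegSet A) : star e ⬝ᵥ u = 0 := by
  obtain ⟨we, hwe, hse, a, a', h, h'⟩ := he
  obtain ⟨wu, hwu, hsu, hru⟩ := hu
  by_cases hcase : (wu * a).re = supp A wu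
  · exfalso
    have h1 : NN A wu *ᵥ e = 0 := by
      rw [joint_NN hse.1 h h', hcase, sub_self, Complex.ofReal_zero, zero_smul]
    obtain ⟨c, hc⟩ := (hsu.ker e).mp h1
    have hc0 : c ≠ 0 := by
      rintro rfl
      exact hse.1 (by rw [hc, zero_smul])
    obtain ⟨ε, hε, hball⟩ := cset_near hse h h'
    obtain ⟨s, d, hs, hds, hz⟩ := near_unit we hwe ε hε
    have key : ∀ t : ℝ, t = s ∨ t = -s → we * (⟨d, t⟩ : ℂ) = wu := by
      intro t ht
      obtain ⟨g1, g2⟩ := hz t ht
      apply reg_unique hru _ g1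
      have g3 := hball _ g1 g2
      have g4 : NN A (we * (⟨d, t⟩ : ℂ)) *ᵥ e = 0 := by
        rw [joint_NN hse.1 h h', g3, sub_self, Complex.ofReal_zero, zero_smul]
      rw [hc, Matrix.mulVec_smul] at g4
      rcases smul_eq_zero.mp g4 with g5 | g5
      · exact absurd g5 hc0
      · exact g5
    have k1 := key s (Or.inl rfl)
    have k2 := key (-s) (Or.inr rfl)
    have hwe0 : we ≠ 0 := by
      rintro rfl
      simp at hwe
    have k3 : (⟨d, s⟩ : ℂ) = ⟨d, -s⟩ := mul_left_cancel₀ hwe0 (k1.trans k2.symm)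
    have k4 := congrArg Complex.im k3
    simp only at k4
    linarith
  · exact joint_perp hse.1 h h' wu hcase u (stop_ker_self hsu)

theorem cset_dich {ι : Type*} [Fintype ι] [DecidableEq ι] {A : Matrix ι ι ℂ}
    {e e' : ι → ℂ} (he : e ∈ CSet A) (he' : e' ∈ CSet A) :
    star e ⬝ᵥ e' = 0 ∨ ∃ c : ℂ, e' = c • e := by
  obtain ⟨we, hwe, hse, a, a', h, h'⟩ := he
  obtain ⟨we', hwe', hse', b, b', g, g'⟩ := he'
  by_cases hab : a = b
  · right
    subst hab
    have h1 := stop_ker_self hse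
    rw [joint_NN hse.1 h h'] at h1
    have h2 : NN A we *ᵥ e' = 0 := by
      rw [joint_NN hse'.1 g g']
      rcases smul_eq_zero.mp h1 with h3 | h3
      · rw [h3, zero_smul]
      · exact absurd h3 hse.1
    exact (hse.ker e').mp h2
  · left
    have h1 := joint_left hse.1 h h' e'
    rw [g, dotProduct_smul, smul_eq_mul] at h1
    have h2 : (b - a) * (star e ⬝ᵥ e') = 0 := by linear_combination h1
    rcases mul_eq_zero.mp h2 with h3 | h3
    · exact absurd (sub_eq_zero.mp h3).symm hab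
    · exact h3

/-- nondegenerate corners -/
def CornerOK {ι : Type*} [Fintype ι] [DecidableEq ι] (A : Matrix ι ι ℂ) : Prop :=
  ∀ e ∈ CSet A, ∀ a a' : ℂ, A *ᵥ e = a • e → Aᴴ *ᵥ e = a' • e →
    ∃ w : ℂ, ‖w‖ = 1 ∧ (w * a).re = supp A w ∧ ∃ f : ι → ℂ, NN A w *ᵥ f = 0 ∧
      star f ⬝ᵥ f = 1 ∧ star e ⬝ᵥ f = 0 ∧
      ∀ y, NN A w *ᵥ y = 0 → ∃ c d : ℂ, y = c • e + d • f

theorem span_rank2 {ι : Type*} [Fintype ι] [DecidableEq ι] [Nonempty ι] (A : Matrix ι ι ℂ)
    (hA : FinPropD A)
    (hgen : ∀ w0 : ℂ, ‖w0‖ = 1 → ∀ ε : ℝ, 0 < ε →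
      ∃ w : ℂ, ‖w‖ = 1 ∧ ‖w - w0‖ < ε ∧ ∃ x, STop A w x)
    (hne : (RegSet A).Nonempty) (hcor : CornerOK A) :
    ∃ w : ℂ, ‖w‖ = 1 ∧ ∃ g : ι → ℂ, ∀ x ∈ Submodule.span ℂ (RegSet A ∪ CSet A),
      (star x ⬝ᵥ (NN A w *ᵥ x)).re = ‖star g ⬝ᵥ x‖ ^ 2 := by
  classical
  obtain ⟨r0, hr0⟩ := hne
  obtain ⟨c0, hc0⟩ := interior_of_reg hr0
  obtain ⟨M, hMdef⟩ : ∃ M, M = Submodule.span ℂ (RegSet A ∪ CSet A) := ⟨_, rfl⟩
  have hMs : RegSet A ∪ CSet A ⊆ (M : Set (ι → ℂ)) := by
    rw [hMdef]
    exact Submodule.subset_span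
  obtain ⟨b1, hb1, hbs1, hbi1⟩ := exists_linearIndependent ℂ (RegSet A)
  obtain ⟨b2, hb2, hbs2, hbi2⟩ := exists_linearIndependent ℂ (CSet A)
  have hfin1 : Finite b1 := hbi1.finite
  have hfin2 : Finite b2 := hbi2.finite
  have hft1 : Fintype b1 := Fintype.ofFinite b1
  have hft2 : Fintype b2 := Fintype.ofFinite b2
  -- data
  have hI : ∀ i : b1 ⊕ b2, ∃ (w : ℂ) (e u : ι → ℂ), Mixed A w e u ∧ u ∈ M ∧
      (∀ x, i = Sum.inl x → e = 0 ∧ u = x) ∧ (∀ x, i = Sum.inr x → e = x) := by
    rintro (x | x)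
    · obtain ⟨w, hw, hs, hr⟩ := hb1 x.2
      refine ⟨w, 0, x, ⟨hw, hs.1, by simp, stop_ker_self hs, ?_, by rwa [zero_add], by simp,
        0, 0, by simp, by simp, Or.inl rfl⟩, hMs (Or.inl (hb1 x.2)), ?_, ?_⟩
      · intro y hy
        obtain ⟨c, hc⟩ := (hs.ker y).mp hy
        exact ⟨0, c, by rw [smul_zero, zero_add, hc]⟩
      · intro y hy
        exact ⟨rfl, by rw [Sum.inl.inj hy]⟩
      · intro y hy
        cases hy
    · have hx := hb2 x.2
      obtain ⟨we, hwe, hse, a, a', h, h'⟩ := id hx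
      obtain ⟨w, hw, hwa, f, hf0, hf1, hef, hker⟩ := hcor x hx a a' h h'
      refine ⟨w, x, f, ⟨hw, ?_, ?_, hf0, hker, mixed_reg c0 hc0 hx h h' hw hwa f hf0 hf1 hef,
        hef, a, a', h, h', Or.inr ?_⟩, mixed_mem hgen M hMs hx h h' hw hwa f hf0 hf1 hef hker,
        ?_, ?_⟩
      · rintro rfl
        simp at hf1
      · rw [joint_NN hse.1 h h', hwa, sub_self, Complex.ofReal_zero, zero_smul]
      · rw [hf1, mul_one]
        exact mixed_ne hx h h' f hf1 hef
      · intro y hy
        cases hy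
      · intro y hy
        rw [Sum.inr.inj hy]
  choose w e u hmix huM hinl hinr using hI
  have he_inl : ∀ x : b1, e (Sum.inl x) = 0 := fun x => (hinl _ x rfl).1
  have hu_inl : ∀ x : b1, u (Sum.inl x) = x := fun x => (hinl _ x rfl).2
  have he_inr : ∀ x : b2, e (Sum.inr x) = x := fun x => hinr _ x rfl
  have hee : ∀ i j, i ≠ j → star (e i) ⬝ᵥ e j = 0 := by
    rintro (x | x) (y | y) hij
    · rw [he_inl]; simp
    · rw [he_inl]; simp
    · rw [he_inl]; simp
    · rw [he_inr, he_inr]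
      rcases cset_dich (hb2 x.2) (hb2 y.2) with h | ⟨c, hc⟩
      · exact h
      · exfalso
        have hxy : x ≠ y := fun h => hij (by rw [h])
        have h1 := linearIndependent_iff'.mp hbi2 {x, y}
          (fun z => if z = x then c else -1) (by
            rw [Finset.sum_pair hxy, if_pos rfl, if_neg (Ne.symm hxy), ← hc]
            simp)
          y (by simp)
        rw [if_neg (Ne.symm hxy)] at h1
        norm_num at h1
  -- regular vectors are orthogonal to the joint eigenvectors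
  have heR : ∀ i, ∀ r ∈ RegSet A, star (e i) ⬝ᵥ r = 0 := by
    rintro (x | x) r hr
    · rw [he_inl]; simp
    · rw [he_inr]; exact csep (hb2 x.2) hr
  have heu : ∀ i j, star (e i) ⬝ᵥ u j = 0 := by
    rintro (x | x) (y | y)
    · rw [he_inl]; simp
    · rw [he_inl]; simp
    · rw [hu_inl]
      exact heR _ _ (hb1 y.2)
    · by_cases hxy : x = y
      · rw [hxy]
        exact (hmix (Sum.inr y)).2.2.2.2.2.2.1
      · by_contra hcon
        have hx := hb2 x.2
        have hxe : e (Sum.inr x) ≠ 0 := by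
          rw [he_inr]
          obtain ⟨_, _, hs, _⟩ := hx
          exact hs.1
        obtain ⟨_, _, _, a, a', h, h'⟩ := id hx
        rw [← he_inr] at h h'
        obtain ⟨hw, hu0, h1, h2, h3, h4, h5, b, b', h6, h7, -⟩ := hmix (Sum.inr y)
        have hcase : (w (Sum.inr y) * a).re = supp A (w (Sum.inr y)) := by
          by_contra hc
          exact hcon (joint_perp hxe h h' _ hc _ h2)
        have h8 : NN A (w (Sum.inr y)) *ᵥ e (Sum.inr x) = 0 := by
          rw [joint_NN hxe h h', hcase, sub_self, Complex.ofReal_zero, zero_smul]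
        obtain ⟨c, d, hcd⟩ := h3 _ h8
        have hye : e (Sum.inr y) ≠ 0 := by
          rw [he_inr]
          obtain ⟨_, _, hs, _⟩ := hb2 y.2
          exact hs.1
        have hyx : star (e (Sum.inr y)) ⬝ᵥ e (Sum.inr x) = 0 :=
          hee _ _ (fun h => hxy (Sum.inr.inj h).symm)
        have hc0' : c = 0 := by
          rw [hcd, dotProduct_add, dotProduct_smul, dotProduct_smul, h5, smul_zero, add_zero,
            smul_eq_mul] at hyx
          rcases mul_eq_zero.mp hyx with h9 | h9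
          · exact h9
          · exact absurd h9 (self_ne hye)
        rw [hc0', zero_smul, zero_add] at hcd
        have hd0 : d ≠ 0 := by
          rintro rfl
          exact hxe (by rw [hcd, zero_smul])
        have huy : u (Sum.inr y) = d⁻¹ • e (Sum.inr x) := by
          rw [hcd, smul_smul, inv_mul_cancel₀ hd0, one_smul]
        -- contradiction with the coupling to a regular vector
        obtain ⟨wr, hwr, hsr, hrr⟩ := id hr0
        have hmr : Mixed A wr 0 r0 := by
          refine ⟨hwr, hsr.1, by simp, stop_ker_self hsr, ?_, by rwa [zero_add], by simp,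
            0, 0, by simp, by simp, Or.inl rfl⟩
          intro y' hy'
          obtain ⟨c', hc'⟩ := (hsr.ker y').mp hy'
          exact ⟨0, c', by rw [smul_zero, zero_add, hc']⟩
        have hcp := mixed_coupled A hA _ _ _ _ _ _ (hmix (Sum.inr y)) hmr (heR _ _ hr0)
          (by simp) (by simp)
        have hxr : star (e (Sum.inr x)) ⬝ᵥ r0 = 0 := heR _ _ hr0
        rcases hcp with h9 | h9
        · apply h9
          rw [huy, star_smul, smul_dotProduct, hxr, smul_zero]
        · apply h9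
          rw [huy, star_smul, smul_dotProduct, joint_left0 h h', hxr, mul_zero, smul_zero]
  have hcpl : ∀ i j, i ≠ j → star (u i) ⬝ᵥ u j ≠ 0 ∨ star (u i) ⬝ᵥ (A *ᵥ u j) ≠ 0 ∨
      star (u j) ⬝ᵥ (A *ᵥ u i) ≠ 0 := by
    intro i j hij
    rcases mixed_coupled A hA _ _ _ _ _ _ (hmix i) (hmix j) (heu i j) (heu j i)
      (hee i j hij) with h | h
    · exact Or.inl h
    · exact Or.inr (Or.inl h)
  have hue : ∀ i j, star (u i) ⬝ᵥ e j = 0 := fun i j => by rw [dot_swap, heu, map_zero]
  have hindI : LinearIndependent ℂ (fun i => e i + u i) := by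
    rw [Fintype.linearIndependent_iff]
    intro g hg
    have h1 : ∀ j, g j * (star (e j) ⬝ᵥ e j) = 0 := by
      intro j
      have h2 := congrArg (fun v => star (e j) ⬝ᵥ v) hg
      simp only [dotProduct_sum, dotProduct_smul, dotProduct_add, heu, add_zero,
        dotProduct_zero, smul_eq_mul] at h2
      rw [Finset.sum_eq_single j] at h2
      · exact h2
      · intro i _ hij
        rw [hee j i (Ne.symm hij), mul_zero]
      · intro h
        exact absurd (mem_univ j) h
    have h2 : ∀ x : b2, g (Sum.inr x) = 0 := by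
      intro x
      rcases mul_eq_zero.mp (h1 (Sum.inr x)) with h | h
      · exact h
      · exfalso
        rw [he_inr] at h
        obtain ⟨_, _, hs, _⟩ := hb2 x.2
        exact self_ne hs.1 h
    have h3 : ∑ x : b1, g (Sum.inl x) • (x : ι → ℂ) = 0 := by
      rw [Fintype.sum_sum_type] at hg
      have h4 : ∑ x : b2, g (Sum.inr x) • (e (Sum.inr x) + u (Sum.inr x)) = 0 := by
        apply sum_eq_zero
        intro x _
        rw [h2, zero_smul]
      rw [h4, add_zero] at hg
      rw [← hg]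
      apply sum_congr rfl
      intro x _
      rw [he_inl, hu_inl, zero_add]
    have h5 := Fintype.linearIndependent_iff.mp hbi1 (fun x => g (Sum.inl x)) h3
    rintro (x | x)
    · exact h5 x
    · exact h2 x
  -- spans
  have hspan : M ≤ Submodule.span ℂ (Set.range (fun i => e i + u i)) := by
    have hR : Submodule.span ℂ (RegSet A) ≤
        Submodule.span ℂ (Set.range (fun i => e i + u i)) := by
      rw [← hbs1]
      apply Submodule.span_mono
      intro x hx
      refine ⟨Sum.inl ⟨x, hx⟩, ?_⟩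
      simp only
      rw [he_inl, hu_inl, zero_add]
    have hu2 : ∀ y : b2, u (Sum.inr y) ∈ Submodule.span ℂ (RegSet A) := by
      intro y
      have h1 := huM (Sum.inr y)
      rw [hMdef, Submodule.span_union, ← hbs2, Submodule.mem_sup] at h1
      obtain ⟨m1, hm1, m2, hm2, hsum⟩ := h1
      have hperp1 : ∀ j, star (e j) ⬝ᵥ m1 = 0 := fun j =>
        span_perp (e j) _ (heR j) m1 hm1
      have hperp2 : ∀ j, star (e j) ⬝ᵥ m2 = 0 := by
        intro j
        have := heu j (Sum.inr y)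
        rw [← hsum, dotProduct_add, hperp1, zero_add] at this
        exact this
      have hm20 : m2 = 0 := by
        apply dot_self_re_eq_zero
        have hall : ∀ m ∈ Submodule.span ℂ b2, star m ⬝ᵥ m2 = 0 := by
          intro m hm
          induction hm using Submodule.span_induction with
          | mem r hr =>
            have := hperp2 (Sum.inr ⟨r, hr⟩)
            rw [he_inr] at this
            exact this
          | zero => simp
          | add p q _ _ hp hq => rw [star_add, add_dotProduct, hp, hq, add_zero]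
          | smul s p _ hp => rw [star_smul, smul_dotProduct, hp, smul_zero]
        rw [hall m2 hm2]
        simp
      rw [← hsum, hm20, add_zero]
      exact hm1
    rw [hMdef, Submodule.span_union]
    apply sup_le hR
    rw [← hbs2]
    apply Submodule.span_le.mpr
    intro x hx
    have h1 : e (Sum.inr ⟨x, hx⟩) + u (Sum.inr ⟨x, hx⟩) ∈
        Submodule.span ℂ (Set.range (fun i => e i + u i)) :=
      Submodule.subset_span ⟨Sum.inr ⟨x, hx⟩, rfl⟩
    have h2 := hR (hu2 ⟨x, hx⟩)
    have h3 := Submodule.sub_mem _ h1 h2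
    rw [he_inr, add_sub_cancel_right] at h3
    exact h3
  obtain ⟨k, hk⟩ : ∃ k, k = Fintype.card (b1 ⊕ b2) := ⟨_, rfl⟩
  let f : Fin k ≃ (b1 ⊕ b2) := (Fintype.equivFinOfCardEq hk.symm).symm
  have hrange : Set.range (fun i : Fin k => e (f i) + u (f i)) =
      Set.range (fun i => e i + u i) := by
    have : (fun i : Fin k => e (f i) + u (f i)) = (fun i => e i + u i) ∘ f := rfl
    rw [this, Set.range_comp, f.surjective.range_eq, Set.image_univ]
  rw [← hMdef]
  by_cases hk2 : 2 ≤ k
  · obtain ⟨z, hz, hzz⟩ := fam_rank hk2 A hA (fun i => w (f i)) (fun i => e (f i))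
      (fun i => u (f i)) (fun i => hmix (f i)) (fun i j => heu (f i) (f j))
      (fun i j hij => hee _ _ (fun h => hij (f.injective h)))
      (hindI.comp f f.injective) (fun i j hij => hcpl _ _ (fun h => hij (f.injective h)))
    obtain ⟨g, hg⟩ := eq_case (NN_psd A z) (fun i : Fin k => e (f i) + u (f i)) hzz
    refine ⟨z, hz, g, fun x hx => hg x ?_⟩
    rw [hrange]
    exact hspan hx
  · -- a single vector
    have hk1 : k ≤ 1 := by omega
    have hr0s : r0 ∈ Submodule.span ℂ (Set.range (fun i => e i + u i)) :=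
      hspan (hMs (Or.inl hr0))
    have hkne : Nonempty (Fin k) := by
      by_contra hcon
      rw [not_nonempty_iff] at hcon
      have : Set.range (fun i : Fin k => e (f i) + u (f i)) = ∅ := Set.range_eq_empty _
      rw [← hrange, this, Submodule.span_empty, Submodule.mem_bot] at hr0s
      obtain ⟨_, _, hs, _⟩ := hr0
      exact hs.1 hr0s
    obtain ⟨i0⟩ := hkne
    have hall : ∀ i : Fin k, i = i0 := fun i => Fin.ext (by have := i.2; have := i0.2; omega)
    obtain ⟨hw, -, g1, g2, -⟩ := hmix (f i0)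
    have h1 : ∀ y ∈ Submodule.span ℂ (Set.range (fun i : Fin k => e (f i) + u (f i))),
        NN A (w (f i0)) *ᵥ y = 0 := by
      intro y hy
      induction hy using Submodule.span_induction with
      | mem y hy =>
        obtain ⟨i, rfl⟩ := hy
        simp only
        rw [hall i, Matrix.mulVec_add, g1, g2, add_zero]
      | zero => simp
      | add a b _ _ ha hb => rw [Matrix.mulVec_add, ha, hb, add_zero]
      | smul c a _ ha => rw [Matrix.mulVec_smul, ha, smul_zero]
    refine ⟨w (f i0), hw, 0, ?_⟩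
    intro x hx
    rw [h1 x (by rw [hrange]; exact hspan hx)]
    simp

end Pool.Agent.Helper29X1.ND
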