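import Mathlib
import Pool.Agent.Helper29X1.ND.Span2
open Matrix Finset
open scoped ComplexOrder

namespace Pool.Agent.Helper29X1.ND

open Pool.Agent.Helper774

theorem range_span2 {ι : Type*} [Fintype ι] [DecidableEq ι] [Nonempty ι] (A : Matrix ι ι ℂ)
    (hgen : ∀ w0 : ℂ, ‖w0‖ = 1 → ∀ ε : ℝ, 0 < ε →
      ∃ w : ℂ, ‖w‖ = 1 ∧ ‖w - w0‖ < ε ∧ ∃ x, STop A w x) :
    ∀ p ∈ MW A, ∃ x ∈ Submodule.span ℂ (RegSet A ∪ CSet A), star x ⬝ᵥ x = 1 ∧
      star x ⬝ᵥ (A *ᵥ x) = p := by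
  obtain ⟨k, V, hV, hVM, hVx⟩ := exists_iso (Submodule.span ℂ (RegSet A ∪ CSet A))
  obtain ⟨B, hB⟩ : ∃ B, B = Vᴴ * A * V := ⟨_, rfl⟩
  have hreg : ∀ x ∈ RegSet A ∪ CSet A, star x ⬝ᵥ x = 1 → star x ⬝ᵥ (A *ᵥ x) ∈ MW B := by
    intro x hx hx1
    have h1 := hVx x (Submodule.subset_span hx)
    refine ⟨Vᴴ *ᵥ x, ?_, ?_⟩
    · rw [← dot_iso V hV, h1, hx1]
    · rw [hB, quad_iso, h1]
  have hne : Nonempty (Fin k) := by
    obtain ⟨w, hw, _, x, hx, hx1, _⟩ := dense_tset A hgen 1 (by simp) 1 one_pos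
    by_contra hcon
    rw [not_nonempty_iff] at hcon
    have h1 := hVx x (Submodule.subset_span hx)
    have h2 : Vᴴ *ᵥ x = 0 := Subsingleton.elim _ _
    rw [h2, Matrix.mulVec_zero] at h1
    rw [← h1] at hx1
    simp at hx1
  have hsupp : ∀ z : ℂ, ‖z‖ = 1 → supp A z ≤ supp B z := by
    intro z hz
    by_contra hcon
    push Not at hcon
    have hopen : IsOpen {y : ℂ | supp B y < supp A y} :=
      isOpen_lt (supp_continuous B) (supp_continuous A)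
    obtain ⟨ε, hε, hball⟩ := Metric.isOpen_iff.mp hopen z hcon
    obtain ⟨w, hw, hwd, x, hx, hx1, hxs⟩ := dense_tset A hgen z hz ε hε
    have h1 : supp B w < supp A w := hball (by rw [Metric.mem_ball, dist_eq_norm]; exact hwd)
    have h2 := le_supp B w _ (hreg x hx hx1)
    have h3 := (NN_ker A w x).mp (stop_ker_self hxs)
    rw [hx1, Complex.one_re, mul_one] at h3
    linarith
  intro p hp
  have hpB : p ∈ MW B := by
    apply mem_of_supp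
    intro z hz
    exact (le_supp A z p hp).trans (hsupp z hz)
  obtain ⟨y, hy, hyp⟩ := hpB
  refine ⟨V *ᵥ y, hVM y, ?_, ?_⟩
  · rw [dot_iso V hV, hy]
  · rw [← quad_iso, ← hB, hyp]

theorem reduces_aux2 {ι : Type*} [Fintype ι] [DecidableEq ι] {N k : ℕ} (C : Matrix ι ι ℂ)
    (V : Matrix ι (Fin k) ℂ) (Y : Fin N → Matrix ι ι ℂ) (M1 M : Submodule ℂ (ι → ℂ))
    (hVM : ∀ y, V *ᵥ y ∈ M1)
    (hYM : ∀ p y, Y p *ᵥ y ∈ M)
    (h1 : ∀ x y, ∑ p, star (Y p *ᵥ x) ⬝ᵥ (Y p *ᵥ y) = star x ⬝ᵥ y)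
    (h2 : ∀ x y, ∑ p, star (Y p *ᵥ x) ⬝ᵥ (C *ᵥ (Y p *ᵥ y)) = star x ⬝ᵥ (C *ᵥ y))
    (c : Fin N → ℂ) (hc : ∀ p, ∀ x ∈ M1, Y p *ᵥ x = c p • x) (x : ι → ℂ) (hx : x ∈ M1)
    (hdec : ∀ m ∈ M, star m ⬝ᵥ (C *ᵥ x) = star m ⬝ᵥ (V *ᵥ (Vᴴ *ᵥ (C *ᵥ x)))) :
    C *ᵥ x ∈ M1 := by
  obtain ⟨x', hx'⟩ : ∃ x' : ι → ℂ, x' = V *ᵥ (Vᴴ *ᵥ (C *ᵥ x)) := ⟨_, rfl⟩
  have hx'M : x' ∈ M1 := by rw [hx']; exact hVM _
  have key : ∀ y : ι → ℂ, star y ⬝ᵥ (C *ᵥ x) = star y ⬝ᵥ x' := by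
    intro y
    rw [← h2 y x, ← h1 y x']
    apply sum_congr rfl
    intro p _
    rw [hc p x hx, hc p x' hx'M, Matrix.mulVec_smul, dotProduct_smul, dotProduct_smul,
      hdec _ (hYM p y), hx']
  have h3 : C *ᵥ x = x' := by
    have h4 := key (C *ᵥ x - x')
    have h5 : star (C *ᵥ x - x') ⬝ᵥ (C *ᵥ x - x') = 0 := by
      rw [dotProduct_sub, h4, sub_self]
    have h6 : C *ᵥ x - x' = 0 := dot_self_re_eq_zero (by rw [h5]; simp)
    exact sub_eq_zero.mp h6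
  rw [h3]
  exact hx'M

theorem reduces2 {ι : Type*} [Fintype ι] [DecidableEq ι] [Nonempty ι] (A : Matrix ι ι ℂ)
    (hA : FinPropD A) (hne : (RegSet A).Nonempty) {k : ℕ} (V : Matrix ι (Fin k) ℂ)
    (hV : Vᴴ * V = 1)
    (hVM : ∀ y, V *ᵥ y ∈ Submodule.span ℂ (RegSet A ∪ CSet A))
    (hD : FinDil (Vᴴ * A * V) A) :
    ∀ x ∈ Submodule.span ℂ (RegSet A ∪ CSet A),
      A *ᵥ x ∈ Submodule.span ℂ (RegSet A ∪ CSet A) ∧
      Aᴴ *ᵥ x ∈ Submodule.span ℂ (RegSet A ∪ CSet A) := by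
  obtain ⟨N, R, hR1, hR2⟩ := hD
  obtain ⟨r, hr⟩ : ∃ r : Fin N → Matrix (Fin k) ι ℂ, r = fun p => Matrix.of (R p) := ⟨_, rfl⟩
  have e1 : ∑ p, (r p)ᴴ * r p = 1 := by
    ext a b
    rw [Matrix.sum_apply, Matrix.one_apply, ← hR1 a b]
    apply sum_congr rfl
    intro p _
    rw [Matrix.mul_apply]
    apply sum_congr rfl
    intro i _
    rw [conjTranspose_apply, hr]
    rfl
  have e2 : ∑ p, (r p)ᴴ * (Vᴴ * A * V) * r p = A := by
    ext a b
    rw [Matrix.sum_apply, ← hR2 a b]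
    apply sum_congr rfl
    intro p _
    rw [Matrix.mul_apply, sum_comm]
    apply sum_congr rfl
    intro j _
    rw [Matrix.mul_apply, sum_mul]
    apply sum_congr rfl
    intro i _
    rw [conjTranspose_apply, hr]
    simp only [Matrix.of_apply, Complex.star_def]
    ring
  obtain ⟨Y, hY⟩ : ∃ Y : Fin N → Matrix ι ι ℂ, Y = fun p => V * r p := ⟨_, rfl⟩
  have hYv : ∀ p x, Y p *ᵥ x = V *ᵥ (r p *ᵥ x) := by
    intro p x
    rw [hY, Matrix.mulVec_mulVec]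
  have F1 : ∀ x y, ∑ p, star (Y p *ᵥ x) ⬝ᵥ (Y p *ᵥ y) = star x ⬝ᵥ y := by
    intro x y
    have : ∀ p, star (Y p *ᵥ x) ⬝ᵥ (Y p *ᵥ y) = star x ⬝ᵥ (((r p)ᴴ * r p) *ᵥ y) := by
      intro p
      rw [hYv, hYv, dot_iso V hV, iso_dot, Matrix.mulVec_mulVec]
    simp only [this]
    rw [← dotProduct_sum, ← Matrix.sum_mulVec, e1, Matrix.one_mulVec]
  have F2 : ∀ x y, ∑ p, star (Y p *ᵥ x) ⬝ᵥ (A *ᵥ (Y p *ᵥ y)) = star x ⬝ᵥ (A *ᵥ y) := by
    intro x y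
    have : ∀ p, star (Y p *ᵥ x) ⬝ᵥ (A *ᵥ (Y p *ᵥ y)) =
        star x ⬝ᵥ (((r p)ᴴ * (Vᴴ * A * V) * r p) *ᵥ y) := by
      intro p
      rw [hYv, hYv, ← quad_iso, iso_dot, Matrix.mulVec_mulVec, Matrix.mulVec_mulVec,
        ← Matrix.mul_assoc]
    simp only [this]
    rw [← dotProduct_sum, ← Matrix.sum_mulVec, e2]
  have F2' : ∀ x y, ∑ p, star (Y p *ᵥ x) ⬝ᵥ (Aᴴ *ᵥ (Y p *ᵥ y)) = star x ⬝ᵥ (Aᴴ *ᵥ y) := by
    intro x y
    simp only [quad_conjTranspose]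
    rw [← map_sum, F2]
  have hYM : ∀ p y, Y p *ᵥ y ∈ Submodule.span ℂ (RegSet A ∪ CSet A) := by
    intro p y
    rw [hYv]
    exact hVM _
  have hcont : ∀ u ∈ RegSet A, ∀ p, ∃ c : ℂ, Y p *ᵥ u = c • u := by
    rintro u ⟨w, hw, hs, _⟩ p
    have g1 : ∀ p, 0 ≤ (star (Y p *ᵥ u) ⬝ᵥ (NN A w *ᵥ (Y p *ᵥ u))).re := fun p =>
      (Complex.le_def.mp ((NN_psd A w).dotProduct_mulVec_nonneg _)).1
    have g2 : ∑ p, (star (Y p *ᵥ u) ⬝ᵥ (NN A w *ᵥ (Y p *ᵥ u))).re = 0 := by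
      simp only [NN_quad, Complex.ofReal_re]
      rw [sum_sub_distrib, ← mul_sum, ← Complex.re_sum, ← Complex.re_sum, ← mul_sum, F1, F2]
      have := (hs.2 u).mpr ⟨1, by simp⟩
      linarith
    have g3 := (sum_eq_zero_iff_of_nonneg (fun p _ => g1 p)).mp g2 p (mem_univ p)
    have g4 : NN A w *ᵥ (Y p *ᵥ u) = 0 := by
      rw [← (NN_psd A w).dotProduct_mulVec_zero_iff]
      apply Complex.ext
      · exact g3
      · rw [NN_quad]
        simp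
    exact (hs.ker _).mp g4
  have hself : ∀ u ∈ RegSet A, star u ⬝ᵥ u ≠ 0 := by
    rintro u ⟨w, hw, hs, _⟩ h
    exact hs.1 (dot_self_re_eq_zero (by rw [h]; simp))
  have hone : ∀ u ∈ RegSet A, ∀ u' ∈ RegSet A, ∀ c c' : Fin N → ℂ,
      (∀ p, Y p *ᵥ u = c p • u) → (∀ p, Y p *ᵥ u' = c' p • u') →
      ∑ p, starRingEnd ℂ (c p) * c' p = 1 := by
    intro u hu u' hu' c c' hc hc'
    have k1 : (∑ p, starRingEnd ℂ (c p) * c' p) * (star u ⬝ᵥ u') = star u ⬝ᵥ u' := by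
      rw [← F1 u u', sum_mul]
      apply sum_congr rfl
      intro p _
      rw [hc, hc', star_smul, smul_dotProduct, dotProduct_smul, smul_eq_mul, smul_eq_mul,
        Complex.star_def, F1, mul_assoc]
    have k2 : (∑ p, starRingEnd ℂ (c p) * c' p) * (star u ⬝ᵥ (A *ᵥ u')) =
        star u ⬝ᵥ (A *ᵥ u') := by
      conv_rhs => rw [← F2 u u']
      rw [sum_mul]
      apply sum_congr rfl
      intro p _
      rw [hc, hc', star_smul, smul_dotProduct, Matrix.mulVec_smul, dotProduct_smul, smul_eq_mul,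
        smul_eq_mul, Complex.star_def, mul_assoc]
    have k3 : (∑ p, starRingEnd ℂ (c p) * c' p) * (star u ⬝ᵥ (Aᴴ *ᵥ u')) =
        star u ⬝ᵥ (Aᴴ *ᵥ u') := by
      conv_rhs => rw [← F2' u u']
      rw [sum_mul]
      apply sum_congr rfl
      intro p _
      rw [hc, hc', star_smul, smul_dotProduct, Matrix.mulVec_smul, dotProduct_smul, smul_eq_mul,
        smul_eq_mul, Complex.star_def, mul_assoc]
    rcases coupled A hA hu hu' with h | h | h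
    · exact mul_right_cancel₀ h (by rw [one_mul]; exact k1)
    · exact mul_right_cancel₀ h (by rw [one_mul]; exact k2)
    · have h' : star u ⬝ᵥ (Aᴴ *ᵥ u') ≠ 0 := by
        rw [quad_conjTranspose]
        intro h0
        exact h ((map_eq_zero _).mp h0)
      exact mul_right_cancel₀ h' (by rw [one_mul]; exact k3)
  obtain ⟨u0, hu0⟩ := hne
  choose c hc using hcont u0 hu0
  have hall : ∀ u ∈ RegSet A, ∀ p, Y p *ᵥ u = c p • u := by
    intro u hu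
    choose c' hc' using hcont u hu
    have m1 := hone u0 hu0 u hu c c' hc hc'
    have m2 := hone u0 hu0 u0 hu0 c c hc hc
    have m3 := hone u hu u hu c' c' hc' hc'
    have m4 := hone u hu u0 hu0 c' c hc' hc
    have m5 : ∑ p, ‖c p - c' p‖ ^ 2 = 0 := by
      have m6 : ((∑ p, ‖c p - c' p‖ ^ 2 : ℝ) : ℂ) = 0 := by
        have m7 : ∀ p, ((‖c p - c' p‖ ^ 2 : ℝ) : ℂ) = starRingEnd ℂ (c p) * c p
            - starRingEnd ℂ (c p) * c' p - starRingEnd ℂ (c' p) * c p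
            + starRingEnd ℂ (c' p) * c' p := by
          intro p
          rw [← Complex.normSq_eq_norm_sq, Complex.normSq_eq_conj_mul_self, map_sub]
          ring
        rw [Complex.ofReal_sum]
        simp only [m7]
        rw [sum_add_distrib, sum_sub_distrib, sum_sub_distrib, m1, m2, m3, m4]
        ring
      exact_mod_cast m6
    intro p
    have m8 := (sum_eq_zero_iff_of_nonneg (fun p _ => sq_nonneg _)).mp m5 p (mem_univ p)
    have m9 : c p = c' p := by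
      have : ‖c p - c' p‖ = 0 := by
        exact pow_eq_zero_iff (two_ne_zero) |>.mp m8
      exact sub_eq_zero.mp (norm_eq_zero.mp this)
    rw [hc' p, m9]
  have hspan : ∀ p, ∀ x ∈ Submodule.span ℂ (RegSet A), Y p *ᵥ x = c p • x := by
    intro p x hx
    induction hx using Submodule.span_induction with
    | mem y hy => exact hall y hy p
    | zero => simp
    | add a b _ _ ha hb => rw [Matrix.mulVec_add, ha, hb, smul_add]
    | smul s a _ ha => rw [Matrix.mulVec_smul, ha, smul_comm]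
  obtain ⟨k1, V1, hV1, hVM1, hVx1⟩ := exists_iso (Submodule.span ℂ (RegSet A))
  have hsep : ∀ m ∈ Submodule.span ℂ (CSet A), ∀ y ∈ Submodule.span ℂ (RegSet A),
      star m ⬝ᵥ y = 0 := by
    intro m hm y hy
    have h1 : ∀ e ∈ CSet A, star y ⬝ᵥ e = 0 := by
      intro e he
      rw [dot_swap, span_perp e _ (fun r hr => csep he hr) y hy, map_zero]
    rw [dot_swap, span_perp y _ h1 m hm, map_zero]
  have hsepA : ∀ m ∈ Submodule.span ℂ (CSet A), ∀ y ∈ Submodule.span ℂ (RegSet A),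
      star m ⬝ᵥ (A *ᵥ y) = 0 ∧ star m ⬝ᵥ (Aᴴ *ᵥ y) = 0 := by
    intro m hm y hy
    have h0 : ∀ e ∈ CSet A, star e ⬝ᵥ y = 0 := fun e he =>
      span_perp e _ (fun r hr => csep he hr) y hy
    have h1 : ∀ e ∈ CSet A, star (A *ᵥ y) ⬝ᵥ e = 0 := by
      intro e he
      obtain ⟨_, _, hs, a, a', h, h'⟩ := id he
      rw [dot_swap, joint_left hs.1 h h', h0 e he, mul_zero, map_zero]
    have h2 : ∀ e ∈ CSet A, star (Aᴴ *ᵥ y) ⬝ᵥ e = 0 := by
      intro e he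
      obtain ⟨_, _, hs, a, a', h, h'⟩ := id he
      rw [dot_swap, quad_conjTranspose, Complex.conj_conj, h, dotProduct_smul, dot_swap y e,
        h0 e he, map_zero, smul_zero]
    constructor
    · rw [dot_swap, span_perp _ _ h1 m hm, map_zero]
    · rw [dot_swap, span_perp _ _ h2 m hm, map_zero]
  have hCspan : ∀ m ∈ Submodule.span ℂ (CSet A), A *ᵥ m ∈ Submodule.span ℂ (CSet A) ∧
      Aᴴ *ᵥ m ∈ Submodule.span ℂ (CSet A) := by
    intro m hm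
    induction hm using Submodule.span_induction with
    | mem e he =>
      obtain ⟨_, _, hs, a, a', h, h'⟩ := id he
      rw [h, h']
      exact ⟨Submodule.smul_mem _ _ (Submodule.subset_span he),
        Submodule.smul_mem _ _ (Submodule.subset_span he)⟩
    | zero => simp
    | add p q _ _ hp hq =>
      rw [Matrix.mulVec_add, Matrix.mulVec_add]
      exact ⟨Submodule.add_mem _ hp.1 hq.1, Submodule.add_mem _ hp.2 hq.2⟩
    | smul s p _ hp =>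
      rw [Matrix.mulVec_smul, Matrix.mulVec_smul]
      exact ⟨Submodule.smul_mem _ _ hp.1, Submodule.smul_mem _ _ hp.2⟩
  have hdec : ∀ C : Matrix ι ι ℂ, (∀ m ∈ Submodule.span ℂ (CSet A),
      ∀ y ∈ Submodule.span ℂ (RegSet A), star m ⬝ᵥ (C *ᵥ y) = 0) →
      ∀ x ∈ Submodule.span ℂ (RegSet A), ∀ m ∈ Submodule.span ℂ (RegSet A ∪ CSet A),
      star m ⬝ᵥ (C *ᵥ x) = star m ⬝ᵥ (V1 *ᵥ (V1ᴴ *ᵥ (C *ᵥ x))) := by
    intro C hC x hx m hm
    rw [Submodule.span_union, Submodule.mem_sup] at hm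
    obtain ⟨m1, hm1, m2, hm2, rfl⟩ := hm
    rw [star_add, add_dotProduct, add_dotProduct, hC m2 hm2 x hx, hsep m2 hm2 _ (hVM1 _),
      add_zero, add_zero]
    conv_lhs => rw [← hVx1 m1 hm1]
    rw [iso_dot]
    conv_rhs => rw [iso_dot']
  intro x hx
  have hx' := hx
  rw [Submodule.span_union, Submodule.mem_sup] at hx'
  obtain ⟨x1, hx1, x2, hx2, rfl⟩ := hx'
  have hle1 : Submodule.span ℂ (RegSet A) ≤ Submodule.span ℂ (RegSet A ∪ CSet A) :=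
    Submodule.span_mono Set.subset_union_left
  have hle2 : Submodule.span ℂ (CSet A) ≤ Submodule.span ℂ (RegSet A ∪ CSet A) :=
    Submodule.span_mono Set.subset_union_right
  rw [Matrix.mulVec_add, Matrix.mulVec_add]
  constructor
  · apply Submodule.add_mem
    · exact hle1 (reduces_aux2 A V1 Y _ _ hVM1 hYM F1 F2 c hspan x1 hx1
        (hdec A (fun m hm y hy => (hsepA m hm y hy).1) x1 hx1))
    · exact hle2 (hCspan x2 hx2).1
  · apply Submodule.add_mem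
    · exact hle1 (reduces_aux2 Aᴴ V1 Y _ _ hVM1 hYM F1 F2' c hspan x1 hx1
        (hdec Aᴴ (fun m hm y hy => (hsepA m hm y hy).2) x1 hx1))
    · exact hle2 (hCspan x2 hx2).2

theorem forward2 {n : ℕ} (A : Matrix (Fin n) (Fin n) ℂ) [Nonempty (Fin n)] (hA : FinPropD A)
    (hgen : ∀ w0 : ℂ, ‖w0‖ = 1 → ∀ ε : ℝ, 0 < ε →
      ∃ w : ℂ, ‖w‖ = 1 ∧ ‖w - w0‖ < ε ∧ ∃ x, STop A w x)
    (hne : (RegSet A).Nonempty) (hcor : CornerOK A) :
    ∃ (k : ℕ) (V : Matrix (Fin n) (Fin k) ℂ), Vᴴ * V = 1 ∧ A * V = V * (Vᴴ * A * V) ∧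
      Aᴴ * V = V * (Vᴴ * A * V)ᴴ ∧ MW (Vᴴ * A * V) = MW A ∧
      ∃ w : ℂ, ‖w‖ = 1 ∧ ∃ lam : ℝ,
        ((lam : ℂ) • (1 : Matrix (Fin k) (Fin k) ℂ) - Hu (Vᴴ * A * V) w).PosSemidef ∧
        ((lam : ℂ) • (1 : Matrix (Fin k) (Fin k) ℂ) - Hu (Vᴴ * A * V) w).rank ≤ 1 := by
  obtain ⟨k, V, hV, hVM, hVx⟩ := exists_iso (Submodule.span ℂ (RegSet A ∪ CSet A))
  have hrange := range_span2 A hgen
  obtain ⟨w, hw, g, hg⟩ := span_rank2 A hA hgen hne hcor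
  have hsub : MW A ⊆ MW (Vᴴ * A * V) := by
    intro p hp
    obtain ⟨x, hx, hx1, hxp⟩ := hrange p hp
    refine ⟨Vᴴ *ᵥ x, ?_, ?_⟩
    · rw [← dot_iso V hV, hVx x hx, hx1]
    · rw [quad_iso, hVx x hx, hxp]
  have hq0 : ∀ y : Fin k → ℂ, (w * (star (V *ᵥ y) ⬝ᵥ (A *ᵥ (V *ᵥ y)))).re =
      supp A w * (star (V *ᵥ y) ⬝ᵥ (V *ᵥ y)).re - ‖star g ⬝ᵥ (V *ᵥ y)‖ ^ 2 := by
    intro y
    have h1 := hg (V *ᵥ y) (hVM y)
    rw [NN_quad, Complex.ofReal_re] at h1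
    linarith
  have hgap := gap_of_quad (Vᴴ * A * V) w (supp A w) (Vᴴ *ᵥ g) (by
    intro y
    rw [quad_iso, hq0 y, dot_iso V hV, iso_dot' V y g])
  have hB : FinPropD (Vᴴ * A * V) := finPropD_of_gap _ w hw _ hgap.1 hgap.2
  have hD : FinDil (Vᴴ * A * V) A := hB n A hsub
  have hred := reduces2 A hA hne V hV hVM hD
  have hcol : ∀ (C : Matrix (Fin n) (Fin n) ℂ),
      (∀ x ∈ Submodule.span ℂ (RegSet A ∪ CSet A),
        C *ᵥ x ∈ Submodule.span ℂ (RegSet A ∪ CSet A)) →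
      C * V = V * (Vᴴ * C * V) := by
    intro C hC
    apply Matrix.ext_of_mulVec_single
    intro i
    have h1 := hVx _ (hC _ (hVM (Pi.single i 1)))
    rw [← Matrix.mulVec_mulVec, ← Matrix.mulVec_mulVec, ← Matrix.mulVec_mulVec,
      ← Matrix.mulVec_mulVec, h1]
  refine ⟨k, V, hV, hcol A fun x hx => (hred x hx).1, ?_, ?_, w, hw, supp A w, hgap⟩
  · have h1 := hcol Aᴴ fun x hx => (hred x hx).2
    have h2 : (Vᴴ * A * V)ᴴ = Vᴴ * Aᴴ * V := by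
      rw [conjTranspose_mul, conjTranspose_mul, conjTranspose_conjTranspose, Matrix.mul_assoc]
    rw [h2, ← h1]
  · exact Set.Subset.antisymm (MW_compress_subset A V hV) hsub

end Pool.Agent.Helper29X1.ND
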