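import Mathlib
import Pool.Agent.Helper29X1.ND.Fwd2
open Matrix Finset
open scoped ComplexOrder

namespace Pool.Agent.Helper29X1.ND

open Pool.Agent.Helper774

/-- the cross product of two plane vectors -/
def crs (z w : ℂ) : ℝ := z.re * w.im - z.im * w.re

theorem div_neg_iff_mul_neg' {a b : ℝ} (h : a * b < 0) : b / a < 0 := by
  rcases lt_trichotomy a 0 with ha | ha | ha
  · have hb : 0 < b := by
      by_contra hcon
      push Not at hcon
      have := mul_nonneg_of_nonpos_of_nonpos ha.le hcon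
      linarith
    exact div_neg_of_pos_of_neg hb ha
  · rw [ha, zero_mul] at h
    exact absurd h (lt_irrefl 0)
  · have hb : b < 0 := by
      by_contra hcon
      push Not at hcon
      have := mul_nonneg ha.le hcon
      linarith
    exact div_neg_of_neg_of_pos hb ha

theorem crs_ne {z w v : ℂ} (hz : ‖z‖ = 1) (hw : ‖w‖ = 1) (hzw : z ≠ w) (h1 : 0 < (z * v).re)
    (h2 : 0 < (w * v).re) : crs z w ≠ 0 := by
  intro h
  have a1 : z.re ^ 2 + z.im ^ 2 = 1 := by
    have := Complex.normSq_eq_norm_sq z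
    rw [Complex.normSq_apply, hz] at this
    nlinarith
  have a2 : w.re ^ 2 + w.im ^ 2 = 1 := by
    have := Complex.normSq_eq_norm_sq w
    rw [Complex.normSq_apply, hw] at this
    nlinarith
  rw [crs] at h
  obtain ⟨d, hd⟩ : ∃ d, d = z.re * w.re + z.im * w.im := ⟨_, rfl⟩
  have hd2 : d ^ 2 = 1 := by
    rw [hd]
    have : (z.re * w.re + z.im * w.im) ^ 2 + (z.re * w.im - z.im * w.re) ^ 2 =
      (z.re ^ 2 + z.im ^ 2) * (w.re ^ 2 + w.im ^ 2) := by ring
    rw [h, a1, a2] at this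
    linarith
  have e1 : w.re = d * z.re := by
    rw [hd]
    linear_combination (-w.re) * a1 - z.im * h
  have e2 : w.im = d * z.im := by
    rw [hd]
    linear_combination (-w.im) * a1 + z.re * h
  have e3 : w = (d : ℂ) * z := by
    apply Complex.ext
    · rw [Complex.re_ofReal_mul]; exact e1
    · rw [Complex.im_ofReal_mul]; exact e2
  have hd3 : (d - 1) * (d + 1) = 0 := by linear_combination hd2
  have hd4 : d = 1 ∨ d = -1 := by
    rcases mul_eq_zero.mp hd3 with h3 | h3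
    · left; linarith
    · right; linarith
  rcases hd4 with h3 | h3
  · apply hzw
    rw [e3, h3]
    simp
  · rw [e3, h3, mul_assoc, Complex.re_ofReal_mul] at h2
    linarith

theorem crs_rel (x y z : ℂ) :
    (crs y z : ℂ) * x + (crs z x : ℂ) * y + (crs x y : ℂ) * z = 0 := by
  apply Complex.ext
  · simp only [Complex.add_re, Complex.re_ofReal_mul, Complex.zero_re, crs]
    ring
  · simp only [Complex.add_im, Complex.im_ofReal_mul, Complex.zero_im, crs]
    ring

/-- one of three vectors in an open half plane lies between the others -/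
theorem middle {x y z v : ℂ} (hx : 0 < (x * v).re) (hy : 0 < (y * v).re) (hz : 0 < (z * v).re)
    (h1 : crs y z ≠ 0) (h2 : crs z x ≠ 0) (h3 : crs x y ≠ 0) :
    (∃ α β : ℝ, 0 < α ∧ 0 < β ∧ x = (α : ℂ) * y + (β : ℂ) * z) ∨
    (∃ α β : ℝ, 0 < α ∧ 0 < β ∧ y = (α : ℂ) * x + (β : ℂ) * z) ∨
    (∃ α β : ℝ, 0 < α ∧ 0 < β ∧ z = (α : ℂ) * x + (β : ℂ) * y) := by
  have hrel := crs_rel x y z
  have hsum : crs y z * (x * v).re + crs z x * (y * v).re + crs x y * (z * v).re = 0 := by
    have := congrArg (fun t => (t * v).re) hrel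
    simp only [add_mul, mul_assoc, Complex.add_re, Complex.re_ofReal_mul, zero_mul,
      Complex.zero_re] at this
    exact this
  obtain ⟨p, hp⟩ : ∃ p, p = crs y z := ⟨_, rfl⟩
  obtain ⟨q, hq⟩ : ∃ q, q = crs z x := ⟨_, rfl⟩
  obtain ⟨r, hr⟩ : ∃ r, r = crs x y := ⟨_, rfl⟩
  rw [← hp, ← hq, ← hr] at hsum hrel
  rw [← hp] at h1
  rw [← hq] at h2
  rw [← hr] at h3
  have hpc : (p : ℂ) ≠ 0 := by exact_mod_cast h1
  have hqc : (q : ℂ) ≠ 0 := by exact_mod_cast h2
  have hrc : (r : ℂ) ≠ 0 := by exact_mod_cast h3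
  have kx : p * q < 0 → p * r < 0 →
      ∃ α β : ℝ, 0 < α ∧ 0 < β ∧ x = (α : ℂ) * y + (β : ℂ) * z := by
    intro m1 m2
    refine ⟨-(q / p), -(r / p), ?_, ?_, ?_⟩
    · rw [neg_pos]; exact div_neg_iff_mul_neg' m1
    · rw [neg_pos]; exact div_neg_iff_mul_neg' m2
    · push_cast
      field_simp
      linear_combination hrel
  have ky : q * p < 0 → q * r < 0 →
      ∃ α β : ℝ, 0 < α ∧ 0 < β ∧ y = (α : ℂ) * x + (β : ℂ) * z := by
    intro m1 m2
    refine ⟨-(p / q), -(r / q), ?_, ?_, ?_⟩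
    · rw [neg_pos]; exact div_neg_iff_mul_neg' m1
    · rw [neg_pos]; exact div_neg_iff_mul_neg' m2
    · push_cast
      field_simp
      linear_combination hrel
  have kz : r * p < 0 → r * q < 0 →
      ∃ α β : ℝ, 0 < α ∧ 0 < β ∧ z = (α : ℂ) * x + (β : ℂ) * y := by
    intro m1 m2
    refine ⟨-(p / r), -(q / r), ?_, ?_, ?_⟩
    · rw [neg_pos]; exact div_neg_iff_mul_neg' m1
    · rw [neg_pos]; exact div_neg_iff_mul_neg' m2
    · push_cast
      field_simp
      linear_combination hrel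
  rcases lt_or_gt_of_ne h1 with p1 | p1 <;> rcases lt_or_gt_of_ne h2 with q1 | q1 <;>
    rcases lt_or_gt_of_ne h3 with r1 | r1
  · exfalso
    have t1 := mul_neg_of_neg_of_pos p1 hx
    have t2 := mul_neg_of_neg_of_pos q1 hy
    have t3 := mul_neg_of_neg_of_pos r1 hz
    linarith
  · exact Or.inr (Or.inr (kz (mul_neg_of_pos_of_neg r1 p1) (mul_neg_of_pos_of_neg r1 q1)))
  · exact Or.inr (Or.inl (ky (mul_neg_of_pos_of_neg q1 p1) (mul_neg_of_pos_of_neg q1 r1)))
  · exact Or.inl (kx (mul_neg_of_neg_of_pos p1 q1) (mul_neg_of_neg_of_pos p1 r1))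
  · exact Or.inl (kx (mul_neg_of_pos_of_neg p1 q1) (mul_neg_of_pos_of_neg p1 r1))
  · exact Or.inr (Or.inl (ky (mul_neg_of_neg_of_pos q1 p1) (mul_neg_of_neg_of_pos q1 r1)))
  · exact Or.inr (Or.inr (kz (mul_neg_of_neg_of_pos r1 p1) (mul_neg_of_neg_of_pos r1 q1)))
  · exfalso
    have t1 := mul_pos p1 hx
    have t2 := mul_pos q1 hy
    have t3 := mul_pos r1 hz
    linarith

end Pool.Agent.Helper29X1.ND
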