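import Mathlib
import Pool.Agent.Helper29X1.ND.Poly
open Matrix Finset
open scoped ComplexOrder

namespace Pool.Agent.Helper29X1.ND

open Pool.Agent.Helper774

theorem joint_top_iff {ι : Type*} [Fintype ι] [DecidableEq ι] {A : Matrix ι ι ℂ} {e : ι → ℂ}
    (he : e ≠ 0) {a a' : ℂ} (h : A *ᵥ e = a • e) (h' : Aᴴ *ᵥ e = a' • e) (z : ℂ) :
    NN A z *ᵥ e = 0 ↔ (z * a).re = supp A z := by
  rw [joint_NN he h h']
  constructor
  · intro h1
    rcases smul_eq_zero.mp h1 with h2 | h2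
    · have : supp A z - (z * a).re = 0 := by exact_mod_cast h2
      linarith
    · exact absurd h2 he
  · intro h1
    rw [h1, sub_self, Complex.ofReal_zero, zero_smul]

theorem joint_mem {ι : Type*} [Fintype ι] [DecidableEq ι] {A : Matrix ι ι ℂ} {e : ι → ℂ}
    (he : e ≠ 0) {a : ℂ} (h : A *ᵥ e = a • e) : a ∈ MW A := by
  have h1 := mem_MW_of_ne_zero A e he
  rw [h, dotProduct_smul, smul_eq_mul, mul_div_assoc, div_self (self_ne he), mul_one] at h1
  exact h1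

/-- three corners are not collinear with the second in the middle -/
theorem no_mid {ι : Type*} [Fintype ι] [DecidableEq ι] [Nonempty ι] {A : Matrix ι ι ℂ}
    {e1 e2 e3 : ι → ℂ} (h1 : e1 ∈ CSet A) (h2 : e2 ∈ CSet A) (h3 : e3 ∈ CSet A)
    (h12 : star e2 ⬝ᵥ e1 = 0) (h32 : star e2 ⬝ᵥ e3 = 0)
    {a1 b1 a2 b2 a3 b3 : ℂ} (g1 : A *ᵥ e1 = a1 • e1) (g1' : Aᴴ *ᵥ e1 = b1 • e1)
    (g2 : A *ᵥ e2 = a2 • e2) (g2' : Aᴴ *ᵥ e2 = b2 • e2)
    (g3 : A *ᵥ e3 = a3 • e3) (g3' : Aᴴ *ᵥ e3 = b3 • e3)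
    (t : ℝ) (ht0 : 0 ≤ t) (ht1 : t ≤ 1)
    (hm : a2 = ((1 - t : ℝ) : ℂ) * a1 + (t : ℂ) * a3) : False := by
  obtain ⟨w, hw, hs, -⟩ := h2
  obtain ⟨_, _, hs1, -⟩ := h1
  obtain ⟨_, _, hs3, -⟩ := h3
  have k2 := (joint_top_iff hs.1 g2 g2' w).mp (stop_ker_self hs)
  have k1 := le_supp A w a1 (joint_mem hs1.1 g1)
  have k3 := le_supp A w a3 (joint_mem hs3.1 g3)
  have e : (w * a2).re = (1 - t) * (w * a1).re + t * (w * a3).re := by
    rw [hm, mul_add, mul_left_comm, mul_left_comm w (t : ℂ), Complex.add_re,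
      Complex.re_ofReal_mul, Complex.re_ofReal_mul]
  have bad : ∀ (e' : ι → ℂ), e' ≠ 0 → star e2 ⬝ᵥ e' = 0 → NN A w *ᵥ e' = 0 → False := by
    intro e' he' hp hN
    obtain ⟨c, hc⟩ := (hs.ker e').mp hN
    rw [hc, dotProduct_smul, smul_eq_mul] at hp
    rcases mul_eq_zero.mp hp with h | h
    · exact he' (by rw [hc, h, zero_smul])
    · exact self_ne hs.1 h
  rcases ht1.lt_or_eq with h | h
  · have : (w * a1).re = supp A w := by
      by_contra hne
      have hlt : (w * a1).re < supp A w := lt_of_le_of_ne k1 hne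
      have n1 := mul_lt_mul_of_pos_left hlt (by linarith : (0 : ℝ) < 1 - t)
      have n2 := mul_le_mul_of_nonneg_left k3 ht0
      linarith
    exact bad e1 hs1.1 h12 ((joint_top_iff hs1.1 g1 g1' w).mpr this)
  · have : (w * a3).re = supp A w := by
      rw [h] at e
      linarith
    exact bad e3 hs3.1 h32 ((joint_top_iff hs3.1 g3 g3' w).mpr this)

/-- three orthogonal corners give an interior point -/
theorem interior3 {ι : Type*} [Fintype ι] [DecidableEq ι] [Nonempty ι] {A : Matrix ι ι ℂ}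
    {e1 e2 e3 : ι → ℂ} (h1 : e1 ∈ CSet A) (h2 : e2 ∈ CSet A) (h3 : e3 ∈ CSet A)
    (h12 : star e1 ⬝ᵥ e2 = 0) (h13 : star e1 ⬝ᵥ e3 = 0) (h23 : star e2 ⬝ᵥ e3 = 0) :
    ∃ c : ℂ, ∀ z : ℂ, ‖z‖ = 1 → (z * c).re < supp A z := by
  obtain ⟨_, _, hs1, a1, b1, g1, g1'⟩ := id h1
  obtain ⟨_, _, hs2, a2, b2, g2, g2'⟩ := id h2
  obtain ⟨_, _, hs3, a3, b3, g3, g3'⟩ := id h3
  have h21 : star e2 ⬝ᵥ e1 = 0 := by rw [dot_swap, h12, map_zero]
  have h31 : star e3 ⬝ᵥ e1 = 0 := by rw [dot_swap, h13, map_zero]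
  have h32 : star e3 ⬝ᵥ e2 = 0 := by rw [dot_swap, h23, map_zero]
  refine ⟨((1 / 3 : ℝ) : ℂ) * (a1 + a2 + a3), ?_⟩
  intro z hz
  have e : (z * (((1 / 3 : ℝ) : ℂ) * (a1 + a2 + a3))).re =
      1 / 3 * ((z * a1).re + (z * a2).re + (z * a3).re) := by
    rw [mul_left_comm, Complex.re_ofReal_mul, mul_add, mul_add, Complex.add_re, Complex.add_re]
  rw [e]
  have k1 := le_supp A z a1 (joint_mem hs1.1 g1)
  have k2 := le_supp A z a2 (joint_mem hs2.1 g2)
  have k3 := le_supp A z a3 (joint_mem hs3.1 g3)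
  by_contra hcon
  push Not at hcon
  have m1 : (z * a1).re = supp A z := by linarith
  have m2 : (z * a2).re = supp A z := by linarith
  have m3 : (z * a3).re = supp A z := by linarith
  have hzz := unit_conj hz
  -- the coordinates along the line
  have key : ∀ a b c : ℂ, (z * a).re = supp A z → (z * b).re = supp A z →
      (z * c).re = supp A z → (z * a).im ≤ (z * b).im → (z * b).im ≤ (z * c).im →
      ∃ t : ℝ, 0 ≤ t ∧ t ≤ 1 ∧ b = ((1 - t : ℝ) : ℂ) * a + (t : ℂ) * c := by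
    intro a b c ha hb hc hab hbc
    have hlift : ∀ t : ℝ, (z * b).im = (1 - t) * (z * a).im + t * (z * c).im →
        b = ((1 - t : ℝ) : ℂ) * a + (t : ℂ) * c := by
      intro t ht
      have hzb : z * b = z * (((1 - t : ℝ) : ℂ) * a + (t : ℂ) * c) := by
        rw [mul_add, mul_left_comm, mul_left_comm z (t : ℂ)]
        apply Complex.ext
        · rw [Complex.add_re, Complex.re_ofReal_mul, Complex.re_ofReal_mul, ha, hb, hc]
          ring
        · rw [Complex.add_im, Complex.im_ofReal_mul, Complex.im_ofReal_mul]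
          exact ht
      apply mul_left_cancel₀ _ hzb
      rintro rfl
      simp at hz
    rcases (hab.trans hbc).lt_or_eq with h | h
    · have hd : 0 < (z * c).im - (z * a).im := by linarith
      refine ⟨((z * b).im - (z * a).im) / ((z * c).im - (z * a).im), ?_, ?_, ?_⟩
      · exact div_nonneg (by linarith) hd.le
      · rw [div_le_one hd]
        linarith
      · apply hlift
        field_simp
        ring
    · refine ⟨0, le_rfl, zero_le_one, hlift 0 ?_⟩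
      have : (z * b).im = (z * a).im := le_antisymm (by linarith) hab
      rw [this]
      ring
  rcases le_total (z * a1).im (z * a2).im with o1 | o1 <;>
    rcases le_total (z * a2).im (z * a3).im with o2 | o2 <;>
    rcases le_total (z * a1).im (z * a3).im with o3 | o3
  · obtain ⟨t, t0, t1, tt⟩ := key _ _ _ m1 m2 m3 o1 o2
    exact no_mid h1 h2 h3 h21 h23 g1 g1' g2 g2' g3 g3' t t0 t1 tt
  · obtain ⟨t, t0, t1, tt⟩ := key _ _ _ m1 m2 m3 o1 o2
    exact no_mid h1 h2 h3 h21 h23 g1 g1' g2 g2' g3 g3' t t0 t1 tt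
  · obtain ⟨t, t0, t1, tt⟩ := key _ _ _ m1 m3 m2 o3 o2
    exact no_mid h1 h3 h2 h31 h32 g1 g1' g3 g3' g2 g2' t t0 t1 tt
  · obtain ⟨t, t0, t1, tt⟩ := key _ _ _ m3 m1 m2 o3 o1
    exact no_mid h3 h1 h2 h13 h12 g3 g3' g1 g1' g2 g2' t t0 t1 tt
  · obtain ⟨t, t0, t1, tt⟩ := key _ _ _ m2 m1 m3 o1 o3
    exact no_mid h2 h1 h3 h12 h13 g2 g2' g1 g1' g3 g3' t t0 t1 tt
  · obtain ⟨t, t0, t1, tt⟩ := key _ _ _ m2 m3 m1 o2 o3
    exact no_mid h2 h3 h1 h32 h31 g2 g2' g3 g3' g1 g1' t t0 t1 tt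
  · obtain ⟨t, t0, t1, tt⟩ := key _ _ _ m3 m2 m1 o2 o1
    exact no_mid h3 h2 h1 h23 h21 g3 g3' g2 g2' g1 g1' t t0 t1 tt
  · obtain ⟨t, t0, t1, tt⟩ := key _ _ _ m3 m2 m1 o2 o1
    exact no_mid h3 h2 h1 h23 h21 g3 g3' g2 g2' g1 g1' t t0 t1 tt

theorem supp_pos_smul {ι : Type*} [Fintype ι] [Nonempty ι] (A : Matrix ι ι ℂ) (α β : ℝ)
    (x y z p : ℂ) (hp : p ∈ MW A) (hx : (x * p).re = supp A x) (hy : (y * p).re = supp A y)
    (hz : (z * p).re = supp A z) (hα : 0 < α) (hβ : 0 < β)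
    (hxyz : x = (α : ℂ) * y + (β : ℂ) * z) (q : ℂ) (hq : q ∈ MW A)
    (hqx : (x * q).re = supp A x) : (y * q).re = supp A y := by
  have e : ∀ s : ℂ, (x * s).re = α * (y * s).re + β * (z * s).re := by
    intro s
    rw [hxyz, add_mul, mul_assoc, mul_assoc, Complex.add_re, Complex.re_ofReal_mul,
      Complex.re_ofReal_mul]
  have h1 := le_supp A y q hq
  have h2 := le_supp A z q hq
  have e1 := e p
  have e2 := e q
  rw [hx, hy, hz] at e1
  rw [hqx, e1] at e2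
  by_contra hne
  have hlt : (y * q).re < supp A y := lt_of_le_of_ne h1 hne
  have n1 := mul_lt_mul_of_pos_left hlt hα
  have n2 := mul_le_mul_of_nonneg_left h2 hβ.le
  linarith

end Pool.Agent.Helper29X1.ND
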