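import Mathlib
import Pool.Agent.Helper29X1.ND.Poly2
open Matrix Finset
open scoped ComplexOrder

namespace Pool.Agent.Helper29X1.ND

open Pool.Agent.Helper774

theorem span_rank3 {ι : Type*} [Fintype ι] [DecidableEq ι] [Nonempty ι] (A : Matrix ι ι ℂ)
    (hA : FinPropD A)
    (hgen : ∀ w0 : ℂ, ‖w0‖ = 1 → ∀ ε : ℝ, 0 < ε →
      ∃ w : ℂ, ‖w‖ = 1 ∧ ‖w - w0‖ < ε ∧ ∃ x, STop A w x)
    (hR : ¬ (RegSet A).Nonempty) (hcor : CornerOK A) :
    ∃ w : ℂ, ‖w‖ = 1 ∧ ∃ g : ι → ℂ, ∀ x ∈ Submodule.span ℂ (RegSet A ∪ CSet A),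
      (star x ⬝ᵥ (NN A w *ᵥ x)).re = ‖star g ⬝ᵥ x‖ ^ 2 := by
  classical
  have hRe : RegSet A = ∅ := Set.not_nonempty_iff_eq_empty.mp hR
  obtain ⟨b2, hb2, hbs2, hbi2⟩ := exists_linearIndependent ℂ (CSet A)
  have hfin2 : Finite b2 := hbi2.finite
  have hft2 : Fintype b2 := Fintype.ofFinite b2
  have hM : Submodule.span ℂ (RegSet A ∪ CSet A) = Submodule.span ℂ b2 := by
    rw [hRe, Set.empty_union, ← hbs2]
  rw [hM]
  have hne0 : ∀ x : b2, (x : ι → ℂ) ≠ 0 := by
    intro x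
    obtain ⟨_, _, hs, _⟩ := hb2 x.2
    exact hs.1
  have hperp : ∀ x y : b2, x ≠ y → star (x : ι → ℂ) ⬝ᵥ (y : ι → ℂ) = 0 := by
    intro x y hxy
    rcases cset_dich (hb2 x.2) (hb2 y.2) with h | ⟨c, hc⟩
    · exact h
    · exfalso
      have h1 := linearIndependent_iff'.mp hbi2 {x, y}
        (fun z => if z = x then c else -1) (by
          rw [Finset.sum_pair hxy, if_pos rfl, if_neg (Ne.symm hxy), ← hc]
          simp)
        y (by simp)
      rw [if_neg (Ne.symm hxy)] at h1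
      norm_num at h1
  have hj : ∀ x : b2, ∃ a a' : ℂ, A *ᵥ (x : ι → ℂ) = a • (x : ι → ℂ) ∧
      Aᴴ *ᵥ (x : ι → ℂ) = a' • (x : ι → ℂ) := by
    intro x
    obtain ⟨_, _, _, h⟩ := hb2 x.2
    exact h
  choose a a' ha ha' using hj
  have htop : ∀ (x : b2) (z : ℂ), NN A z *ᵥ (x : ι → ℂ) = 0 ↔ (z * a x).re = supp A z :=
    fun x z => joint_top_iff (hne0 x) (ha x) (ha' x) z
  have hdat : ∀ x : b2, ∃ (w : ℂ) (f : ι → ℂ) (y : b2) (δ : ℂ), ‖w‖ = 1 ∧
      (w * a x).re = supp A w ∧ NN A w *ᵥ f = 0 ∧ star f ⬝ᵥ f = 1 ∧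
      star (x : ι → ℂ) ⬝ᵥ f = 0 ∧ y ≠ x ∧ f = δ • (y : ι → ℂ) ∧
      (∀ v, NN A w *ᵥ v = 0 → ∃ c d : ℂ, v = c • (x : ι → ℂ) + d • f) := by
    intro x
    obtain ⟨w, hw, hwa, f, hf0, hf1, hef, hker⟩ := hcor x (hb2 x.2) (a x) (a' x) (ha x) (ha' x)
    have hfM : f ∈ Submodule.span ℂ b2 := by
      rw [← hM]
      exact mixed_mem hgen _ Submodule.subset_span (hb2 x.2) (ha x) (ha' x) hw hwa f hf0 hf1
        hef hker
    have hy : ∃ y : b2, y ≠ x ∧ (w * a y).re = supp A w := by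
      by_contra hcon
      push Not at hcon
      have h1 : ∀ r ∈ b2, star r ⬝ᵥ f = 0 := by
        intro r hr
        by_cases hrx : (⟨r, hr⟩ : b2) = x
        · rw [← hrx] at hef
          exact hef
        · exact joint_perp (hne0 ⟨r, hr⟩) (ha ⟨r, hr⟩) (ha' ⟨r, hr⟩) w (hcon _ hrx) f hf0
      have h2 : ∀ r ∈ b2, star f ⬝ᵥ r = 0 := by
        intro r hr
        rw [dot_swap, h1 r hr, map_zero]
      have h3 := span_perp f b2 h2 f hfM
      rw [hf1] at h3
      exact one_ne_zero h3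
    obtain ⟨y, hyx, hwy⟩ := hy
    obtain ⟨c, d, hcd⟩ := hker y ((htop y w).mpr hwy)
    have hc0 : c = 0 := by
      have h1 := hperp x y (Ne.symm hyx)
      rw [hcd, dotProduct_add, dotProduct_smul, dotProduct_smul, hef, smul_zero, add_zero,
        smul_eq_mul] at h1
      rcases mul_eq_zero.mp h1 with h2 | h2
      · exact h2
      · exact absurd h2 (self_ne (hne0 x))
    rw [hc0, zero_smul, zero_add] at hcd
    have hd0 : d ≠ 0 := by
      rintro rfl
      exact hne0 y (by rw [hcd, zero_smul])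
    exact ⟨w, f, y, d⁻¹, hw, hwa, hf0, hf1, hef, hyx,
      by rw [hcd, smul_smul, inv_mul_cancel₀ hd0, one_smul], hker⟩
  choose w f y δ hw hwa hf0 hf1 hef hyx hfy hker using hdat
  have hf00 : ∀ x, f x ≠ 0 := by
    intro x h
    have := hf1 x
    rw [h] at this
    simp at this
  have hδ : ∀ x, δ x ≠ 0 := by
    intro x h
    exact hf00 x (by rw [hfy, h, zero_smul])
  have hwy : ∀ x, (w x * a (y x)).re = supp A (w x) := by
    intro x
    rw [← htop]
    have h1 := hf0 x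
    rw [hfy, Matrix.mulVec_smul] at h1
    rcases smul_eq_zero.mp h1 with h2 | h2
    · exact absurd h2 (hδ x)
    · exact h2
  have hout : ∀ x v : b2, v ≠ x → v ≠ y x → (w x * a v).re ≠ supp A (w x) := by
    intro x v h1 h2 h3
    obtain ⟨c, d, hcd⟩ := hker x v ((htop v (w x)).mpr h3)
    rw [hfy, smul_smul] at hcd
    apply self_ne (hne0 v)
    conv_lhs => rw [hcd]
    rw [star_add, star_smul, star_smul, add_dotProduct, smul_dotProduct, smul_dotProduct,
      ← hcd, hperp x v (Ne.symm h1), hperp (y x) v (Ne.symm h2)]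
    simp
  have hb2ne : Nonempty b2 := by
    obtain ⟨w1, _, _, x, hx, hx1, _⟩ := dense_tset A hgen 1 (by simp) 1 one_pos
    by_contra hcon
    have hbe : b2 = ∅ := Set.not_nonempty_iff_eq_empty.mp (fun h => hcon h.to_subtype)
    have h1 : x ∈ Submodule.span ℂ (RegSet A ∪ CSet A) := Submodule.subset_span hx
    rw [hM, hbe, Submodule.span_empty, Submodule.mem_bot] at h1
    rw [h1] at hx1
    simp at hx1
  obtain ⟨x0⟩ := hb2ne
  have hcard : ∀ z1 z2 : b2, z1 ≠ x0 → z1 ≠ y x0 → z2 ≠ x0 → z2 ≠ y x0 → z1 = z2 := by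
    intro z1 z2 h11 h12 h21 h22
    by_contra hz
    obtain ⟨c0, hc0⟩ := interior3 (hb2 x0.2) (hb2 (y x0).2) (hb2 z1.2)
      (hperp _ _ (Ne.symm (hyx x0))) (hperp _ _ (Ne.symm h11)) (hperp _ _ (Ne.symm h12))
    -- coupling
    have hcpl : ∀ x x' : b2, x = x' ∨ x = y x' ∨ y x = x' ∨ y x = y x' := by
      intro x x'
      by_contra hcon
      push Not at hcon
      obtain ⟨k1, k2, k3, k4⟩ := hcon
      have hww : w x ≠ w x' := by
        intro h
        apply hout x x' (Ne.symm k1) (Ne.symm k3)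
        rw [h]
        exact hwa x'
      have hr1 := mixed_reg c0 hc0 (hb2 x.2) (ha x) (ha' x) (hw x) (hwa x) (f x) (hf0 x)
        (hf1 x) (hef x)
      have hr2 := mixed_reg c0 hc0 (hb2 x'.2) (ha x') (ha' x') (hw x') (hwa x') (f x') (hf0 x')
        (hf1 x') (hef x')
      have hnz : ∀ s : b2, (s : ι → ℂ) + f s ≠ 0 := by
        intro s h0
        have : star (s : ι → ℂ) ⬝ᵥ ((s : ι → ℂ) + f s) = 0 := by rw [h0, dotProduct_zero]
        rw [dotProduct_add, hef, add_zero] at this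
        exact self_ne (hne0 s) this
      have hz0 : ∀ s : b2, NN A (w s) *ᵥ ((s : ι → ℂ) + f s) = 0 := by
        intro s
        rw [Matrix.mulVec_add, hf0, (htop s (w s)).mpr (hwa s), add_zero]
      obtain ⟨v, v', hv, hv', hvv⟩ := pair_coupled2 A hA (w x) (w x') (hw x) (hw x') hww _ _
        (hnz x) (hnz x') (hz0 x) (hz0 x') hr1 hr2
      obtain ⟨c, d, hcd⟩ := hker x v hv
      obtain ⟨c', d', hcd'⟩ := hker x' v' hv'
      rw [hfy, smul_smul] at hcd hcd'
      have p1 := hperp x x' k1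
      have p2 := hperp x (y x') k2
      have p3 := hperp (y x) x' k3
      have p4 := hperp (y x) (y x') k4
      rcases hvv with hvv | hvv
      · apply hvv
        rw [hcd, hcd', comb_dot, p1, p2, p3, p4]
        ring
      · apply hvv
        rw [hcd, hcd', comb_quad, ha, ha, dotProduct_smul, dotProduct_smul, dotProduct_smul,
          dotProduct_smul, p1, p2, p3, p4]
        simp
    have e1 : y z1 = x0 ∨ y z1 = y x0 := by
      rcases hcpl z1 x0 with h | h | h | h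
      · exact absurd h h11
      · exact absurd h h12
      · exact Or.inl h
      · exact Or.inr h
    have e2 : y z2 = x0 ∨ y z2 = y x0 := by
      rcases hcpl z2 x0 with h | h | h | h
      · exact absurd h h21
      · exact absurd h h22
      · exact Or.inl h
      · exact Or.inr h
    have e3 : y z1 = y z2 := by
      rcases hcpl z1 z2 with h | h | h | h
      · exact absurd h hz
      · exfalso
        rcases e2 with g | g
        · exact h11 (h.trans g)
        · exact h12 (h.trans g)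
      · exfalso
        rcases e1 with g | g
        · exact h21 (h.symm.trans g)
        · exact h22 (h.symm.trans g)
      · exact h
    obtain ⟨b, hb⟩ : ∃ b, b = y z1 := ⟨_, rfl⟩
    have hbz2 : b = y z2 := hb.trans e3
    -- the other end of the first edge
    obtain ⟨o, ho1, ho2, ho3, ho4⟩ : ∃ o : b2, o ≠ b ∧ (w x0 * a o).re = supp A (w x0) ∧
        o ≠ z1 ∧ o ≠ z2 := by
      rcases e1 with g | g
      · exact ⟨y x0, by rw [hb, g]; exact hyx x0, hwy x0, Ne.symm h12, Ne.symm h22⟩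
      · exact ⟨x0, by rw [hb, g]; exact Ne.symm (hyx x0), hwa x0, Ne.symm h11, Ne.symm h21⟩
    have hbx0 : (w x0 * a b).re = supp A (w x0) := by
      rcases e1 with g | g
      · rw [hb, g]; exact hwa x0
      · rw [hb, g]; exact hwy x0
    have hbz1 : (w z1 * a b).re = supp A (w z1) := by rw [hb]; exact hwy z1
    have hbz2' : (w z2 * a b).re = supp A (w z2) := by rw [hbz2]; exact hwy z2
    have hz1b : z1 ≠ b := by rw [hb]; exact Ne.symm (hyx z1)
    have hz2b : z2 ≠ b := by rw [hbz2]; exact Ne.symm (hyx z2)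
    have w1 : w x0 ≠ w z1 := by
      intro h
      apply hout x0 z1 h11 h12
      rw [h]
      exact hwa z1
    have w2 : w x0 ≠ w z2 := by
      intro h
      apply hout x0 z2 h21 h22
      rw [h]
      exact hwa z2
    have w3 : w z1 ≠ w z2 := by
      intro h
      apply hout z1 z2 (Ne.symm hz) (by rw [← hb]; exact hz2b)
      rw [h]
      exact hwa z2
    have hposv : ∀ z : ℂ, ‖z‖ = 1 → (z * a b).re = supp A z → 0 < (z * (a b - c0)).re := by
      intro z hz1 hz2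
      rw [mul_sub, Complex.sub_re, hz2]
      linarith [hc0 z hz1]
    have v0 := hposv _ (hw x0) hbx0
    have v1 := hposv _ (hw z1) hbz1
    have v2 := hposv _ (hw z2) hbz2'
    have hbm : a b ∈ MW A := joint_mem (hne0 b) (ha b)
    have hmem : ∀ s : b2, a s ∈ MW A := fun s => joint_mem (hne0 s) (ha s)
    rcases middle v0 v1 v2 (crs_ne (hw z1) (hw z2) w3 v1 v2)
      (crs_ne (hw z2) (hw x0) (Ne.symm w2) v2 v0) (crs_ne (hw x0) (hw z1) w1 v0 v1) with
      ⟨α, β, hα, hβ, h⟩ | ⟨α, β, hα, hβ, h⟩ | ⟨α, β, hα, hβ, h⟩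
    · have := supp_pos_smul A α β _ _ _ _ hbm hbx0 hbz1 hbz2' hα hβ h (a o) (hmem o) ho2
      exact hout z1 o ho3 (by rw [← hb]; exact ho1) this
    · have := supp_pos_smul A α β _ _ _ _ hbm hbz1 hbx0 hbz2' hα hβ h (a z1) (hmem z1) (hwa z1)
      exact hout x0 z1 h11 h12 this
    · have := supp_pos_smul A α β _ _ _ _ hbm hbz2' hbx0 hbz1 hα hβ h (a z2) (hmem z2) (hwa z2)
      exact hout x0 z2 h21 h22 this
  obtain ⟨g, hg⟩ := eq_case (NN_psd A (w x0)) (fun x : b2 => (x : ι → ℂ)) (by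
    intro i j
    by_cases hij : i = j
    · subst hij
      rw [NN_quad, Complex.ofReal_re, Complex.norm_real, Real.norm_eq_abs, sq_abs]
      ring
    · have h1 : star (i : ι → ℂ) ⬝ᵥ (NN A (w x0) *ᵥ (j : ι → ℂ)) = 0 := by
        rw [joint_NN (hne0 j) (ha j) (ha' j), dotProduct_smul, hperp i j hij, smul_zero]
      rw [h1]
      have hz : ∀ s : b2, (s = x0 ∨ s = y x0) → NN A (w x0) *ᵥ (s : ι → ℂ) = 0 := by
        rintro s (rfl | rfl)
        · exact (htop _ _).mpr (hwa _)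
        · exact (htop _ _).mpr (hwy _)
      by_cases hi : i = x0 ∨ i = y x0
      · rw [hz i hi]
        simp
      · by_cases hj : j = x0 ∨ j = y x0
        · rw [hz j hj]
          simp
        · exfalso
          push Not at hi hj
          exact hij (hcard i j hi.1 hi.2 hj.1 hj.2))
  refine ⟨w x0, hw x0, g, ?_⟩
  intro x hx
  apply hg x
  rw [Subtype.range_coe]
  exact hx

theorem forward3 {n : ℕ} (A : Matrix (Fin n) (Fin n) ℂ) [Nonempty (Fin n)] (hA : FinPropD A)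
    (hgen : ∀ w0 : ℂ, ‖w0‖ = 1 → ∀ ε : ℝ, 0 < ε →
      ∃ w : ℂ, ‖w‖ = 1 ∧ ‖w - w0‖ < ε ∧ ∃ x, STop A w x) (hcor : CornerOK A) :
    ∃ (k : ℕ) (V : Matrix (Fin n) (Fin k) ℂ), Vᴴ * V = 1 ∧ A * V = V * (Vᴴ * A * V) ∧
      Aᴴ * V = V * (Vᴴ * A * V)ᴴ ∧ MW (Vᴴ * A * V) = MW A ∧
      ∃ w : ℂ, ‖w‖ = 1 ∧ ∃ lam : ℝ,
        ((lam : ℂ) • (1 : Matrix (Fin k) (Fin k) ℂ) - Hu (Vᴴ * A * V) w).PosSemidef ∧
        ((lam : ℂ) • (1 : Matrix (Fin k) (Fin k) ℂ) - Hu (Vᴴ * A * V) w).rank ≤ 1 := by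
  by_cases hne : (RegSet A).Nonempty
  · exact forward2 A hA hgen hne hcor
  obtain ⟨k, V, hV, hVM, hVx⟩ := exists_iso (Submodule.span ℂ (RegSet A ∪ CSet A))
  have hrange := range_span2 A hgen
  obtain ⟨w, hw, g, hg⟩ := span_rank3 A hA hgen hne hcor
  have hsub : MW A ⊆ MW (Vᴴ * A * V) := by
    intro p hp
    obtain ⟨x, hx, hx1, hxp⟩ := hrange p hp
    refine ⟨Vᴴ *ᵥ x, ?_, ?_⟩
    · rw [← dot_iso V hV, hVx x hx, hx1]
    · rw [quad_iso, hVx x hx, hxp]
  have hq0 : ∀ y : Fin k → ℂ, (w * (star (V *ᵥ y) ⬝ᵥ (A *ᵥ (V *ᵥ y)))).re =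
      supp A w * (star (V *ᵥ y) ⬝ᵥ (V *ᵥ y)).re - ‖star g ⬝ᵥ (V *ᵥ y)‖ ^ 2 := by
    intro y
    have h1 := hg (V *ᵥ y) (hVM y)
    rw [NN_quad, Complex.ofReal_re] at h1
    linarith
  have hgap := gap_of_quad (Vᴴ * A * V) w (supp A w) (Vᴴ *ᵥ g) (by
    intro y
    rw [quad_iso, hq0 y, dot_iso V hV, iso_dot' V y g])
  have hRe : RegSet A = ∅ := Set.not_nonempty_iff_eq_empty.mp hne
  have hred : ∀ m ∈ Submodule.span ℂ (RegSet A ∪ CSet A),
      A *ᵥ m ∈ Submodule.span ℂ (RegSet A ∪ CSet A) ∧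
      Aᴴ *ᵥ m ∈ Submodule.span ℂ (RegSet A ∪ CSet A) := by
    rw [hRe, Set.empty_union]
    intro m hm
    induction hm using Submodule.span_induction with
    | mem e he =>
      obtain ⟨_, _, hs, a, a', h, h'⟩ := id he
      rw [h, h']
      exact ⟨Submodule.smul_mem _ _ (Submodule.subset_span he),
        Submodule.smul_mem _ _ (Submodule.subset_span he)⟩
    | zero => simp
    | add p q _ _ hp hq =>
      rw [Matrix.mulVec_add, Matrix.mulVec_add]
      exact ⟨Submodule.add_mem _ hp.1 hq.1, Submodule.add_mem _ hp.2 hq.2⟩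
    | smul s p _ hp =>
      rw [Matrix.mulVec_smul, Matrix.mulVec_smul]
      exact ⟨Submodule.smul_mem _ _ hp.1, Submodule.smul_mem _ _ hp.2⟩
  have hcol : ∀ (C : Matrix (Fin n) (Fin n) ℂ),
      (∀ x ∈ Submodule.span ℂ (RegSet A ∪ CSet A),
        C *ᵥ x ∈ Submodule.span ℂ (RegSet A ∪ CSet A)) →
      C * V = V * (Vᴴ * C * V) := by
    intro C hC
    apply Matrix.ext_of_mulVec_single
    intro i
    have h1 := hVx _ (hC _ (hVM (Pi.single i 1)))
    rw [← Matrix.mulVec_mulVec, ← Matrix.mulVec_mulVec, ← Matrix.mulVec_mulVec,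
      ← Matrix.mulVec_mulVec, h1]
  refine ⟨k, V, hV, hcol A fun x hx => (hred x hx).1, ?_, ?_, w, hw, supp A w, hgap⟩
  · have h1 := hcol Aᴴ fun x hx => (hred x hx).2
    have h2 : (Vᴴ * A * V)ᴴ = Vᴴ * Aᴴ * V := by
      rw [conjTranspose_mul, conjTranspose_mul, conjTranspose_conjTranspose, Matrix.mul_assoc]
    rw [h2, ← h1]
  · exact Set.Subset.antisymm (MW_compress_subset A V hV) hsub

end Pool.Agent.Helper29X1.ND
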