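import Mathlib
import Pool.Agent.Helper29X1.ND.Poly3
open Matrix Finset
open scoped ComplexOrder

namespace Pool.Agent.Helper29X1.ND

open Pool.Agent.Helper774

theorem ker_two {n : ℕ} (N : Matrix (Fin n) (Fin n) ℂ) (hr : N.rank + 2 = n)
    (e : Fin n → ℂ) (he : e ≠ 0) (hNe : N *ᵥ e = 0) :
    ∃ f : Fin n → ℂ, N *ᵥ f = 0 ∧ star f ⬝ᵥ f = 1 ∧ star e ⬝ᵥ f = 0 ∧
      ∀ y, N *ᵥ y = 0 → ∃ c d : ℂ, y = c • e + d • f := by
  have hfr : Module.finrank ℂ (LinearMap.ker N.mulVecLin) = 2 := by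
    have h1 := LinearMap.finrank_range_add_finrank_ker N.mulVecLin
    rw [Module.finrank_fin_fun] at h1
    have h2 : Module.finrank ℂ (LinearMap.range N.mulVecLin) = N.rank := rfl
    omega
  have hle : Submodule.span ℂ {e} < LinearMap.ker N.mulVecLin := by
    apply lt_of_le_of_ne
    · rw [Submodule.span_singleton_le_iff_mem]
      exact hNe
    · intro h
      have h1 := finrank_span_singleton (K := ℂ) he
      rw [h, hfr] at h1
      omega
  obtain ⟨g, hgk, hge⟩ := SetLike.exists_of_lt hle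
  have hgk' : N *ᵥ g = 0 := hgk
  obtain ⟨t, ht⟩ : ∃ t, t = (star e ⬝ᵥ g) / (star e ⬝ᵥ e) := ⟨_, rfl⟩
  have hee : star e ⬝ᵥ e ≠ 0 := self_ne he
  have hg'0 : g - t • e ≠ 0 := by
    intro h
    apply hge
    rw [sub_eq_zero.mp h]
    exact Submodule.smul_mem _ _ (Submodule.mem_span_singleton_self e)
  have hperp : star e ⬝ᵥ (g - t • e) = 0 := by
    rw [dotProduct_sub, dotProduct_smul, smul_eq_mul, ht, div_mul_cancel₀ _ hee, sub_self]
  obtain ⟨c, hc0, hc⟩ := normalize_vec (g - t • e) hg'0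
  have hf0 : (c : ℂ) • (g - t • e) ≠ 0 :=
    smul_ne_zero (by exact_mod_cast hc0.ne') hg'0
  have hef : star e ⬝ᵥ ((c : ℂ) • (g - t • e)) = 0 := by
    rw [dotProduct_smul, hperp, smul_zero]
  have hNf : N *ᵥ ((c : ℂ) • (g - t • e)) = 0 := by
    rw [Matrix.mulVec_smul, Matrix.mulVec_sub, Matrix.mulVec_smul, hNe, hgk', smul_zero,
      sub_zero, smul_zero]
  refine ⟨(c : ℂ) • (g - t • e), hNf, hc, hef, ?_⟩
  obtain ⟨f, hf⟩ : ∃ f, f = (c : ℂ) • (g - t • e) := ⟨_, rfl⟩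
  rw [← hf] at hf0 hef hNf ⊢
  have hli : LinearIndependent ℂ ![e, f] := by
    rw [LinearIndependent.pair_iff]
    intro s u hsu
    have h1 : star e ⬝ᵥ (s • e + u • f) = 0 := by rw [hsu, dotProduct_zero]
    rw [dotProduct_add, dotProduct_smul, dotProduct_smul, hef, smul_zero, add_zero,
      smul_eq_mul] at h1
    have hs : s = 0 := by
      rcases mul_eq_zero.mp h1 with h | h
      · exact h
      · exact absurd h hee
    rw [hs, zero_smul, zero_add] at hsu
    rcases smul_eq_zero.mp hsu with h | h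
    · exact ⟨hs, h⟩
    · exact absurd h hf0
  have hspan : Submodule.span ℂ (Set.range ![e, f]) = LinearMap.ker N.mulVecLin := by
    apply Submodule.eq_of_le_of_finrank_le
    · rw [Submodule.span_le]
      rintro _ ⟨i, rfl⟩
      fin_cases i
      · exact hNe
      · exact hNf
    · rw [hfr, finrank_span_eq_card hli, Fintype.card_fin]
  intro y hy
  have hy' : y ∈ Submodule.span ℂ (Set.range ![e, f]) := by
    rw [hspan]
    exact hy
  rw [Matrix.range_cons, Matrix.range_cons, Matrix.range_empty, Set.union_empty,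
    Set.singleton_union, Submodule.mem_span_pair] at hy'
  obtain ⟨a, b, hab⟩ := hy'
  exact ⟨a, b, hab.symm⟩

/-- Corners with a supporting direction whose top eigenvalue is double are nondegenerate. -/
theorem cornerOK_of_double {n : ℕ} (A : Matrix (Fin n) (Fin n) ℂ) [Nonempty (Fin n)]
    (h : ∀ p ∈ MW A, ∀ w w' : ℂ, ‖w‖ = 1 → ‖w'‖ = 1 → w ≠ w' → (w * p).re = supp A w →
      (w' * p).re = supp A w' → ∃ v : ℂ, ‖v‖ = 1 ∧ (v * p).re = supp A v ∧
      (NN A v).rank + 2 = n) : CornerOK A := by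
  intro e he a a' h1 h2
  obtain ⟨we, hwe, hse, -⟩ := he
  obtain ⟨ε, hε, hball⟩ := cset_near hse h1 h2
  obtain ⟨s, d, hs, hds, hz⟩ := near_unit we hwe ε hε
  obtain ⟨g1, g2⟩ := hz s (Or.inl rfl)
  obtain ⟨g3, g4⟩ := hz (-s) (Or.inr rfl)
  have hne : we * (⟨d, s⟩ : ℂ) ≠ we * (⟨d, -s⟩ : ℂ) := by
    intro hcon
    have hwe0 : we ≠ 0 := by
      rintro rfl
      simp at hwe
    have k3 : (⟨d, s⟩ : ℂ) = ⟨d, -s⟩ := mul_left_cancel₀ hwe0 hcon
    have k4 := congrArg Complex.im k3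
    simp only at k4
    linarith
  obtain ⟨v, hv, hva, hvr⟩ := h a (joint_mem hse.1 h1) _ _ g1 g3 hne (hball _ g1 g2)
    (hball _ g3 g4)
  refine ⟨v, hv, hva, ?_⟩
  apply ker_two (NN A v) hvr e hse.1
  rw [joint_NN hse.1 h1 h2, hva, sub_self, Complex.ofReal_zero, zero_smul]

end Pool.Agent.Helper29X1.ND
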