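import Mathlib
import Pool.Agent.Helper774.PosCases
open Matrix Finset
open scoped ComplexOrder

namespace Pool.Agent.Helper29X1.ND

open Pool.Agent.Helper774

theorem entry_one {m n : ℕ} (R : Matrix (Fin m) (Fin n) ℂ) (a b : Fin n) :
    (Rᴴ * R) a b = ∑ i, starRingEnd ℂ (R i a) * R i b := by
  rw [Matrix.mul_apply]
  rfl

theorem entry_two {m n : ℕ} (B : Matrix (Fin m) (Fin m) ℂ) (R : Matrix (Fin m) (Fin n) ℂ)
    (a b : Fin n) :
    (Rᴴ * B * R) a b = ∑ i, ∑ j, B i j * (starRingEnd ℂ (R i a) * R j b) := by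
  rw [Matrix.mul_apply, Finset.sum_comm]
  apply sum_congr rfl
  intro j _
  rw [Matrix.mul_apply, Finset.sum_mul]
  apply sum_congr rfl
  intro i _
  rw [Matrix.conjTranspose_apply, Complex.star_def]
  ring

theorem finDil_of_mat {m n : ℕ} {μ : Type*} [Fintype μ] {B : Matrix (Fin m) (Fin m) ℂ}
    {A : Matrix (Fin n) (Fin n) ℂ} (R : μ → Matrix (Fin m) (Fin n) ℂ)
    (h1 : ∑ p, (R p)ᴴ * R p = 1) (h2 : ∑ p, (R p)ᴴ * B * R p = A) : FinDil B A := by
  apply FinDil.of_fintype (fun p i a => R p i a)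
  · intro a b
    have h := congrFun (congrFun h1 a) b
    rw [Matrix.sum_apply, Matrix.one_apply] at h
    rw [← h]
    apply sum_congr rfl
    intro p _
    rw [entry_one]
  · intro a b
    have h := congrFun (congrFun h2 a) b
    rw [Matrix.sum_apply] at h
    rw [← h]
    apply sum_congr rfl
    intro p _
    rw [entry_two]

theorem mat_of_finDil {m n : ℕ} {B : Matrix (Fin m) (Fin m) ℂ}
    {A : Matrix (Fin n) (Fin n) ℂ} (h : FinDil B A) :
    ∃ (N : ℕ) (R : Fin N → Matrix (Fin m) (Fin n) ℂ),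
      ∑ p, (R p)ᴴ * R p = 1 ∧ ∑ p, (R p)ᴴ * B * R p = A := by
  obtain ⟨N, R, h1, h2⟩ := h
  refine ⟨N, fun p => Matrix.of (fun i a => R p i a), ?_, ?_⟩
  · ext a b
    rw [Matrix.sum_apply, Matrix.one_apply, ← h1 a b]
    apply sum_congr rfl
    intro p _
    rw [entry_one]
    rfl
  · ext a b
    rw [Matrix.sum_apply, ← h2 a b]
    apply sum_congr rfl
    intro p _
    rw [entry_two]
    rfl

/-- the matrix convex hull is transitive -/
theorem finDil_trans {l m n : ℕ} {B : Matrix (Fin l) (Fin l) ℂ} {A : Matrix (Fin m) (Fin m) ℂ}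
    {T : Matrix (Fin n) (Fin n) ℂ} (hBA : FinDil B A) (hAT : FinDil A T) : FinDil B T := by
  obtain ⟨N, R, hR1, hR2⟩ := mat_of_finDil hBA
  obtain ⟨M, S, hS1, hS2⟩ := mat_of_finDil hAT
  apply finDil_of_mat (fun pq : Fin M × Fin N => R pq.2 * S pq.1)
  · rw [Fintype.sum_prod_type, ← hS1]
    apply sum_congr rfl
    intro q _
    have e1 : ∀ p, (R p * S q)ᴴ * (R p * S q) = (S q)ᴴ * (((R p)ᴴ * R p) * S q) := by
      intro p
      rw [conjTranspose_mul]
      simp only [Matrix.mul_assoc]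
    simp only [e1]
    rw [← Matrix.mul_sum, ← Matrix.sum_mul, hR1, Matrix.one_mul]
  · rw [Fintype.sum_prod_type, ← hS2]
    apply sum_congr rfl
    intro q _
    have e1 : ∀ p, (R p * S q)ᴴ * B * (R p * S q) = (S q)ᴴ * (((R p)ᴴ * B * R p) * S q) := by
      intro p
      rw [conjTranspose_mul]
      simp only [Matrix.mul_assoc]
    simp only [e1]
    rw [← Matrix.mul_sum, ← Matrix.sum_mul, hR2, Matrix.mul_assoc]

end Pool.Agent.Helper29X1.ND
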