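import Mathlib
import Pool.Agent.Helper29X1.ND.Corner
import Pool.Agent.Helper29X1.ND.Trans
open Matrix Finset
open scoped ComplexOrder

namespace Pool.Agent.Helper29X1.ND

open Pool.Agent.Helper774

theorem quad_of_mat {m n : ℕ} {μ : Type*} [Fintype μ] (B : Matrix (Fin m) (Fin m) ℂ)
    (R : μ → Matrix (Fin m) (Fin n) ℂ) (x : Fin n → ℂ) :
    star x ⬝ᵥ ((∑ p, (R p)ᴴ * B * R p) *ᵥ x) =
      ∑ p, star (R p *ᵥ x) ⬝ᵥ (B *ᵥ (R p *ᵥ x)) := by
  have e0 : (∑ p, (R p)ᴴ * B * R p) *ᵥ x = ∑ p, ((R p)ᴴ * B * R p) *ᵥ x := by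
    ext i
    rw [Finset.sum_apply]
    simp only [Matrix.mulVec, dotProduct]
    rw [Finset.sum_comm]
    apply sum_congr rfl
    intro j _
    rw [Matrix.sum_apply, Finset.sum_mul]
  rw [e0, dotProduct_sum]
  apply sum_congr rfl
  intro p _
  rw [← Matrix.mulVec_mulVec, ← Matrix.mulVec_mulVec, Matrix.dotProduct_mulVec,
    Matrix.star_mulVec]

theorem MW_subset_of_finDil {m n : ℕ} [Nonempty (Fin m)] {B : Matrix (Fin m) (Fin m) ℂ}
    {A : Matrix (Fin n) (Fin n) ℂ} (h : FinDil B A) : MW A ⊆ MW B := by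
  obtain ⟨N, R, h1, h2⟩ := mat_of_finDil h
  rintro _ ⟨x, hx, rfl⟩
  apply mem_of_supp
  intro z hz
  have e1 : star x ⬝ᵥ (A *ᵥ x) = ∑ p, star (R p *ᵥ x) ⬝ᵥ (B *ᵥ (R p *ᵥ x)) := by
    rw [← h2, quad_of_mat]
  have e2 : (1 : ℂ) = ∑ p, star (R p *ᵥ x) ⬝ᵥ (R p *ᵥ x) := by
    have h3 := quad_of_mat (1 : Matrix (Fin m) (Fin m) ℂ) R x
    simp only [Matrix.mul_one, Matrix.one_mulVec] at h3
    rw [h1, Matrix.one_mulVec, hx] at h3
    exact h3
  have e3 : (1 : ℝ) = ∑ p, (star (R p *ᵥ x) ⬝ᵥ (R p *ᵥ x)).re := by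
    have := congrArg Complex.re e2
    rwa [Complex.one_re, Complex.re_sum] at this
  rw [e1, mul_sum, Complex.re_sum]
  calc ∑ p, (z * (star (R p *ᵥ x) ⬝ᵥ (B *ᵥ (R p *ᵥ x)))).re
      ≤ ∑ p, supp B z * (star (R p *ᵥ x) ⬝ᵥ (R p *ᵥ x)).re :=
        sum_le_sum fun p _ => quad_le_supp B z _
    _ = supp B z := by rw [← mul_sum, ← e3, mul_one]

/-- property (D) passes to a summand whose matrix convex hull contains the matrix -/
theorem finPropD_core {m n : ℕ} {B : Matrix (Fin m) (Fin m) ℂ}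
    {A : Matrix (Fin n) (Fin n) ℂ} (hsub : MW B ⊆ MW A) (hBA : FinDil B A)
    (hA : FinPropD A) : FinPropD B := fun k T hT =>
  finDil_trans hBA (hA k T (hT.trans hsub))

end Pool.Agent.Helper29X1.ND
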