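import Mathlib
import Pool.Agent.Helper29X1.ND.Corner
open Matrix Finset
open scoped ComplexOrder

namespace Pool.Agent.Helper29X1.ND

open Pool.Agent.Helper774

/-- The Schur multiplier argument with an abstract contact hypothesis. -/
theorem main_neg3 {ι : Type*} [Fintype ι] [DecidableEq ι] [Nonempty ι] {k : ℕ} (hk : 2 ≤ k)
    (A : Matrix ι ι ℂ) (u : Fin k → ι → ℂ) (hind : LinearIndependent ℂ u)
    (hext : ∀ (N : ℕ) (X : Fin N → Fin k → ι → ℂ) (Γ : Fin k → Fin k → ℂ), (∀ i, Γ i i = 1) →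
      (∀ i j, starRingEnd ℂ (Γ j i) = Γ i j) →
      (∀ i j, ∑ p, star (X p i) ⬝ᵥ (X p j) = Γ i j * (star (u i) ⬝ᵥ u j)) →
      (∀ i j, ∑ p, star (X p i) ⬝ᵥ (A *ᵥ (X p j)) = Γ i j * (star (u i) ⬝ᵥ (A *ᵥ u j))) →
      ∀ v : Fin k → ℂ, 0 ≤ (∑ i, ∑ j, starRingEnd ℂ (v i) * v j * Γ i j).re)
    (hrank : ∀ z : ℂ, ‖z‖ = 1 → ∃ i j, ‖star (u i) ⬝ᵥ (NN A z *ᵥ u j)‖ ^ 2 ≠
      (star (u i) ⬝ᵥ (NN A z *ᵥ u i)).re * (star (u j) ⬝ᵥ (NN A z *ᵥ u j)).re) :
    ¬ FinPropD A := by
  intro hA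
  have hkR : (2 : ℝ) ≤ k := by exact_mod_cast hk
  have hne : Nonempty (Fin k) := ⟨⟨0, by omega⟩⟩
  obtain ⟨G, hG⟩ : ∃ G : ℂ → Fin k → Fin k → ℂ,
    G = fun z i j => star (u i) ⬝ᵥ (NN A z *ᵥ u j) := ⟨_, rfl⟩
  obtain ⟨g, hg⟩ : ∃ g : ℂ → Fin k → ℝ, g = fun z i => (G z i i).re := ⟨_, rfl⟩
  have hGe : ∀ z i j, G z i j = (supp A z : ℂ) * (star (u i) ⬝ᵥ (u j)) -
      1 / 2 * (z * (star (u i) ⬝ᵥ (A *ᵥ (u j))) +
        starRingEnd ℂ (z * (star (u j) ⬝ᵥ (A *ᵥ (u i))))) := by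
    intro z i j
    rw [hG]
    exact NN_entry A z (u i) (u j)
  have hGd : ∀ z i, G z i i = (g z i : ℂ) := by
    intro z i
    rw [hg, hG]
    simp only
    rw [NN_quad, Complex.ofReal_re]
  have hg0 : ∀ z i, 0 ≤ g z i := by
    intro z i
    rw [hg, hG]
    simp only
    have := (NN_psd A z).dotProduct_mulVec_nonneg (u i)
    exact (Complex.le_def.mp this).1
  have hGh : ∀ z i j, G z j i = starRingEnd ℂ (G z i j) := by
    intro z i j
    rw [hG]
    exact herm_swap (NN_psd A z).1 (u j) (u i)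
  have hGcs : ∀ z i j, ‖G z i j‖ ^ 2 ≤ g z i * g z j := by
    intro z i j
    rw [hg, hG]
    exact psd_cs (NN_psd A z) (u i) (u j)
  have hGc : ∀ i j, Continuous (fun z => G z i j) := by
    intro i j
    have : (fun z => G z i j) = fun z => (supp A z : ℂ) * (star (u i) ⬝ᵥ (u j)) -
      1 / 2 * (z * (star (u i) ⬝ᵥ (A *ᵥ (u j))) +
        starRingEnd ℂ (z * (star (u j) ⬝ᵥ (A *ᵥ (u i))))) := by
      ext z
      exact hGe z i j
    rw [this]
    have hs := supp_continuous A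
    fun_prop
  have hgc : ∀ i, Continuous (fun z => g z i) := by
    intro i
    rw [hg]
    exact Complex.continuous_re.comp (hGc i i)
  have hcomp : IsCompact {z : ℂ | ‖z‖ = 1} := by
    have : {z : ℂ | ‖z‖ = 1} = Metric.sphere 0 1 := by
      ext z
      simp
    rw [this]
    exact isCompact_sphere _ _
  have hS1 : ({z : ℂ | ‖z‖ = 1}).Nonempty := ⟨1, by simp⟩
  obtain ⟨f, hf⟩ : ∃ f : ℂ → ℝ, f = fun z => ∑ i, ∑ j, (g z i * g z j - ‖G z i j‖ ^ 2) :=
    ⟨_, rfl⟩
  have hfc : Continuous f := by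
    rw [hf]
    apply continuous_finsetSum
    intro i _
    apply continuous_finsetSum
    intro j _
    exact ((hgc i).mul (hgc j)).sub ((hGc i j).norm.pow 2)
  have hfpos : ∀ z : ℂ, ‖z‖ = 1 → 0 < f z := by
    intro z hz
    obtain ⟨i, j, hij⟩ := hrank z hz
    have h1 : ∀ a b, 0 ≤ g z a * g z b - ‖G z a b‖ ^ 2 := fun a b =>
      sub_nonneg.mpr (hGcs z a b)
    have h2 : 0 < g z i * g z j - ‖G z i j‖ ^ 2 := by
      refine lt_of_le_of_ne (h1 i j) ?_
      intro h3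
      apply hij
      have : ‖G z i j‖ ^ 2 = g z i * g z j := by linarith
      rw [hg, hG] at this
      exact this
    rw [hf]
    refine lt_of_lt_of_le h2 ?_
    refine le_trans ?_ (single_le_sum (f := fun a => ∑ b, (g z a * g z b - ‖G z a b‖ ^ 2))
      (fun a _ => sum_nonneg fun b _ => h1 a b) (mem_univ i))
    exact single_le_sum (f := fun b => (g z i * g z b - ‖G z i b‖ ^ 2))
      (fun b _ => h1 i b) (mem_univ j)
  obtain ⟨z0, hz0, hmin⟩ := hcomp.exists_isMinOn hS1 hfc.continuousOn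
  have hc0 : 0 < f z0 := hfpos z0 hz0
  obtain ⟨Λ, hΛ0, hΛ⟩ : ∃ Λ : ℝ, 0 < Λ ∧ ∀ z : ℂ, ‖z‖ = 1 → ∀ i, g z i ≤ Λ := by
    obtain ⟨z1, hz1, hmax⟩ := hcomp.exists_isMaxOn hS1
      (f := fun z => ∑ i, g z i) (continuous_finsetSum _ fun i _ => hgc i).continuousOn
    refine ⟨∑ i, g z1 i + 1, ?_, ?_⟩
    · have : 0 ≤ ∑ i, g z1 i := sum_nonneg fun i _ => hg0 z1 i
      linarith
    · intro z hz i
      have h1 : g z i ≤ ∑ i, g z i :=
        single_le_sum (f := fun i => g z i) (fun i _ => hg0 z i) (mem_univ i)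
      have h2 : ∑ i, g z i ≤ ∑ i, g z1 i := hmax hz
      linarith
  obtain ⟨c, hc, hcorr⟩ := corr_bound (ι := Fin k) Λ (f z0) hΛ0 hc0
  rw [Fintype.card_fin] at hcorr
  have hcorr' : ∀ z : ℂ, ‖z‖ = 1 → ∀ x : Fin k → ℂ,
      (QQ (G z) x).re ≤ ((k : ℝ) - c) * ∑ i, g z i * ‖x i‖ ^ 2 := by
    intro z hz x
    refine hcorr (g z) (G z) (hg0 z) (hΛ z hz) (hGd z) (hGh z) (hGcs z) ?_ x
    have h1 : f z0 ≤ f z := hmin hz
    rw [hf] at h1
    rw [hf]
    exact h1
  obtain ⟨v, hv1, hv2⟩ := exists_roots hk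
  obtain ⟨γ, hγ⟩ : ∃ γ : ℝ, γ = 1 / (2 * k) := ⟨_, rfl⟩
  have hγ0 : 0 < γ := by rw [hγ]; positivity
  have hγk : γ * k = 1 / 2 := by rw [hγ]; field_simp
  obtain ⟨β, hβ⟩ : ∃ β : ℝ, β = γ * (k - c / 2) := ⟨_, rfl⟩
  obtain ⟨α, hα⟩ : ∃ α : ℝ, α = 1 + γ - β := ⟨_, rfl⟩
  have hα0 : 0 < α := by
    rw [hα, hβ]
    nlinarith [mul_pos hγ0 hc]
  have hβγ : β - γ * (k - c) = γ * c / 2 := by rw [hβ]; ring
  have hvv : ∀ i, v i * starRingEnd ℂ (v i) = 1 := by
    intro i
    rw [Complex.mul_conj, Complex.normSq_eq_norm_sq, hv1 i]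
    simp
  have hgam1 : ∀ i, Gam α β γ v i i = 1 := by
    intro i
    unfold Gam
    rw [if_pos rfl, hvv, hα]
    push_cast
    ring
  have hgamh : ∀ i j, starRingEnd ℂ (Gam α β γ v j i) = Gam α β γ v i j := by
    intro i j
    unfold Gam
    rw [map_sub, map_add, map_mul, map_mul, Complex.conj_conj, Complex.conj_ofReal,
      Complex.conj_ofReal, mul_comm (starRingEnd ℂ (v j))]
    by_cases hij : i = j
    · subst hij
      rw [if_pos rfl, Complex.conj_ofReal]
    · rw [if_neg hij, if_neg (Ne.symm hij), map_zero]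
  -- positivity
  have hQre : ∀ z : ℂ, ‖z‖ = 1 → ∀ x : Fin k → ℂ, 0 ≤ (QQ (G z) x).re := by
    intro z _ x
    have h1 : QQ (G z) x = star (∑ i, x i • u i) ⬝ᵥ (NN A z *ᵥ (∑ i, x i • u i)) := by
      rw [QQ, hG, star_sum, sum_dotProduct]
      apply sum_congr rfl
      intro i _
      rw [Matrix.mulVec_sum, dotProduct_sum]
      apply sum_congr rfl
      intro j _
      rw [star_smul, smul_dotProduct, Matrix.mulVec_smul, dotProduct_smul, smul_eq_mul,
        smul_eq_mul, Complex.star_def, mul_assoc]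
    rw [h1]
    exact (Complex.le_def.mp ((NN_psd A z).dotProduct_mulVec_nonneg _)).1
  have hpos : ∀ z : ℂ, ‖z‖ = 1 → ∀ x : Fin k → ℂ,
      α * (QQ (G z) x).re ≤ (QQ (fun i j => Gam α β γ v i j * G z i j) x).re := by
    intro z hz x
    rw [QQ_gam]
    have h1 := hcorr' z hz (fun i => starRingEnd ℂ (v i) * x i)
    have h2 : ∑ i, g z i * ‖starRingEnd ℂ (v i) * x i‖ ^ 2 = ∑ i, g z i * ‖x i‖ ^ 2 := by
      apply sum_congr rfl
      intro i _
      rw [norm_mul, RCLike.norm_conj, hv1, one_mul]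
    rw [h2] at h1
    have h3 : (∑ i, starRingEnd ℂ (x i) * x i * G z i i : ℂ) =
        ((∑ i, g z i * ‖x i‖ ^ 2 : ℝ) : ℂ) := by
      rw [Complex.ofReal_sum]
      apply sum_congr rfl
      intro i _
      rw [hGd, mul_comm (starRingEnd ℂ (x i)), Complex.mul_conj, Complex.normSq_eq_norm_sq]
      push_cast
      ring
    rw [h3, Complex.sub_re, Complex.add_re, Complex.re_ofReal_mul, Complex.re_ofReal_mul,
      Complex.re_ofReal_mul, Complex.ofReal_re]
    have h4 : 0 ≤ ∑ i, g z i * ‖x i‖ ^ 2 :=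
      sum_nonneg fun i _ => mul_nonneg (hg0 z i) (sq_nonneg _)
    have h5 := mul_le_mul_of_nonneg_left h1 hγ0.le
    have h6 : 0 ≤ (β - γ * (k - c)) * ∑ i, g z i * ‖x i‖ ^ 2 := by
      rw [hβγ]
      positivity
    nlinarith
  obtain ⟨P, hP⟩ : ∃ P : Matrix (Fin k) (Fin k) ℂ,
    P = Matrix.of fun i j => Gam α β γ v i j * (star (u i) ⬝ᵥ u j) := ⟨_, rfl⟩
  obtain ⟨S, hS⟩ : ∃ S : Matrix (Fin k) (Fin k) ℂ,
    S = Matrix.of fun i j => Gam α β γ v i j * (star (u i) ⬝ᵥ (A *ᵥ u j)) := ⟨_, rfl⟩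
  have hquadM : ∀ (M : Matrix (Fin k) (Fin k) ℂ) (x : Fin k → ℂ),
      star x ⬝ᵥ (M *ᵥ x) = QQ (fun i j => M i j) x := by
    intro M x
    rw [QQ, dotProduct]
    apply sum_congr rfl
    intro i _
    rw [Matrix.mulVec, dotProduct, mul_sum]
    apply sum_congr rfl
    intro j _
    rw [Pi.star_apply, Complex.star_def]
    ring
  have hrel : ∀ (z : ℂ) (x : Fin k → ℂ),
      (QQ (fun i j => Gam α β γ v i j * G z i j) x).re =
        supp A z * (star x ⬝ᵥ (P *ᵥ x)).re - (z * (star x ⬝ᵥ (S *ᵥ x))).re := by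
    intro z x
    have h1 : QQ (fun i j => Gam α β γ v i j * G z i j) x =
        (supp A z : ℂ) * (star x ⬝ᵥ (P *ᵥ x)) - 1 / 2 * (z * (star x ⬝ᵥ (S *ᵥ x)) +
          starRingEnd ℂ (z * (star x ⬝ᵥ (S *ᵥ x)))) := by
      rw [hquadM, hquadM]
      have h2 : starRingEnd ℂ (z * QQ (fun i j => S i j) x) =
          ∑ i, ∑ j, starRingEnd ℂ (x i) * x j * starRingEnd ℂ (z * S j i) := by
        rw [QQ, mul_sum, map_sum]
        simp only [mul_sum, map_sum, map_mul, Complex.conj_conj]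
        rw [sum_comm]
        refine sum_congr rfl fun i _ => sum_congr rfl fun j _ => ?_
        ring
      have h3 : QQ (fun i j => Gam α β γ v i j * G z i j) x =
          ∑ i, ∑ j, ((supp A z : ℂ) * (starRingEnd ℂ (x i) * x j * P i j) -
            (1 / 2 * (z * (starRingEnd ℂ (x i) * x j * S i j)) +
              1 / 2 * (starRingEnd ℂ (x i) * x j * starRingEnd ℂ (z * S j i)))) := by
        rw [QQ]
        refine sum_congr rfl fun i _ => sum_congr rfl fun j _ => ?_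
        rw [hGe, hP, hS, Matrix.of_apply, Matrix.of_apply, Matrix.of_apply]
        simp only [map_mul, hgamh]
        ring
      rw [h2, h3, QQ, QQ]
      simp only [mul_sum, mul_add, sum_sub_distrib, sum_add_distrib]
    rw [h1, Complex.add_conj, Complex.sub_re, Complex.re_ofReal_mul]
    congr 1
    rw [show (1 / 2 : ℂ) = ((1 / 2 : ℝ) : ℂ) by push_cast; ring, Complex.re_ofReal_mul,
      Complex.ofReal_re]
    ring
  have hPh : P.IsHermitian := by
    ext i j
    rw [Matrix.conjTranspose_apply, hP, Matrix.of_apply, Matrix.of_apply, Complex.star_def,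
      map_mul, hgamh, ← dot_swap]
  have hW : ∃ W : ℝ, 0 < W ∧ ∀ i j, G 1 i j + G (-1) i j = (W : ℂ) * (star (u i) ⬝ᵥ u j) := by
    have h1 : ∀ i j, G 1 i j + G (-1) i j =
        ((supp A 1 + supp A (-1) : ℝ) : ℂ) * (star (u i) ⬝ᵥ u j) := by
      intro i j
      rw [hGe, hGe]
      simp only [map_mul, map_neg, map_one]
      push_cast
      ring
    refine ⟨supp A 1 + supp A (-1), ?_, h1⟩
    obtain ⟨i, j, hij⟩ := hrank 1 (by simp)
    have h2 : ∃ i, 0 < g 1 i := by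
      by_contra hcon
      push Not at hcon
      have h3 : ∀ i, g 1 i = 0 := fun i => le_antisymm (hcon i) (hg0 1 i)
      have h4 := hGcs 1 i j
      rw [h3 i, h3 j, mul_zero] at h4
      have h5 : ‖G 1 i j‖ ^ 2 = g 1 i * g 1 j := by
        rw [h3 i, h3 j, mul_zero]
        exact le_antisymm h4 (sq_nonneg _)
      apply hij
      rw [hg, hG] at h5
      exact h5
    obtain ⟨i, hi⟩ := h2
    have h3 := congrArg Complex.re (h1 i i)
    rw [Complex.add_re, hGd, hGd, Complex.ofReal_re, Complex.ofReal_re, Complex.re_ofReal_mul]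
      at h3
    have h4 := hg0 (-1) i
    have h5 := dot_self_re_nonneg (u i)
    by_contra h6
    push Not at h6
    have := mul_nonpos_of_nonpos_of_nonneg h6 h5
    linarith
  have hSle : ∀ z : ℂ, ‖z‖ = 1 → ∀ x : Fin k → ℂ,
      (z * (star x ⬝ᵥ (S *ᵥ x))).re ≤ supp A z * (star x ⬝ᵥ (P *ᵥ x)).re := by
    intro z hz x
    have h1 := hrel z x
    have h2 := hpos z hz x
    have h3 := mul_nonneg hα0.le (hQre z hz x)
    linarith
  have hPd : P.PosDef := by
    apply Matrix.PosDef.of_dotProduct_mulVec_pos hPh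
    intro x hx
    obtain ⟨W, hW0, hW1⟩ := hW
    have h1 : QQ (fun i j => Gam α β γ v i j * G 1 i j) x +
        QQ (fun i j => Gam α β γ v i j * G (-1) i j) x = (W : ℂ) * (star x ⬝ᵥ (P *ᵥ x)) := by
      rw [hquadM, QQ, QQ, QQ, mul_sum, ← sum_add_distrib]
      apply sum_congr rfl
      intro i _
      rw [mul_sum, ← sum_add_distrib]
      apply sum_congr rfl
      intro j _
      rw [hP, Matrix.of_apply]
      linear_combination (starRingEnd ℂ (x i) * x j * Gam α β γ v i j) * hW1 i j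
    obtain ⟨y, hy⟩ : ∃ y : ι → ℂ, y = ∑ i, x i • u i := ⟨_, rfl⟩
    have h2 : QQ (G 1) x + QQ (G (-1)) x = (W : ℂ) * (star y ⬝ᵥ y) := by
      rw [QQ, QQ, ← sum_add_distrib, hy, star_sum, sum_dotProduct, mul_sum]
      apply sum_congr rfl
      intro i _
      rw [← sum_add_distrib, dotProduct_sum, mul_sum]
      apply sum_congr rfl
      intro j _
      rw [star_smul, smul_dotProduct, dotProduct_smul, smul_eq_mul, smul_eq_mul,
        Complex.star_def]
      linear_combination (starRingEnd ℂ (x i) * x j) * hW1 i j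
    have hy0 : y ≠ 0 := by
      intro h0
      rw [hy] at h0
      apply hx
      ext i
      exact (Fintype.linearIndependent_iff.mp hind) x h0 i
    have h3 : 0 < (star y ⬝ᵥ y).re := by
      rcases (dot_self_re_nonneg y).lt_or_eq with h | h
      · exact h
      · exact absurd (dot_self_re_eq_zero h.symm) hy0
    have h4 := hpos 1 (by simp) x
    have h5 := hpos (-1) (by simp) x
    have h6 := congrArg Complex.re h1
    have h7 := congrArg Complex.re h2
    rw [Complex.add_re, Complex.re_ofReal_mul] at h6 h7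
    have h8 : 0 < W * (star x ⬝ᵥ (P *ᵥ x)).re := by
      have := mul_pos hα0 (mul_pos hW0 h3)
      nlinarith
    have h9 : 0 < (star x ⬝ᵥ (P *ᵥ x)).re := by
      by_contra hcon
      push Not at hcon
      have := mul_nonpos_of_nonneg_of_nonpos hW0.le hcon
      linarith
    rw [Complex.pos_iff]
    refine ⟨h9, ?_⟩
    have h10 := herm_swap hPh x x
    have := congrArg Complex.im h10
    rw [Complex.conj_im] at this
    linarith
  obtain ⟨N, X, hX1, hX2⟩ := forms_dil A hA P S hPd hSle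
  have hnonneg := hext N X (Gam α β γ v) hgam1 hgamh
    (fun i j => by rw [hX1, hP, Matrix.of_apply]) (fun i j => by rw [hX2, hS, Matrix.of_apply]) v
  have hneg : ∑ i, ∑ j, starRingEnd ℂ (v i) * v j * Gam α β γ v i j =
      ((k * (β - γ * k) : ℝ) : ℂ) := by
    have h0 : ∀ i, starRingEnd ℂ (v i) * v i = 1 := fun i => by rw [mul_comm]; exact hvv i
    have h1 : ∀ i j, starRingEnd ℂ (v i) * v j * Gam α β γ v i j =
        (α : ℂ) * (starRingEnd ℂ (v i) * v j) + (if i = j then (β : ℂ) else 0) - (γ : ℂ) := by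
      intro i j
      unfold Gam
      have h2 : starRingEnd ℂ (v i) * v j * (v i * starRingEnd ℂ (v j)) = 1 := by
        linear_combination (v j * starRingEnd ℂ (v j)) * h0 i + hvv j
      by_cases hij : i = j
      · subst hij
        rw [if_pos rfl]
        linear_combination (β : ℂ) * h0 i - (γ : ℂ) * h2
      · rw [if_neg hij]
        linear_combination - (γ : ℂ) * h2
    simp only [h1, sum_sub_distrib, sum_add_distrib, ← mul_sum]
    rw [hv2]
    simp only [mul_zero, sum_const_zero, zero_add, sum_ite_eq, mem_univ, if_true, sum_const,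
      card_univ, Fintype.card_fin, nsmul_eq_mul]
    push_cast
    ring
  rw [hneg, Complex.ofReal_re] at hnonneg
  have h1 : (k : ℝ) * (β - γ * k) = -(k * γ * c / 2) := by rw [hβ]; ring
  rw [h1] at hnonneg
  have h2 : 0 < (k : ℝ) * γ * c / 2 := by positivity
  linarith

end Pool.Agent.Helper29X1.ND
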