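import Mathlib
import Pool.Agent.Helper29X1.ND.Neg3
open Matrix Finset
open scoped ComplexOrder

namespace Pool.Agent.Helper29X1.ND

open Pool.Agent.Helper774

theorem psd_of_gram {N k : ℕ} (Γ : Fin k → Fin k → ℂ) (η : Fin N → Fin k → ℂ)
    (h1 : ∀ i, Γ i i = 1) (h2 : ∀ i, ∑ p, ‖η p i‖ ^ 2 ≤ 1)
    (h3 : ∀ i j, i ≠ j → Γ i j = ∑ p, starRingEnd ℂ (η p i) * η p j) (v : Fin k → ℂ) :
    0 ≤ (∑ i, ∑ j, starRingEnd ℂ (v i) * v j * Γ i j).re := by
  have hG : ∀ i j, Γ i j = ∑ p, starRingEnd ℂ (η p i) * η p j +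
      (if i = j then ((1 - ∑ p, ‖η p i‖ ^ 2 : ℝ) : ℂ) else 0) := by
    intro i j
    by_cases hij : i = j
    · subst hij
      rw [if_pos rfl, h1]
      have : ∑ p, starRingEnd ℂ (η p i) * η p i = ((∑ p, ‖η p i‖ ^ 2 : ℝ) : ℂ) := by
        rw [Complex.ofReal_sum]
        apply sum_congr rfl
        intro p _
        rw [mul_comm, Complex.mul_conj, Complex.normSq_eq_norm_sq]
      rw [this]
      push_cast
      ring
    · rw [if_neg hij, add_zero, h3 i j hij]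
  have key : ∑ i, ∑ j, starRingEnd ℂ (v i) * v j * Γ i j =
      ∑ p, starRingEnd ℂ (∑ i, η p i * v i) * (∑ j, η p j * v j) +
        ∑ i, ((‖v i‖ ^ 2 * (1 - ∑ p, ‖η p i‖ ^ 2) : ℝ) : ℂ) := by
    have e1 : ∀ p, starRingEnd ℂ (∑ i, η p i * v i) * (∑ j, η p j * v j) =
        ∑ i, ∑ j, starRingEnd ℂ (v i) * v j * (starRingEnd ℂ (η p i) * η p j) := by
      intro p
      rw [map_sum, sum_mul_sum]
      refine sum_congr rfl fun i _ => sum_congr rfl fun j _ => ?_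
      rw [map_mul]
      ring
    have e2 : ∑ p, ∑ i, ∑ j, starRingEnd ℂ (v i) * v j * (starRingEnd ℂ (η p i) * η p j) =
        ∑ i, ∑ j, ∑ p, starRingEnd ℂ (v i) * v j * (starRingEnd ℂ (η p i) * η p j) := by
      rw [sum_comm]
      apply sum_congr rfl
      intro i _
      rw [sum_comm]
    simp only [e1]
    rw [e2, ← sum_add_distrib]
    apply sum_congr rfl
    intro i _
    simp only [hG, mul_add, sum_add_distrib, mul_sum, mul_ite, mul_zero, sum_ite_eq, mem_univ,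
      if_true]
    congr 1
    rw [mul_comm (starRingEnd ℂ (v i)) (v i), Complex.mul_conj, Complex.normSq_eq_norm_sq]
    push_cast
    ring
  rw [key, Complex.add_re, Complex.re_sum, Complex.re_sum]
  apply add_nonneg
  · apply sum_nonneg
    intro p _
    rw [mul_comm, Complex.mul_conj, Complex.ofReal_re]
    exact Complex.normSq_nonneg _
  · apply sum_nonneg
    intro i _
    rw [Complex.ofReal_re]
    exact mul_nonneg (sq_nonneg _) (by linarith [h2 i])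

/-- a family of regular vectors in a reducing space and one mixed vector -/
theorem wide_test {ι : Type*} [Fintype ι] [DecidableEq ι] [Nonempty ι] {k n : ℕ} (hk : 2 ≤ k)
    (A : Matrix ι ι ℂ) (hA : FinPropD A) (w : Fin k → ℂ) (y u : Fin k → ι → ℂ) (i0 : Fin k)
    (V : Matrix ι (Fin n) ℂ) (hV : Vᴴ * V = 1)
    (hAV : ∀ m, V *ᵥ (Vᴴ *ᵥ m) = m → V *ᵥ (Vᴴ *ᵥ (A *ᵥ m)) = A *ᵥ m ∧
      V *ᵥ (Vᴴ *ᵥ (Aᴴ *ᵥ m)) = Aᴴ *ᵥ m)
    (huV : ∀ i, V *ᵥ (Vᴴ *ᵥ u i) = u i)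
    (hreg : ∀ i, i ≠ i0 → y i = u i ∧ STop A (w i) (u i))
    (e : ι → ℂ) (hy0 : y i0 = e + u i0) (a a' : ℂ) (h : A *ᵥ e = a • e) (h' : Aᴴ *ᵥ e = a' • e)
    (heV : ∀ m, star e ⬝ᵥ (V *ᵥ m) = 0) (hu0 : u i0 ≠ 0)
    (hKy : NN A (w i0) *ᵥ (y i0) = 0)
    (huniq : ∀ m, NN A (w i0) *ᵥ (V *ᵥ m) = 0 → ∃ c : ℂ, V *ᵥ m = c • u i0)
    (t : ℝ) (hpos : ∀ r, NN A (w i0) *ᵥ r = 0 →
      0 ≤ t * (w i0 * (star r ⬝ᵥ (A *ᵥ r) - a * (star r ⬝ᵥ r))).im)
    (hposu : 0 < t * (w i0 * (star (u i0) ⬝ᵥ (A *ᵥ u i0) - a * (star (u i0) ⬝ᵥ u i0))).im)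
    (hind : LinearIndependent ℂ y)
    (hcpl : ∀ i j, i ≠ j → star (u i) ⬝ᵥ u j ≠ 0 ∨ star (u i) ⬝ᵥ (A *ᵥ u j) ≠ 0 ∨
      star (u j) ⬝ᵥ (A *ᵥ u i) ≠ 0) :
    ∃ z : ℂ, ‖z‖ = 1 ∧ ∀ i j, ‖star (y i) ⬝ᵥ (NN A z *ᵥ y j)‖ ^ 2 =
      (star (y i) ⬝ᵥ (NN A z *ᵥ y i)).re * (star (y j) ⬝ᵥ (NN A z *ᵥ y j)).re := by
  by_contra hcon
  push Not at hcon
  refine main_neg3 hk A y hind ?_ hcon hA
  intro N X Γ hΓ1 hΓh hX1 hX2
  have heu : ∀ i, star e ⬝ᵥ u i = 0 := fun i => by rw [← huV i, heV]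
  have hue : ∀ i, star (u i) ⬝ᵥ e = 0 := fun i => by rw [dot_swap, heu, map_zero]
  have hAeu : ∀ i, star e ⬝ᵥ (A *ᵥ u i) = 0 := fun i => by
    rw [joint_left0 h h', heu, mul_zero]
  have hAue : ∀ i, star (u i) ⬝ᵥ (A *ᵥ e) = 0 := fun i => by
    rw [h, dotProduct_smul, hue, smul_zero]
  have hker : ∀ p i, NN A (w i) *ᵥ (X p i) = 0 := by
    intro p i
    have hKi : NN A (w i) *ᵥ (y i) = 0 := by
      by_cases hi : i = i0
      · rw [hi]; exact hKy
      · rw [(hreg i hi).1]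
        exact stop_ker_self (hreg i hi).2
    refine contact2 (u := y i) i ?_ ?_ hKi p
    · rw [hX1, hΓ1, one_mul]
    · rw [hX2, hΓ1, one_mul]
  -- the part in the reducing space
  have hredV : ∀ r : ι → ℂ, Vᴴ *ᵥ r = 0 → Vᴴ *ᵥ (A *ᵥ r) = 0 := by
    intro r hr
    apply dot_self_re_eq_zero
    have e1 : star (Vᴴ *ᵥ (A *ᵥ r)) ⬝ᵥ (Vᴴ *ᵥ (A *ᵥ r)) =
        star (V *ᵥ (Vᴴ *ᵥ (A *ᵥ r))) ⬝ᵥ (A *ᵥ r) := (iso_dot V _ _).symm
    have e2 := hAV (V *ᵥ (Vᴴ *ᵥ (A *ᵥ r))) (by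
      rw [Matrix.mulVec_mulVec (Vᴴ *ᵥ (A *ᵥ r)) Vᴴ V, hV, Matrix.one_mulVec])
    have e3 : star (V *ᵥ (Vᴴ *ᵥ (A *ᵥ r))) ⬝ᵥ (A *ᵥ r) =
        starRingEnd ℂ (star r ⬝ᵥ (Aᴴ *ᵥ (V *ᵥ (Vᴴ *ᵥ (A *ᵥ r))))) := by
      rw [quad_conjTranspose, Complex.conj_conj]
    rw [e1, e3, ← e2.2, dot_swap, Complex.conj_conj]
    have e4 := iso_dot V (Vᴴ *ᵥ (Aᴴ *ᵥ (V *ᵥ (Vᴴ *ᵥ (A *ᵥ r))))) r
    rw [e4, hr, dotProduct_zero]
    simp
  have hdec : ∀ p i, ∃ (c : ℂ) (r : ι → ℂ), X p i = c • u i + r ∧ Vᴴ *ᵥ r = 0 ∧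
      NN A (w i) *ᵥ r = 0 ∧ (i ≠ i0 → r = 0) := by
    intro p i
    by_cases hi : i = i0
    · subst hi
      obtain ⟨m, hm⟩ : ∃ m, m = Vᴴ *ᵥ (X p i) := ⟨_, rfl⟩
      obtain ⟨r, hr⟩ : ∃ r, r = X p i - V *ᵥ m := ⟨_, rfl⟩
      have hVr : Vᴴ *ᵥ r = 0 := by
        rw [hr, Matrix.mulVec_sub, Matrix.mulVec_mulVec m Vᴴ V, hV, Matrix.one_mulVec, hm,
          sub_self]
      have hVm : V *ᵥ (Vᴴ *ᵥ (V *ᵥ m)) = V *ᵥ m := by
        rw [Matrix.mulVec_mulVec m Vᴴ V, hV, Matrix.one_mulVec]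
      have hX : X p i = V *ᵥ m + r := by rw [hr]; abel
      have c1 : star (V *ᵥ m) ⬝ᵥ r = 0 := by rw [iso_dot, hVr, dotProduct_zero]
      have c2 : star (V *ᵥ m) ⬝ᵥ (A *ᵥ r) = 0 := by
        rw [iso_dot, hredV r hVr, dotProduct_zero]
      have c3 : star r ⬝ᵥ (A *ᵥ (V *ᵥ m)) = 0 := by
        rw [← (hAV _ hVm).1, dot_swap, iso_dot, hVr, dotProduct_zero, map_zero]
      have c4 : star r ⬝ᵥ (V *ᵥ m) = 0 := by rw [dot_swap, c1, map_zero]
      have hsplit : star (X p i) ⬝ᵥ (NN A (w i) *ᵥ (X p i)) =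
          star (V *ᵥ m) ⬝ᵥ (NN A (w i) *ᵥ (V *ᵥ m)) + star r ⬝ᵥ (NN A (w i) *ᵥ r) := by
        rw [NN_quad, NN_quad, NN_quad, hX, ← Complex.ofReal_add]
        congr 1
        rw [star_add, add_dotProduct, add_dotProduct, Matrix.mulVec_add, dotProduct_add,
          dotProduct_add, dotProduct_add, dotProduct_add, c1, c2, c3, c4]
        simp only [add_zero, zero_add, mul_add, Complex.add_re]
        ring
      rw [hker p i, dotProduct_zero] at hsplit
      have g1 := (Complex.le_def.mp ((NN_psd A (w i)).dotProduct_mulVec_nonneg (V *ᵥ m))).1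
      have g2 := (Complex.le_def.mp ((NN_psd A (w i)).dotProduct_mulVec_nonneg r)).1
      have g3 := congrArg Complex.re hsplit
      rw [Complex.add_re] at g3
      simp only [Complex.zero_re] at g1 g2 g3
      have z1 : NN A (w i) *ᵥ (V *ᵥ m) = 0 := by
        rw [← (NN_psd A (w i)).dotProduct_mulVec_zero_iff]
        apply Complex.ext
        · rw [Complex.zero_re]; linarith
        · rw [NN_quad]; simp
      have z2 : NN A (w i) *ᵥ r = 0 := by
        rw [← (NN_psd A (w i)).dotProduct_mulVec_zero_iff]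
        apply Complex.ext
        · rw [Complex.zero_re]; linarith
        · rw [NN_quad]; simp
      obtain ⟨c, hc⟩ := huniq m z1
      exact ⟨c, r, by rw [hX, hc], hVr, z2, fun hne => absurd rfl hne⟩
    · obtain ⟨c, hc⟩ := ((hreg i hi).2.ker _).mp (hker p i)
      exact ⟨c, 0, by rw [hc, add_zero], by simp, by simp, fun _ => rfl⟩
  choose η r hXd hVr hNr hr0 using hdec
  have hur : ∀ p i j, star (u j) ⬝ᵥ r p i = 0 := by
    intro p i j
    rw [← huV j, iso_dot, hVr, dotProduct_zero]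
  have hru : ∀ p i j, star (r p i) ⬝ᵥ u j = 0 := fun p i j => by rw [dot_swap, hur, map_zero]
  have huAr : ∀ p i j, star (u j) ⬝ᵥ (A *ᵥ r p i) = 0 := by
    intro p i j
    rw [← huV j, iso_dot, hredV _ (hVr p i), dotProduct_zero]
  have hrAu : ∀ p i j, star (r p i) ⬝ᵥ (A *ᵥ u j) = 0 := by
    intro p i j
    rw [← (hAV _ (huV j)).1, dot_swap, iso_dot, hVr, dotProduct_zero, map_zero]
  -- inner products of different vectors
  have hrr : ∀ p i j, i ≠ j → star (r p i) ⬝ᵥ r p j = 0 ∧ star (r p i) ⬝ᵥ (A *ᵥ r p j) = 0 := by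
    intro p i j hij
    by_cases hi : i = i0
    · have hj : j ≠ i0 := fun hj => hij (hi.trans hj.symm)
      rw [hr0 p j hj]
      simp
    · rw [hr0 p i hi]
      simp
  have hD1 : ∀ p i j, i ≠ j → star (X p i) ⬝ᵥ X p j =
      starRingEnd ℂ (η p i) * η p j * (star (u i) ⬝ᵥ u j) := by
    intro p i j hij
    rw [hXd p i, hXd p j, star_add, star_smul, add_dotProduct, dotProduct_add, dotProduct_add,
      smul_dotProduct, smul_dotProduct, dotProduct_smul, dotProduct_smul, hur, hru,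
      (hrr p i j hij).1, Complex.star_def]
    simp only [smul_eq_mul]
    ring
  have hD2 : ∀ p i j, i ≠ j → star (X p i) ⬝ᵥ (A *ᵥ X p j) =
      starRingEnd ℂ (η p i) * η p j * (star (u i) ⬝ᵥ (A *ᵥ u j)) := by
    intro p i j hij
    rw [hXd p i, hXd p j, star_add, star_smul, Matrix.mulVec_add, Matrix.mulVec_smul,
      add_dotProduct, dotProduct_add, dotProduct_add, smul_dotProduct, smul_dotProduct,
      dotProduct_smul, dotProduct_smul, huAr, hrAu, (hrr p i j hij).2, Complex.star_def]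
    simp only [smul_eq_mul]
    ring
  have hyu : ∀ i, ∃ δ : ℂ, y i = δ • e + u i := by
    intro i
    by_cases hi : i = i0
    · exact ⟨1, by rw [hi, hy0, one_smul]⟩
    · exact ⟨0, by rw [(hreg i hi).1, zero_smul, zero_add]⟩
  have hyy : ∀ i j, i ≠ j → star (y i) ⬝ᵥ y j = star (u i) ⬝ᵥ u j ∧
      star (y i) ⬝ᵥ (A *ᵥ y j) = star (u i) ⬝ᵥ (A *ᵥ u j) := by
    intro i j hij
    by_cases hi : i = i0
    · have hj : j ≠ i0 := fun hj => hij (hi.trans hj.symm)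
      rw [hi, hy0, (hreg j hj).1, star_add, add_dotProduct, add_dotProduct, heu, hAeu, zero_add,
        zero_add]
      exact ⟨rfl, rfl⟩
    · obtain ⟨δ, hδ⟩ := hyu j
      rw [(hreg i hi).1, hδ, dotProduct_add, Matrix.mulVec_add, Matrix.mulVec_smul,
        dotProduct_add, dotProduct_smul, dotProduct_smul, hue, hAue, smul_zero, zero_add,
        zero_add]
      exact ⟨rfl, rfl⟩
  have hoff : ∀ i j, i ≠ j → Γ i j = ∑ p, starRingEnd ℂ (η p i) * η p j := by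
    have hS : ∀ i j, i ≠ j → star (u i) ⬝ᵥ (A *ᵥ u j) ≠ 0 →
        Γ i j = ∑ p, starRingEnd ℂ (η p i) * η p j := by
      intro i j hij h0
      have h1 := hX2 i j
      rw [(hyy i j hij).2] at h1
      simp only [fun p => hD2 p i j hij] at h1
      rw [← sum_mul] at h1
      exact (mul_right_cancel₀ h0 h1).symm
    intro i j hij
    rcases hcpl i j hij with h0 | h0 | h0
    · have h1 := hX1 i j
      rw [(hyy i j hij).1] at h1
      simp only [fun p => hD1 p i j hij] at h1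
      rw [← sum_mul] at h1
      exact (mul_right_cancel₀ h0 h1).symm
    · exact hS i j hij h0
    · rw [← hΓh, hS j i (Ne.symm hij) h0, map_sum]
      apply sum_congr rfl
      intro p _
      rw [map_mul, Complex.conj_conj, mul_comm]
  refine psd_of_gram Γ η hΓ1 ?_ hoff
  -- the diagonal
  intro i
  have hnsq : ∀ p, starRingEnd ℂ (η p i) * η p i = ((‖η p i‖ ^ 2 : ℝ) : ℂ) := by
    intro p
    rw [mul_comm, Complex.mul_conj, Complex.normSq_eq_norm_sq]
  by_cases hi : i = i0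
  · subst hi
    have f1 := hX1 i i
    have f2 := hX2 i i
    rw [hΓ1, one_mul] at f1 f2
    obtain ⟨D, hD⟩ : ∃ D : (ι → ℂ) → ℂ, D = fun r => star r ⬝ᵥ (A *ᵥ r) - a * (star r ⬝ᵥ r) :=
      ⟨_, rfl⟩
    have e1 : ∑ p, D (X p i) = D (u i) := by
      have e2 : ∑ p, D (X p i) = star (y i) ⬝ᵥ (A *ᵥ y i) - a * (star (y i) ⬝ᵥ y i) := by
        rw [hD]
        simp only
        rw [sum_sub_distrib, ← mul_sum, f1, f2]
      rw [e2, hD, hy0]
      simp only
      rw [star_add, add_dotProduct, add_dotProduct, Matrix.mulVec_add, dotProduct_add,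
        dotProduct_add, dotProduct_add, dotProduct_add, heu, hue, hAeu, hAue, h,
        dotProduct_smul, smul_eq_mul]
      ring
    have e3 : ∀ p, D (X p i) = ((‖η p i‖ ^ 2 : ℝ) : ℂ) * D (u i) + D (r p i) := by
      intro p
      have q1 : star (X p i) ⬝ᵥ (A *ᵥ X p i) =
          ((‖η p i‖ ^ 2 : ℝ) : ℂ) * (star (u i) ⬝ᵥ (A *ᵥ u i)) +
            star (r p i) ⬝ᵥ (A *ᵥ r p i) := by
        rw [← hnsq]
        conv_lhs => rw [hXd p i]
        rw [star_add, star_smul, Matrix.mulVec_add, Matrix.mulVec_smul,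
          add_dotProduct, dotProduct_add, dotProduct_add, smul_dotProduct, smul_dotProduct,
          dotProduct_smul, dotProduct_smul, huAr, hrAu, Complex.star_def]
        simp only [smul_eq_mul]
        ring
      have q2 : star (X p i) ⬝ᵥ X p i =
          ((‖η p i‖ ^ 2 : ℝ) : ℂ) * (star (u i) ⬝ᵥ u i) + star (r p i) ⬝ᵥ r p i := by
        rw [← hnsq]
        conv_lhs => rw [hXd p i]
        rw [star_add, star_smul,
          add_dotProduct, dotProduct_add, dotProduct_add, smul_dotProduct, smul_dotProduct,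
          dotProduct_smul, dotProduct_smul, hur, hru, Complex.star_def]
        simp only [smul_eq_mul]
        ring
      rw [hD]
      simp only
      rw [q1, q2]
      ring
    have e4 : (∑ p, ‖η p i‖ ^ 2) * (t * (w i * D (u i)).im) + ∑ p, t * (w i * D (r p i)).im =
        t * (w i * D (u i)).im := by
      have e5 := congrArg (fun z => t * (w i * z).im) e1
      simp only [e3] at e5
      have e6 : t * (w i * ∑ x, (((‖η x i‖ ^ 2 : ℝ) : ℂ) * D (u i) + D (r x i))).im =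
          (∑ p, ‖η p i‖ ^ 2) * (t * (w i * D (u i)).im) + ∑ p, t * (w i * D (r p i)).im := by
        rw [mul_sum, Complex.im_sum, mul_sum, sum_mul, ← sum_add_distrib]
        apply sum_congr rfl
        intro p _
        rw [mul_add, Complex.add_im, mul_left_comm, Complex.im_ofReal_mul]
        ring
      rw [← e6]
      exact e5
    have e6 : 0 ≤ ∑ p, t * (w i * D (r p i)).im := by
      apply sum_nonneg
      intro p _
      rw [hD]
      exact hpos _ (hNr p i)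
    have e7 : 0 < t * (w i * D (u i)).im := by
      rw [hD]
      exact hposu
    by_contra hlt
    push Not at hlt
    have := mul_lt_mul_of_pos_right hlt e7
    linarith
  · have f1 := hX1 i i
    rw [hΓ1, one_mul, (hreg i hi).1] at f1
    have e1 : ∀ p, star (X p i) ⬝ᵥ X p i = ((‖η p i‖ ^ 2 : ℝ) : ℂ) * (star (u i) ⬝ᵥ u i) := by
      intro p
      rw [← hnsq]
      conv_lhs => rw [hXd p i, hr0 p i hi, add_zero]
      rw [star_smul, smul_dotProduct, dotProduct_smul, Complex.star_def]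
      simp only [smul_eq_mul]
      ring
    simp only [e1] at f1
    rw [← sum_mul] at f1
    have hun : star (u i) ⬝ᵥ u i ≠ 0 := self_ne (hreg i hi).2.1
    have f3 : (∑ p, ((‖η p i‖ ^ 2 : ℝ) : ℂ)) = 1 := mul_right_cancel₀ hun (by rw [f1, one_mul])
    rw [← Complex.ofReal_sum] at f3
    exact le_of_eq (by exact_mod_cast f3)

end Pool.Agent.Helper29X1.ND
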