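import Mathlib
import Pool.Agent.Helper29X1.ND.Wide1
import Pool.Agent.Helper84.NR.Irr
import Pool.Agent.Helper84.NR.Open
open Matrix Finset Filter Topology
open scoped ComplexOrder

namespace Pool.Agent.Helper29X1.ND

open Pool.Agent.Helper774

theorem reg_nonjoint {ι : Type*} [Fintype ι] [DecidableEq ι] [Nonempty ι] {A : Matrix ι ι ℂ}
    {x : ι → ℂ} (hx : x ∈ RegSet A) : ¬ ∃ a a' : ℂ, A *ᵥ x = a • x ∧ Aᴴ *ᵥ x = a' • x := by
  intro hj
  obtain ⟨w, hw, hs, hr⟩ := id hx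
  have h1 := csep (A := A) (e := x) ⟨w, hw, hs, hj⟩ hx
  exact self_ne hs.1 h1

/-- vectors orthogonal to all regular vectors -/
def regPerp {ι : Type*} [Fintype ι] [DecidableEq ι] (A : Matrix ι ι ℂ) : Set (ι → ℂ) :=
  {x | ∀ r ∈ RegSet A, star r ⬝ᵥ x = 0}

theorem regPerp_closed {ι : Type*} [Fintype ι] [DecidableEq ι] (A : Matrix ι ι ℂ) :
    IsClosed (regPerp A) := by
  have : regPerp A = ⋂ r ∈ RegSet A, {x | star r ⬝ᵥ x = 0} := by
    ext x
    simp [regPerp]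
  rw [this]
  exact isClosed_biInter fun r _ => closed_perp r

theorem cset_perp {ι : Type*} [Fintype ι] [DecidableEq ι] [Nonempty ι] {A : Matrix ι ι ℂ}
    {e : ι → ℂ} (he : e ∈ CSet A) : e ∈ regPerp A := by
  intro r hr
  rw [dot_swap, csep he hr, map_zero]

theorem reg_inf {ι : Type*} [Fintype ι] [DecidableEq ι] [Nonempty ι] (A : Matrix ι ι ℂ)
    (hgen : ∀ w0 : ℂ, ‖w0‖ = 1 → ∀ ε : ℝ, 0 < ε →
      ∃ w : ℂ, ‖w‖ = 1 ∧ ‖w - w0‖ < ε ∧ ∃ x, STop A w x) (hne : (RegSet A).Nonempty) :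
    {u : ℂ | ‖u‖ = 1 ∧ ∃ x ∈ RegSet A, STop A u x}.Infinite := by
  intro hfin
  obtain ⟨r0, hr0⟩ := hne
  obtain ⟨w0, hw0, hs0, hreg0⟩ := id hr0
  have hcl := dir_closed A (regPerp A) (regPerp_closed A)
  have hnot : w0 ∉ {z : ℂ | ‖z‖ = 1 ∧ ∃ x ∈ regPerp A, star x ⬝ᵥ x = 1 ∧ NN A z *ᵥ x = 0} := by
    rintro ⟨_, x, hx, hx1, hx0⟩
    obtain ⟨c, rfl⟩ := (hs0.ker x).mp hx0
    have h1 := hx r0 hr0
    rw [dotProduct_smul, smul_eq_mul] at h1
    rcases mul_eq_zero.mp h1 with h2 | h2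
    · rw [h2, zero_smul] at hx1
      simp at hx1
    · exact self_ne hs0.1 h2
  obtain ⟨ε, hε, hball⟩ := Metric.isOpen_iff.mp hcl.isOpen_compl w0 hnot
  have hw00 : w0 ≠ 0 := by
    rintro rfl
    simp at hw0
  have htend : Tendsto (fun m => w0 * Pool.Agent.Helper84.NR.cseq m) atTop (𝓝 w0) := by
    have := (Pool.Agent.Helper84.NR.cseq_tendsto).const_mul w0
    rwa [mul_one] at this
  have hinj : Function.Injective (fun m => w0 * Pool.Agent.Helper84.NR.cseq m) := by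
    intro a b hab
    exact Pool.Agent.Helper84.NR.cseq_inj (mul_left_cancel₀ hw00 hab)
  have hev : ∀ᶠ m in atTop, w0 * Pool.Agent.Helper84.NR.cseq m ∈ Metric.ball w0 ε :=
    htend (Metric.ball_mem_nhds w0 hε)
  have hfin2 : {m : ℕ | w0 * Pool.Agent.Helper84.NR.cseq m ∈
      {u : ℂ | ‖u‖ = 1 ∧ ∃ x ∈ RegSet A, STop A u x}}.Finite :=
    hfin.preimage (hinj.injOn)
  have hev2 : ∀ᶠ m in atTop, w0 * Pool.Agent.Helper84.NR.cseq m ∉
      {u : ℂ | ‖u‖ = 1 ∧ ∃ x ∈ RegSet A, STop A u x} := by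
    have := hfin2.compl_mem_cofinite
    rw [Nat.cofinite_eq_atTop] at this
    exact this
  obtain ⟨m, hm1, hm2⟩ := (hev.and hev2).exists
  obtain ⟨w1, hw1⟩ : ∃ w1, w1 = w0 * Pool.Agent.Helper84.NR.cseq m := ⟨_, rfl⟩
  rw [← hw1] at hm1 hm2
  have hw1n : ‖w1‖ = 1 := by
    rw [hw1, norm_mul, hw0, Pool.Agent.Helper84.NR.cseq_norm, one_mul]
  obtain ⟨δ1, hδ1, hb1⟩ := Metric.isOpen_iff.mp hfin.isClosed.isOpen_compl w1 hm2
  obtain ⟨δ2, hδ2, hb2⟩ := Metric.isOpen_iff.mp Metric.isOpen_ball w1 hm1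
  obtain ⟨w, hw, hwd, x, hx, hx1, hxs⟩ := dense_tset A hgen w1 hw1n (min δ1 δ2)
    (lt_min hδ1 hδ2)
  rcases hx with hx | hx
  · exact hb1 (show w ∈ Metric.ball w1 δ1 by
      rw [Metric.mem_ball, dist_eq_norm]
      exact lt_of_lt_of_le hwd (min_le_left _ _)) ⟨hw, x, hx, hxs⟩
  · have h1 : w ∈ Metric.ball w0 ε := hb2 (by
      rw [Metric.mem_ball, dist_eq_norm]
      exact lt_of_lt_of_le hwd (min_le_right _ _))
    exact hball h1 ⟨hw, x, cset_perp hx, hx1, stop_ker_self hxs⟩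

theorem good_of_reg {ι : Type*} [Fintype ι] [DecidableEq ι] [Nonempty ι] {A : Matrix ι ι ℂ}
    {w : ℂ} {x : ι → ℂ} (hx : x ∈ RegSet A) (hs : STop A w x) :
    ∃ (c : ℝ), 0 < c ∧ Pool.Agent.Helper84.NR.Good A w (supp A w) ((c : ℂ) • x) := by
  obtain ⟨c, hc0, hc⟩ := normalize_vec x hs.1
  have hc0' : (c : ℂ) ≠ 0 := by exact_mod_cast hc0.ne'
  have hx0 : NN A w *ᵥ ((c : ℂ) • x) = 0 := (hs.ker _).mpr ⟨c, rfl⟩
  refine ⟨c, hc0, hc, ?_, ?_, ?_, ?_⟩
  · intro z hz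
    exact le_supp A w z hz
  · rw [NN_ker, hc] at hx0
    simpa using hx0
  · intro y hy hyt
    have h1 : NN A w *ᵥ y = 0 := by
      rw [NN_ker, hy, hyt]
      simp
    obtain ⟨d, hd⟩ := (hs.ker y).mp h1
    refine ⟨d * (c : ℂ)⁻¹, ?_⟩
    rw [smul_smul, mul_assoc, inv_mul_cancel₀ hc0', mul_one, hd]
  · rintro ⟨a, a', h1, h2⟩
    apply reg_nonjoint hx
    refine ⟨a, a', ?_, ?_⟩
    · rw [Matrix.mulVec_smul, smul_comm] at h1
      exact smul_right_injective _ hc0' h1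
    · rw [Matrix.mulVec_smul, smul_comm] at h2
      exact smul_right_injective _ hc0' h2

theorem reg_reducing {ι : Type*} [Fintype ι] [DecidableEq ι] [Nonempty ι] (A : Matrix ι ι ℂ)
    (hA : FinPropD A)
    (hgen : ∀ w0 : ℂ, ‖w0‖ = 1 → ∀ ε : ℝ, 0 < ε →
      ∃ w : ℂ, ‖w‖ = 1 ∧ ‖w - w0‖ < ε ∧ ∃ x, STop A w x) (hne : (RegSet A).Nonempty) :
    ∃ (z0 : ℂ) (g : ι → ℂ), ‖z0‖ = 1 ∧
      (∀ m ∈ Submodule.span ℂ (RegSet A), A *ᵥ m ∈ Submodule.span ℂ (RegSet A) ∧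
        Aᴴ *ᵥ m ∈ Submodule.span ℂ (RegSet A)) ∧
      (∀ x ∈ Submodule.span ℂ (RegSet A), (star x ⬝ᵥ (NN A z0 *ᵥ x)).re = ‖star g ⬝ᵥ x‖ ^ 2) := by
  obtain ⟨z0, hz0, g, hg⟩ := span_rank A hA
  refine ⟨z0, g, hz0, ?_, hg⟩
  have hz00 : z0 ≠ 0 := by
    rintro rfl
    simp at hz0
  obtain ⟨T₁, hT₁⟩ : ∃ T₁ : Set (ι → ℂ),
    T₁ = {x | ∃ u : ℂ, ‖u‖ = 1 ∧ (u / z0).im ≠ 0 ∧ STop A u x ∧ x ∈ RegSet A} := ⟨_, rfl⟩
  have hT₁R : T₁ ⊆ RegSet A := by
    rw [hT₁]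
    rintro x ⟨_, _, _, _, hx⟩
    exact hx
  obtain ⟨k, V, hV, hVM, hVx⟩ := exists_iso (Submodule.span ℂ T₁)
  obtain ⟨U₁, hU₁⟩ : ∃ U₁ : Set ℂ,
    U₁ = {u | ‖u‖ = 1 ∧ (u / z0).im ≠ 0 ∧ ∃ x ∈ RegSet A, STop A u x} := ⟨_, rfl⟩
  have him : ∀ u : ℂ, ‖u‖ = 1 → (u / z0).im = 0 → u = z0 ∨ u = -z0 := by
    intro u hu h0
    have h3 : u = (u / z0) * z0 := by field_simp
    have h4 : u / z0 = (((u / z0).re : ℝ) : ℂ) := by
      apply Complex.ext
      · simp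
      · simpa using h0
    have h5 : |(u / z0).re| = 1 := by
      rw [← Real.norm_eq_abs, ← Complex.norm_real, ← h4, norm_div, hu, hz0, div_one]
    rcases (abs_eq zero_le_one).mp h5 with h6 | h6
    · left
      rw [h3, h4, h6]
      simp
    · right
      rw [h3, h4, h6]
      simp
  have hU₁inf : U₁.Infinite := by
    apply ((reg_inf A hgen hne).diff (Set.toFinite {z0, -z0})).mono
    rintro u ⟨⟨hu, x, hx, hs⟩, hnot⟩
    rw [hU₁]
    refine ⟨hu, ?_, x, hx, hs⟩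
    intro h0
    exact hnot (him u hu h0)
  have hgoodU : ∀ u ∈ U₁, ‖u‖ = 1 ∧ (u / z0).im ≠ 0 ∧
      ∃ (t : ℝ) (c : Fin k → ℂ), Pool.Agent.Helper84.NR.Good A u t (V *ᵥ c) := by
    intro u hu
    rw [hU₁] at hu
    obtain ⟨hu1, hu2, x, hx, hs⟩ := hu
    obtain ⟨c, hc0, hgd⟩ := good_of_reg hx hs
    refine ⟨hu1, hu2, supp A u, Vᴴ *ᵥ ((c : ℂ) • x), ?_⟩
    rw [hVx _ (Submodule.smul_mem _ _ (Submodule.subset_span (by
      rw [hT₁]; exact ⟨u, hu1, hu2, hs, hx⟩)))]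
    exact hgd
  have hspan : ∀ N : Submodule ℂ (Fin k → ℂ),
      (∀ u ∈ U₁, ∀ (t : ℝ) (c : Fin k → ℂ),
        Pool.Agent.Helper84.NR.Good A u t (V *ᵥ c) → c ∈ N) → N = ⊤ := by
    intro N hN
    rw [eq_top_iff]
    intro c _
    have h1 : Submodule.span ℂ T₁ ≤ N.map V.mulVecLin := by
      rw [Submodule.span_le]
      intro x hx
      have hxT := hx
      rw [hT₁] at hx
      obtain ⟨u, hu1, hu2, hs, hxR⟩ := hx
      obtain ⟨s, hs0, hgd⟩ := good_of_reg hxR hs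
      have hs0' : (s : ℂ) ≠ 0 := by exact_mod_cast hs0.ne'
      have h2 : Vᴴ *ᵥ ((s : ℂ) • x) ∈ N := by
        apply hN u (by rw [hU₁]; exact ⟨hu1, hu2, x, hxR, hs⟩) (supp A u)
        rw [hVx _ (Submodule.smul_mem _ _ (Submodule.subset_span hxT))]
        exact hgd
      rw [Matrix.mulVec_smul] at h2
      have h3 : Vᴴ *ᵥ x ∈ N := by
        have := N.smul_mem ((s : ℂ)⁻¹) h2
        rwa [smul_smul, inv_mul_cancel₀ hs0', one_smul] at this
      exact ⟨Vᴴ *ᵥ x, h3, by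
        rw [Matrix.mulVecLin_apply, hVx x (Submodule.subset_span hxT)]⟩
    obtain ⟨c', hc', hcc⟩ := h1 (hVM c)
    rw [Matrix.mulVecLin_apply] at hcc
    have h3 : c' = c := by
      have h4 := congrArg (fun z => Vᴴ *ᵥ z) hcc
      simp only [Matrix.mulVec_mulVec, hV, Matrix.one_mulVec] at h4
      exact h4
    rw [← h3]
    exact hc'
  have hadm : Pool.Agent.Helper84.NR.Adm A (supp A z0) z0 := fun z hz => le_supp A z0 z hz
  obtain ⟨g₁, hg₁⟩ : ∃ g₁, g₁ = Vᴴ *ᵥ g := ⟨_, rfl⟩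
  have hVR : ∀ y, V *ᵥ y ∈ Submodule.span ℂ (RegSet A) := fun y =>
    Submodule.span_mono hT₁R (hVM y)
  have hΓ : Vᴴ * Pool.Agent.Helper84.NR.sm A (supp A z0) z0 * V = vecMulVec g₁ (star g₁) := by
    have h0 : Vᴴ * NN A z0 * V - vecMulVec g₁ (star g₁) = 0 := by
      apply eq_zero_of_quad
      intro y
      have h4 : star y ⬝ᵥ (vecMulVec g₁ (star g₁) *ᵥ y) = ((‖star g₁ ⬝ᵥ y‖ ^ 2 : ℝ) : ℂ) := by
        rw [Matrix.vecMulVec_mulVec, op_smul_eq_smul, dotProduct_smul, smul_eq_mul,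
          dot_swap y g₁, Complex.mul_conj, Complex.normSq_eq_norm_sq]
      have h5 := hg (V *ᵥ y) (hVR y)
      have h6 : star (V *ᵥ y) ⬝ᵥ (NN A z0 *ᵥ (V *ᵥ y)) =
          (((star (V *ᵥ y) ⬝ᵥ (NN A z0 *ᵥ (V *ᵥ y))).re : ℝ) : ℂ) := by
        rw [NN_quad, Complex.ofReal_re]
      rw [Matrix.sub_mulVec, dotProduct_sub, h4, quad_iso, h6, h5, iso_dot' V y g, ← hg₁,
        sub_self]
    exact sub_eq_zero.mp h0
  have hg₁0 : g₁ ≠ 0 := by
    intro h0
    obtain ⟨u, hu⟩ := hU₁inf.nonempty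
    rw [hU₁] at hu
    obtain ⟨hu1, hu2, x, hx, hs⟩ := hu
    have hxT : x ∈ Submodule.span ℂ T₁ := Submodule.subset_span (by
      rw [hT₁]; exact ⟨u, hu1, hu2, hs, hx⟩)
    have h1 : (star x ⬝ᵥ (NN A z0 *ᵥ x)).re = 0 := by
      rw [hg x (Submodule.subset_span hx)]
      have h2 : star g ⬝ᵥ x = star g₁ ⬝ᵥ (Vᴴ *ᵥ x) := by
        conv_lhs => rw [← hVx x hxT]
        rw [iso_dot' V _ g, ← hg₁]
      rw [h2, h0]
      simp
    have h2 : NN A z0 *ᵥ x = 0 := by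
      rw [← (NN_psd A z0).dotProduct_mulVec_zero_iff, NN_quad]
      rw [NN_quad, Complex.ofReal_re] at h1
      rw [h1, Complex.ofReal_zero]
    have hne' : u ≠ z0 := by
      rintro rfl
      apply hu2
      rw [div_self hz00]
      simp
    exact reg_nonjoint hx (joint_of_stop A x u z0 hu1 hz0 hne' hs h2)
  have hperp := Pool.Agent.Helper84.NR.reducing_alg hadm hz00 V hV g₁ hg₁0 hΓ U₁ hU₁inf hgoodU
    hspan
  have hred : ∀ C : Matrix ι ι ℂ, (∀ y : ι → ℂ, Vᴴ *ᵥ y = 0 → ∀ c, star y ⬝ᵥ (C *ᵥ (V *ᵥ c)) = 0) →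
      ∀ m ∈ Submodule.span ℂ T₁, C *ᵥ m ∈ Submodule.span ℂ T₁ := by
    intro C hC m hm
    obtain ⟨z, hz⟩ : ∃ z, z = C *ᵥ m := ⟨_, rfl⟩
    obtain ⟨y, hy⟩ : ∃ y, y = z - V *ᵥ (Vᴴ *ᵥ z) := ⟨_, rfl⟩
    have h1 : Vᴴ *ᵥ y = 0 := by
      rw [hy, Matrix.mulVec_sub, Matrix.mulVec_mulVec (Vᴴ *ᵥ z), hV, Matrix.one_mulVec, sub_self]
    have h2 : star y ⬝ᵥ z = 0 := by
      have := hC y h1 (Vᴴ *ᵥ m)
      rw [hVx m hm] at this
      rw [hz]
      exact this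
    have h3 : star y ⬝ᵥ (V *ᵥ (Vᴴ *ᵥ z)) = 0 := by
      rw [iso_dot' V, h1, star_zero, zero_dotProduct]
    have h4 : star y ⬝ᵥ y = 0 := by
      have : star y ⬝ᵥ y = star y ⬝ᵥ (z - V *ᵥ (Vᴴ *ᵥ z)) := by rw [← hy]
      rw [this, dotProduct_sub, h2, h3, sub_self]
    have h5 : y = 0 := dot_self_re_eq_zero (by rw [h4, Complex.zero_re])
    rw [h5] at hy
    have h6 : z = V *ᵥ (Vᴴ *ᵥ z) := (sub_eq_zero.mp hy.symm)
    rw [← hz, h6]
    exact hVM _
  -- all regular vectors are in the span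
  have hall : RegSet A ⊆ (Submodule.span ℂ T₁ : Set (ι → ℂ)) := by
    intro x hx
    obtain ⟨w0, hw0, hs0, hr0⟩ := id hx
    by_cases h0 : (w0 / z0).im = 0
    · have hcl := dir_closed A ((Submodule.span ℂ T₁ : Set (ι → ℂ)) ∪ regPerp A)
        ((Submodule.closed_of_finiteDimensional _).union (regPerp_closed A))
      have hmem : w0 ∈ {z : ℂ | ‖z‖ = 1 ∧ ∃ x ∈ (Submodule.span ℂ T₁ : Set (ι → ℂ)) ∪ regPerp A,
          star x ⬝ᵥ x = 1 ∧ NN A z *ᵥ x = 0} := by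
        rw [← hcl.closure_eq, Metric.mem_closure_iff]
        intro ε hε
        obtain ⟨s, c, hs, hcs, hz⟩ := near_unit w0 hw0 (min (ε / 2) 1)
          (lt_min (by positivity) one_pos)
        obtain ⟨g1, g2⟩ := hz s (Or.inl rfl)
        obtain ⟨w1, hw1⟩ : ∃ w1, w1 = w0 * (⟨c, s⟩ : ℂ) := ⟨_, rfl⟩
        rw [← hw1] at g1 g2
        have hw1im : (w1 / z0).im ≠ 0 := by
          intro h1
          have hw00 : w0 ≠ 0 := by
            rintro rfl
            simp at hw0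
          rcases him w0 hw0 h0 with k0 | k0 <;> rcases him w1 g1 h1 with k1 | k1
          · have : w0 * (⟨c, s⟩ : ℂ) = w0 * 1 := by rw [← hw1, mul_one, k1, k0]
            have h2 := congrArg Complex.im (mul_left_cancel₀ hw00 this)
            simp at h2
            linarith
          · have h2 : ‖w1 - w0‖ = 2 := by
              rw [k1, k0, show -z0 - z0 = -(2 * z0) by ring, norm_neg, norm_mul, hz0]
              norm_num
            have := lt_of_lt_of_le g2 (min_le_right _ _)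
            linarith
          · have h2 : ‖w1 - w0‖ = 2 := by
              rw [k1, k0, show z0 - -z0 = (2 * z0) by ring, norm_mul, hz0]
              norm_num
            have := lt_of_lt_of_le g2 (min_le_right _ _)
            linarith
          · have : w0 * (⟨c, s⟩ : ℂ) = w0 * 1 := by rw [← hw1, mul_one, k1, k0]
            have h2 := congrArg Complex.im (mul_left_cancel₀ hw00 this)
            simp at h2
            linarith
        have hopen : IsOpen {y : ℂ | (y / z0).im ≠ 0} := by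
          have hc2 : IsClosed {y : ℂ | (y / z0).im = 0} :=
            isClosed_eq (Complex.continuous_im.comp (continuous_id.div_const z0))
              continuous_const
          exact hc2.isOpen_compl
        obtain ⟨δ, hδ, hball⟩ := Metric.isOpen_iff.mp hopen w1 hw1im
        obtain ⟨w2, hw2, hw2d, x2, hx2, hx21, hx2s⟩ := dense_tset A hgen w1 g1 (min δ (ε / 2))
          (lt_min hδ (by positivity))
        have him2 : (w2 / z0).im ≠ 0 := hball (by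
          rw [Metric.mem_ball, dist_eq_norm]
          exact lt_of_lt_of_le hw2d (min_le_left _ _))
        refine ⟨w2, ⟨hw2, x2, ?_, hx21, stop_ker_self hx2s⟩, ?_⟩
        · rcases hx2 with h | h
          · left
            apply Submodule.subset_span
            rw [hT₁]
            exact ⟨w2, hw2, him2, hx2s, h⟩
          · right
            exact cset_perp h
        · rw [dist_comm, dist_eq_norm]
          have e1 : w2 - w0 = (w2 - w1) + (w1 - w0) := by ring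
          rw [e1]
          refine (norm_add_le _ _).trans_lt ?_
          have h2 := lt_of_lt_of_le hw2d (min_le_right _ _)
          have h3 := lt_of_lt_of_le g2 (min_le_left _ _)
          linarith
      obtain ⟨_, y, hy, hy1, hy0⟩ := hmem
      obtain ⟨c, hc⟩ := (hs0.ker y).mp hy0
      have hc0 : c ≠ 0 := by
        rintro rfl
        rw [hc, zero_smul] at hy1
        simp at hy1
      rcases hy with hy | hy
      · have hxy : x = c⁻¹ • y := by rw [hc, smul_smul, inv_mul_cancel₀ hc0, one_smul]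
        rw [hxy]
        exact Submodule.smul_mem _ _ hy
      · exfalso
        have h1 := hy x hx
        rw [hc, dotProduct_smul, smul_eq_mul] at h1
        rcases mul_eq_zero.mp h1 with h2 | h2
        · exact hc0 h2
        · exact self_ne hs0.1 h2
    · apply Submodule.subset_span
      rw [hT₁]
      exact ⟨w0, hw0, h0, hs0, hx⟩
  have hspaneq : Submodule.span ℂ (RegSet A) = Submodule.span ℂ T₁ :=
    le_antisymm (Submodule.span_le.mpr hall) (Submodule.span_mono hT₁R)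
  rw [hspaneq]
  intro m hm
  exact ⟨hred A (fun y hy c => (hperp y hy c).1) m hm,
    hred Aᴴ (fun y hy c => (hperp y hy c).2) m hm⟩

end Pool.Agent.Helper29X1.ND
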