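import Mathlib
import Pool.Agent.Helper29X1.ND.Wide2
open Matrix Finset Filter Topology
open scoped ComplexOrder

namespace Pool.Agent.Helper29X1.ND

open Pool.Agent.Helper774

theorem joint_of_two' {ι : Type*} [Fintype ι] [DecidableEq ι] [Nonempty ι] (A : Matrix ι ι ℂ)
    (c0 : ℂ) (hc0 : ∀ z : ℂ, ‖z‖ = 1 → (z * c0).re < supp A z) (x : ι → ℂ) (hx : x ≠ 0)
    (w w' : ℂ) (hw : ‖w‖ = 1) (hw' : ‖w'‖ = 1) (hne : w ≠ w')
    (h1 : NN A w *ᵥ x = 0) (h2 : NN A w' *ᵥ x = 0) :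
    ∃ a a' : ℂ, A *ᵥ x = a • x ∧ Aᴴ *ᵥ x = a' • x := by
  by_cases hneg : w' = -w
  · exfalso
    subst hneg
    rw [NN_ker] at h1 h2
    have h3 := hc0 w hw
    have h4 := hc0 (-w) hw'
    have h5 := self_pos hx
    rw [neg_mul, Complex.neg_re] at h2 h4
    have h6 : (supp A w + supp A (-w)) * (star x ⬝ᵥ x).re = 0 := by
      rw [add_mul, ← h1, ← h2]
      ring
    rcases mul_eq_zero.mp h6 with h7 | h7 <;> linarith
  · exact joint_of_two A x w w' hw hw' hne hneg h1 h2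

theorem no_joint_span {ι : Type*} [Fintype ι] [DecidableEq ι] [Nonempty ι] {A : Matrix ι ι ℂ}
    {x : ι → ℂ} (hx : x ∈ Submodule.span ℂ (RegSet A))
    (hj : ∃ a a' : ℂ, A *ᵥ x = a • x ∧ Aᴴ *ᵥ x = a' • x) : x = 0 := by
  by_contra hx0
  obtain ⟨a, a', h, h'⟩ := hj
  have h1 : ∀ r ∈ RegSet A, star x ⬝ᵥ r = 0 := by
    intro r hr
    obtain ⟨w, hw, hs, hreg⟩ := id hr
    by_cases hz : (w * a).re = supp A w
    · exfalso
      have h2 : NN A w *ᵥ x = 0 := by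
        rw [joint_NN hx0 h h', hz, sub_self, Complex.ofReal_zero, zero_smul]
      obtain ⟨c, hc⟩ := (hs.ker x).mp h2
      have hc0 : c ≠ 0 := by
        rintro rfl
        rw [zero_smul] at hc
        exact hx0 hc
      apply reg_nonjoint hr
      refine ⟨a, a', ?_, ?_⟩
      · rw [hc, Matrix.mulVec_smul, smul_comm] at h
        exact smul_right_injective _ hc0 h
      · rw [hc, Matrix.mulVec_smul, smul_comm] at h'
        exact smul_right_injective _ hc0 h'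
    · exact joint_perp hx0 h h' w hz r (stop_ker_self hs)
  exact self_ne hx0 (span_perp x _ h1 x hx)

theorem corner_face {ι : Type*} [Fintype ι] [DecidableEq ι] [Nonempty ι] (A : Matrix ι ι ℂ)
    (hgen : ∀ w0 : ℂ, ‖w0‖ = 1 → ∀ ε : ℝ, 0 < ε →
      ∃ w : ℂ, ‖w‖ = 1 ∧ ‖w - w0‖ < ε ∧ ∃ x, STop A w x) (hne : (RegSet A).Nonempty)
    {e : ι → ℂ} (he : e ∈ CSet A) :
    ∃ v : ℂ, ‖v‖ = 1 ∧ NN A v *ᵥ e = 0 ∧ ∃ f : ι → ℂ, NN A v *ᵥ f = 0 ∧
      star f ⬝ᵥ f = 1 ∧ star e ⬝ᵥ f = 0 := by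
  obtain ⟨we, hwe, hse, a, a', h, h'⟩ := id he
  obtain ⟨c, hc0, hc⟩ := normalize_vec e hse.1
  have hc0' : (c : ℂ) ≠ 0 := by exact_mod_cast hc0.ne'
  obtain ⟨r, hr⟩ := hne
  obtain ⟨wr, hwr, hsr, hrr⟩ := id hr
  obtain ⟨d, hd0, hd⟩ := normalize_vec r hsr.1
  have hS := dir_closed A {x | ∃ t : ℂ, x = t • e} (by
    have : {x : ι → ℂ | ∃ t : ℂ, x = t • e} = (Submodule.span ℂ {e} : Set (ι → ℂ)) := by
      ext x
      simp only [Set.mem_setOf_eq, SetLike.mem_coe, Submodule.mem_span_singleton]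
      exact ⟨fun ⟨t, ht⟩ => ⟨t, ht.symm⟩, fun ⟨t, ht⟩ => ⟨t, ht.symm⟩⟩
    rw [this]
    exact Submodule.closed_of_finiteDimensional _)
  have hT := dir_closed A {x | star e ⬝ᵥ x = 0} (closed_perp e)
  have hcov : Metric.sphere (0 : ℂ) 1 ⊆
      {z : ℂ | ‖z‖ = 1 ∧ ∃ x ∈ {x | ∃ t : ℂ, x = t • e}, star x ⬝ᵥ x = 1 ∧ NN A z *ᵥ x = 0} ∪
      {z : ℂ | ‖z‖ = 1 ∧ ∃ x ∈ {x | star e ⬝ᵥ x = 0}, star x ⬝ᵥ x = 1 ∧ NN A z *ᵥ x = 0} := by
    intro z hz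
    rw [mem_sphere_zero_iff_norm] at hz
    rw [← (hS.union hT).closure_eq, Metric.mem_closure_iff]
    intro ε hε
    obtain ⟨w, hw, hwd, x, hx, hx1, hxs⟩ := dense_tset A hgen z hz ε hε
    refine ⟨w, ?_, by rw [dist_comm, dist_eq_norm]; exact hwd⟩
    rcases hx with hx | hx
    · right
      exact ⟨hw, x, csep he hx, hx1, stop_ker_self hxs⟩
    · rcases cset_dich he hx with h1 | h1
      · right
        exact ⟨hw, x, h1, hx1, stop_ker_self hxs⟩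
      · left
        exact ⟨hw, x, h1, hx1, stop_ker_self hxs⟩
  have hpre : IsPreconnected (Metric.sphere (0 : ℂ) 1) := by
    apply isPreconnected_sphere
    rw [Complex.rank_real_complex]
    norm_num
  rw [isPreconnected_closed_iff] at hpre
  obtain ⟨v, hv, ⟨_, x, ⟨t, ht⟩, hx1, hx0⟩, ⟨_, f, hf, hf1, hf0⟩⟩ := hpre _ _ hS hT hcov
    ⟨we, by rw [mem_sphere_zero_iff_norm]; exact hwe, hwe, (c : ℂ) • e, ⟨c, rfl⟩, hc,
      (hse.ker _).mpr ⟨c, rfl⟩⟩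
    ⟨wr, by rw [mem_sphere_zero_iff_norm]; exact hwr, hwr, (d : ℂ) • r, by
      rw [Set.mem_setOf_eq, dotProduct_smul, csep he hr, smul_zero], hd,
      (hsr.ker _).mpr ⟨d, rfl⟩⟩
  rw [mem_sphere_zero_iff_norm] at hv
  have ht0 : t ≠ 0 := by
    rintro rfl
    rw [ht, zero_smul] at hx1
    simp at hx1
  refine ⟨v, hv, ?_, f, hf0, hf1, hf⟩
  rw [ht, Matrix.mulVec_smul] at hx0
  exact (smul_eq_zero.mp hx0).resolve_left ht0

end Pool.Agent.Helper29X1.ND
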