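import Mathlib
import Pool.Agent.Helper29X1.ND.Wide3
open Matrix Finset Filter Topology
open scoped ComplexOrder

namespace Pool.Agent.Helper29X1.ND

open Pool.Agent.Helper774

theorem NN_mem {ι : Type*} [Fintype ι] [DecidableEq ι] {A : Matrix ι ι ℂ}
    {M : Submodule ℂ (ι → ℂ)} {m : ι → ℂ} (hm : m ∈ M) (h1 : A *ᵥ m ∈ M) (h2 : Aᴴ *ᵥ m ∈ M)
    (z : ℂ) : NN A z *ᵥ m ∈ M := by
  rw [NN, Matrix.sub_mulVec, Hu, Matrix.smul_mulVec, Matrix.smul_mulVec, Matrix.one_mulVec,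
    Matrix.add_mulVec, Matrix.smul_mulVec, conjTranspose_smul, Matrix.smul_mulVec]
  exact M.sub_mem (M.smul_mem _ hm)
    (M.smul_mem _ (M.add_mem (M.smul_mem _ h1) (M.smul_mem _ h2)))

theorem corner_re {ι : Type*} [Fintype ι] [DecidableEq ι] {A : Matrix ι ι ℂ}
    {e : ι → ℂ} (he : e ≠ 0) {a a' : ℂ} (h : A *ᵥ e = a • e) (h' : Aᴴ *ᵥ e = a' • e) {v : ℂ}
    (hve : NN A v *ᵥ e = 0) : (v * a).re = supp A v := by
  rw [joint_NN he h h'] at hve
  rcases smul_eq_zero.mp hve with h1 | h1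
  · have h2 : supp A v - (v * a).re = 0 := by exact_mod_cast h1
    linarith
  · exact absurd h1 he

theorem face_u {ι : Type*} [Fintype ι] [DecidableEq ι] [Nonempty ι] (A : Matrix ι ι ℂ)
    (hA : FinPropD A) (c0 : ℂ) (hc0 : ∀ z : ℂ, ‖z‖ = 1 → (z * c0).re < supp A z)
    {e : ι → ℂ} (he : e ∈ CSet A) {v : ℂ} (hv : ‖v‖ = 1) (hve : NN A v *ᵥ e = 0)
    {f : ι → ℂ} (hf0 : NN A v *ᵥ f = 0) (hf1 : star f ⬝ᵥ f = 1) (hef : star e ⬝ᵥ f = 0)
    {k : ℕ} (V : Matrix ι (Fin k) ℂ) (hVM : ∀ y, V *ᵥ y ∈ Submodule.span ℂ (RegSet A))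
    (hV : Vᴴ * V = 1)
    (hVx : ∀ x ∈ Submodule.span ℂ (RegSet A), V *ᵥ (Vᴴ *ᵥ x) = x)
    (hred : ∀ m ∈ Submodule.span ℂ (RegSet A), A *ᵥ m ∈ Submodule.span ℂ (RegSet A) ∧
        Aᴴ *ᵥ m ∈ Submodule.span ℂ (RegSet A))
    (x : ι → ℂ) (w : ℂ) (hw : ‖w‖ = 1) (hs : STop A w x) (hr : Reg A w x) :
    ∃ u ∈ Submodule.span ℂ (RegSet A), NN A v *ᵥ u = 0 ∧
      (star x ⬝ᵥ u ≠ 0 ∨ star x ⬝ᵥ (A *ᵥ u) ≠ 0) := by
  obtain ⟨we, hwe, hse, a, a', h, h'⟩ := id he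
  have hxR : x ∈ RegSet A := ⟨w, hw, hs, hr⟩
  have hxM : x ∈ Submodule.span ℂ (RegSet A) := Submodule.subset_span hxR
  have hwv : w ≠ v := by
    rintro rfl
    obtain ⟨c, hc⟩ := (hs.ker e).mp hve
    have h1 := csep he hxR
    have h2 : star e ⬝ᵥ e = 0 := by
      conv_lhs => rw [hc]
      rw [star_smul, smul_dotProduct, dotProduct_smul]
      have h3 : c • (star x ⬝ᵥ x) = 0 ∨ c = 0 := by
        by_cases hc1 : c = 0
        · exact Or.inr hc1
        · left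
          rw [hc, star_smul, smul_dotProduct] at h1
          have h4 : star c ≠ 0 := by simpa using hc1
          rcases smul_eq_zero.mp h1 with h5 | h5
          · exact absurd h5 h4
          · rw [h5, smul_zero]
      rcases h3 with h3 | h3
      · rw [h3, smul_zero]
      · rw [h3, zero_smul, smul_zero]
    exact self_ne hse.1 h2
  have hwa := corner_re hse.1 h h' hve
  have hreg := mixed_reg c0 hc0 he h h' hv hwa f hf0 hf1 hef
  have hef0 : e + f ≠ 0 := by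
    intro h0
    have h1 : star e ⬝ᵥ (e + f) = 0 := by rw [h0, dotProduct_zero]
    rw [dotProduct_add, hef, add_zero] at h1
    exact self_ne hse.1 h1
  obtain ⟨y, x', hy, hx', hcp⟩ := pair_coupled2 A hA w v hw hv hwv x (e + f) hs.1 hef0
    (stop_ker_self hs) (by rw [Matrix.mulVec_add, hve, hf0, add_zero]) hr hreg
  obtain ⟨c, hc⟩ := (hs.ker y).mp hy
  obtain ⟨p, hp⟩ : ∃ p, p = V *ᵥ (Vᴴ *ᵥ x') := ⟨_, rfl⟩
  have hpM : p ∈ Submodule.span ℂ (RegSet A) := by rw [hp]; exact hVM _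
  have hperp : ∀ m ∈ Submodule.span ℂ (RegSet A), star m ⬝ᵥ (x' - p) = 0 := by
    intro m hm
    have h1 : Vᴴ *ᵥ (x' - p) = 0 := by
      rw [hp, Matrix.mulVec_sub, Matrix.mulVec_mulVec (Vᴴ *ᵥ x'), hV, Matrix.one_mulVec, sub_self]
    rw [← hVx m hm, iso_dot, h1, dotProduct_zero]
  have hp0 : NN A v *ᵥ p = 0 := by
    obtain ⟨q, hq⟩ : ∃ q, q = NN A v *ᵥ p := ⟨_, rfl⟩
    have hqM : q ∈ Submodule.span ℂ (RegSet A) := by
      rw [hq]
      exact NN_mem hpM (hred p hpM).1 (hred p hpM).2 v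
    have h1 : q = -(NN A v *ᵥ (x' - p)) := by
      rw [hq, Matrix.mulVec_sub, hx', zero_sub, neg_neg]
    have h2 : star q ⬝ᵥ (NN A v *ᵥ (x' - p)) = 0 := by
      rw [herm_swap (NN_psd A v).1, dot_swap, Complex.conj_conj]
      rw [hperp _ (NN_mem hqM (hred q hqM).1 (hred q hqM).2 v)]
    have h3 : star q ⬝ᵥ q = 0 := by
      conv_lhs => rw [h1]
      rw [star_neg, neg_dotProduct_neg, ← neg_neg (NN A v *ᵥ (x' - p)), ← h1, star_neg,
        neg_dotProduct_neg]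
      have : star q ⬝ᵥ q = -(star q ⬝ᵥ (NN A v *ᵥ (x' - p))) := by
        rw [← dotProduct_neg, ← h1]
      rw [this, h2, neg_zero]
    rw [← hq]
    exact dot_self_re_eq_zero (by rw [h3, Complex.zero_re])
  refine ⟨p, hpM, hp0, ?_⟩
  have e1 : star x ⬝ᵥ x' = star x ⬝ᵥ p := by
    have := hperp x hxM
    rw [dotProduct_sub, sub_eq_zero] at this
    exact this
  have e2 : star x ⬝ᵥ (A *ᵥ x') = star x ⬝ᵥ (A *ᵥ p) := by
    have h1 := hperp _ (hred x hxM).2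
    have h2 : star x ⬝ᵥ (A *ᵥ (x' - p)) = 0 := by
      have h3 := quad_conjTranspose A (x' - p) x
      rw [dot_swap, h1, map_zero] at h3
      have h4 := congrArg (starRingEnd ℂ) h3
      rw [Complex.conj_conj, map_zero] at h4
      exact h4.symm
    rw [Matrix.mulVec_sub, dotProduct_sub, sub_eq_zero] at h2
    exact h2
  rw [hc, star_smul, smul_dotProduct, smul_dotProduct, e1, e2] at hcp
  rcases hcp with h1 | h1
  · left
    intro h2
    rw [h2, smul_zero] at h1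
    exact h1 rfl
  · right
    intro h2
    rw [h2, smul_zero] at h1
    exact h1 rfl

end Pool.Agent.Helper29X1.ND
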