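import Mathlib
import Pool.Agent.Helper29X1.ND.Wide4
open Matrix Finset Filter Topology
open scoped ComplexOrder

namespace Pool.Agent.Helper29X1.ND

open Pool.Agent.Helper774

theorem NN_of_form {ι : Type*} [Fintype ι] [DecidableEq ι] {A : Matrix ι ι ℂ} {z : ℂ}
    {x : ι → ℂ} (h : (star x ⬝ᵥ (NN A z *ᵥ x)).re = 0) : NN A z *ᵥ x = 0 := by
  rw [← (NN_psd A z).dotProduct_mulVec_zero_iff]
  rw [NN_quad, Complex.ofReal_re] at h
  rw [NN_quad, h, Complex.ofReal_zero]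

/-- uniqueness of the face vector -/
theorem face_uniq {ι : Type*} [Fintype ι] [DecidableEq ι] [Nonempty ι] (A : Matrix ι ι ℂ)
    (c0 : ℂ) (hc0 : ∀ z : ℂ, ‖z‖ = 1 → (z * c0).re < supp A z)
    (z0 : ℂ) (g : ι → ℂ) (hz0 : ‖z0‖ = 1)
    (hg : ∀ x ∈ Submodule.span ℂ (RegSet A),
      (star x ⬝ᵥ (NN A z0 *ᵥ x)).re = ‖star g ⬝ᵥ x‖ ^ 2)
    (v : ℂ) (hv : ‖v‖ = 1) (hvz : v ≠ z0) (u : ι → ℂ) (hu : u ∈ Submodule.span ℂ (RegSet A))
    (hu0 : u ≠ 0) (huk : NN A v *ᵥ u = 0) :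
    star g ⬝ᵥ u ≠ 0 ∧ ∀ m ∈ Submodule.span ℂ (RegSet A), NN A v *ᵥ m = 0 → ∃ c : ℂ, m = c • u := by
  have key : ∀ m ∈ Submodule.span ℂ (RegSet A), NN A v *ᵥ m = 0 → star g ⬝ᵥ m = 0 → m = 0 := by
    intro m hm hmk hgm
    by_contra hm0
    have h1 : NN A z0 *ᵥ m = 0 := NN_of_form (by rw [hg m hm, hgm]; simp)
    exact hm0 (no_joint_span hm (joint_of_two' A c0 hc0 m hm0 v z0 hv hz0 hvz hmk h1))
  have hgu : star g ⬝ᵥ u ≠ 0 := fun h => hu0 (key u hu huk h)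
  refine ⟨hgu, fun m hm hmk => ⟨(star g ⬝ᵥ m) / (star g ⬝ᵥ u), ?_⟩⟩
  have h1 := key (m - ((star g ⬝ᵥ m) / (star g ⬝ᵥ u)) • u)
    (Submodule.sub_mem _ hm (Submodule.smul_mem _ _ hu))
    (by rw [Matrix.mulVec_sub, Matrix.mulVec_smul, hmk, huk, smul_zero, sub_zero])
    (by rw [dotProduct_sub, dotProduct_smul, smul_eq_mul, div_mul_cancel₀ _ hgu, sub_self])
  exact sub_eq_zero.mp h1

/-- the sign of the face at a corner -/
theorem face_sign {ι : Type*} [Fintype ι] [DecidableEq ι] [Nonempty ι] (A : Matrix ι ι ℂ)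
    (c0 : ℂ) (hc0 : ∀ z : ℂ, ‖z‖ = 1 → (z * c0).re < supp A z)
    {e : ι → ℂ} {we : ℂ} (hwe : ‖we‖ = 1) (hse : STop A we e) {a a' : ℂ}
    (h : A *ᵥ e = a • e) (h' : Aᴴ *ᵥ e = a' • e)
    {v : ℂ} (hv : ‖v‖ = 1) (hve : NN A v *ᵥ e = 0)
    {f : ι → ℂ} (hf0 : NN A v *ᵥ f = 0) (hf1 : star f ⬝ᵥ f = 1) (hef : star e ⬝ᵥ f = 0) :
    ∃ t : ℝ, t ≠ 0 ∧ ∀ r, NN A v *ᵥ r = 0 →
      0 ≤ t * (v * (star r ⬝ᵥ (A *ᵥ r) - a * (star r ⬝ᵥ r))).im ∧
      ((v * (star r ⬝ᵥ (A *ᵥ r) - a * (star r ⬝ᵥ r))).re = 0) := by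
  have hva := corner_re hse.1 h h' hve
  have hwea := corner_re hse.1 h h' (stop_ker_self hse)
  have hvv := unit_conj hv
  obtain ⟨ρ, hρ⟩ : ∃ ρ, ρ = we * starRingEnd ℂ v := ⟨_, rfl⟩
  have hweq : we = ρ * v := by
    rw [hρ, mul_assoc, mul_comm (starRingEnd ℂ v), hvv, mul_one]
  have hρn : ‖ρ‖ = 1 := by rw [hρ, norm_mul, Complex.norm_conj, hwe, hv, one_mul]
  have hs : ρ.im ≠ 0 := by
    intro h0
    have h1 : ρ = ((ρ.re : ℝ) : ℂ) := by
      apply Complex.ext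
      · simp
      · simpa using h0
    have h2 : |ρ.re| = 1 := by
      rw [← Real.norm_eq_abs, ← Complex.norm_real, ← h1, hρn]
    rcases (abs_eq zero_le_one).mp h2 with h3 | h3
    · have h4 : we = v := by rw [hweq, h1, h3]; simp
      rw [h4] at hse
      obtain ⟨c, hc⟩ := (hse.ker f).mp hf0
      rw [hc, dotProduct_smul, smul_eq_mul] at hef
      rcases mul_eq_zero.mp hef with h5 | h5
      · rw [hc, h5, zero_smul] at hf1
        simp at hf1
      · exact self_ne hse.1 h5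
    · have h4 : we = -v := by rw [hweq, h1, h3]; simp
      have h5 := hc0 v hv
      have h6 := hc0 we hwe
      rw [h4, neg_mul, Complex.neg_re] at h6 hwea
      linarith
  refine ⟨ρ.im, hs, ?_⟩
  intro r hr
  have hre : (v * (star r ⬝ᵥ (A *ᵥ r) - a * (star r ⬝ᵥ r))).re = 0 := by
    rw [NN_ker] at hr
    have h1 : star r ⬝ᵥ r = (((star r ⬝ᵥ r).re : ℝ) : ℂ) := dot_eq_re r
    rw [mul_sub, Complex.sub_re, hr, ← hva, h1, ← mul_assoc, Complex.re_mul_ofReal,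
      Complex.ofReal_re, sub_self]
  refine ⟨?_, hre⟩
  have hle : (we * (star r ⬝ᵥ (A *ᵥ r) - a * (star r ⬝ᵥ r))).re ≤ 0 := by
    have h1 : star r ⬝ᵥ r = (((star r ⬝ᵥ r).re : ℝ) : ℂ) := dot_eq_re r
    have h2 := quad_le_supp A we r
    rw [mul_sub, Complex.sub_re, h1, ← mul_assoc, Complex.re_mul_ofReal, hwea]
    linarith
  rw [hweq, mul_assoc, Complex.mul_re, hre, mul_zero, zero_sub] at hle
  linarith

theorem corner_kill {ι : Type*} [Fintype ι] [DecidableEq ι] [Nonempty ι] (A : Matrix ι ι ℂ)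
    (hA : FinPropD A)
    (hgen : ∀ w0 : ℂ, ‖w0‖ = 1 → ∀ ε : ℝ, 0 < ε →
      ∃ w : ℂ, ‖w‖ = 1 ∧ ‖w - w0‖ < ε ∧ ∃ x, STop A w x) (hne : (RegSet A).Nonempty)
    (hdim : 3 ≤ Module.finrank ℂ (Submodule.span ℂ (RegSet A)))
    (z0 : ℂ) (g : ι → ℂ) (hz0 : ‖z0‖ = 1)
    (hred : ∀ m ∈ Submodule.span ℂ (RegSet A), A *ᵥ m ∈ Submodule.span ℂ (RegSet A) ∧
        Aᴴ *ᵥ m ∈ Submodule.span ℂ (RegSet A))
    (hg : ∀ x ∈ Submodule.span ℂ (RegSet A),
      (star x ⬝ᵥ (NN A z0 *ᵥ x)).re = ‖star g ⬝ᵥ x‖ ^ 2)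
    (e : ι → ℂ) (he : e ∈ CSet A) : NN A z0 *ᵥ e = 0 := by
  obtain ⟨v, hv, hve, f, hf0, hf1, hef⟩ := corner_face A hgen hne he
  by_cases hvz : v = z0
  · rw [← hvz]; exact hve
  obtain ⟨r0, hr0⟩ := id hne
  obtain ⟨c0, hc0⟩ := interior_of_reg hr0
  obtain ⟨we, hwe, hse, a, a', h, h'⟩ := id he
  obtain ⟨n, V, hV, hVM, hVx⟩ := exists_iso (Submodule.span ℂ (RegSet A))
  have hface := face_u A hA c0 hc0 he hv hve hf0 hf1 hef V hVM hV hVx hred
  obtain ⟨w0, hw0, hs0, hg0⟩ := id hr0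
  obtain ⟨u, huM, huk, hcp⟩ := hface r0 w0 hw0 hs0 hg0
  have hu0 : u ≠ 0 := by
    rintro rfl
    simp at hcp
  obtain ⟨hgu, huniq⟩ := face_uniq A c0 hc0 z0 g hz0 hg v hv hvz u huM hu0 huk
  have hcpl : ∀ x ∈ RegSet A, star x ⬝ᵥ u ≠ 0 ∨ star x ⬝ᵥ (A *ᵥ u) ≠ 0 := by
    rintro x ⟨w, hw, hs, hr⟩
    obtain ⟨m, hmM, hmk, hm⟩ := hface x w hw hs hr
    obtain ⟨c, rfl⟩ := huniq m hmM hmk
    rcases hm with hm | hm
    · left
      intro h0
      rw [dotProduct_smul, h0, smul_zero] at hm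
      exact hm rfl
    · right
      intro h0
      rw [Matrix.mulVec_smul, dotProduct_smul, h0, smul_zero] at hm
      exact hm rfl
  obtain ⟨t, ht0, ht⟩ := face_sign A c0 hc0 hwe hse h h' hv hve hf0 hf1 hef
  have heM : ∀ m ∈ Submodule.span ℂ (RegSet A), star e ⬝ᵥ m = 0 := fun m hm =>
    span_perp e _ (fun r hr => csep he hr) m hm
  have hposu : 0 < t * (v * (star u ⬝ᵥ (A *ᵥ u) - a * (star u ⬝ᵥ u))).im := by
    obtain ⟨h1, h2⟩ := ht u huk
    refine lt_of_le_of_ne h1 (Ne.symm ?_)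
    intro h3
    have h4 : (v * (star u ⬝ᵥ (A *ᵥ u) - a * (star u ⬝ᵥ u))).im = 0 :=
      (mul_eq_zero.mp h3).resolve_left ht0
    have h5 : v * (star u ⬝ᵥ (A *ᵥ u) - a * (star u ⬝ᵥ u)) = 0 := Complex.ext h2 h4
    have hv0 : v ≠ 0 := by
      rintro rfl
      simp at hv
    have h6 := (mul_eq_zero.mp h5).resolve_left hv0
    obtain ⟨c, hc0', hc⟩ := normalize_vec u hu0
    apply mixed_ne he h h' ((c : ℂ) • u) hc (by rw [dotProduct_smul, heM u huM, smul_zero])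
    have h7 : star u ⬝ᵥ (A *ᵥ u) = a * (star u ⬝ᵥ u) := by
      exact sub_eq_zero.mp h6
    have h8 : star ((c : ℂ) • u) ⬝ᵥ (A *ᵥ ((c : ℂ) • u)) =
        a * (star ((c : ℂ) • u) ⬝ᵥ ((c : ℂ) • u)) := by
      rw [star_smul, Matrix.mulVec_smul, smul_dotProduct, smul_dotProduct, dotProduct_smul,
        dotProduct_smul, h7]
      simp only [smul_eq_mul]
      ring
    rw [h8, hc, mul_one]
  obtain ⟨b, hbR, hbs, hbi⟩ := Submodule.exists_fun_fin_finrank_span_eq ℂ (RegSet A)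
  choose wb hwb hsb hrb using hbR
  have hbM : ∀ i, b i ∈ Submodule.span ℂ (RegSet A) := fun i =>
    Submodule.subset_span ⟨wb i, hwb i, hsb i, hrb i⟩
  obtain ⟨z1, hz1, hpair⟩ := wide_test (k := Module.finrank ℂ (Submodule.span ℂ (RegSet A)) + 1)
    (by omega) A hA (Fin.cons v wb) (Fin.cons (e + u) b) (Fin.cons u b) 0 V hV
    (by
      intro m hm
      have hmM : m ∈ Submodule.span ℂ (RegSet A) := by rw [← hm]; exact hVM _
      exact ⟨hVx _ (hred m hmM).1, hVx _ (hred m hmM).2⟩)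
    (by
      intro i
      refine Fin.cases ?_ (fun i => ?_) i
      · rw [Fin.cons_zero]; exact hVx _ huM
      · rw [Fin.cons_succ]; exact hVx _ (hbM i))
    (by
      intro i
      refine Fin.cases ?_ (fun i => ?_) i
      · intro h0; exact absurd rfl h0
      · intro _
        simp only [Fin.cons_succ]
        exact ⟨trivial, hsb i⟩)
    e (by simp only [Fin.cons_zero]) a a' h h' (fun m => heM _ (hVM m))
    (by rw [Fin.cons_zero]; exact hu0)
    (by simp only [Fin.cons_zero]; rw [Matrix.mulVec_add, hve, huk, add_zero])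
    (by
      intro m hm
      simp only [Fin.cons_zero] at hm ⊢
      exact huniq _ (hVM m) hm)
    t
    (by
      intro r hr
      simp only [Fin.cons_zero] at hr ⊢
      exact (ht r hr).1)
    (by simp only [Fin.cons_zero]; exact hposu)
    (by
      rw [linearIndependent_finCons]
      refine ⟨hbi, ?_⟩
      rw [hbs]
      intro hmem
      have h1 := heM _ hmem
      rw [dotProduct_add, heM u huM, add_zero] at h1
      exact self_ne hse.1 h1)
    (by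
      intro i j
      refine Fin.cases ?_ (fun i => ?_) i
      · refine Fin.cases ?_ (fun j => ?_) j
        · intro h0; exact absurd rfl h0
        · intro _
          simp only [Fin.cons_zero, Fin.cons_succ]
          rcases hcpl (b j) ⟨wb j, hwb j, hsb j, hrb j⟩ with h1 | h1
          · left
            intro h2
            rw [dot_swap, h2, map_zero] at h1
            exact h1 rfl
          · right; right
            exact h1
      · refine Fin.cases ?_ (fun j => ?_) j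
        · intro _
          simp only [Fin.cons_zero, Fin.cons_succ]
          rcases hcpl (b i) ⟨wb i, hwb i, hsb i, hrb i⟩ with h1 | h1
          · exact Or.inl h1
          · exact Or.inr (Or.inl h1)
        · intro _
          simp only [Fin.cons_succ]
          exact coupled A hA ⟨wb i, hwb i, hsb i, hrb i⟩ ⟨wb j, hwb j, hsb j, hrb j⟩)
  obtain ⟨g1, hg1⟩ := eq_case (NN_psd A z1)
    (Fin.cons (e + u) b : Fin (Module.finrank ℂ (Submodule.span ℂ (RegSet A)) + 1) → ι → ℂ) hpair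
  have hMle : Submodule.span ℂ (RegSet A) ≤ Submodule.span ℂ (Set.range
      (Fin.cons (e + u) b : Fin (Module.finrank ℂ (Submodule.span ℂ (RegSet A)) + 1) → ι → ℂ)) := by
    refine (le_of_eq hbs.symm).trans ?_
    rw [Submodule.span_le]
    rintro _ ⟨i, rfl⟩
    apply Submodule.subset_span
    exact ⟨i.succ, by rw [Fin.cons_succ]⟩
  have heS : e ∈ Submodule.span ℂ (Set.range
      (Fin.cons (e + u) b : Fin (Module.finrank ℂ (Submodule.span ℂ (RegSet A)) + 1) → ι → ℂ)) := by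
    have h1 : e + u ∈ Submodule.span ℂ (Set.range
      (Fin.cons (e + u) b : Fin (Module.finrank ℂ (Submodule.span ℂ (RegSet A)) + 1) →
        ι → ℂ)) := Submodule.subset_span ⟨0, by rw [Fin.cons_zero]⟩
    have h2 := Submodule.sub_mem _ h1 (hMle huM)
    rwa [add_sub_cancel_right] at h2
  have hz10 : z1 = z0 := by
    by_contra hz10
    obtain ⟨φ, hφ⟩ : ∃ φ : (ι → ℂ) →ₗ[ℂ] (Fin 2 → ℂ), ∀ m, φ m = ![star g ⬝ᵥ m, star g1 ⬝ᵥ m] := by
      refine ⟨{ toFun := fun m => ![star g ⬝ᵥ m, star g1 ⬝ᵥ m], map_add' := ?_, map_smul' := ?_ },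
        fun m => rfl⟩
      · intro x y
        rw [dotProduct_add, dotProduct_add]
        simp
      · intro c x
        rw [dotProduct_smul, dotProduct_smul]
        simp
    have hker := LinearMap.ker_ne_bot_of_finrank_lt
      (f := φ.comp (Submodule.span ℂ (RegSet A)).subtype) (by
        rw [Module.finrank_fin_fun]
        omega)
    obtain ⟨m, hm, hm0⟩ := (Submodule.ne_bot_iff _).mp hker
    rw [LinearMap.mem_ker, LinearMap.comp_apply, Submodule.subtype_apply, hφ] at hm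
    have h1 : star g ⬝ᵥ (m : ι → ℂ) = 0 := by simpa using congrFun hm 0
    have h2 : star g1 ⬝ᵥ (m : ι → ℂ) = 0 := by simpa using congrFun hm 1
    have hm0' : (m : ι → ℂ) ≠ 0 := fun h0 => hm0 (Subtype.ext h0)
    have k1 : NN A z0 *ᵥ (m : ι → ℂ) = 0 := NN_of_form (by rw [hg _ m.2, h1]; simp)
    have k2 : NN A z1 *ᵥ (m : ι → ℂ) = 0 := NN_of_form (by rw [hg1 _ (hMle m.2), h2]; simp)
    exact hm0' (no_joint_span m.2 (joint_of_two' A c0 hc0 _ hm0' z1 z0 hz1 hz0 hz10 k2 k1))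
  rw [hz10] at hg1
  have hgu1 : star g1 ⬝ᵥ u ≠ 0 := by
    intro h0
    have h1 := hg1 u (hMle huM)
    rw [h0, hg u huM] at h1
    have h2 : ‖star g ⬝ᵥ u‖ ^ 2 = 0 := by rw [h1]; simp
    exact hgu (norm_eq_zero.mp (pow_eq_zero_iff two_ne_zero |>.mp h2))
  obtain ⟨x0, hx0⟩ : ∃ x0, x0 = (star g1 ⬝ᵥ e) • u - (star g1 ⬝ᵥ u) • e := ⟨_, rfl⟩
  have h1 : NN A z0 *ᵥ x0 = 0 := by
    apply NN_of_form
    rw [hg1 x0 (by
      rw [hx0]
      exact Submodule.sub_mem _ (Submodule.smul_mem _ _ (hMle huM)) (Submodule.smul_mem _ _ heS))]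
    have : star g1 ⬝ᵥ x0 = 0 := by
      rw [hx0, dotProduct_sub, dotProduct_smul, dotProduct_smul]
      simp only [smul_eq_mul]
      ring
    rw [this]
    simp
  have h2 : star e ⬝ᵥ (NN A z0 *ᵥ u) = 0 := heM _ (NN_mem huM (hred u huM).1 (hred u huM).2 z0)
  have h3 : star e ⬝ᵥ (NN A z0 *ᵥ e) = 0 := by
    have h4 : star e ⬝ᵥ (NN A z0 *ᵥ x0) = 0 := by rw [h1, dotProduct_zero]
    rw [hx0, Matrix.mulVec_sub, Matrix.mulVec_smul, Matrix.mulVec_smul, dotProduct_sub,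
      dotProduct_smul, dotProduct_smul, h2, smul_zero, zero_sub, neg_eq_zero] at h4
    exact (smul_eq_zero.mp h4).resolve_left hgu1
  exact NN_of_form (by rw [h3, Complex.zero_re])

end Pool.Agent.Helper29X1.ND
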