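import Mathlib
import Pool.Agent.Helper29X1.ND.Wide5
import Pool.Agent.Helper29X1.ND.Poly3
open Matrix Finset Filter Topology
open scoped ComplexOrder

namespace Pool.Agent.Helper29X1.ND

open Pool.Agent.Helper774

theorem forward_wide {n : ℕ} (A : Matrix (Fin n) (Fin n) ℂ) [Nonempty (Fin n)] (hA : FinPropD A)
    (hgen : ∀ w0 : ℂ, ‖w0‖ = 1 → ∀ ε : ℝ, 0 < ε →
      ∃ w : ℂ, ‖w‖ = 1 ∧ ‖w - w0‖ < ε ∧ ∃ x, STop A w x)
    (hdim : 3 ≤ Module.finrank ℂ (Submodule.span ℂ (RegSet A))) :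
    ∃ (k : ℕ) (V : Matrix (Fin n) (Fin k) ℂ), Vᴴ * V = 1 ∧ A * V = V * (Vᴴ * A * V) ∧
      Aᴴ * V = V * (Vᴴ * A * V)ᴴ ∧ MW (Vᴴ * A * V) = MW A ∧
      ∃ w : ℂ, ‖w‖ = 1 ∧ ∃ lam : ℝ,
        ((lam : ℂ) • (1 : Matrix (Fin k) (Fin k) ℂ) - Hu (Vᴴ * A * V) w).PosSemidef ∧
        ((lam : ℂ) • (1 : Matrix (Fin k) (Fin k) ℂ) - Hu (Vᴴ * A * V) w).rank ≤ 1 := by
  have hne : (RegSet A).Nonempty := by
    by_contra hcon
    rw [Set.not_nonempty_iff_eq_empty] at hcon
    rw [hcon, Submodule.span_empty, finrank_bot] at hdim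
    omega
  obtain ⟨w, g0, hw, hred1, hg0⟩ := reg_reducing A hA hgen hne
  have hkill := corner_kill A hA hgen hne hdim w g0 hw hred1 hg0
  obtain ⟨k, V, hV, hVM, hVx⟩ := exists_iso (Submodule.span ℂ (RegSet A ∪ CSet A))
  obtain ⟨k1, V1, hV1, hVM1, hVx1⟩ := exists_iso (Submodule.span ℂ (RegSet A))
  have hrange := range_span2 A hgen
  obtain ⟨g, hgdef⟩ : ∃ g, g = V1 *ᵥ (V1ᴴ *ᵥ g0) := ⟨_, rfl⟩
  have hgM : g ∈ Submodule.span ℂ (RegSet A) := by rw [hgdef]; exact hVM1 _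
  have hCk : ∀ c ∈ Submodule.span ℂ (CSet A), NN A w *ᵥ c = 0 := by
    intro c hc
    induction hc using Submodule.span_induction with
    | mem e he => exact hkill e he
    | zero => simp
    | add p q _ _ hp hq => rw [Matrix.mulVec_add, hp, hq, add_zero]
    | smul s p _ hp => rw [Matrix.mulVec_smul, hp, smul_zero]
  have hsep : ∀ y ∈ Submodule.span ℂ (RegSet A), ∀ m ∈ Submodule.span ℂ (CSet A),
      star y ⬝ᵥ m = 0 := by
    intro y hy m hm
    apply span_perp y _ _ m hm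
    intro e he
    rw [dot_swap, span_perp e _ (fun r hr => csep he hr) y hy, map_zero]
  have hg : ∀ x ∈ Submodule.span ℂ (RegSet A ∪ CSet A),
      (star x ⬝ᵥ (NN A w *ᵥ x)).re = ‖star g ⬝ᵥ x‖ ^ 2 := by
    intro x hx
    rw [Submodule.span_union, Submodule.mem_sup] at hx
    obtain ⟨m, hm, c, hc, rfl⟩ := hx
    have e1 : star (m + c) ⬝ᵥ (NN A w *ᵥ (m + c)) = star m ⬝ᵥ (NN A w *ᵥ m) := by
      rw [Matrix.mulVec_add, hCk c hc, add_zero, star_add, add_dotProduct,
        herm_swap (NN_psd A w).1 c m, hCk c hc, dotProduct_zero, map_zero, add_zero]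
    have e2 : star g ⬝ᵥ (m + c) = star g0 ⬝ᵥ m := by
      rw [dotProduct_add, hsep g hgM c hc, add_zero, hgdef, iso_dot]
      conv_rhs => rw [← hVx1 m hm]
      exact (iso_dot' V1 (V1ᴴ *ᵥ m) g0).symm
    rw [e1, e2, hg0 m hm]
  have hsub : MW A ⊆ MW (Vᴴ * A * V) := by
    intro p hp
    obtain ⟨x, hx, hx1, hxp⟩ := hrange p hp
    refine ⟨Vᴴ *ᵥ x, ?_, ?_⟩
    · rw [← dot_iso V hV, hVx x hx, hx1]
    · rw [quad_iso, hVx x hx, hxp]
  have hq0 : ∀ y : Fin k → ℂ, (w * (star (V *ᵥ y) ⬝ᵥ (A *ᵥ (V *ᵥ y)))).re =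
      supp A w * (star (V *ᵥ y) ⬝ᵥ (V *ᵥ y)).re - ‖star g ⬝ᵥ (V *ᵥ y)‖ ^ 2 := by
    intro y
    have h1 := hg (V *ᵥ y) (hVM y)
    rw [NN_quad, Complex.ofReal_re] at h1
    linarith
  have hgap := gap_of_quad (Vᴴ * A * V) w (supp A w) (Vᴴ *ᵥ g) (by
    intro y
    rw [quad_iso, hq0 y, dot_iso V hV, iso_dot' V y g])
  have hred : ∀ m ∈ Submodule.span ℂ (RegSet A ∪ CSet A),
      A *ᵥ m ∈ Submodule.span ℂ (RegSet A ∪ CSet A) ∧
      Aᴴ *ᵥ m ∈ Submodule.span ℂ (RegSet A ∪ CSet A) := by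
    have hle1 : Submodule.span ℂ (RegSet A) ≤ Submodule.span ℂ (RegSet A ∪ CSet A) :=
      Submodule.span_mono Set.subset_union_left
    intro m hm
    induction hm using Submodule.span_induction with
    | mem e he =>
      rcases he with he | he
      · have h1 := hred1 e (Submodule.subset_span he)
        exact ⟨hle1 h1.1, hle1 h1.2⟩
      · obtain ⟨_, _, hs, a, a', h, h'⟩ := id he
        rw [h, h']
        exact ⟨Submodule.smul_mem _ _ (Submodule.subset_span (Or.inr he)),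
          Submodule.smul_mem _ _ (Submodule.subset_span (Or.inr he))⟩
    | zero => simp
    | add p q _ _ hp hq =>
      rw [Matrix.mulVec_add, Matrix.mulVec_add]
      exact ⟨Submodule.add_mem _ hp.1 hq.1, Submodule.add_mem _ hp.2 hq.2⟩
    | smul s p _ hp =>
      rw [Matrix.mulVec_smul, Matrix.mulVec_smul]
      exact ⟨Submodule.smul_mem _ _ hp.1, Submodule.smul_mem _ _ hp.2⟩
  have hcol : ∀ (C : Matrix (Fin n) (Fin n) ℂ),
      (∀ x ∈ Submodule.span ℂ (RegSet A ∪ CSet A),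
        C *ᵥ x ∈ Submodule.span ℂ (RegSet A ∪ CSet A)) →
      C * V = V * (Vᴴ * C * V) := by
    intro C hC
    apply Matrix.ext_of_mulVec_single
    intro i
    have h1 := hVx _ (hC _ (hVM (Pi.single i 1)))
    rw [← Matrix.mulVec_mulVec, ← Matrix.mulVec_mulVec, ← Matrix.mulVec_mulVec,
      ← Matrix.mulVec_mulVec, h1]
  refine ⟨k, V, hV, hcol A fun x hx => (hred x hx).1, ?_, ?_, w, hw, supp A w, hgap⟩
  · have h1 := hcol Aᴴ fun x hx => (hred x hx).2
    have h2 : (Vᴴ * A * V)ᴴ = Vᴴ * Aᴴ * V := by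
      rw [conjTranspose_mul, conjTranspose_mul, conjTranspose_conjTranspose, Matrix.mul_assoc]
    rw [h2, ← h1]
  · exact Set.Subset.antisymm (MW_compress_subset A V hV) hsub

/-- The numerical range is the closed convex hull of the numerical range of the compression to
the span of the regular vectors and finitely many points. -/
theorem hull_narrow {n : ℕ} (A : Matrix (Fin n) (Fin n) ℂ) [Nonempty (Fin n)]
    (hgen : ∀ w0 : ℂ, ‖w0‖ = 1 → ∀ ε : ℝ, 0 < ε →
      ∃ w : ℂ, ‖w‖ = 1 ∧ ‖w - w0‖ < ε ∧ ∃ x, STop A w x) :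
    ∃ (k : ℕ) (E : Matrix (Fin k) (Fin k) ℂ) (F : Set ℂ),
      k ≤ Module.finrank ℂ (Submodule.span ℂ (RegSet A)) ∧ F.Finite ∧
      MW A = closedConvexHull ℝ (MW E ∪ F) := by
  obtain ⟨k, V, hV, hVM, hVx⟩ := exists_iso (Submodule.span ℂ (RegSet A))
  refine ⟨k, Vᴴ * A * V, {a | ∃ e ∈ CSet A, A *ᵥ e = a • e}, ?_, ?_, ?_⟩
  · have h1 := LinearMap.finrank_le_finrank_of_injective
      (f := V.mulVecLin.codRestrict (Submodule.span ℂ (RegSet A)) (fun y => hVM y)) (by
        intro x y hxy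
        have h2 : V *ᵥ x = V *ᵥ y := congrArg Subtype.val hxy
        have h3 := congrArg (fun z => Vᴴ *ᵥ z) h2
        simp only [Matrix.mulVec_mulVec, hV, Matrix.one_mulVec] at h3
        exact h3)
    rwa [Module.finrank_fin_fun] at h1
  · apply (Module.End.finite_hasEigenvalue A.mulVecLin).subset
    rintro a ⟨e, ⟨_, _, hs, _⟩, he⟩
    exact Module.End.hasEigenvalue_of_hasEigenvector (x := e)
      ⟨Module.End.mem_eigenspace_iff.mpr (by rw [Matrix.mulVecLin_apply, he]), hs.1⟩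
  · apply Set.Subset.antisymm
    · intro p hp
      by_contra hcon
      obtain ⟨f, c, h1, h2⟩ := RCLike.geometric_hahn_banach_closed_point (𝕜 := ℂ)
        convex_closedConvexHull isClosed_closedConvexHull hcon
      have e : ∀ w : ℂ, f w = f 1 * w := by
        intro w
        have : w = w • (1 : ℂ) := by simp
        conv_lhs => rw [this, map_smul]
        rw [smul_eq_mul, mul_comm]
      obtain ⟨v, hv⟩ : ∃ v, v = f 1 := ⟨_, rfl⟩
      have h1' : ∀ q ∈ MW (Vᴴ * A * V) ∪ {a | ∃ e ∈ CSet A, A *ᵥ e = a • e},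
          (v * q).re < c := by
        intro q hq
        have := h1 q (subset_closedConvexHull hq)
        rw [e, ← hv] at this
        exact this
      have h2' : c < (v * p).re := by
        rw [e, ← hv] at h2
        exact h2
      -- the support function at a nearby direction
      have hval : ∀ x ∈ RegSet A ∪ CSet A, star x ⬝ᵥ x = 1 →
          star x ⬝ᵥ (A *ᵥ x) ∈ MW (Vᴴ * A * V) ∪ {a | ∃ e ∈ CSet A, A *ᵥ e = a • e} := by
        intro x hx hx1
        rcases hx with hx | hx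
        · left
          refine ⟨Vᴴ *ᵥ x, ?_, ?_⟩
          · rw [← dot_iso V hV, hVx x (Submodule.subset_span hx), hx1]
          · rw [quad_iso, hVx x (Submodule.subset_span hx)]
        · right
          obtain ⟨_, _, hs, a, a', h, h'⟩ := id hx
          refine ⟨x, hx, ?_⟩
          rw [h, dotProduct_smul, hx1, smul_eq_mul, mul_one]
      have hv0 : v ≠ 0 := by
        rintro rfl
        obtain ⟨w, hw, _, x, hx, hx1, _⟩ := dense_tset A hgen 1 (by simp) 1 one_pos
        have h3 := h1' _ (hval x hx hx1)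
        rw [zero_mul] at h3 h2'
        linarith
      have hvn : 0 < ‖v‖ := norm_pos_iff.mpr hv0
      obtain ⟨w0, hw0⟩ : ∃ w0, w0 = ((‖v‖⁻¹ : ℝ) : ℂ) * v := ⟨_, rfl⟩
      have hw0n : ‖w0‖ = 1 := by
        rw [hw0, norm_mul, Complex.norm_real, norm_inv, norm_norm, inv_mul_cancel₀ hvn.ne']
      have hvw : v = ((‖v‖ : ℝ) : ℂ) * w0 := by
        rw [hw0, ← mul_assoc, ← Complex.ofReal_mul, mul_inv_cancel₀ hvn.ne', Complex.ofReal_one,
          one_mul]
      obtain ⟨s, hs⟩ : ∃ s, s = c / ‖v‖ := ⟨_, rfl⟩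
      have hlt : s < supp A w0 := by
        refine lt_of_lt_of_le ?_ (le_supp A w0 p hp)
        rw [hs, div_lt_iff₀ hvn]
        rw [hvw, mul_assoc, Complex.re_ofReal_mul] at h2'
        have : ‖((‖v‖ : ℝ) : ℂ) * w0‖ = ‖v‖ := by rw [← hvw]
        linarith [mul_comm (w0 * p).re ‖v‖]
      -- closeness through the closed set of directions
      have hbd : ∃ R : ℝ, 0 < R ∧ ∀ q ∈ MW A, ‖q‖ ≤ R := by
        obtain ⟨R, hR⟩ := (MW_isCompact A).isBounded.exists_norm_le
        exact ⟨max R 1, by positivity, fun q hq => (hR q hq).trans (le_max_left _ _)⟩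
      obtain ⟨R, hR0, hR⟩ := hbd
      have hopen : IsOpen {y : ℂ | s < supp A y - ‖y - w0‖ * R} := by
        apply isOpen_lt continuous_const
        exact (supp_continuous A).sub (by fun_prop)
      obtain ⟨ε, hε, hball⟩ := Metric.isOpen_iff.mp hopen w0 (by
        show s < supp A w0 - ‖w0 - w0‖ * R
        rw [sub_self, norm_zero, zero_mul, sub_zero]
        exact hlt)
      obtain ⟨w, hw, hwd, x, hx, hx1, hxs⟩ := dense_tset A hgen w0 hw0n ε hε
      have g1 : s < supp A w - ‖w - w0‖ * R := hball (by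
        rw [Metric.mem_ball, dist_eq_norm]; exact hwd)
      have g2 := (NN_ker A w x).mp (stop_ker_self hxs)
      rw [hx1, Complex.one_re, mul_one] at g2
      have g3 := h1' _ (hval x hx hx1)
      have g4 : (star x ⬝ᵥ (A *ᵥ x)) ∈ MW A := ⟨x, hx1, rfl⟩
      obtain ⟨q, hq⟩ : ∃ q, q = star x ⬝ᵥ (A *ᵥ x) := ⟨_, rfl⟩
      rw [← hq] at g2 g3 g4
      have g5 : (w * q).re ≤ (w0 * q).re + ‖w - w0‖ * R := by
        have k1 : w * q = w0 * q + (w - w0) * q := by ring
        rw [k1, Complex.add_re]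
        have k2 := Complex.re_le_norm ((w - w0) * q)
        rw [norm_mul] at k2
        have k3 := mul_le_mul_of_nonneg_left (hR q g4) (norm_nonneg (w - w0))
        linarith
      have g6 : (w0 * q).re < s := by
        rw [hs, lt_div_iff₀ hvn]
        rw [hvw, mul_assoc, Complex.re_ofReal_mul] at g3
        have : ‖((‖v‖ : ℝ) : ℂ) * w0‖ = ‖v‖ := by rw [← hvw]
        linarith [mul_comm (w0 * q).re ‖v‖]
      linarith
    · apply closedConvexHull_min _ (MW_convex A) (MW_isCompact A).isClosed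
      apply Set.union_subset (MW_compress_subset A V hV)
      rintro a ⟨e, ⟨_, _, hs, _⟩, he⟩
      exact joint_mem hs.1 he

end Pool.Agent.Helper29X1.ND
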